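import Pool.Agent.F5H.StmtsC

/-!
MP_f5cbfa_nt, squad F5H, F2 (push-forward), part a: transfer of the norm field from a point near
the cone to the exact point, in the frame.
-/

set_option autoImplicit false

open Complex ComplexConjugate

namespace Pool.Agent.F5H.F2

open Pool.Agent.F5H.BC

open Pool.Agent.Helper68_F5

/-- The norm field bound in the frame. -/
def NBF (P κ κr T : ℝ) (H M K : Fin 3 → ℂ) : Prop :=
  ∀ (B : ℝ × ℝ × ℝ) (v w : Fin 3 → ℂ) (ν : ℝ),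
    (∀ l, bf B (M l) (M l) + bf B (H l) (H l) / 4 = -(2 * sp (M l) (v l))) →
    (∀ l, v l = (ν : ℂ) * M l + w l) →
    |∑ l, sp (K l) (v l)| ≤ P * ((∑ i, ∑ j, |(sp (v i) (H i) + bf B (M i) (H i)) -
      (sp (v j) (H j) + bf B (M j) (H j))|) + κ * (∑ l, ‖w l‖) + κr * T * |ν|)

theorem norm3 (D : ℝ × ℝ × ℝ) {c : ℝ} (h1 : |D.1| ≤ c) (h2 : |D.2.1| ≤ c) (h3 : |D.2.2| ≤ c) :
    ‖D‖ ≤ c := by
  simp only [Prod.norm_def, Real.norm_eq_abs, sup_le_iff]
  exact ⟨h1, h2, h3⟩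

theorem le_norm3 (D : ℝ × ℝ × ℝ) : |D.1| ≤ ‖D‖ ∧ |D.2.1| ≤ ‖D‖ ∧ |D.2.2| ≤ ‖D‖ := by
  simp only [Prod.norm_def, Real.norm_eq_abs]
  exact ⟨le_sup_left, le_trans le_sup_left le_sup_right, le_trans le_sup_right le_sup_right⟩

theorem bf_le (D : ℝ × ℝ × ℝ) (x y : ℂ) : |bf D x y| ≤ 4 * ‖D‖ * (‖x‖ * ‖y‖) := by
  obtain ⟨h1, h2, h3⟩ := le_norm3 D
  have a1 := abs_re_le_norm x
  have a2 := abs_im_le_norm x
  have b1 := abs_re_le_norm y
  have b2 := abs_im_le_norm y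
  have hD : 0 ≤ ‖D‖ := norm_nonneg _
  have pr : ∀ d s t : ℝ, |d| ≤ ‖D‖ → |s| ≤ ‖x‖ → |t| ≤ ‖y‖ →
      |d * (s * t)| ≤ ‖D‖ * (‖x‖ * ‖y‖) := by
    intro d s t hd hs ht
    rw [abs_mul, abs_mul]
    exact mul_le_mul hd (mul_le_mul hs ht (abs_nonneg _) (norm_nonneg _)) (by positivity) hD
  have e1 := pr _ _ _ h1 a1 b1
  have e2 := pr _ _ _ h2 a1 b2
  have e3 := pr _ _ _ h2 a2 b1
  have e4 := pr _ _ _ h3 a2 b2
  have : bf D x y = D.1 * (x.re * y.re) + D.2.1 * (x.re * y.im) + D.2.1 * (x.im * y.re) +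
      D.2.2 * (x.im * y.im) := by
    simp only [bf]; ring
  rw [this]
  refine le_trans (abs_add_le _ _) ?_
  have := abs_add_le (D.1 * (x.re * y.re) + D.2.1 * (x.re * y.im)) (D.2.1 * (x.im * y.re))
  have := abs_add_le (D.1 * (x.re * y.re)) (D.2.1 * (x.re * y.im))
  linarith

theorem apriori {T P : ℝ} {M H : Fin 3 → ℂ} (hP : 1 ≤ P) (hT : 0 < T)
    (hM : ∀ l, T / 2 ≤ ‖M l‖) (hs : ∀ i j, i ≠ j → ‖M i‖ * ‖M j‖ ≤ P * |wd (M i) (M j)|)
    (hH : ∀ l, 96 * P ^ 2 * ‖H l‖ ^ 2 ≤ T ^ 2) {D : ℝ × ℝ × ℝ} {F : ℝ}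
    (hf : ∀ l, |bf D (M l) (M l) + bf D (H l) (H l) / 4| ≤ F) :
    ‖D‖ ≤ 24 * P ^ 2 * F / T ^ 2 := by
  have hT2 : 0 < T ^ 2 := by positivity
  have hP2 : 0 < P ^ 2 := by positivity
  have hD : 0 ≤ ‖D‖ := norm_nonneg _
  obtain ⟨g, hg⟩ : ∃ g : ℝ, g = F + ‖D‖ * (T ^ 2 / (96 * P ^ 2)) := ⟨_, rfl⟩
  have hgl : ∀ l, |bf D (M l) (M l)| ≤ g := by
    intro l
    have h1 := bf_le D (H l) (H l)
    have h2 : ‖H l‖ ^ 2 ≤ T ^ 2 / (96 * P ^ 2) := by
      rw [le_div_iff₀ (by positivity)]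
      linarith [hH l]
    have h3 : |bf D (H l) (H l) / 4| ≤ ‖D‖ * (T ^ 2 / (96 * P ^ 2)) := by
      rw [abs_div, abs_of_pos (by norm_num : (0:ℝ) < 4), div_le_iff₀ (by norm_num)]
      calc |bf D (H l) (H l)| ≤ 4 * ‖D‖ * (‖H l‖ * ‖H l‖) := h1
        _ = 4 * (‖D‖ * ‖H l‖ ^ 2) := by ring
        _ ≤ 4 * (‖D‖ * (T ^ 2 / (96 * P ^ 2))) := by
          have := mul_le_mul_of_nonneg_left h2 hD
          linarith
        _ = _ := by ring
    have h4 : bf D (M l) (M l) = (bf D (M l) (M l) + bf D (H l) (H l) / 4) -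
        bf D (H l) (H l) / 4 := by ring
    rw [h4, hg]
    refine le_trans (abs_sub _ _) ?_
    linarith [hf l]
  have hg0 : 0 ≤ g := le_trans (abs_nonneg _) (hgl 0)
  have hgm : ∀ l, |bf D (M l) (M l)| ≤ (4 * g / T ^ 2) * ‖M l‖ ^ 2 := by
    intro l
    refine le_trans (hgl l) ?_
    have h1 : T ^ 2 / 4 ≤ ‖M l‖ ^ 2 := by
      have := hM l
      have := pow_le_pow_left₀ (by positivity) this 2
      linarith [show (T / 2) ^ 2 = T ^ 2 / 4 by ring]
    calc g = 4 * g / T ^ 2 * (T ^ 2 / 4) := by field_simp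
      _ ≤ _ := mul_le_mul_of_nonneg_left h1 (by positivity)
  have hne : ∀ l, M l ≠ 0 := by
    intro l h
    have := hM l
    rw [h, norm_zero] at this
    linarith
  have key := int_bound D (M 0) (M 1) (M 2) (P := P) (by linarith) (hne 0) (hne 1) (hne 2)
    (hs 0 1 (by decide)) (hs 1 2 (by decide)) (hs 2 0 (by decide)) (hgm 0) (hgm 1) (hgm 2)
  have hn1 : ‖(1 : ℂ)‖ = 1 := norm_one
  have hnI : ‖(I : ℂ)‖ = 1 := norm_I
  have k1 := key 1 1
  have k2 := key 1 I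
  have k3 := key I I
  rw [hn1] at k1 k2
  rw [hnI] at k2 k3
  have e1 : bf D 1 1 = D.1 := by simp [bf]
  have e2 : bf D 1 I = D.2.1 := by simp [bf]
  have e3 : bf D I I = D.2.2 := by simp [bf]
  rw [e1] at k1
  rw [e2] at k2
  rw [e3] at k3
  have hb := norm3 D k1 k2 k3
  have h5 : P ^ 2 * (4 * g / T ^ 2 + 4 * g / T ^ 2 + 4 * g / T ^ 2) * (1 * 1) =
      12 * P ^ 2 * F / T ^ 2 + ‖D‖ / 8 := by
    rw [hg]; field_simp; ring
  rw [h5] at hb
  have h6 : 24 * P ^ 2 * F / T ^ 2 = 2 * (12 * P ^ 2 * F / T ^ 2) := by ring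
  rw [h6]
  linarith

/-- solution of the linear system with a bound -/
theorem solve {T P : ℝ} {M H : Fin 3 → ℂ} (hP : 1 ≤ P) (hT : 0 < T)
    (hM : ∀ l, T / 2 ≤ ‖M l‖) (hs : ∀ i j, i ≠ j → ‖M i‖ * ‖M j‖ ≤ P * |wd (M i) (M j)|)
    (hH : ∀ l, 96 * P ^ 2 * ‖H l‖ ^ 2 ≤ T ^ 2) (f : Fin 3 → ℝ) {F : ℝ} (hf : ∀ l, |f l| ≤ F) :
    ∃ D : ℝ × ℝ × ℝ, (∀ l, bf D (M l) (M l) + bf D (H l) (H l) / 4 = f l) ∧
      ‖D‖ ≤ 24 * P ^ 2 * F / T ^ 2 := by
  let L : (ℝ × ℝ × ℝ) →ₗ[ℝ] (Fin 3 → ℝ) :=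
    { toFun := fun D l => bf D (M l) (M l) + bf D (H l) (H l) / 4
      map_add' := by
        intro x y; ext l
        simp only [bf_add_left, Pi.add_apply]; ring
      map_smul' := by
        intro t x; ext l
        simp only [bf_smul, Pi.smul_apply, smul_eq_mul, RingHom.id_apply]; ring }
  have hinj : Function.Injective L := by
    rw [injective_iff_map_eq_zero]
    intro D hD
    have h1 : ∀ l, |bf D (M l) (M l) + bf D (H l) (H l) / 4| ≤ 0 := by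
      intro l
      have : L D l = 0 := by rw [hD]; rfl
      have h2 : bf D (M l) (M l) + bf D (H l) (H l) / 4 = 0 := this
      rw [h2, abs_zero]
    have h3 := apriori hP hT hM hs hH h1
    rw [mul_zero, zero_div] at h3
    exact norm_le_zero_iff.1 h3
  have hfr : Module.finrank ℝ (ℝ × ℝ × ℝ) = Module.finrank ℝ (Fin 3 → ℝ) := by
    simp
  have hsur := (LinearMap.injective_iff_surjective_of_finrank_eq_finrank hfr).1 hinj
  obtain ⟨D, hD⟩ := hsur f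
  have h1 : ∀ l, bf D (M l) (M l) + bf D (H l) (H l) / 4 = f l := fun l => congrFun hD l
  refine ⟨D, h1, apriori hP hT hM hs hH fun l => ?_⟩
  rw [h1 l]
  exact hf l

theorem bf_zero_left (x y : ℂ) : bf 0 x y = 0 := by simp [bf]

/-- transfer of a test vector from the exact point `M'` to the point `M` -/
theorem trf {T P κ κr δ β η V : ℝ} {M M' H K : Fin 3 → ℂ} (hP : 1 ≤ P) (hT : 0 < T)
    (hM : ∀ l, T / 2 ≤ ‖M l‖) (hM1 : ∀ l, ‖M l‖ ≤ T) (hM2 : ∀ l, ‖M' l‖ ≤ T)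
    (hs : ∀ i j, i ≠ j → ‖M i‖ * ‖M j‖ ≤ P * |wd (M i) (M j)|)
    (hH : ∀ l, 96 * P ^ 2 * ‖H l‖ ^ 2 ≤ T ^ 2) (hV : ∀ l, ‖H l‖ ≤ V)
    (hd : ∀ l, ‖M l - M' l‖ ≤ δ) (hN : NBF P κ κr T H M K)
    {B : ℝ × ℝ × ℝ} {v w : Fin 3 → ℂ} {ν : ℝ}
    (hB : ∀ l, bf B (M' l) (M' l) + bf B (H l) (H l) / 4 = -(2 * sp (M' l) (v l)))
    (hv : ∀ l, v l = (ν : ℂ) * M l + w l) (hβ : ‖B‖ ≤ β) (hη : ∀ l, ‖v l‖ ≤ η) :
    |∑ l, sp (K l) (v l)| ≤ P * ((∑ i, ∑ j, |(sp (v i) (H i) + bf B (M' i) (H i)) -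
      (sp (v j) (H j) + bf B (M' j) (H j))|) + 18000 * P ^ 2 * δ * V * (β + η / T) +
      κ * (∑ l, ‖w l‖) + κr * T * |ν|) := by
  have hδ : 0 ≤ δ := le_trans (norm_nonneg _) (hd 0)
  have hη0 : 0 ≤ η := le_trans (norm_nonneg _) (hη 0)
  have hβ0 : 0 ≤ β := le_trans (norm_nonneg _) hβ
  have hV0 : 0 ≤ V := le_trans (norm_nonneg _) (hV 0)
  obtain ⟨f, hf⟩ : ∃ f : Fin 3 → ℝ, f = fun l => -(2 * sp (M l - M' l) (v l)) -
    (bf B (M l) (M l) - bf B (M' l) (M' l)) := ⟨_, rfl⟩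
  have hfl : ∀ l, |f l| ≤ 2 * δ * η + 8 * β * δ * T := by
    intro l
    have h1 : |sp (M l - M' l) (v l)| ≤ δ * η :=
      (abs_sp_le _ _).trans (mul_le_mul (hd l) (hη l) (norm_nonneg _) hδ)
    have h2 : bf B (M l) (M l) - bf B (M' l) (M' l) =
        bf B (M l - M' l) (M l) + bf B (M' l) (M l - M' l) := by
      rw [bf_sub', bf_sub]; ring
    have h3 : |bf B (M l - M' l) (M l)| ≤ 4 * β * (δ * T) := by
      refine (bf_le _ _ _).trans ?_
      exact mul_le_mul (by linarith) (mul_le_mul (hd l) (hM1 l) (norm_nonneg _) hδ)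
        (by positivity) (by positivity)
    have h4 : |bf B (M' l) (M l - M' l)| ≤ 4 * β * (δ * T) := by
      refine (bf_le _ _ _).trans ?_
      rw [mul_comm ‖M' l‖]
      exact mul_le_mul (by linarith) (mul_le_mul (hd l) (hM2 l) (norm_nonneg _) hδ)
        (by positivity) (by positivity)
    have h5 : |bf B (M l) (M l) - bf B (M' l) (M' l)| ≤ 8 * β * δ * T := by
      rw [h2]
      refine (abs_add_le _ _).trans ?_
      linarith
    rw [hf]
    refine (abs_sub _ _).trans ?_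
    rw [abs_neg, abs_mul, abs_two]
    linarith
  obtain ⟨D, hD1, hD2⟩ := solve hP hT hM hs hH f hfl
  have hBD : ∀ l, bf (B + D) (M l) (M l) + bf (B + D) (H l) (H l) / 4 =
      -(2 * sp (M l) (v l)) := by
    intro l
    have h1 := hD1 l
    have h2 := hB l
    rw [hf] at h1
    simp only at h1
    rw [bf_add_left, bf_add_left]
    rw [sp_sub'] at h1
    linarith
  have key := hN (B + D) v w ν hBD hv
  have hg : ∀ l, |(sp (v l) (H l) + bf (B + D) (M l) (H l)) -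
      (sp (v l) (H l) + bf B (M' l) (H l))| ≤ 1000 * P ^ 2 * δ * V * (β + η / T) := by
    intro l
    have h1 : (sp (v l) (H l) + bf (B + D) (M l) (H l)) - (sp (v l) (H l) + bf B (M' l) (H l)) =
        bf B (M l - M' l) (H l) + bf D (M l) (H l) := by
      rw [bf_add_left, bf_sub']; ring
    have h2 : |bf B (M l - M' l) (H l)| ≤ 4 * β * (δ * V) := by
      refine (bf_le _ _ _).trans ?_
      exact mul_le_mul (by linarith) (mul_le_mul (hd l) (hV l) (norm_nonneg _) hδ)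
        (by positivity) (by positivity)
    have h3 : |bf D (M l) (H l)| ≤ 4 * (24 * P ^ 2 * (2 * δ * η + 8 * β * δ * T) / T ^ 2) *
        (T * V) := by
      refine (bf_le _ _ _).trans ?_
      exact mul_le_mul (by linarith) (mul_le_mul (hM1 l) (hV l) (norm_nonneg _) hT.le)
        (by positivity) (by positivity)
    have h4 : 4 * (24 * P ^ 2 * (2 * δ * η + 8 * β * δ * T) / T ^ 2) * (T * V) =
        192 * P ^ 2 * δ * V * (η / T) + 768 * P ^ 2 * δ * V * β := by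
      field_simp; ring
    rw [h1]
    refine (abs_add_le _ _).trans ?_
    have h5 : 4 * β * (δ * V) ≤ 4 * P ^ 2 * δ * V * β := by
      have : 1 ≤ P ^ 2 := one_le_pow₀ hP
      have h6 : 0 ≤ β * (δ * V) := by positivity
      nlinarith
    have h6 : 0 ≤ P ^ 2 * δ * V * (η / T) := by positivity
    have h7 : 0 ≤ P ^ 2 * δ * V * β := by positivity
    nlinarith
  have hsum : (∑ i, ∑ j, |(sp (v i) (H i) + bf (B + D) (M i) (H i)) -
      (sp (v j) (H j) + bf (B + D) (M j) (H j))|) ≤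
      (∑ i, ∑ j, |(sp (v i) (H i) + bf B (M' i) (H i)) -
      (sp (v j) (H j) + bf B (M' j) (H j))|) + 18000 * P ^ 2 * δ * V * (β + η / T) := by
    have h1 : ∀ i j : Fin 3, |(sp (v i) (H i) + bf (B + D) (M i) (H i)) -
        (sp (v j) (H j) + bf (B + D) (M j) (H j))| ≤
        |(sp (v i) (H i) + bf B (M' i) (H i)) - (sp (v j) (H j) + bf B (M' j) (H j))| +
          2000 * P ^ 2 * δ * V * (β + η / T) := by
      intro i j
      have a1 := hg i
      have a2 := hg j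
      have e : (sp (v i) (H i) + bf (B + D) (M i) (H i)) -
        (sp (v j) (H j) + bf (B + D) (M j) (H j)) =
        ((sp (v i) (H i) + bf B (M' i) (H i)) - (sp (v j) (H j) + bf B (M' j) (H j))) +
        (((sp (v i) (H i) + bf (B + D) (M i) (H i)) - (sp (v i) (H i) + bf B (M' i) (H i))) -
        ((sp (v j) (H j) + bf (B + D) (M j) (H j)) - (sp (v j) (H j) + bf B (M' j) (H j)))) := by
        ring
      rw [e]
      refine (abs_add_le _ _).trans ?_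
      have := abs_sub ((sp (v i) (H i) + bf (B + D) (M i) (H i)) -
        (sp (v i) (H i) + bf B (M' i) (H i))) ((sp (v j) (H j) + bf (B + D) (M j) (H j)) -
        (sp (v j) (H j) + bf B (M' j) (H j)))
      linarith
    refine (Finset.sum_le_sum fun i _ => Finset.sum_le_sum fun j _ => h1 i j).trans ?_
    simp only [Finset.sum_add_distrib, Finset.sum_const, Finset.card_univ, Fintype.card_fin,
      nsmul_eq_mul]
    push_cast
    linarith
  refine key.trans (mul_le_mul_of_nonneg_left ?_ (by linarith))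
  linarith

end Pool.Agent.F5H.F2
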