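import Pool.Agent.Helper36_F5H.F2a

/-!
MP_f5cbfa_nt, squad F5H, F2 (push-forward), part b: the exact point near a point of the slab.
-/

set_option autoImplicit false

open Complex ComplexConjugate

namespace Pool.Agent.F5H.F2

open Pool.Agent.F5H.BC

open Pool.Agent.Helper68_F5

theorem sp_eq (z w : ℂ) : sp z w = (conj z * w).re := by
  simp [sp]

theorem wd_eq (z w : ℂ) : wd z w = (conj z * w).im := by
  simp [wd]; ring

theorem rh_bounds {T : ℝ} (hT : 0 < T) {z : ℂ} (hz : ‖z‖ ≤ T) :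
    T / 2 ≤ rh T z ∧ rh T z ≤ T ∧ rh T z ^ 2 = T ^ 2 - ‖z‖ ^ 2 / 4 := by
  have h1 : ‖z‖ ^ 2 ≤ T ^ 2 := pow_le_pow_left₀ (norm_nonneg _) hz 2
  have h0 : 0 ≤ ‖z‖ ^ 2 := by positivity
  have hT2 : 0 < T ^ 2 := by positivity
  unfold rh
  refine ⟨?_, ?_, ?_⟩
  · apply Real.le_sqrt_of_sq_le
    nlinarith
  · rw [Real.sqrt_le_left hT.le]
    linarith
  · rw [Real.sq_sqrt]
    linarith

theorem unit_rep {u H : ℂ} (hH : H ≠ 0) :
    u = H / (‖H‖ : ℂ) * ((((conj u * H).re / ‖H‖ : ℝ) : ℂ) +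
      ((-(conj u * H).im / ‖H‖ : ℝ) : ℂ) * I) := by
  have hn : (‖H‖ : ℂ) ≠ 0 := by
    rw [Ne, ofReal_eq_zero]; exact norm_ne_zero_iff.2 hH
  have h1 : (((conj u * H).re : ℝ) : ℂ) - (((conj u * H).im : ℝ) : ℂ) * I = u * conj H := by
    have h2 : conj (conj u * H) = u * conj H := by rw [map_mul, conj_conj]
    rw [← h2]
    apply Complex.ext
    · simp
    · simp; ring
  have h3 : H * conj H = (‖H‖ : ℂ) ^ 2 := by
    rw [mul_conj, normSq_eq_norm_sq]; push_cast; ring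
  push_cast
  have h4 : (((conj u * H).re : ℝ) : ℂ) / (‖H‖ : ℂ) + -(((conj u * H).im : ℝ) : ℂ) / (‖H‖ : ℂ) * I
      = (u * conj H) / (‖H‖ : ℂ) := by
    rw [← h1]; ring
  rw [h4]
  have h5 : H / (‖H‖ : ℂ) * (u * conj H / (‖H‖ : ℂ)) = u * (H * conj H) / (‖H‖ : ℂ) ^ 2 := by
    ring
  rw [h5, h3]
  field_simp

theorem sqrt_lip {c c' : ℝ} (hc : |c| ≤ 1 / 2) (hc' : |c'| ≤ 1 / 2) :
    |√(1 - c ^ 2) - √(1 - c' ^ 2)| ≤ |c - c'| := by
  have h1 : c ^ 2 ≤ 1 / 4 := by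
    have := pow_le_pow_left₀ (abs_nonneg c) hc 2
    rw [sq_abs] at this; linarith [show ((1:ℝ) / 2) ^ 2 = 1 / 4 by norm_num]
  have h2 : c' ^ 2 ≤ 1 / 4 := by
    have := pow_le_pow_left₀ (abs_nonneg c') hc' 2
    rw [sq_abs] at this; linarith [show ((1:ℝ) / 2) ^ 2 = 1 / 4 by norm_num]
  obtain ⟨a, ha⟩ : ∃ a : ℝ, a = √(1 - c ^ 2) := ⟨_, rfl⟩
  obtain ⟨b, hb⟩ : ∃ b : ℝ, b = √(1 - c' ^ 2) := ⟨_, rfl⟩
  have ha1 : 1 / 2 ≤ a := by
    rw [ha]; apply Real.le_sqrt_of_sq_le; linarith [show ((1:ℝ) / 2) ^ 2 = 1 / 4 by norm_num]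
  have hb1 : 1 / 2 ≤ b := by
    rw [hb]; apply Real.le_sqrt_of_sq_le; linarith [show ((1:ℝ) / 2) ^ 2 = 1 / 4 by norm_num]
  have ha2 : a ^ 2 = 1 - c ^ 2 := by rw [ha, Real.sq_sqrt]; linarith
  have hb2 : b ^ 2 = 1 - c' ^ 2 := by rw [hb, Real.sq_sqrt]; linarith
  rw [← ha, ← hb]
  have h3 : |a - b| * (a + b) = |c - c'| * |c + c'| := by
    have : |a - b| * (a + b) = |(a - b) * (a + b)| := by
      rw [abs_mul, abs_of_pos (by linarith : 0 < a + b)]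
    rw [this, ← abs_mul, ← abs_neg]
    congr 1
    nlinarith
  have h4 : |c + c'| ≤ 1 := (abs_add_le _ _).trans (by linarith)
  have h5 : |a - b| * 1 ≤ |a - b| * (a + b) :=
    mul_le_mul_of_nonneg_left (by linarith) (abs_nonneg _)
  have h6 : |c - c'| * |c + c'| ≤ |c - c'| * 1 := mul_le_mul_of_nonneg_left h4 (abs_nonneg _)
  linarith

/-- the explicit direction with radial component `t` of `H` and sign `ep` -/
noncomputable def wv (H : ℂ) (t ep : ℝ) : ℂ :=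
  H / (‖H‖ : ℂ) * (((t / ‖H‖ : ℝ) : ℂ) + ((ep * √(1 - (t / ‖H‖) ^ 2) : ℝ) : ℂ) * I)

theorem norm_hat {H : ℂ} (hH : H ≠ 0) : ‖H / (‖H‖ : ℂ)‖ = 1 := by
  rw [norm_div, norm_real, norm_norm]
  exact div_self (norm_ne_zero_iff.2 hH)

theorem norm_xy (x y : ℝ) : ‖(x : ℂ) + (y : ℂ) * I‖ ≤ |x| + |y| := by
  refine (norm_add_le _ _).trans ?_
  rw [norm_mul, norm_I, mul_one, norm_real, norm_real, Real.norm_eq_abs, Real.norm_eq_abs]

theorem wv_norm {H : ℂ} (hH : H ≠ 0) {t ep : ℝ} (ht : |t / ‖H‖| ≤ 1) (he : ep ^ 2 = 1) :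
    ‖wv H t ep‖ = 1 := by
  unfold wv
  rw [norm_mul, norm_hat hH, one_mul]
  have h1 : (t / ‖H‖) ^ 2 ≤ 1 := by
    have := pow_le_pow_left₀ (abs_nonneg _) ht 2
    rwa [sq_abs, one_pow] at this
  have h2 : ‖(((t / ‖H‖ : ℝ) : ℂ) + ((ep * √(1 - (t / ‖H‖) ^ 2) : ℝ) : ℂ) * I)‖ ^ 2 = 1 := by
    rw [← normSq_eq_norm_sq, normSq_add_mul_I, mul_pow, he, Real.sq_sqrt (by linarith)]
    ring
  have h3 := norm_nonneg (((t / ‖H‖ : ℝ) : ℂ) + ((ep * √(1 - (t / ‖H‖) ^ 2) : ℝ) : ℂ) * I)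
  nlinarith

theorem wv_mul {H : ℂ} (hH : H ≠ 0) (t ep : ℝ) :
    conj (wv H t ep) * H = ((t : ℝ) : ℂ) - ((ep * √(1 - (t / ‖H‖) ^ 2) * ‖H‖ : ℝ) : ℂ) * I := by
  have hn : (‖H‖ : ℂ) ≠ 0 := by
    rw [Ne, ofReal_eq_zero]; exact norm_ne_zero_iff.2 hH
  have h3 : conj H * H = (‖H‖ : ℂ) ^ 2 := by
    rw [mul_comm, mul_conj, normSq_eq_norm_sq]; push_cast; ring
  unfold wv
  rw [map_mul, map_div₀, map_add, map_mul, conj_ofReal, conj_ofReal, conj_ofReal, conj_I]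
  have h5 : conj H / (‖H‖ : ℂ) * (((t / ‖H‖ : ℝ) : ℂ) +
      ((ep * √(1 - (t / ‖H‖) ^ 2) : ℝ) : ℂ) * -I) * H =
      (conj H * H) / (‖H‖ : ℂ) * (((t / ‖H‖ : ℝ) : ℂ) -
      ((ep * √(1 - (t / ‖H‖) ^ 2) : ℝ) : ℂ) * I) := by ring
  rw [h5, h3]
  push_cast
  field_simp

theorem wv_re {H : ℂ} (hH : H ≠ 0) (t ep : ℝ) : (conj (wv H t ep) * H).re = t := by
  rw [wv_mul hH]; simp

theorem wv_im {H : ℂ} (hH : H ≠ 0) (t ep : ℝ) :
    (conj (wv H t ep) * H).im = -(ep * √(1 - (t / ‖H‖) ^ 2) * ‖H‖) := by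
  rw [wv_mul hH]; simp

theorem wv_im_ge {H : ℂ} (hH : H ≠ 0) {t ep : ℝ} (ht : |t / ‖H‖| ≤ 1 / 2) (he : ep ^ 2 = 1) :
    ‖H‖ / 2 ≤ |(conj (wv H t ep) * H).im| := by
  have hn : 0 < ‖H‖ := norm_pos_iff.2 hH
  rw [wv_im hH, abs_neg, abs_mul, abs_mul, abs_of_pos hn]
  have h1 : |ep| = 1 := by
    rw [← sq_abs] at he
    have := abs_nonneg ep
    nlinarith
  have h2 : (t / ‖H‖) ^ 2 ≤ 1 / 4 := by
    have := pow_le_pow_left₀ (abs_nonneg _) ht 2
    rw [sq_abs] at this; linarith [show ((1:ℝ) / 2) ^ 2 = 1 / 4 by norm_num]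
  have h3 : 1 / 2 ≤ √(1 - (t / ‖H‖) ^ 2) := by
    apply Real.le_sqrt_of_sq_le; linarith [show ((1:ℝ) / 2) ^ 2 = 1 / 4 by norm_num]
  rw [h1, one_mul, abs_of_pos (by linarith)]
  nlinarith

theorem wv_close {u H : ℂ} (hu : ‖u‖ = 1) (hH : H ≠ 0) {t' ep : ℝ}
    (ht : |(conj u * H).re / ‖H‖| ≤ 1 / 2) (ht' : |t' / ‖H‖| ≤ 1 / 2) (he : ep ^ 2 = 1)
    (hs : ep * (conj u * H).im ≤ 0) :
    ‖u - wv H t' ep‖ ≤ 2 * (|(conj u * H).re - t'| / ‖H‖) := by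
  have hn : 0 < ‖H‖ := norm_pos_iff.2 hH
  obtain ⟨c, hc⟩ : ∃ c : ℝ, c = (conj u * H).re / ‖H‖ := ⟨_, rfl⟩
  obtain ⟨c', hc'⟩ : ∃ c' : ℝ, c' = t' / ‖H‖ := ⟨_, rfl⟩
  have h1 : |ep| = 1 := by
    have he' := he
    rw [← sq_abs] at he'
    have := abs_nonneg ep
    nlinarith
  -- the imaginary part
  have h2 : ((conj u * H).re) ^ 2 + ((conj u * H).im) ^ 2 = ‖H‖ ^ 2 := by
    have h3 : ‖conj u * H‖ ^ 2 = ‖H‖ ^ 2 := by rw [norm_mul, norm_conj, hu, one_mul]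
    rw [← h3, ← normSq_eq_norm_sq, normSq_apply]; ring
  have h4 : -(conj u * H).im / ‖H‖ = ep * √(1 - c ^ 2) := by
    have h5 : √(1 - c ^ 2) = |(conj u * H).im| / ‖H‖ := by
      have : 1 - c ^ 2 = (|(conj u * H).im| / ‖H‖) ^ 2 := by
        rw [hc, div_pow, div_pow, sq_abs]
        field_simp
        linarith
      rw [this, Real.sqrt_sq (by positivity)]
    rw [h5]
    have h6 : ep * |(conj u * H).im| = -(conj u * H).im := by
      have h7 : |ep * (conj u * H).im| = |(conj u * H).im| := by rw [abs_mul, h1, one_mul]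
      rw [abs_of_nonpos hs] at h7
      rw [← h7]
      have : ep * -(ep * (conj u * H).im) = -(ep ^ 2 * (conj u * H).im) := by ring
      rw [this, he, one_mul]
    rw [mul_div_assoc', h6]
  have h8 : u - wv H t' ep = H / (‖H‖ : ℂ) * (((c - c' : ℝ) : ℂ) +
      ((ep * (√(1 - c ^ 2) - √(1 - c' ^ 2)) : ℝ) : ℂ) * I) := by
    have h9 := unit_rep (u := u) hH
    rw [h4, ← hc] at h9
    unfold wv
    rw [← hc']
    calc u - H / (‖H‖ : ℂ) * (((c' : ℝ) : ℂ) + ((ep * √(1 - c' ^ 2) : ℝ) : ℂ) * I)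
        = H / (‖H‖ : ℂ) * (((c : ℝ) : ℂ) + ((ep * √(1 - c ^ 2) : ℝ) : ℂ) * I) -
          H / (‖H‖ : ℂ) * (((c' : ℝ) : ℂ) + ((ep * √(1 - c' ^ 2) : ℝ) : ℂ) * I) := by
          rw [← h9]
      _ = _ := by push_cast; ring
  rw [h8, norm_mul, norm_hat hH, one_mul]
  refine (norm_xy _ _).trans ?_
  rw [abs_mul, h1, one_mul]
  have h10 := sqrt_lip (c := c) (c' := c') (by rw [hc]; exact ht) (by rw [hc']; exact ht')
  have h11 : |c - c'| = |(conj u * H).re - t'| / ‖H‖ := by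
    rw [hc, hc', ← sub_div, abs_div, abs_of_pos hn]
  rw [← h11]
  linarith

/-- data of a point in the slab, in the frame -/
structure FR (T P : ℝ) (H u : Fin 3 → ℂ) : Prop where
  hu : ∀ l, ‖u l‖ = 1
  lo : ∀ l, 1 ≤ P * ‖H l‖
  hi : ∀ l, ‖H l‖ ≤ P * Lx T
  big : ∀ l, l ≠ 2 → T ^ (677 / 2000 : ℝ) ≤ P * ‖H l‖
  srt : Srt H
  slab : ∀ l, |rh T (H l) * sp (u l) (H l) - rh T (H 2) * sp (u 2) (H 2)| ≤ P
  win : ∀ l, |rh T (H l) * sp (u l) (H l)| ≤ P * Rx T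
  sep : ∀ i j, i ≠ j → 1 ≤ P * |wd (u i) (u j)|

/-- numerical facts -/
structure NU (T P : ℝ) (n : ℕ) : Prop where
  two : 2 ≤ P
  one : 1 ≤ T
  pn : 40 ≤ n
  n1 : P ^ n * Rx T ≤ T * T ^ (677 / 2000 : ℝ)
  n2 : P ^ n * Lx T ^ 2 ≤ T ^ 2
  n3 : P ^ n * T ≤ (T ^ (677 / 2000 : ℝ)) ^ 3
  n4 : P ^ n * Lx T ≤ T

theorem nu_of {T P : ℝ} {n : ℕ} (hn : 40 ≤ n) (hP : 2 ≤ P) (hT : 0 < T)
    (h : P ^ n ≤ T ^ (1 / 100000 : ℝ)) : NU T P n := by
  have h1 : 1 ≤ T := by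
    by_contra hlt
    have h2 : T ^ (1 / 100000 : ℝ) ≤ 1 :=
      Real.rpow_le_one hT.le (by linarith [not_le.1 hlt]) (by norm_num)
    have h3 : (2 : ℝ) ^ n ≤ P ^ n := pow_le_pow_left₀ (by norm_num) hP n
    have h4 : (2 : ℝ) ^ 1 ≤ 2 ^ n := pow_le_pow_right₀ (by norm_num) (by omega)
    norm_num at h4
    linarith
  refine ⟨hP, h1, hn, ?_, ?_, ?_, ?_⟩
  · have hrho : rho0 ≤ 1 / 1000000 := by unfold rho0; norm_num
    unfold Rx
    calc P ^ n * T ^ (669 / 500 + 2 * rho0 : ℝ)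
        ≤ T ^ (1 / 100000 : ℝ) * T ^ (669 / 500 + 2 * rho0 : ℝ) :=
          mul_le_mul_of_nonneg_right h (by positivity)
      _ = T ^ (1 / 100000 + (669 / 500 + 2 * rho0) : ℝ) := by rw [← Real.rpow_add hT]
      _ ≤ T ^ (1 + 677 / 2000 : ℝ) := Real.rpow_le_rpow_of_exponent_le h1 (by linarith)
      _ = _ := by rw [Real.rpow_add hT, Real.rpow_one]
  · unfold Lx
    calc P ^ n * (T ^ (277 / 500 : ℝ)) ^ 2 ≤ T ^ (1 / 100000 : ℝ) * (T ^ (277 / 500 : ℝ)) ^ 2 :=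
          mul_le_mul_of_nonneg_right h (by positivity)
      _ = T ^ (1 / 100000 + 277 / 500 * 2 : ℝ) := by
          rw [← Real.rpow_natCast, ← Real.rpow_mul hT.le, ← Real.rpow_add hT]; norm_num
      _ ≤ T ^ (2 : ℝ) := Real.rpow_le_rpow_of_exponent_le h1 (by norm_num)
      _ = _ := by rw [Real.rpow_two]
  · calc P ^ n * T ≤ T ^ (1 / 100000 : ℝ) * T := mul_le_mul_of_nonneg_right h hT.le
      _ = T ^ (1 / 100000 + 1 : ℝ) := by rw [Real.rpow_add hT, Real.rpow_one]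
      _ ≤ T ^ (677 / 2000 * 3 : ℝ) := Real.rpow_le_rpow_of_exponent_le h1 (by norm_num)
      _ = _ := by rw [Real.rpow_mul hT.le]; norm_cast
  · unfold Lx
    calc P ^ n * T ^ (277 / 500 : ℝ) ≤ T ^ (1 / 100000 : ℝ) * T ^ (277 / 500 : ℝ) :=
          mul_le_mul_of_nonneg_right h (by positivity)
      _ = T ^ (1 / 100000 + 277 / 500 : ℝ) := by rw [← Real.rpow_add hT]
      _ ≤ T ^ (1 : ℝ) := Real.rpow_le_rpow_of_exponent_le h1 (by norm_num)
      _ = _ := by rw [Real.rpow_one]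

variable {T P : ℝ} {n : ℕ} {H u : Fin 3 → ℂ}

theorem NU.pw (a : NU T P n) {k : ℕ} (hk : k ≤ n) {x y : ℝ} (hx : 0 ≤ x) (h : P ^ n * x ≤ y) :
    P ^ k * x ≤ y :=
  (mul_le_mul_of_nonneg_right (pow_le_pow_right₀ (by linarith [a.two]) hk) hx).trans h

theorem Rx_pos (hT : 0 < T) : 0 < Rx T := Real.rpow_pos_of_pos hT _

theorem Lx_pos (hT : 0 < T) : 0 < Lx T := Real.rpow_pos_of_pos hT _

theorem two_le_pw (a : NU T P n) {j k : ℕ} (hk : k + j ≤ n) {x y : ℝ} (hx : 0 ≤ x)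
    (h : P ^ n * x ≤ y) : 2 ^ j * (P ^ k * x) ≤ y := by
  refine le_trans ?_ (a.pw hk hx h)
  rw [pow_add]
  have h1 : (2 : ℝ) ^ j ≤ P ^ j := pow_le_pow_left₀ (by norm_num) a.two j
  have h2 : 0 ≤ P ^ k * x := mul_nonneg (pow_nonneg (by linarith [a.two]) _) hx
  calc (2 : ℝ) ^ j * (P ^ k * x) ≤ P ^ j * (P ^ k * x) := mul_le_mul_of_nonneg_right h1 h2
    _ = _ := by ring

theorem FR.H_le (f : FR T P H u) (a : NU T P n) (l : Fin 3) : ‖H l‖ ≤ T := by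
  have h := two_le_pw a (j := 0) (k := 1) (by linarith [a.pn]) (Lx_pos (by linarith [a.one])).le
    a.n4
  have := f.hi l
  simp only [pow_zero, one_mul, pow_one] at h
  linarith

theorem FR.H_pos (f : FR T P H u) (a : NU T P n) (l : Fin 3) : 0 < ‖H l‖ := by
  have h := f.lo l
  by_contra hc
  have : P * ‖H l‖ ≤ 0 := mul_nonpos_of_nonneg_of_nonpos (by linarith [a.two]) (not_lt.1 hc)
  linarith

/-- radial components are small against `H l` -/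
theorem FR.small (f : FR T P H u) (a : NU T P n) {l : Fin 3} (hl : l ≠ 2) (j : Fin 3) :
    |rh T (H j) * sp (u j) (H j)| * (2 / T) ≤ ‖H l‖ / 2 := by
  have hT : 0 < T := by linarith [a.one]
  have h1 := f.win j
  have h2 := f.big l hl
  have h3 := two_le_pw a (j := 2) (k := 2) (by linarith [a.pn]) (Rx_pos hT).le a.n1
  have hP := a.two
  have h4 : P * (|rh T (H j) * sp (u j) (H j)| * (2 / T)) ≤ P * (‖H l‖ / 2) := by
    calc P * (|rh T (H j) * sp (u j) (H j)| * (2 / T)) ≤ P * (P * Rx T * (2 / T)) := by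
          apply mul_le_mul_of_nonneg_left _ (by linarith)
          exact mul_le_mul_of_nonneg_right h1 (by positivity)
      _ = (2 ^ 2 * (P ^ 2 * Rx T)) / T / 2 := by ring
      _ ≤ (T * T ^ (677 / 2000 : ℝ)) / T / 2 := by
          apply div_le_div_of_nonneg_right _ (by norm_num)
          exact div_le_div_of_nonneg_right h3 hT.le
      _ = T ^ (677 / 2000 : ℝ) / 2 := by field_simp
      _ ≤ P * (‖H l‖ / 2) := by linarith
  exact le_of_mul_le_mul_left h4 (by linarith)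

open Classical in
/-- the signs -/
noncomputable def sgn (H u : Fin 3 → ℂ) : Bool × Bool :=
  (decide ((conj (u 0) * H 0).im ≤ 0), decide ((conj (u 1) * H 1).im ≤ 0))

theorem sg_sq (s : Bool × Bool) (l : Fin 3) : sg s l ^ 2 = 1 := by
  fin_cases l
  · simp only [sg]; rcases s.1 <;> simp
  · simp only [sg]; rcases s.2 <;> simp
  · simp [sg]

theorem sgn_le (H u : Fin 3 → ℂ) {l : Fin 3} (hl : l ≠ 2) :
    sg (sgn H u) l * (conj (u l) * H l).im ≤ 0 := by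
  have h01 : l = 0 ∨ l = 1 := by
    fin_cases l
    · left; rfl
    · right; rfl
    · exact absurd rfl hl
  have e0 : sg (sgn H u) 0 = if (conj (u 0) * H 0).im ≤ 0 then 1 else -1 := by
    show (if decide ((conj (u 0) * H 0).im ≤ 0) = true then (1 : ℝ) else -1) = _
    by_cases hc : (conj (u 0) * H 0).im ≤ 0
    · rw [if_pos (decide_eq_true hc), if_pos hc]
    · rw [if_neg (by rw [decide_eq_true_iff]; exact hc), if_neg hc]
  have e1 : sg (sgn H u) 1 = if (conj (u 1) * H 1).im ≤ 0 then 1 else -1 := by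
    show (if decide ((conj (u 1) * H 1).im ≤ 0) = true then (1 : ℝ) else -1) = _
    by_cases hc : (conj (u 1) * H 1).im ≤ 0
    · rw [if_pos (decide_eq_true hc), if_pos hc]
    · rw [if_neg (by rw [decide_eq_true_iff]; exact hc), if_neg hc]
  rcases h01 with h | h
  · subst h
    rw [e0]
    split_ifs with hc <;> linarith
  · subst h
    rw [e1]
    split_ifs with hc <;> linarith

theorem wG_two (T : ℝ) (H : Fin 3 → ℂ) (ep : Fin 3 → ℝ) (th : ℝ) :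
    wG T H ep th 2 = cexp ((th : ℂ) * I) := by
  unfold wG; rw [if_pos rfl]

theorem wG_ne (T : ℝ) (H : Fin 3 → ℂ) (ep : Fin 3 → ℝ) (th : ℝ) {l : Fin 3} (hl : l ≠ 2) :
    wG T H ep th l =
      wv (H l) (rh T (H 2) / rh T (H l) * (conj (cexp ((th : ℂ) * I)) * H 2).re) (ep l) := by
  unfold wG wv; rw [if_neg hl]

/-- the exact point -/
structure GE (T P : ℝ) (H u W : Fin 3 → ℂ) : Prop where
  w2 : W 2 = u 2
  wn : ∀ l, ‖W l‖ = 1
  wt : ∀ l, rh T (H l) * (conj (W l) * H l).re = rh T (H 2) * (conj (u 2) * H 2).re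
  wc : ∀ l, l ≠ 2 → ‖u l - W l‖ ≤ 4 * P / (T * ‖H l‖)
  wi : ∀ l, l ≠ 2 → ‖H l‖ / 2 ≤ |(conj (W l) * H l).im|

theorem geo (f : FR T P H u) (a : NU T P n) {th : ℝ} (hth : cexp ((th : ℂ) * I) = u 2) :
    GE T P H u (wG T H (sg (sgn H u)) th) := by
  have hT : 0 < T := by linarith [a.one]
  have hP := a.two
  have hne : ∀ l, H l ≠ 0 := fun l => norm_pos_iff.1 (f.H_pos a l)
  have hr := fun l => rh_bounds hT (f.H_le a l)
  have hrp : ∀ l, 0 < rh T (H l) := fun l => by linarith [(hr l).1]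
  -- a value divided by a radius
  have hdiv : ∀ (l j : Fin 3), l ≠ 2 → |rh T (H j) * sp (u j) (H j) / rh T (H l)| ≤ ‖H l‖ / 2 := by
    intro l j hl
    rw [abs_div, abs_of_pos (hrp l)]
    refine le_trans ?_ (f.small a hl j)
    rw [div_eq_mul_inv]
    apply mul_le_mul_of_nonneg_left _ (abs_nonneg _)
    rw [inv_eq_one_div, div_le_div_iff₀ (hrp l) hT]
    linarith [(hr l).1]
  have ht' : ∀ l, l ≠ 2 → |rh T (H 2) / rh T (H l) * (conj (cexp ((th : ℂ) * I)) * H 2).re / ‖H l‖|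
      ≤ 1 / 2 := by
    intro l hl
    have h1 : rh T (H 2) / rh T (H l) * (conj (cexp ((th : ℂ) * I)) * H 2).re =
        rh T (H 2) * sp (u 2) (H 2) / rh T (H l) := by
      rw [hth, ← sp_eq]; ring
    rw [h1, abs_div, abs_of_pos (f.H_pos a l), div_le_iff₀ (f.H_pos a l)]
    linarith [hdiv l 2 hl]
  refine ⟨?_, ?_, ?_, ?_, ?_⟩
  · rw [wG_two, hth]
  · intro l
    by_cases hl : l = 2
    · subst hl; rw [wG_two, hth, f.hu]
    · rw [wG_ne _ _ _ _ hl]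
      exact wv_norm (hne l) ((ht' l hl).trans (by norm_num)) (sg_sq _ _)
  · intro l
    by_cases hl : l = 2
    · subst hl; rw [wG_two, hth]
    · rw [wG_ne _ _ _ _ hl, wv_re (hne l), hth]
      have := (hrp l).ne'
      field_simp
  · intro l hl
    rw [wG_ne _ _ _ _ hl]
    have h1 : |(conj (u l) * H l).re / ‖H l‖| ≤ 1 / 2 := by
      have h2 := hdiv l l hl
      rw [mul_comm (rh T (H l)), mul_div_assoc, div_self (hrp l).ne', mul_one, sp_eq] at h2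
      rw [abs_div, abs_of_pos (f.H_pos a l), div_le_iff₀ (f.H_pos a l)]
      linarith
    refine (wv_close (f.hu l) (hne l) h1 (ht' l hl) (sg_sq _ _) (sgn_le H u hl)).trans ?_
    have h3 : (conj (u l) * H l).re - rh T (H 2) / rh T (H l) * (conj (cexp ((th : ℂ) * I)) * H 2).re
        = (rh T (H l) * sp (u l) (H l) - rh T (H 2) * sp (u 2) (H 2)) / rh T (H l) := by
      rw [hth, sp_eq, sp_eq]
      have := (hrp l).ne'
      field_simp
    rw [h3, abs_div, abs_of_pos (hrp l)]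
    have h4 : |rh T (H l) * sp (u l) (H l) - rh T (H 2) * sp (u 2) (H 2)| / rh T (H l) ≤
        P / (T / 2) := by
      exact div_le_div₀ (by linarith) (f.slab l) (by positivity) (hr l).1
    calc 2 * (|rh T (H l) * sp (u l) (H l) - rh T (H 2) * sp (u 2) (H 2)| / rh T (H l) / ‖H l‖)
        ≤ 2 * (P / (T / 2) / ‖H l‖) := by
          apply mul_le_mul_of_nonneg_left _ (by norm_num)
          exact div_le_div_of_nonneg_right h4 (norm_nonneg _)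
      _ = 4 * P / (T * ‖H l‖) := by
          have := (f.H_pos a l).ne'
          field_simp
          norm_num
  · intro l hl
    rw [wG_ne _ _ _ _ hl]
    exact wv_im_ge (hne l) (ht' l hl) (sg_sq _ _)

end Pool.Agent.F5H.F2
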