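import Pool.Agent.Helper36_F5H.F2b

/-!
MP_f5cbfa_nt, squad F5H, F2 (push-forward), part c: the tests at the exact point.
-/

set_option autoImplicit false

open Complex ComplexConjugate

namespace Pool.Agent.F5H.F2

open Pool.Agent.F5H.BC

open Pool.Agent.Helper68_F5

variable {T P : ℝ} {n : ℕ} {H u : Fin 3 → ℂ}

theorem abs_le_of_sq_le_sqX {x y : ℝ} (h : x ^ 2 ≤ y ^ 2) (hy : 0 ≤ y) : x ≤ y :=
  (le_abs_self x).trans (abs_le_of_sq_le_sq h hy)

theorem le_T (a : NU T P n) {j k : ℕ} (hk : k + j ≤ n) : 2 ^ j * P ^ k ≤ T := by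
  have hL : 1 ≤ Lx T := Real.one_le_rpow a.one (by norm_num)
  have h := two_le_pw a hk (by linarith) a.n4
  have h2 : 0 ≤ 2 ^ j * P ^ k := by have := a.two; positivity
  have h3 : 2 ^ j * P ^ k * 1 ≤ 2 ^ j * P ^ k * Lx T := mul_le_mul_of_nonneg_left hL h2
  linarith

theorem FR.Hsq (f : FR T P H u) (a : NU T P n) (l : Fin 3) : 96 * P ^ 2 * ‖H l‖ ^ 2 ≤ T ^ 2 := by
  have hT : 0 < T := by linarith [a.one]
  have h := two_le_pw a (j := 7) (k := 4) (by linarith [a.pn]) (by positivity) a.n2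
  have h1 : ‖H l‖ ^ 2 ≤ (P * Lx T) ^ 2 := pow_le_pow_left₀ (norm_nonneg _) (f.hi l) 2
  have h2 : 0 ≤ P ^ 2 := by positivity
  calc 96 * P ^ 2 * ‖H l‖ ^ 2 ≤ 128 * P ^ 2 * (P * Lx T) ^ 2 := by
        have := mul_le_mul_of_nonneg_left h1 h2
        have h3 : 0 ≤ P ^ 2 * (P * Lx T) ^ 2 := by positivity
        nlinarith
    _ = 2 ^ 7 * (P ^ 4 * Lx T ^ 2) := by ring
    _ ≤ T ^ 2 := h

theorem FR.le0 (f : FR T P H u) (l : Fin 3) : ‖H l‖ ≤ ‖H 0‖ := by
  obtain ⟨h1, h2⟩ := f.srt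
  fin_cases l
  · exact le_rfl
  · exact h2
  · exact h1.trans h2

theorem FR.le1 (f : FR T P H u) {l : Fin 3} (hl : l ≠ 2) : ‖H 1‖ ≤ ‖H l‖ := by
  obtain ⟨h1, h2⟩ := f.srt
  fin_cases l
  · exact h2
  · exact le_rfl
  · exact absurd rfl hl

theorem FR.two_le (f : FR T P H u) (l : Fin 3) : ‖H 2‖ ≤ ‖H l‖ := by
  obtain ⟨h1, h2⟩ := f.srt
  fin_cases l
  · exact h1.trans h2
  · exact h1
  · exact le_rfl

theorem norm_rho {r : ℝ} (hr : 0 ≤ r) {z : ℂ} (hz : ‖z‖ = 1) : ‖(r : ℂ) * z‖ = r := by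
  rw [norm_mul, hz, mul_one, norm_real, Real.norm_eq_abs, abs_of_nonneg hr]

theorem unit_conj {z : ℂ} (hz : ‖z‖ = 1) : conj z * z = 1 := by
  rw [mul_comm, mul_conj, normSq_eq_norm_sq, hz]; norm_num

/-- transfer, for the data -/
theorem FR.trf (f : FR T P H u) (a : NU T P n) {th : ℝ} (hth : cexp ((th : ℂ) * I) = u 2)
    {κ κr : ℝ} {K : Fin 3 → ℂ} (hN : NBF P κ κr T H (fun l => (rh T (H l) : ℂ) * u l) K)
    {β η : ℝ} {B : ℝ × ℝ × ℝ} {v w : Fin 3 → ℂ} {ν : ℝ}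
    (hB : ∀ l, bf B (mG T H (sg (sgn H u)) th l) (mG T H (sg (sgn H u)) th l) +
      bf B (H l) (H l) / 4 = -(2 * sp (mG T H (sg (sgn H u)) th l) (v l)))
    (hv : ∀ l, v l = (ν : ℂ) * ((rh T (H l) : ℂ) * u l) + w l) (hβ : ‖B‖ ≤ β)
    (hη : ∀ l, ‖v l‖ ≤ η) :
    |∑ l, sp (K l) (v l)| ≤ P * ((∑ i, ∑ j,
      |(sp (v i) (H i) + bf B (mG T H (sg (sgn H u)) th i) (H i)) -
      (sp (v j) (H j) + bf B (mG T H (sg (sgn H u)) th j) (H j))|) +
      18000 * P ^ 2 * (4 * P / ‖H 1‖) * ‖H 0‖ * (β + η / T) +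
      κ * (∑ l, ‖w l‖) + κr * T * |ν|) := by
  have hT : 0 < T := by linarith [a.one]
  have hP := a.two
  have hr := fun l => rh_bounds hT (f.H_le a l)
  have hrp : ∀ l, 0 < rh T (H l) := fun l => by linarith [(hr l).1]
  have g := geo f a hth
  have hM : ∀ l, ‖(rh T (H l) : ℂ) * u l‖ = rh T (H l) := fun l => norm_rho (hrp l).le (f.hu l)
  have hM' : ∀ l, ‖mG T H (sg (sgn H u)) th l‖ = rh T (H l) := by
    intro l; unfold mG; exact norm_rho (hrp l).le (g.wn l)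
  refine F2.trf (by linarith) hT ?_ ?_ ?_ ?_ (f.Hsq a) f.le0 ?_ hN hB hv hβ hη
  · intro l; rw [hM]; exact (hr l).1
  · intro l; rw [hM]; exact (hr l).2.1
  · intro l; rw [hM']; exact (hr l).2.1
  · intro i j hij
    rw [hM, hM]
    have h1 : wd ((rh T (H i) : ℂ) * u i) ((rh T (H j) : ℂ) * u j) =
        rh T (H i) * (rh T (H j) * wd (u i) (u j)) := by rw [wd_real, wd_real']
    rw [h1, abs_mul, abs_mul, abs_of_pos (hrp i), abs_of_pos (hrp j)]
    have h2 := f.sep i j hij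
    have h3 : 0 < rh T (H i) * rh T (H j) := mul_pos (hrp i) (hrp j)
    nlinarith
  · intro l
    have h1 : (rh T (H l) : ℂ) * u l - mG T H (sg (sgn H u)) th l =
        (rh T (H l) : ℂ) * (u l - wG T H (sg (sgn H u)) th l) := by unfold mG; ring
    rw [h1, norm_mul, norm_real, Real.norm_eq_abs, abs_of_pos (hrp l)]
    by_cases hl : l = 2
    · subst hl
      rw [g.w2, sub_self, norm_zero, mul_zero]
      positivity
    · have h2 := g.wc l hl
      have h3 : rh T (H l) * ‖u l - wG T H (sg (sgn H u)) th l‖ ≤ T * (4 * P / (T * ‖H l‖)) :=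
        mul_le_mul (hr l).2.1 h2 (norm_nonneg _) hT.le
      refine h3.trans ?_
      have h4 : T * (4 * P / (T * ‖H l‖)) = 4 * P / ‖H l‖ := by
        have := (f.H_pos a l).ne'
        field_simp
      rw [h4]
      exact div_le_div_of_nonneg_left (by linarith) (f.H_pos a 1) (f.le1 hl)

section tv

variable {th : ℝ} (B : ℝ × ℝ × ℝ) (y : ℝ)

theorem tv_form (f : FR T P H u) (a : NU T P n) (hth : cexp ((th : ℂ) * I) = u 2) (l : Fin 3) :
    bf B (mG T H (sg (sgn H u)) th l) (mG T H (sg (sgn H u)) th l) +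
      bf B (H l) (H l) / 4 = -(2 * sp (mG T H (sg (sgn H u)) th l)
        (tv T H (sg (sgn H u)) th B y l)) := by
  have hT : 0 < T := by linarith [a.one]
  have hr := rh_bounds hT (f.H_le a l)
  have hrp : 0 < rh T (H l) := by linarith [hr.1]
  have g := geo f a hth
  have h1 : sp (mG T H (sg (sgn H u)) th l) (tv T H (sg (sgn H u)) th B y l) =
      rh T (H l) * muG T H (sg (sgn H u)) th B l := by
    rw [sp_eq]
    unfold mG tv
    rw [map_mul, conj_ofReal]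
    have h2 : (rh T (H l) : ℂ) * conj (wG T H (sg (sgn H u)) th l) *
        (((muG T H (sg (sgn H u)) th B l : ℂ) + (yG T H (sg (sgn H u)) th B y l : ℂ) * I) *
          wG T H (sg (sgn H u)) th l) = (rh T (H l) : ℂ) *
        (((muG T H (sg (sgn H u)) th B l : ℂ) + (yG T H (sg (sgn H u)) th B y l : ℂ) * I)) *
        (conj (wG T H (sg (sgn H u)) th l) * wG T H (sg (sgn H u)) th l) := by ring
    rw [h2, unit_conj (g.wn l), mul_one, re_ofReal_mul]
    simp
  rw [h1]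
  unfold muG
  field_simp

theorem tv_val (f : FR T P H u) (a : NU T P n) (hth : cexp ((th : ℂ) * I) = u 2) (l : Fin 3) :
    sp (tv T H (sg (sgn H u)) th B y l) (H l) + bf B (mG T H (sg (sgn H u)) th l) (H l) =
      GG T H (sg (sgn H u)) th B y := by
  have g := geo f a hth
  have h1 : sp (tv T H (sg (sgn H u)) th B y l) (H l) =
      muG T H (sg (sgn H u)) th B l * tG T H (sg (sgn H u)) th l +
      yG T H (sg (sgn H u)) th B y l * nG T H (sg (sgn H u)) th l := by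
    rw [sp_eq]
    unfold tv tG nG
    rw [map_mul, map_add, map_mul, conj_ofReal, conj_ofReal, conj_I, mul_assoc]
    simp only [mul_re, mul_im, add_re, add_im, ofReal_re, ofReal_im, neg_re, neg_im, I_re, I_im]
    ring
  rw [h1]
  by_cases hl : l = 2
  · subst hl
    unfold GG yG
    rw [if_pos rfl]
  · have h2 := g.wi l hl
    have h3 : nG T H (sg (sgn H u)) th l ≠ 0 := by
      intro h0
      unfold nG at h0
      rw [h0, abs_zero] at h2
      linarith [f.H_pos a l]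
    have h4 : yG T H (sg (sgn H u)) th B y l * nG T H (sg (sgn H u)) th l =
        GG T H (sg (sgn H u)) th B y - bf B (mG T H (sg (sgn H u)) th l) (H l) -
        muG T H (sg (sgn H u)) th B l * tG T H (sg (sgn H u)) th l := by
      unfold yG
      rw [if_neg hl]
      exact div_mul_cancel₀ _ h3
    rw [h4]; ring

theorem tG_le (g : GE T P H u (wG T H (sg (sgn H u)) th)) (l : Fin 3) :
    |tG T H (sg (sgn H u)) th l| ≤ ‖H l‖ := by
  unfold tG
  refine (abs_re_le_norm _).trans ?_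
  rw [norm_mul, norm_conj, g.wn, one_mul]

theorem nG_le (g : GE T P H u (wG T H (sg (sgn H u)) th)) (l : Fin 3) :
    |nG T H (sg (sgn H u)) th l| ≤ ‖H l‖ := by
  unfold nG
  refine (abs_im_le_norm _).trans ?_
  rw [norm_mul, norm_conj, g.wn, one_mul]

theorem tv_norm (f : FR T P H u) (a : NU T P n) (hth : cexp ((th : ℂ) * I) = u 2) (l : Fin 3) :
    ‖tv T H (sg (sgn H u)) th B y l‖ ≤ 41 * ‖B‖ * T + 2 * |y| := by
  have hT : 0 < T := by linarith [a.one]
  have hr := fun l => rh_bounds hT (f.H_le a l)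
  have hrp : ∀ l, 0 < rh T (H l) := fun l => by linarith [(hr l).1]
  have g := geo f a hth
  have hB : 0 ≤ ‖B‖ := norm_nonneg _
  have hy : 0 ≤ |y| := abs_nonneg _
  have hmn : ∀ l, ‖mG T H (sg (sgn H u)) th l‖ ≤ T := by
    intro l
    unfold mG
    rw [norm_rho (hrp l).le (g.wn l)]
    exact (hr l).2.1
  -- the radial components
  have hmu : ∀ l, |muG T H (sg (sgn H u)) th B l| ≤ 5 * ‖B‖ * T := by
    intro l
    unfold muG
    rw [abs_neg, abs_div, abs_of_pos (by linarith [hrp l] : 0 < 2 * rh T (H l)),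
      div_le_iff₀ (by linarith [hrp l])]
    refine (abs_add_le _ _).trans ?_
    rw [abs_div, abs_of_pos (by norm_num : (0:ℝ) < 4)]
    have e1 := bf_le B (mG T H (sg (sgn H u)) th l) (mG T H (sg (sgn H u)) th l)
    have e2 := bf_le B (H l) (H l)
    have e3 : ‖mG T H (sg (sgn H u)) th l‖ * ‖mG T H (sg (sgn H u)) th l‖ ≤ T * T :=
      mul_le_mul (hmn l) (hmn l) (norm_nonneg _) hT.le
    have e4 : ‖H l‖ * ‖H l‖ ≤ T * T := mul_le_mul (f.H_le a l) (f.H_le a l) (norm_nonneg _) hT.le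
    have e5 : 4 * ‖B‖ * (‖mG T H (sg (sgn H u)) th l‖ * ‖mG T H (sg (sgn H u)) th l‖) ≤
        4 * ‖B‖ * (T * T) := mul_le_mul_of_nonneg_left e3 (by positivity)
    have e6 : 4 * ‖B‖ * (‖H l‖ * ‖H l‖) ≤ 4 * ‖B‖ * (T * T) :=
      mul_le_mul_of_nonneg_left e4 (by positivity)
    have e7 : 5 * ‖B‖ * T * T ≤ 5 * ‖B‖ * T * (2 * rh T (H l)) :=
      mul_le_mul_of_nonneg_left (by linarith [(hr l).1]) (by positivity)
    linarith
  have hbH : ∀ l, |bf B (mG T H (sg (sgn H u)) th l) (H l)| ≤ 4 * ‖B‖ * T * ‖H l‖ := by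
    intro l
    refine (bf_le _ _ _).trans ?_
    have : ‖mG T H (sg (sgn H u)) th l‖ * ‖H l‖ ≤ T * ‖H l‖ :=
      mul_le_mul_of_nonneg_right (hmn l) (norm_nonneg _)
    calc 4 * ‖B‖ * (‖mG T H (sg (sgn H u)) th l‖ * ‖H l‖) ≤ 4 * ‖B‖ * (T * ‖H l‖) :=
          mul_le_mul_of_nonneg_left this (by positivity)
      _ = _ := by ring
  have hmt : ∀ l, |muG T H (sg (sgn H u)) th B l * tG T H (sg (sgn H u)) th l| ≤
      5 * ‖B‖ * T * ‖H l‖ := by
    intro l
    rw [abs_mul]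
    exact mul_le_mul (hmu l) (tG_le g l) (abs_nonneg _) (by positivity)
  have hG : |GG T H (sg (sgn H u)) th B y| ≤ (9 * ‖B‖ * T + |y|) * ‖H 2‖ := by
    unfold GG
    refine (abs_add_le _ _).trans ?_
    have e1 := abs_add_le (muG T H (sg (sgn H u)) th B 2 * tG T H (sg (sgn H u)) th 2)
      (y * nG T H (sg (sgn H u)) th 2)
    have e2 : |y * nG T H (sg (sgn H u)) th 2| ≤ |y| * ‖H 2‖ := by
      rw [abs_mul]
      exact mul_le_mul_of_nonneg_left (nG_le g 2) (abs_nonneg _)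
    have e3 := hmt 2
    have e4 := hbH 2
    nlinarith
  have hyl : |yG T H (sg (sgn H u)) th B y l| ≤ 36 * ‖B‖ * T + 2 * |y| := by
    by_cases hl : l = 2
    · subst hl
      unfold yG
      rw [if_pos rfl]
      have : 0 ≤ 36 * ‖B‖ * T := by positivity
      linarith
    · unfold yG
      rw [if_neg hl, abs_div]
      have h2 : ‖H l‖ / 2 ≤ |nG T H (sg (sgn H u)) th l| := g.wi l hl
      have hp := f.H_pos a l
      rw [div_le_iff₀ (by linarith)]
      have e1 := abs_sub (GG T H (sg (sgn H u)) th B y - bf B (mG T H (sg (sgn H u)) th l) (H l))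
        (muG T H (sg (sgn H u)) th B l * tG T H (sg (sgn H u)) th l)
      have e2 := abs_sub (GG T H (sg (sgn H u)) th B y)
        (bf B (mG T H (sg (sgn H u)) th l) (H l))
      have e3 := hmt l
      have e4 := hbH l
      have e5 : (9 * ‖B‖ * T + |y|) * ‖H 2‖ ≤ (9 * ‖B‖ * T + |y|) * ‖H l‖ :=
        mul_le_mul_of_nonneg_left (f.two_le l) (by positivity)
      have e6 : (36 * ‖B‖ * T + 2 * |y|) * (‖H l‖ / 2) ≤
          (36 * ‖B‖ * T + 2 * |y|) * |nG T H (sg (sgn H u)) th l| :=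
        mul_le_mul_of_nonneg_left h2 (by positivity)
      have e7 : (36 * ‖B‖ * T + 2 * |y|) * (‖H l‖ / 2) = (18 * ‖B‖ * T + |y|) * ‖H l‖ := by ring
      nlinarith
  unfold tv
  rw [norm_mul, g.wn, mul_one]
  refine (norm_xy _ _).trans ?_
  have := hmu l
  linarith

end tv

/-- the inequalities for the windows -/
structure KI (T P V : ℝ) (H : Fin 3 → ℂ) : Prop where
  k0 : 0 ≤ kap T V
  k0' : 0 ≤ kpr T V
  k1 : ‖H 0‖ / ‖H 1‖ ≤ P ^ 2 * (kap T V * T)
  k2 : ‖H 0‖ / ‖H 1‖ ≤ P * (kpr T V * T)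
  k3 : kap T V * (‖H 0‖ ^ 2 / T) ≤ P * (kpr T V * T)
  k4 : kap T V / ‖H 1‖ ≤ P ^ 3 * (kpr T V * T)
  k5 : ∀ l, kap T V ≤ P ^ 2 * ‖H l‖
  k6 : ∀ l, ‖H 0‖ / ‖H 1‖ / T ≤ P ^ 2 * ‖H l‖

theorem ki (f : FR T P H u) (a : NU T P n) {V : ℝ} (h1 : V ≤ P * ‖H 0‖) (h2 : ‖H 0‖ ≤ P * V) :
    KI T P V H := by
  have hT : 0 < T := by linarith [a.one]
  have hP := a.two
  have hP0 : 0 < P := by linarith
  have h0 := f.H_pos a 0
  have h1p := f.H_pos a 1
  have hV : 0 < V := by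
    by_contra hc
    have : P * V ≤ 0 := mul_nonpos_of_nonneg_of_nonpos hP0.le (not_lt.1 hc)
    linarith
  have hk0 : 0 ≤ kap T V := Real.sqrt_nonneg _
  have hk2 : kap T V ^ 2 = V / T := Real.sq_sqrt (by positivity)
  have hkr : kap T V ^ 3 ≤ kpr T V := le_max_left _ _
  have hkr0 : 0 ≤ kpr T V := le_trans (by positivity) hkr
  have hkrT : kap T V * V ≤ kpr T V * T := by
    have e : kap T V ^ 3 * T = kap T V * V := by
      have : kap T V ^ 3 = kap T V * kap T V ^ 2 := by ring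
      rw [this, hk2]; field_simp
    rw [← e]
    exact mul_le_mul_of_nonneg_right hkr hT.le
  have hH0 := f.H_le a 0
  -- `H 0 ≤ P kap T`
  have e1 : ‖H 0‖ ≤ P * (kap T V * T) := by
    apply abs_le_of_sq_le_sqX _ (by positivity)
    have : (P * (kap T V * T)) ^ 2 = P ^ 2 * (V * T) := by
      rw [mul_pow, mul_pow, hk2]; field_simp
    rw [this]
    have e2 : ‖H 0‖ ^ 2 ≤ (P * V) * T := by
      rw [sq]; exact mul_le_mul h2 hH0 (norm_nonneg _) (by positivity)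
    have e3 : P * (V * T) ≤ P ^ 2 * (V * T) := by
      apply mul_le_mul_of_nonneg_right _ (by positivity)
      nlinarith
    linarith
  have hlo := f.lo 1
  have i1 : 1 / ‖H 1‖ ≤ P := by
    rw [div_le_iff₀ h1p]; exact hlo
  -- `1 ≤ kap * H 1`
  have e4 : 1 ≤ kap T V * ‖H 1‖ := by
    have hx : 0 ≤ kap T V * ‖H 1‖ := by positivity
    have e5 : 1 ≤ (kap T V * ‖H 1‖) ^ 2 := by
      rw [mul_pow, hk2]
      have b1 := f.big 1 (by decide)
      have b2 : (T ^ (677 / 2000 : ℝ)) ^ 3 ≤ (P * ‖H 1‖) ^ 3 :=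
        pow_le_pow_left₀ (by positivity) b1 3
      have b3 := a.pw (k := 4) (by linarith [a.pn]) hT.le a.n3
      have b4 : P ^ 4 * T ≤ P ^ 3 * ‖H 1‖ ^ 3 := by
        calc P ^ 4 * T ≤ (P * ‖H 1‖) ^ 3 := b3.trans b2
          _ = _ := by ring
      have b5 : P * T ≤ ‖H 1‖ ^ 3 := by
        have : P ^ 3 * (P * T) ≤ P ^ 3 * ‖H 1‖ ^ 3 := by
          calc P ^ 3 * (P * T) = P ^ 4 * T := by ring
            _ ≤ _ := b4
        exact le_of_mul_le_mul_left this (by positivity)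
      have b6 : ‖H 1‖ ^ 3 ≤ P * V * ‖H 1‖ ^ 2 := by
        have : ‖H 1‖ ≤ P * V := (f.le0 1).trans h2
        calc ‖H 1‖ ^ 3 = ‖H 1‖ * ‖H 1‖ ^ 2 := by ring
          _ ≤ _ := mul_le_mul_of_nonneg_right this (by positivity)
      have b7 : T ≤ V * ‖H 1‖ ^ 2 := by
        have : P * T ≤ P * (V * ‖H 1‖ ^ 2) := by linarith
        exact le_of_mul_le_mul_left this hP0
      rw [div_mul_eq_mul_div, le_div_iff₀ hT]
      linarith
    by_contra hc
    have hc' := not_le.1 hc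
    nlinarith
  have i2 : 1 / ‖H 1‖ ≤ kap T V := by
    rw [div_le_iff₀ h1p]; exact e4
  have hPV : 1 ≤ P ^ 2 * V := by
    have := f.lo 0
    calc 1 ≤ P * ‖H 0‖ := this
      _ ≤ P * (P * V) := mul_le_mul_of_nonneg_left h2 hP0.le
      _ = _ := by ring
  refine ⟨hk0, hkr0, ?_, ?_, ?_, ?_, ?_, ?_⟩
  · rw [div_eq_mul_one_div]
    calc ‖H 0‖ * (1 / ‖H 1‖) ≤ (P * (kap T V * T)) * P :=
          mul_le_mul e1 i1 (by positivity) (by positivity)
      _ = _ := by ring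
  · rw [div_eq_mul_one_div]
    calc ‖H 0‖ * (1 / ‖H 1‖) ≤ (P * V) * kap T V :=
          mul_le_mul h2 i2 (by positivity) (by positivity)
      _ = P * (kap T V * V) := by ring
      _ ≤ _ := mul_le_mul_of_nonneg_left hkrT hP0.le
  · have e6 : ‖H 0‖ ^ 2 / T ≤ P * V := by
      rw [div_le_iff₀ hT, sq]
      exact mul_le_mul h2 hH0 (norm_nonneg _) (by positivity)
    calc kap T V * (‖H 0‖ ^ 2 / T) ≤ kap T V * (P * V) := mul_le_mul_of_nonneg_left e6 hk0
      _ = P * (kap T V * V) := by ring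
      _ ≤ _ := mul_le_mul_of_nonneg_left hkrT hP0.le
  · rw [div_eq_mul_one_div]
    calc kap T V * (1 / ‖H 1‖) ≤ kap T V * P := mul_le_mul_of_nonneg_left i1 hk0
      _ ≤ kap T V * (P * (P ^ 2 * V)) := by
          apply mul_le_mul_of_nonneg_left _ hk0
          nlinarith
      _ = P ^ 3 * (kap T V * V) := by ring
      _ ≤ _ := mul_le_mul_of_nonneg_left hkrT (by positivity)
  · intro l
    have e7 : kap T V ≤ P := by
      apply abs_le_of_sq_le_sqX _ hP0.le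
      rw [hk2, div_le_iff₀ hT]
      have : P * ‖H 0‖ ≤ P * T := mul_le_mul_of_nonneg_left hH0 hP0.le
      nlinarith
    have := f.lo l
    calc kap T V ≤ P * 1 := by linarith
      _ ≤ P * (P * ‖H l‖) := mul_le_mul_of_nonneg_left this hP0.le
      _ = _ := by ring
  · intro l
    have e8 : ‖H 0‖ / ‖H 1‖ / T ≤ P := by
      rw [div_le_iff₀ hT, div_eq_mul_one_div, mul_comm P]
      exact mul_le_mul hH0 i1 (by positivity) hT.le
    have := f.lo l
    calc ‖H 0‖ / ‖H 1‖ / T ≤ P * 1 := by linarith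
      _ ≤ P * (P * ‖H l‖) := mul_le_mul_of_nonneg_left this hP0.le
      _ = _ := by ring

end Pool.Agent.F5H.F2
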