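import Pool.Agent.Helper36_F5H.F2c

/-!
MP_f5cbfa_nt, squad F5H, F2 (push-forward), part d: the window of the dual vector at the exact point.
-/

set_option autoImplicit false

open Complex ComplexConjugate

namespace Pool.Agent.F5H.F2

open Pool.Agent.F5H.BC

open Pool.Agent.Helper68_F5

variable {T P : ℝ} {n : ℕ} {H u : Fin 3 → ℂ}

theorem pw_le (a : NU T P n) {j k m : ℕ} (hm : j + k ≤ m) : 2 ^ j * P ^ k ≤ P ^ m := by
  have hP := a.two
  have h1 : (2 : ℝ) ^ j ≤ P ^ j := pow_le_pow_left₀ (by norm_num) hP j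
  calc 2 ^ j * P ^ k ≤ P ^ j * P ^ k := mul_le_mul_of_nonneg_right h1 (by positivity)
    _ = P ^ (j + k) := by rw [pow_add]
    _ ≤ P ^ m := pow_le_pow_right₀ (by linarith) hm

theorem sp58 (K v : Fin 3 → ℂ) : F5.H58.sp K v = ∑ l, sp (K l) (v l) := by
  unfold F5.H58.sp
  exact Finset.sum_congr rfl fun l _ => (sp_eq _ _).symm

/-- Gd at the exact point -/
theorem gd (f : FR T P H u) (a : NU T P n) {th : ℝ} (hth : cexp ((th : ℂ) * I) = u 2) :
    Gd (P ^ n) T H (sg (sgn H u)) th := by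
  have hT : 0 < T := by linarith [a.one]
  have hP := a.two
  have hP0 : 0 < P := by linarith
  have hPn : P ≤ P ^ n := by
    have := pw_le a (j := 0) (k := 1) (m := n) (by linarith [a.pn])
    simpa using this
  have hr := fun l => rh_bounds hT (f.H_le a l)
  have hrp : ∀ l, 0 < rh T (H l) := fun l => by linarith [(hr l).1]
  have g := geo f a hth
  refine ⟨?_, ?_, ?_, ?_⟩
  · intro l
    refine ⟨(f.lo l).trans (mul_le_mul_of_nonneg_right hPn (norm_nonneg _)), (f.hi l).trans ?_⟩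
    exact mul_le_mul_of_nonneg_right hPn (Lx_pos hT).le
  · intro l hl
    exact (f.big l hl).trans (mul_le_mul_of_nonneg_right hPn (norm_nonneg _))
  · rw [hth, ← sp_eq]
    have h1 := f.win 2
    rw [abs_mul, abs_of_pos (hrp 2)] at h1
    have h2 : T / 2 * |sp (u 2) (H 2)| ≤ rh T (H 2) * |sp (u 2) (H 2)| :=
      mul_le_mul_of_nonneg_right (hr 2).1 (abs_nonneg _)
    have h3 := pw_le a (j := 1) (k := 1) (m := n) (by linarith [a.pn])
    have h4 : 2 ^ 1 * P ^ 1 * Rx T ≤ P ^ n * Rx T :=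
      mul_le_mul_of_nonneg_right h3 (Rx_pos hT).le
    nlinarith
  · intro l m hlm
    rw [← wd_eq]
    have h1 : ∀ j, ‖u j - wG T H (sg (sgn H u)) th j‖ ≤ 4 * P ^ 2 / T := by
      intro j
      by_cases hj : j = 2
      · subst hj
        rw [g.w2, sub_self, norm_zero]; positivity
      · refine (g.wc j hj).trans ?_
        rw [div_le_div_iff₀ (mul_pos hT (f.H_pos a j)) hT]
        have := f.lo j
        have h0 : 0 ≤ 4 * P * T := by positivity
        calc 4 * P * T = 4 * P * T * 1 := by ring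
          _ ≤ 4 * P * T * (P * ‖H j‖) := mul_le_mul_of_nonneg_left this h0
          _ = _ := by ring
    have h2 : wd (wG T H (sg (sgn H u)) th l) (wG T H (sg (sgn H u)) th m) = wd (u l) (u m) -
        wd (u l - wG T H (sg (sgn H u)) th l) (u m) -
        wd (wG T H (sg (sgn H u)) th l) (u m - wG T H (sg (sgn H u)) th m) := by
      rw [wd_sub, wd_sub']; ring
    have h3 := abs_wd_le (u l - wG T H (sg (sgn H u)) th l) (u m)
    rw [f.hu, mul_one] at h3
    have h4 := abs_wd_le (wG T H (sg (sgn H u)) th l) (u m - wG T H (sg (sgn H u)) th m)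
    rw [g.wn, one_mul] at h4
    have h5 := f.sep l m hlm
    have h6 : |wd (u l) (u m)| ≤ |wd (wG T H (sg (sgn H u)) th l) (wG T H (sg (sgn H u)) th m)| +
        8 * P ^ 2 / T := by
      have : wd (u l) (u m) = wd (wG T H (sg (sgn H u)) th l) (wG T H (sg (sgn H u)) th m) +
        wd (u l - wG T H (sg (sgn H u)) th l) (u m) +
        wd (wG T H (sg (sgn H u)) th l) (u m - wG T H (sg (sgn H u)) th m) := by rw [h2]; ring
      rw [this]
      have e1 := abs_add_le (wd (wG T H (sg (sgn H u)) th l) (wG T H (sg (sgn H u)) th m) +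
        wd (u l - wG T H (sg (sgn H u)) th l) (u m))
        (wd (wG T H (sg (sgn H u)) th l) (u m - wG T H (sg (sgn H u)) th m))
      have e2 := abs_add_le (wd (wG T H (sg (sgn H u)) th l) (wG T H (sg (sgn H u)) th m))
        (wd (u l - wG T H (sg (sgn H u)) th l) (u m))
      have e3 := h1 l
      have e4 := h1 m
      have e5 : 8 * P ^ 2 / T = 4 * P ^ 2 / T + 4 * P ^ 2 / T := by ring
      linarith
    have h7 : P * (8 * P ^ 2 / T) ≤ 1 / 2 := by
      have e1 := le_T a (j := 4) (k := 3) (by linarith [a.pn])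
      have e2 : P * (8 * P ^ 2 / T) = (8 * P ^ 3) / T := by ring
      rw [e2, div_le_iff₀ hT]
      linarith [show (2:ℝ) ^ 4 * P ^ 3 = 16 * P ^ 3 by norm_num]
    have h8 : 1 ≤ 2 * P * |wd (wG T H (sg (sgn H u)) th l) (wG T H (sg (sgn H u)) th m)| := by
      have := mul_le_mul_of_nonneg_left h6 hP0.le
      nlinarith
    have h9 := pw_le a (j := 1) (k := 1) (m := n) (by linarith [a.pn])
    have h10 : 2 * P * |wd (wG T H (sg (sgn H u)) th l) (wG T H (sg (sgn H u)) th m)| ≤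
        P ^ n * |wd (wG T H (sg (sgn H u)) th l) (wG T H (sg (sgn H u)) th m)| := by
      apply mul_le_mul_of_nonneg_right _ (abs_nonneg _)
      simpa using h9
    linarith

theorem sum_const_zero (g : Fin 3 → ℝ) (h : ∀ i j, g i = g j) :
    (∑ i, ∑ j, |g i - g j|) = 0 := by
  refine Finset.sum_eq_zero fun i _ => Finset.sum_eq_zero fun j _ => ?_
  rw [h i j, sub_self, abs_zero]

theorem sum3_le {g : Fin 3 → ℝ} {c : ℝ} (h : ∀ i, g i ≤ c) : ∑ i, g i ≤ 3 * c := by
  rw [Fin.sum_univ_three]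
  linarith [h 0, h 1, h 2]

variable {th V : ℝ} {K : Fin 3 → ℂ}

/-- tests of the forms -/
theorem test_form (f : FR T P H u) (a : NU T P n) (hth : cexp ((th : ℂ) * I) = u 2)
    (hN : NBF P (kap T V) (kpr T V) T H (fun l => (rh T (H l) : ℂ) * u l) K)
    (k : KI T P V H) {B : ℝ × ℝ × ℝ} (hB : ‖B‖ ≤ 1) :
    |F5.H58.sp K (tv T H (sg (sgn H u)) th B 0)| ≤ P ^ n * kap T V * T := by
  have hT : 0 < T := by linarith [a.one]
  have hP := a.two
  have hP0 : 0 < P := by linarith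
  have h1p := f.H_pos a 1
  have hη : ∀ l, ‖tv T H (sg (sgn H u)) th B 0 l‖ ≤ 41 * T := by
    intro l
    refine (tv_norm B 0 f a hth l).trans ?_
    rw [abs_zero]
    nlinarith
  have key := f.trf a hth hN (B := B) (v := tv T H (sg (sgn H u)) th B 0)
    (w := tv T H (sg (sgn H u)) th B 0) (ν := 0) (β := 1) (η := 41 * T)
    (tv_form B 0 f a hth) (fun l => by push_cast; ring) hB hη
  rw [sum_const_zero _ (fun i j => by rw [tv_val B 0 f a hth i, tv_val B 0 f a hth j])] at key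
  rw [sp58]
  refine key.trans ?_
  have e1 : (1 : ℝ) + 41 * T / T = 42 := by field_simp; norm_num
  rw [e1, abs_zero, mul_zero, add_zero, zero_add]
  have e2 : ∑ l, ‖tv T H (sg (sgn H u)) th B 0 l‖ ≤ 3 * (41 * T) := sum3_le hη
  have e3 : 18000 * P ^ 2 * (4 * P / ‖H 1‖) * ‖H 0‖ * 42 =
      3024000 * P ^ 3 * (‖H 0‖ / ‖H 1‖) := by ring
  rw [e3]
  have e4 : 3024000 * P ^ 3 * (‖H 0‖ / ‖H 1‖) ≤ 3024000 * P ^ 3 * (P ^ 2 * (kap T V * T)) :=
    mul_le_mul_of_nonneg_left k.k1 (by positivity)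
  have e5 : kap T V * ∑ l, ‖tv T H (sg (sgn H u)) th B 0 l‖ ≤ kap T V * (3 * (41 * T)) :=
    mul_le_mul_of_nonneg_left e2 k.k0
  have hkT : 0 ≤ kap T V * T := mul_nonneg k.k0 hT.le
  have e6 : P * (3024000 * P ^ 3 * (P ^ 2 * (kap T V * T)) + kap T V * (3 * (41 * T))) ≤
      (2 ^ 22 * P ^ 6) * (kap T V * T) := by
    have : 123 * P ≤ 123 * P ^ 6 := by
      have := pow_le_pow_right₀ (by linarith : 1 ≤ P) (show 1 ≤ 6 by norm_num)
      rw [pow_one] at this
      linarith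
    have h0 : 0 ≤ P ^ 6 := by positivity
    calc P * (3024000 * P ^ 3 * (P ^ 2 * (kap T V * T)) + kap T V * (3 * (41 * T)))
        = (3024000 * P ^ 6 + 123 * P) * (kap T V * T) := by ring
      _ ≤ (2 ^ 22 * P ^ 6) * (kap T V * T) := by
          apply mul_le_mul_of_nonneg_right _ hkT
          linarith
  have e7 : (2 ^ 22 * P ^ 6) * (kap T V * T) ≤ P ^ n * (kap T V * T) :=
    mul_le_mul_of_nonneg_right (pw_le a (by linarith [a.pn])) hkT
  have e8 : P * (3024000 * P ^ 3 * (‖H 0‖ / ‖H 1‖) +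
      kap T V * ∑ l, ‖tv T H (sg (sgn H u)) th B 0 l‖) ≤
      P * (3024000 * P ^ 3 * (P ^ 2 * (kap T V * T)) + kap T V * (3 * (41 * T))) :=
    mul_le_mul_of_nonneg_left (by linarith) hP0.le
  linarith

/-- test of the tangential direction -/
theorem test_y (f : FR T P H u) (a : NU T P n) (hth : cexp ((th : ℂ) * I) = u 2)
    (hN : NBF P (kap T V) (kpr T V) T H (fun l => (rh T (H l) : ℂ) * u l) K)
    (k : KI T P V H) :
    |F5.H58.sp K (tv T H (sg (sgn H u)) th 0 1)| ≤ P ^ n * kap T V := by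
  have hT : 0 < T := by linarith [a.one]
  have hP := a.two
  have hP0 : 0 < P := by linarith
  have h1p := f.H_pos a 1
  have hη : ∀ l, ‖tv T H (sg (sgn H u)) th 0 1 l‖ ≤ 2 := by
    intro l
    refine (tv_norm 0 1 f a hth l).trans ?_
    rw [abs_one, norm_zero]
    linarith
  have key := f.trf a hth hN (B := 0) (v := tv T H (sg (sgn H u)) th 0 1)
    (w := tv T H (sg (sgn H u)) th 0 1) (ν := 0) (β := 0) (η := 2)
    (tv_form 0 1 f a hth) (fun l => by push_cast; ring) (by rw [norm_zero]) hη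
  rw [sum_const_zero _ (fun i j => by rw [tv_val 0 1 f a hth i, tv_val 0 1 f a hth j])] at key
  rw [sp58]
  refine key.trans ?_
  rw [abs_zero, mul_zero, add_zero, zero_add, zero_add]
  have e2 : ∑ l, ‖tv T H (sg (sgn H u)) th 0 1 l‖ ≤ 3 * 2 := sum3_le hη
  have e3 : 18000 * P ^ 2 * (4 * P / ‖H 1‖) * ‖H 0‖ * (2 / T) =
      144000 * P ^ 3 * (‖H 0‖ / ‖H 1‖) / T := by ring
  rw [e3]
  have e4 : 144000 * P ^ 3 * (‖H 0‖ / ‖H 1‖) / T ≤ 144000 * P ^ 5 * kap T V := by
    rw [div_le_iff₀ hT]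
    calc 144000 * P ^ 3 * (‖H 0‖ / ‖H 1‖) ≤ 144000 * P ^ 3 * (P ^ 2 * (kap T V * T)) :=
          mul_le_mul_of_nonneg_left k.k1 (by positivity)
      _ = _ := by ring
  have e5 : kap T V * ∑ l, ‖tv T H (sg (sgn H u)) th 0 1 l‖ ≤ kap T V * (3 * 2) :=
    mul_le_mul_of_nonneg_left e2 k.k0
  have e6 : P * (144000 * P ^ 5 * kap T V + kap T V * (3 * 2)) ≤ (2 ^ 18 * P ^ 6) * kap T V := by
    have : 6 * P ≤ 6 * P ^ 6 := by
      have := pow_le_pow_right₀ (by linarith : 1 ≤ P) (show 1 ≤ 6 by norm_num)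
      rw [pow_one] at this
      linarith
    have h0 : 0 ≤ P ^ 6 := by positivity
    calc P * (144000 * P ^ 5 * kap T V + kap T V * (3 * 2))
        = (144000 * P ^ 6 + 6 * P) * kap T V := by ring
      _ ≤ (2 ^ 18 * P ^ 6) * kap T V := by
          apply mul_le_mul_of_nonneg_right _ k.k0
          linarith
  have e7 : (2 ^ 18 * P ^ 6) * kap T V ≤ P ^ n * kap T V :=
    mul_le_mul_of_nonneg_right (pw_le a (by linarith [a.pn])) k.k0
  have e8 : P * (144000 * P ^ 3 * (‖H 0‖ / ‖H 1‖) / T +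
      kap T V * ∑ l, ‖tv T H (sg (sgn H u)) th 0 1 l‖) ≤
      P * (144000 * P ^ 5 * kap T V + kap T V * (3 * 2)) :=
    mul_le_mul_of_nonneg_left (by linarith) hP0.le
  linarith

/-- tests of the tangential unit vectors -/
theorem test_u (f : FR T P H u) (a : NU T P n) (hth : cexp ((th : ℂ) * I) = u 2)
    (hN : NBF P (kap T V) (kpr T V) T H (fun l => (rh T (H l) : ℂ) * u l) K)
    (k : KI T P V H) (l : Fin 3) :
    |(conj (K l) * (I * wG T H (sg (sgn H u)) th l)).re| ≤ P ^ n * ‖H l‖ := by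
  have hT : 0 < T := by linarith [a.one]
  have hP := a.two
  have hP0 : 0 < P := by linarith
  have h1p := f.H_pos a 1
  have g := geo f a hth
  obtain ⟨v, hv⟩ : ∃ v : Fin 3 → ℂ, v = fun j => if j = l then
    I * wG T H (sg (sgn H u)) th l else 0 := ⟨_, rfl⟩
  have hvl : v l = I * wG T H (sg (sgn H u)) th l := by rw [hv]; simp
  have hvj : ∀ j, j ≠ l → v j = 0 := by intro j hj; rw [hv]; simp [hj]
  have hn1 : ‖I * wG T H (sg (sgn H u)) th l‖ = 1 := by rw [norm_mul, norm_I, g.wn, one_mul]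
  have hη : ∀ j, ‖v j‖ ≤ 1 := by
    intro j
    by_cases hj : j = l
    · subst hj; rw [hvl, hn1]
    · rw [hvj j hj, norm_zero]; norm_num
  have hform : ∀ j, bf 0 (mG T H (sg (sgn H u)) th j) (mG T H (sg (sgn H u)) th j) +
      bf 0 (H j) (H j) / 4 = -(2 * sp (mG T H (sg (sgn H u)) th j) (v j)) := by
    intro j
    rw [bf_zero_left, bf_zero_left, zero_div, add_zero]
    by_cases hj : j = l
    · subst hj
      rw [hvl, sp_eq]
      unfold mG
      have : conj ((rh T (H j) : ℂ) * wG T H (sg (sgn H u)) th j) *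
          (I * wG T H (sg (sgn H u)) th j) = (rh T (H j) : ℂ) * I *
          (conj (wG T H (sg (sgn H u)) th j) * wG T H (sg (sgn H u)) th j) := by
        rw [map_mul, conj_ofReal]; ring
      rw [this, unit_conj (g.wn j), mul_one]
      simp
    · rw [hvj j hj]
      simp [sp]
  have key := f.trf a hth hN (B := 0) (v := v) (w := v) (ν := 0) (β := 0) (η := 1)
    hform (fun l => by push_cast; ring) (by rw [norm_zero]) hη
  have hsum : ∑ j, sp (K j) (v j) = (conj (K l) * (I * wG T H (sg (sgn H u)) th l)).re := by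
    rw [Finset.sum_eq_single l]
    · rw [hvl, sp_eq]
    · intro j _ hj
      rw [hvj j hj]; simp [sp]
    · intro h; exact absurd (Finset.mem_univ _) h
  rw [hsum] at key
  refine key.trans ?_
  have hval : ∀ i, |sp (v i) (H i) + bf 0 (mG T H (sg (sgn H u)) th i) (H i)| ≤ ‖H l‖ := by
    intro i
    rw [bf_zero_left, add_zero]
    by_cases hj : i = l
    · subst hj
      refine (abs_sp_le _ _).trans ?_
      rw [hvl, hn1, one_mul]
    · rw [hvj i hj]
      simp [sp]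
  have hdd : (∑ i, ∑ j, |(sp (v i) (H i) + bf 0 (mG T H (sg (sgn H u)) th i) (H i)) -
      (sp (v j) (H j) + bf 0 (mG T H (sg (sgn H u)) th j) (H j))|) ≤ 18 * ‖H l‖ := by
    have : ∀ i : Fin 3, (∑ j, |(sp (v i) (H i) + bf 0 (mG T H (sg (sgn H u)) th i) (H i)) -
      (sp (v j) (H j) + bf 0 (mG T H (sg (sgn H u)) th j) (H j))|) ≤ 3 * (2 * ‖H l‖) := by
      intro i
      refine sum3_le fun j => ?_
      refine (abs_sub _ _).trans ?_
      linarith [hval i, hval j]
    refine (sum3_le this).trans ?_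
    linarith
  rw [abs_zero, mul_zero, add_zero, zero_add]
  have e2 : ∑ l, ‖v l‖ ≤ 3 * 1 := sum3_le hη
  have e3 : 18000 * P ^ 2 * (4 * P / ‖H 1‖) * ‖H 0‖ * (1 / T) =
      72000 * P ^ 3 * (‖H 0‖ / ‖H 1‖ / T) := by ring
  rw [e3]
  have e4 : 72000 * P ^ 3 * (‖H 0‖ / ‖H 1‖ / T) ≤ 72000 * P ^ 3 * (P ^ 2 * ‖H l‖) :=
    mul_le_mul_of_nonneg_left (k.k6 l) (by positivity)
  have e5 : kap T V * ∑ l, ‖v l‖ ≤ (P ^ 2 * ‖H l‖) * (3 * 1) :=
    mul_le_mul (k.k5 l) e2 (Finset.sum_nonneg fun _ _ => norm_nonneg _) (by positivity)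
  have hH : 0 ≤ ‖H l‖ := norm_nonneg _
  have e6 : P * (18 * ‖H l‖ + 72000 * P ^ 3 * (P ^ 2 * ‖H l‖) + (P ^ 2 * ‖H l‖) * (3 * 1)) ≤
      (2 ^ 17 * P ^ 6) * ‖H l‖ := by
    have h6 : P ≤ P ^ 6 := by
      have := pow_le_pow_right₀ (by linarith : 1 ≤ P) (show 1 ≤ 6 by norm_num)
      rwa [pow_one] at this
    have h7 : P ^ 3 ≤ P ^ 6 := pow_le_pow_right₀ (by linarith : 1 ≤ P) (show 3 ≤ 6 by norm_num)
    have h0 : 0 ≤ P ^ 6 := by positivity
    calc P * (18 * ‖H l‖ + 72000 * P ^ 3 * (P ^ 2 * ‖H l‖) + (P ^ 2 * ‖H l‖) * (3 * 1))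
        = (72000 * P ^ 6 + 3 * P ^ 3 + 18 * P) * ‖H l‖ := by ring
      _ ≤ (2 ^ 17 * P ^ 6) * ‖H l‖ := by
          apply mul_le_mul_of_nonneg_right _ hH
          linarith
  have e7 : (2 ^ 17 * P ^ 6) * ‖H l‖ ≤ P ^ n * ‖H l‖ :=
    mul_le_mul_of_nonneg_right (pw_le a (by linarith [a.pn])) hH
  refine le_trans (mul_le_mul_of_nonneg_left ?_ hP0.le) (e6.trans e7)
  linarith

end Pool.Agent.F5H.F2
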