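import Pool.Agent.Helper36_F5H.F2d

/-!
MP_f5cbfa_nt, squad F5H, F2 (push-forward), part e: the radial test, and the body at the exact point.
-/

set_option autoImplicit false

open Complex ComplexConjugate

namespace Pool.Agent.F5H.F2

open Pool.Agent.F5H.BC

open Pool.Agent.Helper68_F5

variable {T P : ℝ} {n : ℕ} {H u : Fin 3 → ℂ} {th V : ℝ} {K : Fin 3 → ℂ}

theorem norm_one01 : ‖((1, 0, 1) : ℝ × ℝ × ℝ)‖ = 1 := by
  simp [Prod.norm_def]

/-- the radial test -/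
theorem test_r (f : FR T P H u) (a : NU T P n) (hth : cexp ((th : ℂ) * I) = u 2)
    (hN : NBF P (kap T V) (kpr T V) T H (fun l => (rh T (H l) : ℂ) * u l) K)
    (k : KI T P V H) :
    |F5.H58.sp K (tv T H (sg (sgn H u)) th (1, 0, 1) 0)| ≤ P ^ n * kpr T V * T := by
  have hT : 0 < T := by linarith [a.one]
  have hP := a.two
  have hP0 : 0 < P := by linarith
  have h1p := f.H_pos a 1
  have g := geo f a hth
  have hr := fun l => rh_bounds hT (f.H_le a l)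
  have hrp : ∀ l, 0 < rh T (H l) := fun l => by linarith [(hr l).1]
  obtain ⟨W, hW⟩ : ∃ W : Fin 3 → ℂ, W = wG T H (sg (sgn H u)) th := ⟨_, rfl⟩
  obtain ⟨mu, hmu⟩ : ∃ mu : Fin 3 → ℝ, mu = muG T H (sg (sgn H u)) th (1, 0, 1) := ⟨_, rfl⟩
  obtain ⟨yy, hyy⟩ : ∃ yy : Fin 3 → ℝ, yy = yG T H (sg (sgn H u)) th (1, 0, 1) 0 := ⟨_, rfl⟩
  -- the radial component
  have hmul : ∀ l, mu l + rh T (H l) / 2 = -(‖H l‖ ^ 2 / (8 * rh T (H l))) := by
    intro l
    have h1 : bf (1, 0, 1) (mG T H (sg (sgn H u)) th l) (mG T H (sg (sgn H u)) th l) =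
        rh T (H l) ^ 2 := by
      rw [bf_one, sp_self]
      unfold mG
      rw [norm_rho (hrp l).le (g.wn l)]
    rw [hmu]
    unfold muG
    rw [h1, bf_one, sp_self]
    have := (hrp l).ne'
    field_simp
    ring
  have hmul2 : ∀ l, |mu l + rh T (H l) / 2| ≤ ‖H 0‖ ^ 2 / (4 * T) := by
    intro l
    rw [hmul, abs_neg, abs_of_nonneg (by have := hrp l; positivity)]
    have h1 : ‖H l‖ ^ 2 ≤ ‖H 0‖ ^ 2 := pow_le_pow_left₀ (norm_nonneg _) (f.le0 l) 2
    exact div_le_div₀ (by positivity) h1 (by positivity) (by linarith [(hr l).1])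
  -- the tangential component
  have hyl : ∀ l, |yy l| ≤ ‖H 0‖ ^ 2 / T := by
    intro l
    by_cases hl : l = 2
    · subst hl
      rw [hyy]
      unfold yG
      rw [if_pos rfl, abs_zero]
      positivity
    · have hn : ‖H l‖ / 2 ≤ |nG T H (sg (sgn H u)) th l| := g.wi l hl
      have hp := f.H_pos a l
      obtain ⟨t2, ht2⟩ : ∃ t2 : ℝ, t2 = tG T H (sg (sgn H u)) th 2 := ⟨_, rfl⟩
      have htl : rh T (H l) * tG T H (sg (sgn H u)) th l = rh T (H 2) * t2 := by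
        rw [ht2]
        unfold tG
        rw [g.wt l, g.wt 2]
      have hbv : ∀ j, bf (1, 0, 1) (mG T H (sg (sgn H u)) th j) (H j) = rh T (H 2) * t2 := by
        intro j
        rw [bf_one, sp_eq]
        unfold mG
        rw [map_mul, conj_ofReal, mul_assoc, re_ofReal_mul, ht2]
        unfold tG
        rw [g.wt j, g.wt 2]
      have hmt : ∀ j, rh T (H j) * tG T H (sg (sgn H u)) th j = rh T (H 2) * t2 := by
        intro j
        rw [ht2]
        unfold tG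
        rw [g.wt j, g.wt 2]
      have hmm : ∀ j, mu j * tG T H (sg (sgn H u)) th j =
          -(rh T (H 2) * t2 / 2) - rh T (H 2) * t2 * (‖H j‖ ^ 2 / (8 * rh T (H j) ^ 2)) := by
        intro j
        have h1 := hmul j
        have h2 : mu j = -(rh T (H j) / 2) - ‖H j‖ ^ 2 / (8 * rh T (H j)) := by linarith
        rw [h2, sub_mul, ← hmt j]
        have := (hrp j).ne'
        field_simp
      have hy2 : yy l = (rh T (H 2) * t2 * (‖H l‖ ^ 2 / (8 * rh T (H l) ^ 2) -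
          ‖H 2‖ ^ 2 / (8 * rh T (H 2) ^ 2))) / nG T H (sg (sgn H u)) th l := by
        rw [hyy]
        unfold yG
        rw [if_neg hl]
        congr 1
        unfold GG
        rw [hbv, hbv, ← hmu, hmm, hmm]
        ring
      rw [hy2, abs_div, div_le_iff₀ (by linarith)]
      have e1 : |t2| ≤ ‖H 2‖ := by rw [ht2]; exact tG_le g 2
      have e2 : |rh T (H 2) * t2| ≤ T * ‖H 2‖ := by
        rw [abs_mul, abs_of_pos (hrp 2)]
        exact mul_le_mul (hr 2).2.1 e1 (abs_nonneg _) hT.le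
      have e3 : ∀ j, 0 ≤ ‖H j‖ ^ 2 / (8 * rh T (H j) ^ 2) ∧
          ‖H j‖ ^ 2 / (8 * rh T (H j) ^ 2) ≤ ‖H j‖ ^ 2 / (2 * T ^ 2) := by
        intro j
        have := hrp j
        refine ⟨by positivity, ?_⟩
        apply div_le_div_of_nonneg_left (by positivity) (by positivity)
        have h1 : (T / 2) ^ 2 ≤ rh T (H j) ^ 2 := pow_le_pow_left₀ (by positivity) (hr j).1 2
        nlinarith
      have e4 : |‖H l‖ ^ 2 / (8 * rh T (H l) ^ 2) - ‖H 2‖ ^ 2 / (8 * rh T (H 2) ^ 2)| ≤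
          ‖H l‖ ^ 2 / (2 * T ^ 2) := by
        have a1 := e3 l
        have a2 := e3 2
        have a3 : ‖H 2‖ ^ 2 / (2 * T ^ 2) ≤ ‖H l‖ ^ 2 / (2 * T ^ 2) :=
          div_le_div_of_nonneg_right (pow_le_pow_left₀ (norm_nonneg _) (f.two_le l) 2)
            (by positivity)
        rw [abs_le]
        constructor <;> linarith [a1.1, a1.2, a2.1, a2.2]
      rw [abs_mul]
      have e5 : |rh T (H 2) * t2| * |‖H l‖ ^ 2 / (8 * rh T (H l) ^ 2) -
          ‖H 2‖ ^ 2 / (8 * rh T (H 2) ^ 2)| ≤ T * ‖H 2‖ * (‖H l‖ ^ 2 / (2 * T ^ 2)) :=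
        mul_le_mul e2 e4 (abs_nonneg _) (by positivity)
      have e6 : T * ‖H 2‖ * (‖H l‖ ^ 2 / (2 * T ^ 2)) = ‖H 2‖ * ‖H l‖ / T * (‖H l‖ / 2) := by
        field_simp
      have e7 : ‖H 2‖ * ‖H l‖ / T ≤ ‖H 0‖ ^ 2 / T := by
        apply div_le_div_of_nonneg_right _ hT.le
        rw [sq]
        exact mul_le_mul (f.le0 2) (f.le0 l) (norm_nonneg _) (norm_nonneg _)
      have e8 : ‖H 2‖ * ‖H l‖ / T * (‖H l‖ / 2) ≤ ‖H 0‖ ^ 2 / T * |nG T H (sg (sgn H u)) th l| :=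
        mul_le_mul e7 hn (by positivity) (by positivity)
      linarith
  -- the decomposition
  obtain ⟨w, hw⟩ : ∃ w : Fin 3 → ℂ, w = fun l =>
    ((mu l + rh T (H l) / 2 : ℝ) + (yy l : ℂ) * I) * W l +
      ((rh T (H l) / 2 : ℝ) : ℂ) * (u l - W l) := ⟨_, rfl⟩
  have hvw : ∀ l, tv T H (sg (sgn H u)) th (1, 0, 1) 0 l =
      ((-(1 / 2) : ℝ) : ℂ) * ((rh T (H l) : ℂ) * u l) + w l := by
    intro l
    rw [hw]
    unfold tv
    rw [← hmu, ← hyy, ← hW]
    push_cast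
    ring
  have hWn : ∀ l, ‖W l‖ = 1 := by intro l; rw [hW]; exact g.wn l
  have huW : ∀ l, rh T (H l) * ‖u l - W l‖ ≤ 4 * P / ‖H 1‖ := by
    intro l
    by_cases hl : l = 2
    · subst hl
      rw [hW, g.w2, sub_self, norm_zero, mul_zero]
      positivity
    · have h2 := g.wc l hl
      rw [← hW] at h2
      have h3 : rh T (H l) * ‖u l - W l‖ ≤ T * (4 * P / (T * ‖H l‖)) :=
        mul_le_mul (hr l).2.1 h2 (norm_nonneg _) hT.le
      refine h3.trans ?_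
      have h4 : T * (4 * P / (T * ‖H l‖)) = 4 * P / ‖H l‖ := by
        have := (f.H_pos a l).ne'
        field_simp
      rw [h4]
      exact div_le_div_of_nonneg_left (by linarith) (f.H_pos a 1) (f.le1 hl)
  have hwn : ∀ l, ‖w l‖ ≤ 2 * (‖H 0‖ ^ 2 / T) + 2 * P / ‖H 1‖ := by
    intro l
    rw [hw]
    refine (norm_add_le _ _).trans ?_
    have h1 : ‖((mu l + rh T (H l) / 2 : ℝ) + (yy l : ℂ) * I) * W l‖ ≤
        ‖H 0‖ ^ 2 / (4 * T) + ‖H 0‖ ^ 2 / T := by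
      rw [norm_mul, hWn, mul_one]
      exact (norm_xy _ _).trans (add_le_add (hmul2 l) (hyl l))
    have h2 : ‖((rh T (H l) / 2 : ℝ) : ℂ) * (u l - W l)‖ ≤ 2 * P / ‖H 1‖ := by
      rw [norm_mul, norm_real, Real.norm_eq_abs, abs_of_pos (by linarith [hrp l])]
      have := huW l
      calc rh T (H l) / 2 * ‖u l - W l‖ = (rh T (H l) * ‖u l - W l‖) / 2 := by ring
        _ ≤ (4 * P / ‖H 1‖) / 2 := by linarith
        _ = _ := by ring
    have h3 : ‖H 0‖ ^ 2 / (4 * T) ≤ ‖H 0‖ ^ 2 / T := by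
      apply div_le_div_of_nonneg_left (by positivity) hT
      linarith
    linarith
  have hη : ∀ l, ‖tv T H (sg (sgn H u)) th (1, 0, 1) 0 l‖ ≤ 41 * T := by
    intro l
    refine (tv_norm (1, 0, 1) 0 f a hth l).trans ?_
    rw [abs_zero, norm_one01]
    linarith
  have key := f.trf a hth hN (B := (1, 0, 1)) (v := tv T H (sg (sgn H u)) th (1, 0, 1) 0)
    (w := w) (ν := -(1 / 2)) (β := 1) (η := 41 * T)
    (tv_form (1, 0, 1) 0 f a hth) hvw (by rw [norm_one01]) hη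
  rw [sum_const_zero _ (fun i j => by
    rw [tv_val (1, 0, 1) 0 f a hth i, tv_val (1, 0, 1) 0 f a hth j])] at key
  rw [sp58]
  refine key.trans ?_
  have e1 : (1 : ℝ) + 41 * T / T = 42 := by field_simp; norm_num
  have e1' : |(-(1 / 2) : ℝ)| = 1 / 2 := by rw [abs_neg, abs_of_pos]; norm_num
  rw [e1, zero_add, e1']
  have e3 : 18000 * P ^ 2 * (4 * P / ‖H 1‖) * ‖H 0‖ * 42 =
      3024000 * P ^ 3 * (‖H 0‖ / ‖H 1‖) := by ring
  rw [e3]
  have hkT : 0 ≤ kpr T V * T := mul_nonneg k.k0' hT.le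
  have e4 : 3024000 * P ^ 3 * (‖H 0‖ / ‖H 1‖) ≤ 3024000 * P ^ 3 * (P * (kpr T V * T)) :=
    mul_le_mul_of_nonneg_left k.k2 (by positivity)
  have e5 : kap T V * ∑ l, ‖w l‖ ≤ kap T V * (3 * (2 * (‖H 0‖ ^ 2 / T) + 2 * P / ‖H 1‖)) :=
    mul_le_mul_of_nonneg_left (sum3_le hwn) k.k0
  have e6 : kap T V * (3 * (2 * (‖H 0‖ ^ 2 / T) + 2 * P / ‖H 1‖)) =
      6 * (kap T V * (‖H 0‖ ^ 2 / T)) + 6 * P * (kap T V / ‖H 1‖) := by ring
  have e7 : 6 * P * (kap T V / ‖H 1‖) ≤ 6 * P * (P ^ 3 * (kpr T V * T)) :=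
    mul_le_mul_of_nonneg_left k.k4 (by positivity)
  have e8 := k.k3
  have e9 : P * (3024000 * P ^ 3 * (‖H 0‖ / ‖H 1‖) + kap T V * ∑ l, ‖w l‖ +
      kpr T V * T * (1 / 2)) ≤ P * (3024000 * P ^ 3 * (P * (kpr T V * T)) +
      (6 * (P * (kpr T V * T)) + 6 * P * (P ^ 3 * (kpr T V * T))) + kpr T V * T * (1 / 2)) :=
    mul_le_mul_of_nonneg_left (by linarith) hP0.le
  have e10 : P * (3024000 * P ^ 3 * (P * (kpr T V * T)) +
      (6 * (P * (kpr T V * T)) + 6 * P * (P ^ 3 * (kpr T V * T))) + kpr T V * T * (1 / 2)) ≤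
      (2 ^ 22 * P ^ 5) * (kpr T V * T) := by
    have h6 : P ≤ P ^ 5 := by
      have := pow_le_pow_right₀ (by linarith : 1 ≤ P) (show 1 ≤ 5 by norm_num)
      rwa [pow_one] at this
    have h7 : P ^ 2 ≤ P ^ 5 := pow_le_pow_right₀ (by linarith : 1 ≤ P) (show 2 ≤ 5 by norm_num)
    have h0 : 0 ≤ P ^ 5 := by positivity
    calc P * (3024000 * P ^ 3 * (P * (kpr T V * T)) +
      (6 * (P * (kpr T V * T)) + 6 * P * (P ^ 3 * (kpr T V * T))) + kpr T V * T * (1 / 2))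
        = (3024006 * P ^ 5 + 6 * P ^ 2 + P / 2) * (kpr T V * T) := by ring
      _ ≤ (2 ^ 22 * P ^ 5) * (kpr T V * T) := by
          apply mul_le_mul_of_nonneg_right _ hkT
          linarith
  have e11 : (2 ^ 22 * P ^ 5) * (kpr T V * T) ≤ P ^ n * (kpr T V * T) :=
    mul_le_mul_of_nonneg_right (pw_le a (by linarith [a.pn])) hkT
  linarith

theorem norm_e1 : ‖((1, 0, 0) : ℝ × ℝ × ℝ)‖ ≤ 1 := by simp [Prod.norm_def]

theorem norm_e2 : ‖((0, 1, 0) : ℝ × ℝ × ℝ)‖ ≤ 1 := by simp [Prod.norm_def]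

theorem norm_e3 : ‖((0, 0, 1) : ℝ × ℝ × ℝ)‖ ≤ 1 := by simp [Prod.norm_def]

/-- the body at the exact point -/
theorem bd (f : FR T P H u) (a : NU T P n) (hth : cexp ((th : ℂ) * I) = u 2)
    (hN : NBF P (kap T V) (kpr T V) T H (fun l => (rh T (H l) : ℂ) * u l) K)
    (h1 : V ≤ P * ‖H 0‖) (h2 : ‖H 0‖ ≤ P * V) :
    BD T (P ^ n * kap T V) (P ^ n * kpr T V) (fun l => P ^ n * ‖H l‖) H (sg (sgn H u)) th K := by
  have k := ki f a h1 h2
  exact ⟨test_form f a hth hN k norm_e1, test_form f a hth hN k norm_e2,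
    test_form f a hth hN k norm_e3, test_y f a hth hN k, test_r f a hth hN k,
    fun l => test_u f a hth hN k l⟩

end Pool.Agent.F5H.F2
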