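import Pool.Agent.Helper36_F5H.F2e

/-!
MP_f5cbfa_nt, squad F5H, F2 (push-forward), part f: from the real coordinates to the frame.
-/

set_option autoImplicit false

open Complex ComplexConjugate

namespace Pool.Agent.F5H.F2

open Pool.Agent.F5H.BC

open Pool.Agent.Helper68_F5 Pool.Agent.BTL Pool.Agent.F5S

/-- the inverse of the frame -/
noncomputable def gI (A : ℝ × ℝ × ℝ) (z : ℂ) : ℝ × ℝ :=
  (z.re / √A.1 - A.2.1 * z.im / (√A.1 * √(disc A)), √A.1 * z.im / √(disc A))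

/-- the form in the real coordinates -/
noncomputable def Bp (A B : ℝ × ℝ × ℝ) : ℝ × ℝ × ℝ :=
  (bf B (gA A (1, 0)) (gA A (1, 0)), bf B (gA A (1, 0)) (gA A (0, 1)),
    bf B (gA A (0, 1)) (gA A (0, 1)))

structure Pos (A : ℝ × ℝ × ℝ) : Prop where
  a : 0 < A.1
  d : 0 < disc A

theorem KM_fst {M : ℝ} (hM : 1 ≤ M) {A : ℝ × ℝ × ℝ} (hA : A ∈ KM M) : 1 / M ≤ A.1 := by
  have h10 := hA (1, 0)
  simp only [qf, nr] at h10
  norm_num at h10
  rw [one_div]; exact h10.1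

theorem pos_of {M : ℝ} (hM : 1 ≤ M) {A : ℝ × ℝ × ℝ} (hA : A ∈ KM M) : Pos A := by
  have hM0 : 0 < M := by linarith
  exact ⟨lt_of_lt_of_le (by positivity) (KM_fst hM hA),
    lt_of_lt_of_le (by positivity) (KM_disc hM hA).1⟩

variable {A : ℝ × ℝ × ℝ}

theorem Pos.sqrt_div (p : Pos A) : √(disc A / A.1) = √(disc A) / √A.1 :=
  Real.sqrt_div' _ p.a.le

theorem Pos.gA_sp (p : Pos A) (x y : ℝ × ℝ) : sp (gA A x) (gA A y) = bl A x y := by
  have ha : √A.1 ≠ 0 := (Real.sqrt_pos.2 p.a).ne'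
  have h1 : √A.1 ^ 2 = A.1 := Real.sq_sqrt p.a.le
  have h2 : √(disc A) ^ 2 = disc A := Real.sq_sqrt p.d.le
  simp only [sp, gA, bl, p.sqrt_div]
  have e1 : (√A.1 * x.1 + A.2.1 / √A.1 * x.2) * (√A.1 * y.1 + A.2.1 / √A.1 * y.2) =
      √A.1 ^ 2 * (x.1 * y.1) + A.2.1 * (x.1 * y.2 + x.2 * y.1) +
        A.2.1 ^ 2 / √A.1 ^ 2 * (x.2 * y.2) := by
    field_simp
    ring
  have e2 : √(disc A) / √A.1 * x.2 * (√(disc A) / √A.1 * y.2) =
      √(disc A) ^ 2 / √A.1 ^ 2 * (x.2 * y.2) := by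
    field_simp
  rw [e1, e2, h1, h2]
  have := p.a.ne'
  unfold disc
  field_simp
  ring

theorem qf_eq_bl (A : ℝ × ℝ × ℝ) (x : ℝ × ℝ) : qf A x = bl A x x := by
  simp only [qf, bl]; ring

theorem Pos.gA_norm (p : Pos A) (x : ℝ × ℝ) : ‖gA A x‖ ^ 2 = qf A x := by
  rw [← sp_self, p.gA_sp, qf_eq_bl]

theorem Pos.gA_wd (p : Pos A) (x y : ℝ × ℝ) : wd (gA A x) (gA A y) = √(disc A) * dr x y := by
  have ha : √A.1 ≠ 0 := (Real.sqrt_pos.2 p.a).ne'
  simp only [wd, gA, dr, p.sqrt_div]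
  field_simp
  ring

theorem Pos.kA_sp (p : Pos A) (k v : ℝ × ℝ) :
    k.1 * v.1 + k.2 * v.2 = sp (kA A k) (gA A v) := by
  have ha : √A.1 ≠ 0 := (Real.sqrt_pos.2 p.a).ne'
  have hd : √(disc A) ≠ 0 := (Real.sqrt_pos.2 p.d).ne'
  simp only [sp, gA, kA, p.sqrt_div]
  field_simp
  ring

theorem Pos.gA_gI (p : Pos A) (z : ℂ) : gA A (gI A z) = z := by
  have ha : √A.1 ≠ 0 := (Real.sqrt_pos.2 p.a).ne'
  have hd : √(disc A) ≠ 0 := (Real.sqrt_pos.2 p.d).ne'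
  apply Complex.ext
  · simp only [gA, gI]
    field_simp
    ring
  · simp only [gA, gI, p.sqrt_div]
    field_simp

theorem Pos.gI_gA (p : Pos A) (x : ℝ × ℝ) : gI A (gA A x) = x := by
  have ha : √A.1 ≠ 0 := (Real.sqrt_pos.2 p.a).ne'
  have hd : √(disc A) ≠ 0 := (Real.sqrt_pos.2 p.d).ne'
  have h2 : √(disc A) ^ 2 = disc A := Real.sq_sqrt p.d.le
  apply Prod.ext
  · simp only [gA, gI, p.sqrt_div]
    field_simp
    ring
  · simp only [gA, gI, p.sqrt_div]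
    field_simp

theorem gI_add (A : ℝ × ℝ × ℝ) (z w : ℂ) : gI A (z + w) = gI A z + gI A w := by
  apply Prod.ext
  · simp only [gI, add_re, add_im, Prod.fst_add]; ring
  · simp only [gI, add_re, add_im, Prod.snd_add]; ring

theorem gI_real (A : ℝ × ℝ × ℝ) (t : ℝ) (z : ℂ) : gI A ((t : ℂ) * z) = t • gI A z := by
  apply Prod.ext
  · simp only [gI, mul_re, mul_im, ofReal_re, ofReal_im, Prod.smul_fst, smul_eq_mul]; ring
  · simp only [gI, mul_re, mul_im, ofReal_re, ofReal_im, Prod.smul_snd, smul_eq_mul]; ring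

theorem gA_lin (A : ℝ × ℝ × ℝ) (x : ℝ × ℝ) :
    gA A x = (x.1 : ℂ) * gA A (1, 0) + (x.2 : ℂ) * gA A (0, 1) := by
  apply Complex.ext
  · simp only [gA, add_re, mul_re, ofReal_re, ofReal_im]; ring
  · simp only [gA, add_im, mul_im, ofReal_re, ofReal_im]; ring

theorem bl_Bp (A B : ℝ × ℝ × ℝ) (x y : ℝ × ℝ) :
    bl (Bp A B) x y = bf B (gA A x) (gA A y) := by
  rw [gA_lin A x, gA_lin A y, bf_add, bf_add', bf_add', bf_real, bf_real]
  rw [bf_comm B (gA A (1, 0)) (↑y.1 * gA A (1, 0)), bf_comm B (gA A (0, 1)) (↑y.1 * gA A (1, 0)),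
    bf_real, bf_real, bf_comm B (↑x.1 * gA A (1, 0)) (↑y.2 * gA A (0, 1)),
    bf_comm B (↑x.2 * gA A (0, 1)) (↑y.2 * gA A (0, 1)), bf_real, bf_real,
    bf_comm B (gA A (0, 1)) (↑x.1 * gA A (1, 0)), bf_comm B (gA A (0, 1)) (↑x.2 * gA A (0, 1)),
    bf_real, bf_real]
  simp only [bl, Bp]
  ring

theorem norm_sq_le_nr (x : ℝ × ℝ) : ‖x‖ ^ 2 ≤ nr x ∧ nr x ≤ 2 * ‖x‖ ^ 2 := by
  have h1 : |x.1| ≤ ‖x‖ := norm_fst_le x
  have h2 : |x.2| ≤ ‖x‖ := norm_snd_le x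
  have e1 : x.1 ^ 2 ≤ ‖x‖ ^ 2 := by
    rw [← sq_abs x.1]; exact pow_le_pow_left₀ (abs_nonneg _) h1 2
  have e2 : x.2 ^ 2 ≤ ‖x‖ ^ 2 := by
    rw [← sq_abs x.2]; exact pow_le_pow_left₀ (abs_nonneg _) h2 2
  refine ⟨?_, by unfold nr; linarith⟩
  have h3 : ‖x‖ = |x.1| ∨ ‖x‖ = |x.2| := by
    rw [Prod.norm_def, Real.norm_eq_abs, Real.norm_eq_abs]
    exact max_choice _ _
  unfold nr
  rcases h3 with h | h
  · rw [h, sq_abs]; nlinarith [sq_nonneg x.2]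
  · rw [h, sq_abs]; nlinarith [sq_nonneg x.1]

theorem gA_le {M : ℝ} (hM : 2 ≤ M) (hA : A ∈ KM M) (x : ℝ × ℝ) : ‖gA A x‖ ≤ M * ‖x‖ := by
  have p := pos_of (by linarith) hA
  apply abs_le_of_sq_le_sqX _ (by positivity)
  rw [p.gA_norm]
  have h1 := (hA x).2
  have h2 := (norm_sq_le_nr x).2
  calc qf A x ≤ M * nr x := h1
    _ ≤ M * (2 * ‖x‖ ^ 2) := mul_le_mul_of_nonneg_left h2 (by linarith)
    _ ≤ M * (M * ‖x‖ ^ 2) := by
        apply mul_le_mul_of_nonneg_left _ (by linarith)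
        exact mul_le_mul_of_nonneg_right hM (by positivity)
    _ = _ := by ring

theorem le_gA {M : ℝ} (hM : 2 ≤ M) (hA : A ∈ KM M) (x : ℝ × ℝ) : ‖x‖ ≤ M * ‖gA A x‖ := by
  have p := pos_of (by linarith) hA
  apply abs_le_of_sq_le_sqX _ (by positivity)
  rw [mul_pow, p.gA_norm]
  have h1 := (hA x).1
  have h2 := (norm_sq_le_nr x).1
  have hM0 : 0 < M := by linarith
  rw [div_le_iff₀ hM0] at h1
  have h3 : 0 ≤ qf A x := by rw [← p.gA_norm]; positivity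
  nlinarith

theorem norm6 {x : R6} {c : ℝ} (h : ∀ l, ‖cp x l‖ ≤ c) : ‖x‖ ≤ c := by
  have h0 : ‖x.1‖ ≤ c := h 0
  have h1 : ‖x.2.1‖ ≤ c := h 1
  have h2 : ‖x.2.2‖ ≤ c := h 2
  rw [Prod.norm_def, Prod.norm_def]
  exact sup_le h0 (sup_le h1 h2)

theorem le_norm6 (x : R6) (l : Fin 3) : ‖cp x l‖ ≤ ‖x‖ := by
  fin_cases l
  · exact norm_fst_le x
  · exact (norm_fst_le x.2).trans (norm_snd_le x)
  · exact (norm_snd_le x.2).trans (norm_snd_le x)

theorem cp_tr (f : Fin 3 → ℝ × ℝ) (l : Fin 3) : cp (tr f) l = f l := by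
  fin_cases l <;> rfl

theorem tr_cp (x : R6) : tr (cp x) = x := rfl

theorem cp_ext {x y : R6} (h : ∀ l, cp x l = cp y l) : x = y := by
  rw [← tr_cp x, ← tr_cp y]
  unfold tr
  rw [h 0, h 1, h 2]

theorem cp_add (x y : R6) (l : Fin 3) : cp (x + y) l = cp x l + cp y l := by
  fin_cases l <;> rfl

theorem cp_smul (t : ℝ) (x : R6) (l : Fin 3) : cp (t • x) l = t • cp x l := by
  fin_cases l <;> rfl

/-- the norm field in the frame -/
theorem nbf_of {T Q : ℝ} (hT : 0 ≤ T) (hQ : 2 ≤ Q) (hA : A ∈ KM Q) {h m k : R6} (hF : Fo T h m A)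
    (hN : NB Q T h m k) :
    NBF (Q ^ 2) (kap T ‖h‖) (kpr T ‖h‖) T (hG A h) (hG A m) (kG A k) := by
  have p := pos_of (by linarith) hA
  intro B v w ν hB hv
  have hvc : ∀ l, cp (tr fun l => gI A (v l)) l = gI A (v l) := fun l => cp_tr _ l
  have hwc : ∀ l, cp (tr fun l => gI A (w l)) l = gI A (w l) := fun l => cp_tr _ l
  have hgv : ∀ l, gA A (gI A (v l)) = v l := fun l => p.gA_gI _
  have h1 : dFo h m A (tr fun l => gI A (v l)) (Bp A B) := by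
    intro l
    rw [qf_eq_bl, qf_eq_bl, bl_Bp, bl_Bp, hvc, ← p.gA_sp, hgv]
    exact hB l
  have h2 : (tr fun l => gI A (v l)) = ν • m + (tr fun l => gI A (w l)) := by
    apply cp_ext
    intro l
    rw [cp_add, cp_smul, hvc, hwc, hv l, gI_add, gI_real]
    unfold hG
    rw [p.gI_gA]
  have key := hN A (Bp A B) _ _ ν hF h1 h2
  have e1 : d6 k (tr fun l => gI A (v l)) = ∑ l, sp (kG A k l) (v l) := by
    unfold d6
    refine Finset.sum_congr rfl fun l _ => ?_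
    rw [p.kA_sp, hvc, hgv]
    rfl
  have e2 : ∀ l, Gf h m A (Bp A B) (tr fun l => gI A (v l)) l =
      sp (v l) (hG A h l) + bf B (hG A m l) (hG A h l) := by
    intro l
    unfold Gf
    rw [hvc, bl_Bp, ← p.gA_sp, hgv]
    rfl
  have e3 : ‖(tr fun l => gI A (w l))‖ ≤ Q * ∑ l, ‖w l‖ := by
    apply norm6
    intro l
    rw [hwc]
    refine (le_gA hQ hA _).trans ?_
    rw [p.gA_gI]
    apply mul_le_mul_of_nonneg_left _ (by linarith)
    exact Finset.single_le_sum (f := fun l => ‖w l‖) (fun _ _ => norm_nonneg _) (Finset.mem_univ l)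
  rw [e1] at key
  simp only [e2] at key
  refine key.trans ?_
  have hk0 : 0 ≤ kap T ‖h‖ := Real.sqrt_nonneg _
  have hs : 0 ≤ ∑ i, ∑ j, |(sp (v i) (hG A h i) + bf B (hG A m i) (hG A h i)) -
      (sp (v j) (hG A h j) + bf B (hG A m j) (hG A h j))| :=
    Finset.sum_nonneg fun _ _ => Finset.sum_nonneg fun _ _ => abs_nonneg _
  have hr0 : 0 ≤ kpr T ‖h‖ := le_trans (by positivity) (le_max_left _ _)
  have hQ2 : Q ≤ Q ^ 2 := by nlinarith
  have e4 : kap T ‖h‖ * ‖(tr fun l => gI A (w l))‖ ≤ Q * (kap T ‖h‖ * ∑ l, ‖w l‖) := by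
    calc kap T ‖h‖ * ‖(tr fun l => gI A (w l))‖ ≤ kap T ‖h‖ * (Q * ∑ l, ‖w l‖) :=
          mul_le_mul_of_nonneg_left e3 hk0
      _ = _ := by ring
  have hT0 : 0 ≤ kpr T ‖h‖ * T * |ν| := mul_nonneg (mul_nonneg hr0 hT) (abs_nonneg _)
  have e6 := mul_le_mul_of_nonneg_right hQ2 hT0
  have e7 := mul_le_mul_of_nonneg_right hQ2 hs
  have e5 : Q * (kap T ‖h‖ * ‖(tr fun l => gI A (w l))‖) ≤
      Q ^ 2 * (kap T ‖h‖ * ∑ l, ‖w l‖) := by
    calc Q * (kap T ‖h‖ * ‖(tr fun l => gI A (w l))‖) ≤ Q * (Q * (kap T ‖h‖ * ∑ l, ‖w l‖)) :=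
          mul_le_mul_of_nonneg_left e4 (by linarith)
      _ = _ := by ring
  linarith

/-! ### permutations -/

theorem hG_pm (A : ℝ × ℝ × ℝ) (p : Equiv.Perm (Fin 3)) (h : R6) :
    hG A (pm p h) = fun l => hG A h (p l) := by
  funext l
  unfold hG pm
  rw [cp_tr]

theorem kG_pm (A : ℝ × ℝ × ℝ) (p : Equiv.Perm (Fin 3)) (h : R6) :
    kG A (pm p h) = fun l => kG A h (p l) := by
  funext l
  unfold kG pm
  rw [cp_tr]

theorem nbf_perm {P κ κr T : ℝ} {H M K : Fin 3 → ℂ} (hN : NBF P κ κr T H M K)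
    (p : Equiv.Perm (Fin 3)) :
    NBF P κ κr T (fun l => H (p l)) (fun l => M (p l)) (fun l => K (p l)) := by
  intro B v w ν hB hv
  have h1 : ∀ l, bf B (M l) (M l) + bf B (H l) (H l) / 4 =
      -(2 * sp (M l) ((fun l => v (p.symm l)) l)) := by
    intro l
    have := hB (p.symm l)
    simp only [Equiv.apply_symm_apply] at this
    exact this
  have h2 : ∀ l, (fun l => v (p.symm l)) l = (ν : ℂ) * M l + (fun l => w (p.symm l)) l := by
    intro l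
    have := hv (p.symm l)
    simp only [Equiv.apply_symm_apply] at this
    exact this
  have key := hN B (fun l => v (p.symm l)) (fun l => w (p.symm l)) ν h1 h2
  have e1 : ∑ l, sp (K l) (v (p.symm l)) = ∑ l, sp (K (p l)) (v l) := by
    rw [← Equiv.sum_comp p (fun l => sp (K l) (v (p.symm l)))]
    simp only [Equiv.symm_apply_apply]
  have e2 : ∑ l, ‖w (p.symm l)‖ = ∑ l, ‖w l‖ := Equiv.sum_comp p.symm (fun l => ‖w l‖)
  have e3 : (∑ i, ∑ j, |(sp (v (p.symm i)) (H i) + bf B (M i) (H i)) -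
      (sp (v (p.symm j)) (H j) + bf B (M j) (H j))|) =
      ∑ i, ∑ j, |(sp (v i) (H (p i)) + bf B (M (p i)) (H (p i))) -
      (sp (v j) (H (p j)) + bf B (M (p j)) (H (p j)))| := by
    rw [← Equiv.sum_comp p]
    refine Finset.sum_congr rfl fun i _ => ?_
    rw [← Equiv.sum_comp p]
    simp only [Equiv.symm_apply_apply]
  rw [e1, e2, e3] at key
  exact key

theorem exists_sort (H : Fin 3 → ℂ) : ∃ p : Equiv.Perm (Fin 3), Srt fun l => H (p l) := by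
  refine ⟨Tuple.sort fun l => -‖H l‖, ?_⟩
  have h := Tuple.monotone_sort fun l => -‖H l‖
  have h1 := h (show (1 : Fin 3) ≤ 2 by decide)
  have h0 := h (show (0 : Fin 3) ≤ 1 by decide)
  simp only [Function.comp] at h0 h1
  exact ⟨by linarith, by linarith⟩

theorem V2r_le {h : R6} {H : Fin 3 → ℂ} {c : ℝ} (hc : ∀ l, ‖cp h l‖ ≤ c * ‖H l‖) (hc0 : 0 ≤ c)
    (p : Equiv.Perm (Fin 3)) (hs : Srt fun l => H (p l)) : V2r h ≤ c * ‖H (p 1)‖ := by
  have h1 : ∀ l, l ≠ p 0 → ‖cp h l‖ ≤ c * ‖H (p 1)‖ := by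
    intro l hl
    obtain ⟨j, rfl⟩ := p.surjective l
    refine (hc _).trans (mul_le_mul_of_nonneg_left ?_ hc0)
    fin_cases j
    · exact absurd rfl hl
    · exact le_rfl
    · exact hs.1
  have h2 : ∀ i j : Fin 3, i ≠ j → min ‖cp h i‖ ‖cp h j‖ ≤ c * ‖H (p 1)‖ := by
    intro i j hij
    by_cases hi : i = p 0
    · exact (min_le_right _ _).trans (h1 j fun hj => hij (hi.trans hj.symm))
    · exact (min_le_left _ _).trans (h1 i hi)
  unfold V2r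
  exact max_le (h2 0 1 (by decide)) (max_le (h2 0 2 (by decide)) (h2 1 2 (by decide)))

/-- the data of a point of the left hand side -/
theorem fr_of {T Q : ℝ} (hT : 0 < T) (hQ : 2 ≤ Q) (hL : Q ^ 4 * Lx T ≤ T) {h m : R6}
    (hA : A ∈ KM Q) (hF : Fo T h m A) (hh : ∀ l, 1 ≤ ‖cp h l‖) (hn : ‖h‖ ≤ Q * Lx T)
    (hV : T ^ (677 / 2000 : ℝ) < V2r h)
    (h1 : ∀ i j, |bl A (cp m i) (cp h i) - bl A (cp m j) (cp h j)| ≤ Q)
    (h2 : ∀ l, |bl A (cp m l) (cp h l)| ≤ Q * Rx T)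
    (h3 : ∀ i j, i ≠ j → T ^ 2 ≤ Q * |dr (cp m i) (cp m j)|)
    (p : Equiv.Perm (Fin 3)) (hs : Srt fun l => hG A h (p l)) :
    (∀ l, hG A m l = (rh T (hG A h l) : ℂ) * (hG A m l / (rh T (hG A h l) : ℂ))) ∧
    FR T (Q ^ 3) (fun l => hG A h (p l)) (fun l => hG A m (p l) / (rh T (hG A h (p l)) : ℂ)) := by
  have hQ0 : 0 < Q := by linarith
  have pp := pos_of (by linarith) hA
  have hLx := Lx_pos hT
  have hH1 : ∀ l, ‖hG A h l‖ ≤ Q ^ 2 * Lx T := by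
    intro l
    calc ‖hG A h l‖ ≤ Q * ‖cp h l‖ := gA_le hQ hA _
      _ ≤ Q * (Q * Lx T) := mul_le_mul_of_nonneg_left ((le_norm6 h l).trans hn) hQ0.le
      _ = _ := by ring
  have hHT : ∀ l, ‖hG A h l‖ ≤ T := by
    intro l
    refine (hH1 l).trans (le_trans ?_ hL)
    exact mul_le_mul_of_nonneg_right (pow_le_pow_right₀ (by linarith) (by norm_num)) hLx.le
  have hrb := fun l => rh_bounds hT (hHT l)
  have hrp : ∀ l, 0 < rh T (hG A h l) := fun l => by linarith [(hrb l).1]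
  have hM : ∀ l, ‖hG A m l‖ = rh T (hG A h l) := by
    intro l
    have e1 := hF l
    rw [← pp.gA_norm, ← pp.gA_norm] at e1
    have e2 : ‖hG A m l‖ ^ 2 = T ^ 2 - ‖hG A h l‖ ^ 2 / 4 := by
      unfold hG; linarith
    unfold BC.rh
    rw [← e2, Real.sqrt_sq (norm_nonneg _)]
  have hrc : ∀ l, (rh T (hG A h l) : ℂ) ≠ 0 := fun l => by
    rw [Ne, ofReal_eq_zero]; exact (hrp l).ne'
  have hmu : ∀ l, hG A m l = (rh T (hG A h l) : ℂ) * (hG A m l / (rh T (hG A h l) : ℂ)) := by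
    intro l
    rw [mul_div_cancel₀]
    exact hrc l
  have hsp : ∀ l, rh T (hG A h l) * sp (hG A m l / (rh T (hG A h l) : ℂ)) (hG A h l) =
      bl A (cp m l) (cp h l) := by
    intro l
    rw [← sp_real, ← hmu l]
    exact pp.gA_sp _ _
  have hle : ∀ l, ‖cp h l‖ ≤ Q * ‖hG A h l‖ := fun l => le_gA hQ hA _
  have hQ3 : Q ≤ Q ^ 3 := by
    have := pow_le_pow_right₀ (by linarith : 1 ≤ Q) (show 1 ≤ 3 by norm_num)
    rwa [pow_one] at this
  have hQ23 : Q ^ 2 ≤ Q ^ 3 := pow_le_pow_right₀ (by linarith) (by norm_num)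
  refine ⟨hmu, ⟨?_, ?_, ?_, ?_, hs, ?_, ?_, ?_⟩⟩
  · intro l
    show ‖hG A m (p l) / (rh T (hG A h (p l)) : ℂ)‖ = 1
    rw [norm_div, hM, norm_real, Real.norm_eq_abs, abs_of_pos (hrp _)]
    exact div_self (hrp _).ne'
  · intro l
    calc 1 ≤ ‖cp h (p l)‖ := hh _
      _ ≤ Q * ‖hG A h (p l)‖ := hle _
      _ ≤ Q ^ 3 * ‖hG A h (p l)‖ := mul_le_mul_of_nonneg_right hQ3 (norm_nonneg _)
  · intro l
    exact (hH1 _).trans (mul_le_mul_of_nonneg_right hQ23 hLx.le)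
  · intro l hl
    have e1 := V2r_le hle hQ0.le p hs
    have e2 : ‖hG A h (p 1)‖ ≤ ‖hG A h (p l)‖ := by
      fin_cases l
      · exact hs.2
      · exact le_rfl
      · exact absurd rfl hl
    calc T ^ (677 / 2000 : ℝ) ≤ Q * ‖hG A h (p 1)‖ := hV.le.trans e1
      _ ≤ Q * ‖hG A h (p l)‖ := mul_le_mul_of_nonneg_left e2 hQ0.le
      _ ≤ Q ^ 3 * ‖hG A h (p l)‖ := mul_le_mul_of_nonneg_right hQ3 (norm_nonneg _)
  · intro l
    show |rh T (hG A h (p l)) * sp (hG A m (p l) / (rh T (hG A h (p l)) : ℂ)) (hG A h (p l)) -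
      rh T (hG A h (p 2)) * sp (hG A m (p 2) / (rh T (hG A h (p 2)) : ℂ)) (hG A h (p 2))| ≤ Q ^ 3
    rw [hsp, hsp]
    exact (h1 _ _).trans hQ3
  · intro l
    show |rh T (hG A h (p l)) * sp (hG A m (p l) / (rh T (hG A h (p l)) : ℂ)) (hG A h (p l))| ≤
      Q ^ 3 * Rx T
    rw [hsp]
    exact (h2 _).trans (mul_le_mul_of_nonneg_right hQ3 (Rx_pos hT).le)
  · intro i j hij
    have hpij : p i ≠ p j := fun h => hij (p.injective h)
    have e1 := h3 _ _ hpij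
    have e2 : wd (hG A m (p i)) (hG A m (p j)) = rh T (hG A h (p i)) * (rh T (hG A h (p j)) *
        wd (hG A m (p i) / (rh T (hG A h (p i)) : ℂ)) (hG A m (p j) / (rh T (hG A h (p j)) : ℂ)))
        := by
      rw [← wd_real', ← wd_real, ← hmu, ← hmu]
    have e3 : wd (hG A m (p i)) (hG A m (p j)) = √(disc A) * dr (cp m (p i)) (cp m (p j)) :=
      pp.gA_wd _ _
    have e4 : 1 / Q ≤ √(disc A) := by
      apply Real.le_sqrt_of_sq_le
      have := (KM_disc (by linarith) hA).1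
      rw [div_pow, one_pow]; exact this
    have e5 : T ^ 2 ≤ Q ^ 2 * |wd (hG A m (p i)) (hG A m (p j))| := by
      rw [e3, abs_mul, abs_of_nonneg (Real.sqrt_nonneg _)]
      have e6 : 1 ≤ Q * √(disc A) := by
        rw [div_le_iff₀ hQ0] at e4; linarith
      have e7 : 0 ≤ Q * |dr (cp m (p i)) (cp m (p j))| := by positivity
      nlinarith
    rw [e2, abs_mul, abs_mul, abs_of_pos (hrp _), abs_of_pos (hrp _)] at e5
    have e8 : rh T (hG A h (p i)) * (rh T (hG A h (p j)) *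
        |wd (hG A m (p i) / (rh T (hG A h (p i)) : ℂ)) (hG A m (p j) / (rh T (hG A h (p j)) : ℂ))|)
        ≤ T * (T *
        |wd (hG A m (p i) / (rh T (hG A h (p i)) : ℂ)) (hG A m (p j) / (rh T (hG A h (p j)) : ℂ))|)
        := by
      apply mul_le_mul (hrb _).2.1 _ (mul_nonneg (hrp _).le (abs_nonneg _)) hT.le
      exact mul_le_mul_of_nonneg_right (hrb _).2.1 (abs_nonneg _)
    have e9 : T ^ 2 * 1 ≤ T ^ 2 * (Q ^ 2 *
        |wd (hG A m (p i) / (rh T (hG A h (p i)) : ℂ)) (hG A m (p j) / (rh T (hG A h (p j)) : ℂ))|)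
        := by
      have := mul_le_mul_of_nonneg_left e8 (show 0 ≤ Q ^ 2 by positivity)
      nlinarith
    have e10 := le_of_mul_le_mul_left e9 (by positivity)
    exact e10.trans (mul_le_mul_of_nonneg_right hQ23 (abs_nonneg _))

end Pool.Agent.F5H.F2
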