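import Pool.Agent.Helper36_F5H.F2f

/-!
MP_f5cbfa_nt, squad F5H, F2 (push-forward), part g: volumes of images under Lipschitz maps of
six dimensional spaces, and the Lipschitz bound of the parametrisation.
-/

set_option autoImplicit false

open MeasureTheory Complex ComplexConjugate
open scoped NNReal ENNReal

namespace Pool.Agent.F5H.F2

open Pool.Agent.F5H.BC

open Pool.Agent.BTL Pool.Agent.F5S

/-- the parameters: form, angle of the index `2`; the two other angles -/
abbrev P6 : Type := ((ℝ × ℝ × ℝ) × ℝ) × (ℝ × ℝ)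

theorem lip_vol : ∃ C : ℝ≥0, ∀ (K : ℝ≥0) (f : P6 → R6) (S : Set P6), LipschitzOnWith K f S →
    volume (f '' S) ≤ C * (K : ℝ≥0∞) ^ 6 * volume S := by
  have h1 : Module.finrank ℝ R6 = 6 := by simp
  have h2 : Module.finrank ℝ P6 = 6 := by simp
  have i1 : (Measure.hausdorffMeasure (6 : ℕ) : Measure R6).IsAddHaarMeasure := by
    have := isAddHaarMeasure_hausdorffMeasure (E := R6)
    rwa [h1] at this
  have i2 : (Measure.hausdorffMeasure (6 : ℕ) : Measure P6).IsAddHaarMeasure := by
    have := isAddHaarMeasure_hausdorffMeasure (E := P6)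
    rwa [h2] at this
  have j2 : (volume : Measure (ℝ × ℝ)).IsAddHaarMeasure := by
    exact Measure.prod.instIsAddHaarMeasure _ _
  have j4 : (volume : Measure ((ℝ × ℝ) × (ℝ × ℝ))).IsAddHaarMeasure := by
    exact Measure.prod.instIsAddHaarMeasure _ _
  have j6 : (volume : Measure R6).IsAddHaarMeasure := by
    exact Measure.prod.instIsAddHaarMeasure _ _
  have k3 : (volume : Measure (ℝ × ℝ × ℝ)).IsAddHaarMeasure := by
    exact Measure.prod.instIsAddHaarMeasure _ _
  have k4 : (volume : Measure ((ℝ × ℝ × ℝ) × ℝ)).IsAddHaarMeasure := by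
    exact Measure.prod.instIsAddHaarMeasure _ _
  have k6 : (volume : Measure P6).IsAddHaarMeasure := by
    exact Measure.prod.instIsAddHaarMeasure _ _
  have e1 := Measure.isAddLeftInvariant_eq_smul (volume : Measure R6)
    (Measure.hausdorffMeasure (6 : ℕ) : Measure R6)
  have e2 := Measure.isAddLeftInvariant_eq_smul (Measure.hausdorffMeasure (6 : ℕ) : Measure P6)
    (volume : Measure P6)
  obtain ⟨c1, hc1⟩ : ∃ c : ℝ≥0, c = Measure.addHaarScalarFactor (volume : Measure R6)
    (Measure.hausdorffMeasure (6 : ℕ) : Measure R6) := ⟨_, rfl⟩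
  obtain ⟨c2, hc2⟩ : ∃ c : ℝ≥0, c = Measure.addHaarScalarFactor
    (Measure.hausdorffMeasure (6 : ℕ) : Measure P6) (volume : Measure P6) := ⟨_, rfl⟩
  rw [← hc1] at e1
  rw [← hc2] at e2
  refine ⟨c1 * c2, fun K f S hf => ?_⟩
  have key := hf.hausdorffMeasure_image_le (d := ((6 : ℕ) : ℝ)) (by positivity)
  have e3 : volume (f '' S) = c1 * (Measure.hausdorffMeasure (6 : ℕ) : Measure R6) (f '' S) := by
    conv_lhs => rw [e1]
    rfl
  have e4 : (Measure.hausdorffMeasure (6 : ℕ) : Measure P6) S = c2 * volume S := by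
    rw [e2]
    rfl
  rw [e3]
  rw [e4] at key
  rw [ENNReal.rpow_natCast] at key
  calc (c1 : ℝ≥0∞) * (Measure.hausdorffMeasure (6 : ℕ) : Measure R6) (f '' S)
      ≤ c1 * ((K : ℝ≥0∞) ^ 6 * (c2 * volume S)) := by gcongr
    _ = _ := by push_cast; ring

/-- bounded Lipschitz functions on a set -/
def BL {α : Type*} [PseudoMetricSpace α] (S : Set α) (C : ℝ) (f : α → ℝ) : Prop :=
  0 ≤ C ∧ (∀ x ∈ S, |f x| ≤ C) ∧ ∀ x ∈ S, ∀ y ∈ S, |f x - f y| ≤ C * dist x y

section BL

variable {α : Type*} [PseudoMetricSpace α] {S : Set α} {C D : ℝ} {f g : α → ℝ}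

theorem BL.mono (h : BL S C f) (hC : C ≤ D) : BL S D f :=
  ⟨h.1.trans hC, fun x hx => (h.2.1 x hx).trans hC, fun x hx y hy =>
    (h.2.2 x hx y hy).trans (mul_le_mul_of_nonneg_right hC dist_nonneg)⟩

theorem BL.add (hf : BL S C f) (hg : BL S D g) : BL S (C + D) (fun x => f x + g x) := by
  refine ⟨add_nonneg hf.1 hg.1, fun x hx => (abs_add_le _ _).trans
    (add_le_add (hf.2.1 x hx) (hg.2.1 x hx)), fun x hx y hy => ?_⟩
  have e : f x + g x - (f y + g y) = (f x - f y) + (g x - g y) := by ring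
  rw [e]
  refine (abs_add_le _ _).trans ?_
  have := hf.2.2 x hx y hy
  have := hg.2.2 x hx y hy
  linarith

theorem BL.neg (hf : BL S C f) : BL S C (fun x => -f x) := by
  refine ⟨hf.1, fun x hx => by rw [abs_neg]; exact hf.2.1 x hx, fun x hx y hy => ?_⟩
  have e : -f x - -f y = -(f x - f y) := by ring
  rw [e, abs_neg]
  exact hf.2.2 x hx y hy

theorem BL.sub (hf : BL S C f) (hg : BL S D g) : BL S (C + D) (fun x => f x - g x) := by
  have := hf.add hg.neg
  simpa [sub_eq_add_neg] using this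

theorem BL.mul (hf : BL S C f) (hg : BL S D g) : BL S (2 * C * D + C * D) (fun x => f x * g x) := by
  have h1 := hf.1
  have h2 := hg.1
  have h3 : 0 ≤ C * D := mul_nonneg h1 h2
  refine ⟨by positivity, fun x hx => ?_, fun x hx y hy => ?_⟩
  · rw [abs_mul]
    have := mul_le_mul (hf.2.1 x hx) (hg.2.1 x hx) (abs_nonneg _) h1
    linarith
  · have e : f x * g x - f y * g y = f x * (g x - g y) + (f x - f y) * g y := by ring
    rw [e]
    refine (abs_add_le _ _).trans ?_
    rw [abs_mul, abs_mul]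
    have a1 := mul_le_mul (hf.2.1 x hx) (hg.2.2 x hx y hy) (abs_nonneg _) h1
    have a2 := mul_le_mul (hf.2.2 x hx y hy) (hg.2.1 y hy) (abs_nonneg _)
      (mul_nonneg h1 dist_nonneg)
    have h4 : 0 ≤ C * D * dist x y := mul_nonneg h3 dist_nonneg
    nlinarith

theorem BL.inv (hf : BL S C f) {c : ℝ} (hc : 0 < c) (h : ∀ x ∈ S, 1 / c ≤ f x) :
    BL S (c + c ^ 2 * C) (fun x => 1 / f x) := by
  have h1 := hf.1
  refine ⟨by positivity, fun x hx => ?_, fun x hx y hy => ?_⟩
  · have hx0 := h x hx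
    have hp : 0 < f x := lt_of_lt_of_le (by positivity) hx0
    rw [abs_of_pos (by positivity)]
    have : 1 / f x ≤ c := by
      rw [div_le_iff₀ hp]
      rw [div_le_iff₀ hc] at hx0
      linarith
    have h2 : 0 ≤ c ^ 2 * C := by positivity
    linarith
  · have hx0 := h x hx
    have hpx : 0 < f x := lt_of_lt_of_le (by positivity) hx0
    have hy0 := h y hy
    have hpy : 0 < f y := lt_of_lt_of_le (by positivity) hy0
    have ix : 1 / f x ≤ c := by
      rw [div_le_iff₀ hpx]
      rw [div_le_iff₀ hc] at hx0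
      linarith
    have iy : 1 / f y ≤ c := by
      rw [div_le_iff₀ hpy]
      rw [div_le_iff₀ hc] at hy0
      linarith
    have e : 1 / f x - 1 / f y = -(f x - f y) * ((1 / f x) * (1 / f y)) := by
      field_simp
      ring
    rw [e, abs_mul, abs_neg, abs_of_pos (by positivity : 0 < 1 / f x * (1 / f y))]
    have a1 := mul_le_mul (hf.2.2 x hx y hy) (mul_le_mul ix iy (by positivity) hc.le)
      (by positivity) (mul_nonneg h1 dist_nonneg)
    have h2 : 0 ≤ c * dist x y := mul_nonneg hc.le dist_nonneg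
    nlinarith

theorem BL.sqrt (hf : BL S C f) {c : ℝ} (hc : 1 ≤ c) (h : ∀ x ∈ S, 1 / c ^ 2 ≤ f x) :
    BL S (1 + C + c * C) (fun x => √(f x)) := by
  have h1 := hf.1
  have hc0 : 0 < c := by linarith
  have hlow : ∀ x ∈ S, 1 / c ≤ √(f x) := by
    intro x hx
    apply Real.le_sqrt_of_sq_le
    rw [div_pow, one_pow]
    exact h x hx
  refine ⟨by positivity, fun x hx => ?_, fun x hx y hy => ?_⟩
  · rw [abs_of_nonneg (Real.sqrt_nonneg _)]
    have h2 : √(f x) ≤ √((1 + C) ^ 2) := by
      apply Real.sqrt_le_sqrt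
      have := le_abs_self (f x)
      have := hf.2.1 x hx
      nlinarith
    rw [Real.sqrt_sq (by positivity)] at h2
    have h3 : 0 ≤ c * C := by positivity
    linarith
  · have hx0 := hlow x hx
    have hy0 := hlow y hy
    have px : 0 ≤ f x := le_trans (by positivity) (h x hx)
    have py : 0 ≤ f y := le_trans (by positivity) (h y hy)
    have e : (√(f x) - √(f y)) * (√(f x) + √(f y)) = f x - f y := by
      have := Real.sq_sqrt px
      have := Real.sq_sqrt py
      nlinarith
    have e2 : |√(f x) - √(f y)| * (√(f x) + √(f y)) = |f x - f y| := by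
      rw [← e, abs_mul, abs_of_nonneg (add_nonneg (Real.sqrt_nonneg _) (Real.sqrt_nonneg _))]
    have ic : 0 < 1 / c := by positivity
    have e3 : |√(f x) - √(f y)| * (1 / c) ≤ |f x - f y| := by
      rw [← e2]
      exact mul_le_mul_of_nonneg_left (by linarith) (abs_nonneg _)
    have e4 : |√(f x) - √(f y)| ≤ c * |f x - f y| := by
      rw [mul_one_div, div_le_iff₀ hc0] at e3
      linarith
    have e5 := hf.2.2 x hx y hy
    have e6 : c * |f x - f y| ≤ c * (C * dist x y) := mul_le_mul_of_nonneg_left e5 hc0.le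
    have h2 : 0 ≤ (1 + C) * dist x y := mul_nonneg (by linarith) dist_nonneg
    nlinarith

end BL

end Pool.Agent.F5H.F2
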