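import Pool.Agent.Helper36_F5H.F2g

/-!
MP_f5cbfa_nt, squad F5H, F2 (push-forward), part h: the Lipschitz bound of the parametrisation.
-/

set_option autoImplicit false

open MeasureTheory Complex ComplexConjugate
open scoped NNReal ENNReal

namespace Pool.Agent.F5H.F2

open Pool.Agent.F5H.BC

open Pool.Agent.BTL Pool.Agent.F5S Pool.Agent.Helper68_F5

/-- the parametrisation -/
noncomputable def Ps (T : ℝ) (h : R6) (p : Equiv.Perm (Fin 3)) (a : P6) : R6 :=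
  tr fun l => gI a.1.1 ((rh T (gA a.1.1 (cp h l)) : ℂ) *
    cexp (((![a.2.1, a.2.2, a.1.2] : Fin 3 → ℝ) (p.symm l) : ℂ) * I))

/-- the domain -/
def DD (M : ℝ) : Set P6 := {a | a.1.1 ∈ KM M}

theorem dist_form (x y : P6) : ‖x.1.1 - y.1.1‖ ≤ dist x y := by
  rw [dist_eq_norm]
  have h1 : ‖(x - y).1.1‖ ≤ ‖(x - y).1‖ := norm_fst_le _
  have h2 : ‖(x - y).1‖ ≤ ‖x - y‖ := norm_fst_le _
  exact h1.trans h2

theorem dist_th (x y : P6) (l : Fin 3) :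
    |(![x.2.1, x.2.2, x.1.2] : Fin 3 → ℝ) l - (![y.2.1, y.2.2, y.1.2] : Fin 3 → ℝ) l| ≤
      dist x y := by
  rw [dist_eq_norm]
  have h1 : ‖(x - y).1.2‖ ≤ ‖(x - y).1‖ := norm_snd_le _
  have h2 : ‖(x - y).1‖ ≤ ‖x - y‖ := norm_fst_le _
  have h3 : ‖(x - y).2.1‖ ≤ ‖(x - y).2‖ := norm_fst_le _
  have h4 : ‖(x - y).2.2‖ ≤ ‖(x - y).2‖ := norm_snd_le _
  have h5 : ‖(x - y).2‖ ≤ ‖x - y‖ := norm_snd_le _
  fin_cases l
  · exact h3.trans h5
  · exact h4.trans h5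
  · exact h1.trans h2

variable {M T : ℝ}

theorem bl_fst (hM : 1 ≤ M) : BL (DD M) M (fun a => a.1.1.1) := by
  refine ⟨by linarith, fun x hx => ?_, fun x hx y hy => ?_⟩
  · exact (le_norm3 _).1.trans (KM_abs_le hM hx)
  · have h1 := (le_norm3 (x.1.1 - y.1.1)).1
    have h2 := dist_form x y
    have h3 : 0 ≤ dist x y := dist_nonneg
    have h4 : |x.1.1.1 - y.1.1.1| ≤ ‖x.1.1 - y.1.1‖ := h1
    nlinarith

theorem bl_snd (hM : 1 ≤ M) : BL (DD M) M (fun a => a.1.1.2.1) := by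
  refine ⟨by linarith, fun x hx => ?_, fun x hx y hy => ?_⟩
  · exact (le_norm3 _).2.1.trans (KM_abs_le hM hx)
  · have h1 := (le_norm3 (x.1.1 - y.1.1)).2.1
    have h2 := dist_form x y
    have h3 : 0 ≤ dist x y := dist_nonneg
    have h4 : |x.1.1.2.1 - y.1.1.2.1| ≤ ‖x.1.1 - y.1.1‖ := h1
    nlinarith

theorem bl_thd (hM : 1 ≤ M) : BL (DD M) M (fun a => a.1.1.2.2) := by
  refine ⟨by linarith, fun x hx => ?_, fun x hx y hy => ?_⟩
  · exact (le_norm3 _).2.2.trans (KM_abs_le hM hx)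
  · have h1 := (le_norm3 (x.1.1 - y.1.1)).2.2
    have h2 := dist_form x y
    have h3 : 0 ≤ dist x y := dist_nonneg
    have h4 : |x.1.1.2.2 - y.1.1.2.2| ≤ ‖x.1.1 - y.1.1‖ := h1
    nlinarith

theorem pw1 (hM : 1 ≤ M) {j k : ℕ} (h : j ≤ k) : M ^ j ≤ M ^ k := pow_le_pow_right₀ hM h

theorem bl_disc (hM : 1 ≤ M) : BL (DD M) (6 * M ^ 2) (fun a => disc a.1.1) := by
  have h := ((bl_fst hM).mul (bl_thd hM)).sub ((bl_snd hM).mul (bl_snd hM))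
  have e : (fun a : P6 => disc a.1.1) = fun a => a.1.1.1 * a.1.1.2.2 - a.1.1.2.1 * a.1.1.2.1 := by
    funext a; unfold disc; ring
  rw [e]
  refine h.mono ?_
  nlinarith

theorem bl_s1 (hM : 1 ≤ M) : BL (DD M) (3 * M ^ 2) (fun a => √a.1.1.1) := by
  refine ((bl_fst hM).sqrt hM fun x hx => ?_).mono ?_
  · have h1 := KM_fst hM (show x.1.1 ∈ KM M from hx)
    refine le_trans ?_ h1
    apply one_div_le_one_div_of_le (by linarith)
    have := pw1 hM (show 1 ≤ 2 by norm_num)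
    rwa [pow_one] at this
  · have := pw1 hM (show 1 ≤ 2 by norm_num)
    rw [pow_one] at this
    nlinarith

theorem bl_s2 (hM : 1 ≤ M) : BL (DD M) (13 * M ^ 3) (fun a => √(disc a.1.1)) := by
  refine ((bl_disc hM).sqrt hM fun x hx => ?_).mono ?_
  · exact (KM_disc hM (show x.1.1 ∈ KM M from hx)).1
  · have h1 := pw1 hM (show 2 ≤ 3 by norm_num)
    have h2 := pw1 hM (show 0 ≤ 3 by norm_num)
    rw [pow_zero] at h2
    have h3 : M * (6 * M ^ 2) = 6 * M ^ 3 := by ring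
    linarith

theorem s1_low (hM : 1 ≤ M) : ∀ x ∈ DD M, 1 / M ≤ √x.1.1.1 := by
  intro x hx
  have hM0 : 0 < M := by linarith
  apply Real.le_sqrt_of_sq_le
  have h1 := KM_fst hM (show x.1.1 ∈ KM M from hx)
  refine le_trans ?_ h1
  rw [div_pow, one_pow]
  apply one_div_le_one_div_of_le (by linarith)
  have := pw1 hM (show 1 ≤ 2 by norm_num)
  rwa [pow_one] at this

theorem s2_low (hM : 1 ≤ M) : ∀ x ∈ DD M, 1 / M ≤ √(disc x.1.1) := by
  intro x hx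
  apply Real.le_sqrt_of_sq_le
  rw [div_pow, one_pow]
  exact (KM_disc hM (show x.1.1 ∈ KM M from hx)).1

theorem bl_i1 (hM : 1 ≤ M) : BL (DD M) (4 * M ^ 4) (fun a => 1 / √a.1.1.1) := by
  refine ((bl_s1 hM).inv (by linarith) (s1_low hM)).mono ?_
  have h1 := pw1 hM (show 1 ≤ 4 by norm_num)
  rw [pow_one] at h1
  have h3 : M ^ 2 * (3 * M ^ 2) = 3 * M ^ 4 := by ring
  linarith

theorem bl_i2 (hM : 1 ≤ M) : BL (DD M) (14 * M ^ 5) (fun a => 1 / √(disc a.1.1)) := by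
  refine ((bl_s2 hM).inv (by linarith) (s2_low hM)).mono ?_
  have h1 := pw1 hM (show 1 ≤ 5 by norm_num)
  rw [pow_one] at h1
  have h3 : M ^ 2 * (13 * M ^ 3) = 13 * M ^ 5 := by ring
  linarith

theorem gA_le_T (hM : 1 ≤ M) {A : ℝ × ℝ × ℝ} (hA : A ∈ KM M) {x : ℝ × ℝ} (hT : 0 < T)
    (hx : M * (2 * ‖x‖ ^ 2) ≤ T ^ 2) : ‖gA A x‖ ≤ T := by
  have p := pos_of hM hA
  apply abs_le_of_sq_le_sqX _ hT.le
  rw [p.gA_norm]
  have h1 := (hA x).2
  have h2 := (norm_sq_le_nr x).2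
  have h3 : M * nr x ≤ M * (2 * ‖x‖ ^ 2) := mul_le_mul_of_nonneg_left h2 (by linarith)
  linarith

theorem qf_sub_le (A B : ℝ × ℝ × ℝ) (x : ℝ × ℝ) : |qf A x - qf B x| ≤ 4 * ‖A - B‖ * ‖x‖ ^ 2 := by
  obtain ⟨h1, h2, h3⟩ := le_norm3 (A - B)
  have a1 : |x.1| ≤ ‖x‖ := norm_fst_le x
  have a2 : |x.2| ≤ ‖x‖ := norm_snd_le x
  have hD : 0 ≤ ‖A - B‖ := norm_nonneg _
  have pr : ∀ d s t : ℝ, |d| ≤ ‖A - B‖ → |s| ≤ ‖x‖ → |t| ≤ ‖x‖ →
      |d * (s * t)| ≤ ‖A - B‖ * (‖x‖ * ‖x‖) := by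
    intro d s t hd hs ht
    rw [abs_mul, abs_mul]
    exact mul_le_mul hd (mul_le_mul hs ht (abs_nonneg _) (norm_nonneg _)) (by positivity) hD
  have e1 := pr _ _ _ h1 a1 a1
  have e2 := pr _ _ _ h2 a1 a2
  have e4 := pr _ _ _ h3 a2 a2
  have : qf A x - qf B x = (A - B).1 * (x.1 * x.1) + (A - B).2.1 * (x.1 * x.2) +
      (A - B).2.1 * (x.1 * x.2) + (A - B).2.2 * (x.2 * x.2) := by
    simp only [qf, Prod.fst_sub, Prod.snd_sub]; ring
  rw [this]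
  refine le_trans (abs_add_le _ _) ?_
  have := abs_add_le ((A - B).1 * (x.1 * x.1) + (A - B).2.1 * (x.1 * x.2))
    ((A - B).2.1 * (x.1 * x.2))
  have := abs_add_le ((A - B).1 * (x.1 * x.1)) ((A - B).2.1 * (x.1 * x.2))
  nlinarith

theorem bl_rho (hM : 1 ≤ M) (hT : 0 < T) {x : ℝ × ℝ} (hx : M * (2 * ‖x‖ ^ 2) ≤ T ^ 2) :
    BL (DD M) T (fun a => rh T (gA a.1.1 x)) := by
  refine ⟨hT.le, fun a ha => ?_, fun a ha b hb => ?_⟩
  · have h := rh_bounds hT (gA_le_T hM (show a.1.1 ∈ KM M from ha) hT hx)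
    rw [abs_of_nonneg (by linarith [h.1])]
    exact h.2.1
  · have h := rh_bounds hT (gA_le_T hM (show a.1.1 ∈ KM M from ha) hT hx)
    have h' := rh_bounds hT (gA_le_T hM (show b.1.1 ∈ KM M from hb) hT hx)
    have pa := pos_of hM (show a.1.1 ∈ KM M from ha)
    have pb := pos_of hM (show b.1.1 ∈ KM M from hb)
    have e1 := h.2.2
    have e2 := h'.2.2
    rw [pa.gA_norm] at e1
    rw [pb.gA_norm] at e2
    have e3 : |rh T (gA a.1.1 x) - rh T (gA b.1.1 x)| *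
        (rh T (gA a.1.1 x) + rh T (gA b.1.1 x)) = |qf a.1.1 x - qf b.1.1 x| / 4 := by
      have e4 : (rh T (gA a.1.1 x) - rh T (gA b.1.1 x)) *
        (rh T (gA a.1.1 x) + rh T (gA b.1.1 x)) = -((qf a.1.1 x - qf b.1.1 x) / 4) := by
        have : (rh T (gA a.1.1 x) - rh T (gA b.1.1 x)) *
          (rh T (gA a.1.1 x) + rh T (gA b.1.1 x)) = rh T (gA a.1.1 x) ^ 2 -
          rh T (gA b.1.1 x) ^ 2 := by ring
        rw [this, e1, e2]; ring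
      have h5 : 0 < rh T (gA a.1.1 x) + rh T (gA b.1.1 x) := by linarith [h.1, h'.1]
      rw [← abs_of_pos h5, ← abs_mul, e4, abs_neg, abs_div,
        abs_of_pos (by norm_num : (0:ℝ) < 4)]
    have e5 := qf_sub_le a.1.1 b.1.1 x
    have e6 := dist_form a b
    have e7 : ‖x‖ ^ 2 ≤ T ^ 2 := by
      have : 0 ≤ ‖x‖ ^ 2 := by positivity
      nlinarith
    have e8 : |rh T (gA a.1.1 x) - rh T (gA b.1.1 x)| * T ≤
        |rh T (gA a.1.1 x) - rh T (gA b.1.1 x)| *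
        (rh T (gA a.1.1 x) + rh T (gA b.1.1 x)) :=
      mul_le_mul_of_nonneg_left (by linarith [h.1, h'.1]) (abs_nonneg _)
    have e9 : ‖a.1.1 - b.1.1‖ * ‖x‖ ^ 2 ≤ dist a b * T ^ 2 :=
      mul_le_mul e6 e7 (by positivity) dist_nonneg
    have e10 : |rh T (gA a.1.1 x) - rh T (gA b.1.1 x)| * T ≤ (T * dist a b) * T := by
      nlinarith
    exact le_of_mul_le_mul_right e10 hT

theorem bl_cos (l : Fin 3) : BL (DD M) 1 (fun a =>
    Real.cos ((![a.2.1, a.2.2, a.1.2] : Fin 3 → ℝ) l)) := by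
  refine ⟨by norm_num, fun a _ => Real.abs_cos_le_one _, fun a _ b _ => ?_⟩
  have h := Real.lipschitzWith_cos.dist_le_mul
    ((![a.2.1, a.2.2, a.1.2] : Fin 3 → ℝ) l) ((![b.2.1, b.2.2, b.1.2] : Fin 3 → ℝ) l)
  rw [Real.dist_eq, Real.dist_eq, NNReal.coe_one, one_mul] at h
  rw [one_mul]
  exact h.trans (dist_th a b l)

theorem bl_sin (l : Fin 3) : BL (DD M) 1 (fun a =>
    Real.sin ((![a.2.1, a.2.2, a.1.2] : Fin 3 → ℝ) l)) := by
  refine ⟨by norm_num, fun a _ => Real.abs_sin_le_one _, fun a _ b _ => ?_⟩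
  have h := Real.lipschitzWith_sin.dist_le_mul
    ((![a.2.1, a.2.2, a.1.2] : Fin 3 → ℝ) l) ((![b.2.1, b.2.2, b.1.2] : Fin 3 → ℝ) l)
  rw [Real.dist_eq, Real.dist_eq, NNReal.coe_one, one_mul] at h
  rw [one_mul]
  exact h.trans (dist_th a b l)

theorem gI_polar (A : ℝ × ℝ × ℝ) (r t : ℝ) : gI A ((r : ℂ) * cexp ((t : ℂ) * I)) =
    ((r * Real.cos t) * (1 / √A.1) - (A.2.1 * (r * Real.sin t)) * ((1 / √A.1) * (1 / √(disc A))),
      (√A.1 * (r * Real.sin t)) * (1 / √(disc A))) := by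
  have h1 : ((r : ℂ) * cexp ((t : ℂ) * I)).re = r * Real.cos t := by
    rw [re_ofReal_mul, exp_ofReal_mul_I_re]
  have h2 : ((r : ℂ) * cexp ((t : ℂ) * I)).im = r * Real.sin t := by
    rw [im_ofReal_mul, exp_ofReal_mul_I_im]
  unfold gI
  rw [h1, h2]
  apply Prod.ext
  · simp only [div_eq_mul_inv, mul_inv, one_mul]
  · simp only [div_eq_mul_inv, one_mul]

theorem lip_Ps (hM : 1 ≤ M) (hT : 0 < T) {h : R6} (hx : M * (2 * ‖h‖ ^ 2) ≤ T ^ 2)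
    (p : Equiv.Perm (Fin 3)) :
    LipschitzOnWith (Real.toNNReal (2 ^ 13 * M ^ 10 * T)) (Ps T h p) (DD M) := by
  have hM0 : 0 < M := by linarith
  apply LipschitzOnWith.of_dist_le_mul
  intro a ha b hb
  rw [Real.coe_toNNReal _ (by positivity), dist_eq_norm]
  apply norm6
  intro l
  have hc : cp (Ps T h p a - Ps T h p b) l = cp (Ps T h p a) l - cp (Ps T h p b) l := by
    fin_cases l <;> rfl
  rw [hc]
  unfold Ps
  rw [cp_tr, cp_tr, gI_polar, gI_polar]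
  have hxl : M * (2 * ‖cp h l‖ ^ 2) ≤ T ^ 2 := by
    have h1 : ‖cp h l‖ ^ 2 ≤ ‖h‖ ^ 2 := pow_le_pow_left₀ (norm_nonneg _) (le_norm6 h l) 2
    have := mul_le_mul_of_nonneg_left h1 hM0.le
    linarith
  have hr := bl_rho hM hT hxl
  have f1 := ((hr.mul (bl_cos (M := M) (p.symm l))).mul (bl_i1 hM)).sub
    (((bl_snd hM).mul (hr.mul (bl_sin (M := M) (p.symm l)))).mul ((bl_i1 hM).mul (bl_i2 hM)))
  have f2 := ((bl_s1 hM).mul (hr.mul (bl_sin (M := M) (p.symm l)))).mul (bl_i2 hM)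
  have g1 := f1.2.2 a ha b hb
  have g2 := f2.2.2 a ha b hb
  simp only at g1 g2
  have hd : 0 ≤ dist a b := dist_nonneg
  have c1 : (2 * (2 * T * 1 + T * 1) * (4 * M ^ 4) + (2 * T * 1 + T * 1) * (4 * M ^ 4) +
      (2 * (2 * M * (2 * T * 1 + T * 1) + M * (2 * T * 1 + T * 1)) *
        (2 * (4 * M ^ 4) * (14 * M ^ 5) + 4 * M ^ 4 * (14 * M ^ 5)) +
        (2 * M * (2 * T * 1 + T * 1) + M * (2 * T * 1 + T * 1)) *
        (2 * (4 * M ^ 4) * (14 * M ^ 5) + 4 * M ^ 4 * (14 * M ^ 5)))) ≤ 2 ^ 13 * M ^ 10 * T := by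
    have e : (2 * (2 * T * 1 + T * 1) * (4 * M ^ 4) + (2 * T * 1 + T * 1) * (4 * M ^ 4) +
      (2 * (2 * M * (2 * T * 1 + T * 1) + M * (2 * T * 1 + T * 1)) *
        (2 * (4 * M ^ 4) * (14 * M ^ 5) + 4 * M ^ 4 * (14 * M ^ 5)) +
        (2 * M * (2 * T * 1 + T * 1) + M * (2 * T * 1 + T * 1)) *
        (2 * (4 * M ^ 4) * (14 * M ^ 5) + 4 * M ^ 4 * (14 * M ^ 5)))) =
        (36 * M ^ 4 + 4536 * M ^ 10) * T := by ring
    rw [e]
    apply mul_le_mul_of_nonneg_right _ hT.le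
    have := pw1 hM (show 4 ≤ 10 by norm_num)
    have h0 : 0 ≤ M ^ 10 := by positivity
    linarith
  have c2 : (2 * (2 * (3 * M ^ 2) * (2 * T * 1 + T * 1) + 3 * M ^ 2 * (2 * T * 1 + T * 1)) *
      (14 * M ^ 5) + (2 * (3 * M ^ 2) * (2 * T * 1 + T * 1) + 3 * M ^ 2 * (2 * T * 1 + T * 1)) *
      (14 * M ^ 5)) ≤ 2 ^ 13 * M ^ 10 * T := by
    have e : (2 * (2 * (3 * M ^ 2) * (2 * T * 1 + T * 1) + 3 * M ^ 2 * (2 * T * 1 + T * 1)) *
      (14 * M ^ 5) + (2 * (3 * M ^ 2) * (2 * T * 1 + T * 1) + 3 * M ^ 2 * (2 * T * 1 + T * 1)) *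
      (14 * M ^ 5)) = (1134 * M ^ 7) * T := by ring
    rw [e]
    apply mul_le_mul_of_nonneg_right _ hT.le
    have := pw1 hM (show 7 ≤ 10 by norm_num)
    have h0 : 0 ≤ M ^ 10 := by positivity
    linarith
  rw [Prod.norm_def]
  apply sup_le
  · refine le_trans ?_ (mul_le_mul_of_nonneg_right c1 hd)
    refine le_trans (le_of_eq ?_) g1
    rfl
  · refine le_trans ?_ (mul_le_mul_of_nonneg_right c2 hd)
    refine le_trans (le_of_eq ?_) g2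
    rfl

end Pool.Agent.F5H.F2
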