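import Pool.Agent.Helper36_F5H.F2h

/-!
MP_f5cbfa_nt, squad F5H, F2 (push-forward), part i: arcs, Tonelli and the assembly of `F2Stmt`.
-/

set_option autoImplicit false

open MeasureTheory Complex ComplexConjugate
open scoped NNReal ENNReal

namespace Pool.Agent.F5H.F2

open Pool.Agent.F5H.BC

open Pool.Agent.BTL Pool.Agent.F5S Pool.Agent.Helper68_F5

theorem chord (t s : ℝ) : ‖cexp ((t : ℂ) * I) - cexp ((s : ℂ) * I)‖ = 2 * |Real.sin ((t - s) / 2)| := by
  have h1 : cexp ((t : ℂ) * I) - cexp ((s : ℂ) * I) =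
      cexp ((s : ℂ) * I) * (cexp (I * ((t - s : ℝ) : ℂ)) - 1) := by
    rw [mul_sub, ← Complex.exp_add, mul_one]
    congr 2
    push_cast; ring
  rw [h1, norm_mul, Complex.norm_exp_ofReal_mul_I, one_mul, Complex.norm_exp_I_mul_ofReal_sub_one,
    Real.norm_eq_abs, abs_mul, abs_two]

theorem near_zero {x δ : ℝ} (h1 : -Real.pi < x) (h2 : x < Real.pi) (h : |Real.sin x| ≤ δ) :
    |x| ≤ 2 * δ ∨ |x - Real.pi| ≤ 2 * δ ∨ |x + Real.pi| ≤ 2 * δ := by
  have hpi := Real.pi_pos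
  have hpi4 := Real.pi_le_four
  have key : ∀ y : ℝ, |y| ≤ Real.pi / 2 → |Real.sin y| ≤ δ → |y| ≤ 2 * δ := by
    intro y hy hs
    have e1 := Real.mul_abs_le_abs_sin hy
    have e2 : 2 / Real.pi * |y| ≤ δ := e1.trans hs
    have e3 : 2 / 4 * |y| ≤ 2 / Real.pi * |y| := by
      apply mul_le_mul_of_nonneg_right _ (abs_nonneg _)
      exact div_le_div_of_nonneg_left (by norm_num) hpi hpi4
    linarith
  by_cases hx : |x| ≤ Real.pi / 2
  · exact Or.inl (key x hx h)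
  · right
    rw [abs_le, not_and_or] at hx
    rcases hx with hx | hx
    · right
      apply key
      · rw [abs_le]; constructor <;> linarith
      · rw [Real.sin_add_pi, abs_neg]; exact h
    · left
      apply key
      · rw [abs_le]; constructor <;> linarith
      · rw [Real.sin_sub_pi, abs_neg]; exact h

/-- length of an arc -/
theorem arc_vol (w : ℂ) {δ : ℝ} (hδ : 0 ≤ δ) :
    volume {t : ℝ | t ∈ Set.Ioc (-Real.pi) Real.pi ∧ ‖cexp ((t : ℂ) * I) - w‖ ≤ δ} ≤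
      ENNReal.ofReal (24 * δ) := by
  by_cases hne : {t : ℝ | t ∈ Set.Ioc (-Real.pi) Real.pi ∧ ‖cexp ((t : ℂ) * I) - w‖ ≤ δ}.Nonempty
  · obtain ⟨s, hs1, hs2⟩ := hne
    have hsub : {t : ℝ | t ∈ Set.Ioc (-Real.pi) Real.pi ∧ ‖cexp ((t : ℂ) * I) - w‖ ≤ δ} ⊆
        (Set.Icc (s - 4 * δ) (s + 4 * δ) ∪
          Set.Icc (s + 2 * Real.pi - 4 * δ) (s + 2 * Real.pi + 4 * δ)) ∪
          Set.Icc (s - 2 * Real.pi - 4 * δ) (s - 2 * Real.pi + 4 * δ) := by
      intro t ht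
      obtain ⟨ht1, ht2⟩ := ht
      have e1 : ‖cexp ((t : ℂ) * I) - cexp ((s : ℂ) * I)‖ ≤ 2 * δ := by
        have e : cexp ((t : ℂ) * I) - cexp ((s : ℂ) * I) =
          (cexp ((t : ℂ) * I) - w) - (cexp ((s : ℂ) * I) - w) := by ring
        rw [e]
        refine (norm_sub_le _ _).trans ?_
        linarith
      rw [chord] at e1
      have e2 : |Real.sin ((t - s) / 2)| ≤ δ := by linarith
      have hpi := Real.pi_pos
      rcases near_zero (by linarith [ht1.1, hs1.2]) (by linarith [ht1.2, hs1.1]) e2 with h | h | h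
      · left; left
        rw [abs_le] at h
        constructor <;> linarith [h.1, h.2]
      · left; right
        rw [abs_le] at h
        constructor <;> linarith [h.1, h.2]
      · right
        rw [abs_le] at h
        constructor <;> linarith [h.1, h.2]
    refine (measure_mono hsub).trans ((measure_union_le _ _).trans ?_)
    have v : ∀ x : ℝ, volume (Set.Icc (x - 4 * δ) (x + 4 * δ)) = ENNReal.ofReal (8 * δ) := by
      intro x
      rw [Real.volume_Icc]; congr 1; ring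
    calc volume (Set.Icc (s - 4 * δ) (s + 4 * δ) ∪
          Set.Icc (s + 2 * Real.pi - 4 * δ) (s + 2 * Real.pi + 4 * δ)) +
          volume (Set.Icc (s - 2 * Real.pi - 4 * δ) (s - 2 * Real.pi + 4 * δ))
        ≤ (ENNReal.ofReal (8 * δ) + ENNReal.ofReal (8 * δ)) + ENNReal.ofReal (8 * δ) := by
          refine add_le_add ((measure_union_le _ _).trans ?_) ?_
          · rw [v, v]
          · rw [v]
      _ = ENNReal.ofReal (24 * δ) := by
          rw [← ENNReal.ofReal_add (by positivity) (by positivity),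
            ← ENNReal.ofReal_add (by positivity) (by positivity)]
          congr 1; ring
  · rw [Set.not_nonempty_iff_eq_empty] at hne
    rw [hne, measure_empty]
    exact bot_le

theorem gA_eq (A : ℝ × ℝ × ℝ) (x : ℝ × ℝ) : gA A x =
    ((√A.1 * x.1 + A.2.1 / √A.1 * x.2 : ℝ) : ℂ) + ((√(disc A / A.1) * x.2 : ℝ) : ℂ) * I := by
  apply Complex.ext
  · simp [gA]
  · simp [gA]

theorem measurable_gA (x : ℝ × ℝ) : Measurable fun a : (ℝ × ℝ × ℝ) × ℝ => gA a.1 x := by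
  simp only [gA_eq]
  unfold disc
  fun_prop

theorem measurable_rh {α : Type*} [MeasurableSpace α] (T : ℝ) {f : α → ℂ} (hf : Measurable f) :
    Measurable fun a => BC.rh T (f a) := by
  unfold BC.rh
  fun_prop

theorem measurable_wG (T : ℝ) (h : R6) (ep : Fin 3 → ℝ) (l : Fin 3) :
    Measurable fun a : (ℝ × ℝ × ℝ) × ℝ => wG T (hG a.1 h) ep a.2 l := by
  have hm : ∀ j, Measurable fun a : (ℝ × ℝ × ℝ) × ℝ => hG a.1 h j := fun j => measurable_gA _
  have hr : ∀ j, Measurable fun a : (ℝ × ℝ × ℝ) × ℝ => BC.rh T (hG a.1 h j) :=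
    fun j => measurable_rh T (hm j)
  have he : Measurable fun a : (ℝ × ℝ × ℝ) × ℝ => cexp ((a.2 : ℂ) * I) := by fun_prop
  unfold wG
  split_ifs
  · exact he
  · have hc : Measurable fun a : (ℝ × ℝ × ℝ) × ℝ => BC.rh T (hG a.1 h 2) / BC.rh T (hG a.1 h l) *
        (conj (cexp ((a.2 : ℂ) * I)) * hG a.1 h 2).re / ‖hG a.1 h l‖ := by
      refine Measurable.div (Measurable.mul ((hr 2).div (hr l)) ?_) (hm l).norm
      exact Complex.measurable_re.comp ((Complex.continuous_conj.measurable.comp he).mul (hm 2))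
    refine Measurable.mul ((hm l).div (Complex.measurable_ofReal.comp (hm l).norm)) ?_
    refine Measurable.add (Complex.measurable_ofReal.comp hc) (Measurable.mul_const ?_ _)
    exact Complex.measurable_ofReal.comp (((hc.pow_const 2).const_sub 1).sqrt.const_mul _)

/-- the points over `R` with the two other angles in arcs -/
def SS (T : ℝ) (h : R6) (ep : Fin 3 → ℝ) (d0 d1 : ℝ) (R : Set ((ℝ × ℝ × ℝ) × ℝ)) : Set P6 :=
  {x | x.1 ∈ R ∧ (x.2.1 ∈ Set.Ioc (-Real.pi) Real.pi ∧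
    ‖cexp ((x.2.1 : ℂ) * I) - wG T (hG x.1.1 h) ep x.1.2 0‖ ≤ d0) ∧
    (x.2.2 ∈ Set.Ioc (-Real.pi) Real.pi ∧
    ‖cexp ((x.2.2 : ℂ) * I) - wG T (hG x.1.1 h) ep x.1.2 1‖ ≤ d1)}

theorem vol_SS (T : ℝ) (h : R6) (ep : Fin 3 → ℝ) {d0 d1 : ℝ} (h0 : 0 ≤ d0) (h1 : 0 ≤ d1)
    (R : Set ((ℝ × ℝ × ℝ) × ℝ)) :
    volume (SS T h ep d0 d1 R) ≤ ENNReal.ofReal (24 * d0) * ENNReal.ofReal (24 * d1) * volume R := by
  obtain ⟨R', hR'⟩ : ∃ R' : Set ((ℝ × ℝ × ℝ) × ℝ), R' = toMeasurable volume R := ⟨_, rfl⟩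
  have hRm : MeasurableSet R' := by rw [hR']; exact measurableSet_toMeasurable _ _
  have hsub : SS T h ep d0 d1 R ⊆ SS T h ep d0 d1 R' := by
    intro x hx
    refine ⟨?_, hx.2⟩
    rw [hR']
    exact subset_toMeasurable _ _ hx.1
  have hw : ∀ l, Measurable fun x : P6 => wG T (hG x.1.1 h) ep x.1.2 l := fun l =>
    (measurable_wG T h ep l).comp measurable_fst
  have hm : MeasurableSet (SS T h ep d0 d1 R') := by
    have m1 : MeasurableSet {x : P6 | x.1 ∈ R'} := measurable_fst hRm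
    have a1 : Measurable fun x : P6 => x.2.1 := measurable_fst.comp measurable_snd
    have a2 : Measurable fun x : P6 => x.2.2 := measurable_snd.comp measurable_snd
    have m2 : MeasurableSet {x : P6 | x.2.1 ∈ Set.Ioc (-Real.pi) Real.pi} := a1 measurableSet_Ioc
    have m3 : MeasurableSet {x : P6 | x.2.2 ∈ Set.Ioc (-Real.pi) Real.pi} := a2 measurableSet_Ioc
    have e1 : Measurable fun x : P6 => cexp ((x.2.1 : ℂ) * I) := by fun_prop
    have e2 : Measurable fun x : P6 => cexp ((x.2.2 : ℂ) * I) := by fun_prop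
    have m4 : MeasurableSet {x : P6 |
        ‖cexp ((x.2.1 : ℂ) * I) - wG T (hG x.1.1 h) ep x.1.2 0‖ ≤ d0} :=
      measurableSet_le (e1.sub (hw 0)).norm measurable_const
    have m5 : MeasurableSet {x : P6 |
        ‖cexp ((x.2.2 : ℂ) * I) - wG T (hG x.1.1 h) ep x.1.2 1‖ ≤ d1} :=
      measurableSet_le (e2.sub (hw 1)).norm measurable_const
    exact m1.inter ((m2.inter m4).inter (m3.inter m5))
  refine (measure_mono hsub).trans ?_
  have hv : (volume : Measure P6) = (volume : Measure ((ℝ × ℝ × ℝ) × ℝ)).prod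
    (volume : Measure (ℝ × ℝ)) := rfl
  rw [hv, Measure.prod_apply hm]
  have hR : volume R = volume R' := by rw [hR', measure_toMeasurable]
  calc ∫⁻ x, volume (Prod.mk x ⁻¹' SS T h ep d0 d1 R')
      ≤ ∫⁻ x, R'.indicator (fun _ => ENNReal.ofReal (24 * d0) * ENNReal.ofReal (24 * d1)) x := by
        refine lintegral_mono fun x => ?_
        by_cases hx : x ∈ R'
        · rw [Set.indicator_of_mem hx]
          have hs : Prod.mk x ⁻¹' SS T h ep d0 d1 R' ⊆
              {t : ℝ | t ∈ Set.Ioc (-Real.pi) Real.pi ∧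
                ‖cexp ((t : ℂ) * I) - wG T (hG x.1 h) ep x.2 0‖ ≤ d0} ×ˢ
              {t : ℝ | t ∈ Set.Ioc (-Real.pi) Real.pi ∧
                ‖cexp ((t : ℂ) * I) - wG T (hG x.1 h) ep x.2 1‖ ≤ d1} := by
            intro b hb
            exact ⟨hb.2.1, hb.2.2⟩
          refine (measure_mono hs).trans ?_
          rw [Measure.volume_eq_prod, Measure.prod_prod]
          exact mul_le_mul' (arc_vol _ h0) (arc_vol _ h1)
        · rw [Set.indicator_of_notMem hx]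
          have hs : Prod.mk x ⁻¹' SS T h ep d0 d1 R' = ∅ := by
            ext b
            simp only [Set.mem_preimage, Set.mem_empty_iff_false, iff_false]
            intro hb
            exact hx hb.1
          rw [hs, measure_empty]
    _ = ENNReal.ofReal (24 * d0) * ENNReal.ofReal (24 * d1) * volume R' := by
        rw [lintegral_indicator hRm, setLIntegral_const]
    _ = _ := by rw [hR]

theorem nbf_mono {P P' κ κr T : ℝ} {H M K : Fin 3 → ℂ} (hT : 0 ≤ T) (hκ : 0 ≤ κ) (hκr : 0 ≤ κr)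
    (hP : P ≤ P') (hN : NBF P κ κr T H M K) : NBF P' κ κr T H M K := by
  intro B v w ν hB hv
  refine (hN B v w ν hB hv).trans (mul_le_mul_of_nonneg_right hP ?_)
  have h1 : 0 ≤ ∑ i, ∑ j, |(sp (v i) (H i) + bf B (M i) (H i)) -
      (sp (v j) (H j) + bf B (M j) (H j))| :=
    Finset.sum_nonneg fun _ _ => Finset.sum_nonneg fun _ _ => abs_nonneg _
  have h2 : 0 ≤ κ * ∑ l, ‖w l‖ := mul_nonneg hκ (Finset.sum_nonneg fun _ _ => norm_nonneg _)
  have h3 : 0 ≤ κr * T * |ν| := mul_nonneg (mul_nonneg hκr hT) (abs_nonneg _)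
  linarith

theorem Rx_neg {T : ℝ} (hT : T < 0) : Rx T < 0 := by
  have h1 := rho0_pos
  have h2 := rho0_le
  have hpi := Real.pi_pos
  unfold Rx
  rw [Real.rpow_def_of_neg hT]
  apply mul_neg_of_pos_of_neg (Real.exp_pos _)
  apply Real.cos_neg_of_pi_div_two_lt_of_lt
  · nlinarith
  · nlinarith

/-- F2 -/
theorem f2 : F2Stmt := by
  obtain ⟨C, hC⟩ := lip_vol
  refine ⟨120, by norm_num, max 2 (C * (2 ^ 138 * 576 * 16)), le_max_left _ _, ?_⟩
  intro T Q hQ0 _ hQc h k hh hn hV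
  have hQ : 2 ≤ Q := (le_max_left _ _).trans hQ0
  have hQC : C * (2 ^ 138 * 576 * 16) ≤ Q := (le_max_right _ _).trans hQ0
  have hQpos : 0 < Q := by linarith
  rcases lt_trichotomy T 0 with hT | hT | hT
  · -- negative `T`
    have hempty : {m : R6 | Reg Q T h m ∧ NB Q T h m k} = ∅ := by
      ext m
      rw [Set.mem_empty_iff_false, iff_false]
      rintro ⟨⟨A, _, _, _, h2, _⟩, _⟩
      have h3 := (abs_nonneg _).trans (h2 0)
      have h4 := mul_neg_of_pos_of_neg hQpos (Rx_neg hT)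
      linarith
    rw [hempty, measure_empty]
    exact bot_le
  · exfalso
    rw [hT, Real.zero_rpow (by norm_num)] at hQc
    have : 0 < Q ^ 120 := by positivity
    linarith
  have hQ3 : Q ≤ Q ^ 3 := by
    have := pow_le_pow_right₀ (by linarith : 1 ≤ Q) (show 1 ≤ 3 by norm_num)
    rwa [pow_one] at this
  have a : NU T (Q ^ 3) 40 := nu_of le_rfl (by linarith) hT (by
    rw [← pow_mul]; exact hQc)
  have hLx := Lx_pos hT
  have hL1 : 1 ≤ Lx T := Real.one_le_rpow a.one (by norm_num)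
  have hL4 : Q ^ 4 * Lx T ≤ T := by
    have := a.pw (k := 2) (by norm_num) hLx.le a.n4
    refine le_trans (mul_le_mul_of_nonneg_right ?_ hLx.le) this
    rw [← pow_mul]
    exact pow_le_pow_right₀ (by linarith) (by norm_num)
  have hh0 : 0 < ‖h‖ := by
    have := (hh 0).trans (le_norm6 h 0)
    linarith
  have hT0 : 0 < T ^ (677 / 2000 : ℝ) := Real.rpow_pos_of_pos hT _
  have hV0 : 0 < V2r h := hT0.trans hV
  have hxM : 2 * Q * (2 * ‖h‖ ^ 2) ≤ T ^ 2 := by
    have h1 : ‖h‖ ^ 2 ≤ (Q * Lx T) ^ 2 := pow_le_pow_left₀ (norm_nonneg _) hn 2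
    have h2 := two_le_pw a (j := 2) (k := 1) (by norm_num) (by positivity) a.n2
    rw [pow_one] at h2
    calc 2 * Q * (2 * ‖h‖ ^ 2) ≤ 2 * Q * (2 * (Q * Lx T) ^ 2) := by
          apply mul_le_mul_of_nonneg_left _ (by positivity)
          linarith
      _ = 2 ^ 2 * (Q ^ 3 * Lx T ^ 2) := by ring
      _ ≤ T ^ 2 := h2
  obtain ⟨R, hR⟩ : ∃ R : Equiv.Perm (Fin 3) → (Bool × Bool) → Set ((ℝ × ℝ × ℝ) × ℝ),
    R = fun p s => {a : (ℝ × ℝ × ℝ) × ℝ | a.1 ∈ KM (2 * Q) ∧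
          a.2 ∈ Set.Ioc (-Real.pi) Real.pi ∧
          Srt (hG a.1 (pm p h)) ∧ Gd (Q ^ 120) T (hG a.1 (pm p h)) (sg s) a.2 ∧
          BD T (Q ^ 120 * kap T ‖h‖) (Q ^ 120 * kpr T ‖h‖)
            (fun l => Q ^ 120 * ‖hG a.1 (pm p h) l‖)
            (hG a.1 (pm p h)) (sg s) a.2 (kG a.1 (pm p k))} := ⟨_, rfl⟩
  have hRHS : (∑ p : Equiv.Perm (Fin 3), ∑ s : Bool × Bool,
        volume {a : (ℝ × ℝ × ℝ) × ℝ | a.1 ∈ KM (2 * Q) ∧ a.2 ∈ Set.Ioc (-Real.pi) Real.pi ∧
          Srt (hG a.1 (pm p h)) ∧ Gd (Q ^ 120) T (hG a.1 (pm p h)) (sg s) a.2 ∧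
          BD T (Q ^ 120 * kap T ‖h‖) (Q ^ 120 * kpr T ‖h‖)
            (fun l => Q ^ 120 * ‖hG a.1 (pm p h) l‖)
            (hG a.1 (pm p h)) (sg s) a.2 (kG a.1 (pm p k))}) =
      ∑ p : Equiv.Perm (Fin 3), ∑ s : Bool × Bool, volume (R p s) := by rw [hR]
  rw [hRHS]
  obtain ⟨d0, hd0⟩ : ∃ d0 : ℝ, d0 = 4 * Q ^ 4 / (T * ‖h‖) := ⟨_, rfl⟩
  obtain ⟨d1, hd1⟩ : ∃ d1 : ℝ, d1 = 4 * Q ^ 4 / (T * V2r h) := ⟨_, rfl⟩
  have hd0' : 0 ≤ d0 := by rw [hd0]; positivity
  have hd1' : 0 ≤ d1 := by rw [hd1]; positivity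
  -- the inclusion
  have hsub : {m : R6 | Reg Q T h m ∧ NB Q T h m k} ⊆
      ⋃ p : Equiv.Perm (Fin 3), ⋃ s : Bool × Bool,
        Ps T h p '' (SS T (pm p h) (sg s) d0 d1 (R p s) ∩ DD (2 * Q)) := by
    rintro m ⟨⟨A, hA, hF, h1, h2, h3⟩, hNB⟩
    obtain ⟨p, hp⟩ := exists_sort (hG A h)
    obtain ⟨hmu, f⟩ := fr_of hT hQ hL4 hA hF hh hn hV h1 h2 h3 p hp
    have pp := pos_of (by linarith) hA
    obtain ⟨H, hH⟩ : ∃ H : Fin 3 → ℂ, H = fun l => hG A h (p l) := ⟨_, rfl⟩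
    obtain ⟨u, hu⟩ : ∃ u : Fin 3 → ℂ,
      u = fun l => hG A m (p l) / (BC.rh T (hG A h (p l)) : ℂ) := ⟨_, rfl⟩
    rw [← hH, ← hu] at f
    have hHp : hG A (pm p h) = H := by rw [hG_pm, hH]
    obtain ⟨th, hth⟩ : ∃ th : Fin 3 → ℝ, th = fun l => (u l).arg := ⟨_, rfl⟩
    have hthu : ∀ l, cexp ((th l : ℂ) * I) = u l := by
      intro l
      have e1 := Complex.norm_mul_exp_arg_mul_I (u l)
      rw [f.hu l] at e1
      rw [hth]
      simpa using e1
    have hthr : ∀ l, th l ∈ Set.Ioc (-Real.pi) Real.pi := by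
      intro l
      rw [hth]
      exact Complex.arg_mem_Ioc _
    -- the norm field
    have hk0 : 0 ≤ kap T ‖h‖ := Real.sqrt_nonneg _
    have hr0 : 0 ≤ kpr T ‖h‖ := le_trans (by positivity) (le_max_left _ _)
    have hQ23 : Q ^ 2 ≤ Q ^ 3 := pow_le_pow_right₀ (by linarith) (by norm_num)
    have hN1 := nbf_mono hT.le hk0 hr0 hQ23 (nbf_perm (nbf_of hT.le hQ hA hF hNB) p)
    have hMu : (fun l => hG A m (p l)) = fun l => (BC.rh T (H l) : ℂ) * u l := by
      funext l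
      rw [hH, hu]
      exact hmu (p l)
    rw [hMu, ← hH] at hN1
    have hKp : kG A (pm p k) = fun l => kG A k (p l) := kG_pm A p k
    -- sizes
    have hle : ∀ l, ‖cp h l‖ ≤ Q * ‖hG A h l‖ := fun l => le_gA hQ hA _
    have hnh : ‖h‖ ≤ Q * ‖H 0‖ := by
      apply norm6
      intro l
      obtain ⟨j, rfl⟩ := p.surjective l
      refine (hle _).trans (mul_le_mul_of_nonneg_left ?_ hQpos.le)
      have := f.le0 j
      rw [hH] at this ⊢
      exact this
    have hnh2 : ‖H 0‖ ≤ Q * ‖h‖ := by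
      rw [hH]
      exact (gA_le hQ hA _).trans (mul_le_mul_of_nonneg_left (le_norm6 h _) hQpos.le)
    have hV1 : ‖h‖ ≤ Q ^ 3 * ‖H 0‖ :=
      hnh.trans (mul_le_mul_of_nonneg_right hQ3 (norm_nonneg _))
    have hV2 : ‖H 0‖ ≤ Q ^ 3 * ‖h‖ :=
      hnh2.trans (mul_le_mul_of_nonneg_right hQ3 (norm_nonneg _))
    have hV21 : V2r h ≤ Q * ‖H 1‖ := by
      have := V2r_le hle hQpos.le p hp
      rw [hH]
      exact this
    have g := geo f a (hthu 2)
    have e40 : (Q ^ 3) ^ 40 = Q ^ 120 := by rw [← pow_mul]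
    have hgd := gd f a (hthu 2)
    have hbd := bd f a (hthu 2) hN1 hV1 hV2
    rw [e40] at hgd hbd
    rw [Set.mem_iUnion]
    refine ⟨p, ?_⟩
    rw [Set.mem_iUnion]
    refine ⟨sgn H u, ((A, th 2), (th 0, th 1)), ⟨⟨?_, ⟨hthr 0, ?_⟩, ⟨hthr 1, ?_⟩⟩, ?_⟩, ?_⟩
    · rw [hR]
      refine ⟨KM_mono hQpos (by linarith) hA, hthr 2, ?_, ?_, ?_⟩
      · show Srt (hG A (pm p h))
        rw [hHp]; exact f.srt
      · show Gd (Q ^ 120) T (hG A (pm p h)) (sg (sgn H u)) (th 2)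
        rw [hHp]; exact hgd
      · show BD T (Q ^ 120 * kap T ‖h‖) (Q ^ 120 * kpr T ‖h‖)
          (fun l => Q ^ 120 * ‖hG A (pm p h) l‖)
            (hG A (pm p h)) (sg (sgn H u)) (th 2) (kG A (pm p k))
        rw [hHp, hKp]; exact hbd
    · show ‖cexp ((th 0 : ℂ) * I) - wG T (hG A (pm p h)) (sg (sgn H u)) (th 2) 0‖ ≤ d0
      rw [hHp, hthu 0]
      refine (g.wc 0 (by decide)).trans ?_
      rw [hd0, div_le_div_iff₀ (mul_pos hT (f.H_pos a 0)) (mul_pos hT hh0)]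
      calc 4 * Q ^ 3 * (T * ‖h‖) ≤ 4 * Q ^ 3 * (T * (Q * ‖H 0‖)) := by
            apply mul_le_mul_of_nonneg_left _ (by positivity)
            exact mul_le_mul_of_nonneg_left hnh hT.le
        _ = _ := by ring
    · show ‖cexp ((th 1 : ℂ) * I) - wG T (hG A (pm p h)) (sg (sgn H u)) (th 2) 1‖ ≤ d1
      rw [hHp, hthu 1]
      refine (g.wc 1 (by decide)).trans ?_
      rw [hd1, div_le_div_iff₀ (mul_pos hT (f.H_pos a 1)) (mul_pos hT hV0)]
      calc 4 * Q ^ 3 * (T * V2r h) ≤ 4 * Q ^ 3 * (T * (Q * ‖H 1‖)) := by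
            apply mul_le_mul_of_nonneg_left _ (by positivity)
            exact mul_le_mul_of_nonneg_left hV21 hT.le
        _ = _ := by ring
    · exact KM_mono hQpos (by linarith) hA
    · apply cp_ext
      intro l
      unfold Ps
      rw [cp_tr]
      have e1 : (![th 0, th 1, th 2] : Fin 3 → ℝ) (p.symm l) = th (p.symm l) := by
        generalize p.symm l = j
        fin_cases j <;> rfl
      show gI A ((BC.rh T (gA A (cp h l)) : ℂ) *
        cexp (((![th 0, th 1, th 2] : Fin 3 → ℝ) (p.symm l) : ℂ) * I)) = cp m l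
      rw [e1, hthu]
      have e2 : (BC.rh T (gA A (cp h l)) : ℂ) * u (p.symm l) = gA A (cp m l) := by
        rw [hu]
        simp only [Equiv.apply_symm_apply]
        exact (hmu l).symm
      rw [e2, pp.gI_gA]
  -- the volume
  have hK : (0 : ℝ) ≤ 2 ^ 13 * (2 * Q) ^ 10 * T := by positivity
  have hone : ∀ p s, volume (Ps T h p '' (SS T (pm p h) (sg s) d0 d1 (R p s) ∩ DD (2 * Q))) ≤
      ENNReal.ofReal (Q ^ 120 * T ^ 4 / (‖h‖ * V2r h)) * volume (R p s) := by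
    intro p s
    have hl := (lip_Ps (M := 2 * Q) (by linarith) hT hxM p).mono
      (Set.inter_subset_right (s := SS T (pm p h) (sg s) d0 d1 (R p s)) (t := DD (2 * Q)))
    have hv := hC _ _ _ hl
    have hs := (measure_mono (Set.inter_subset_left (s := SS T (pm p h) (sg s) d0 d1 (R p s))
      (t := DD (2 * Q)))).trans (vol_SS T (pm p h) (sg s) hd0' hd1' (R p s))
    refine hv.trans ((mul_le_mul_right hs _).trans ?_)
    rw [← mul_assoc]
    refine mul_le_mul_left ?_ _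
    have e1 : (C : ℝ≥0∞) * ((Real.toNNReal (2 ^ 13 * (2 * Q) ^ 10 * T) : ℝ≥0) : ℝ≥0∞) ^ 6 *
        (ENNReal.ofReal (24 * d0) * ENNReal.ofReal (24 * d1)) =
        ENNReal.ofReal (C * (2 ^ 13 * (2 * Q) ^ 10 * T) ^ 6 * (24 * d0 * (24 * d1))) := by
      have x1 : ENNReal.ofReal (C * (2 ^ 13 * (2 * Q) ^ 10 * T) ^ 6 * (24 * d0 * (24 * d1))) =
          ENNReal.ofReal (C * (2 ^ 13 * (2 * Q) ^ 10 * T) ^ 6) *
          ENNReal.ofReal (24 * d0 * (24 * d1)) := ENNReal.ofReal_mul (by positivity)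
      have x2 : ENNReal.ofReal (C * (2 ^ 13 * (2 * Q) ^ 10 * T) ^ 6) =
          ENNReal.ofReal C * ENNReal.ofReal ((2 ^ 13 * (2 * Q) ^ 10 * T) ^ 6) :=
        ENNReal.ofReal_mul (by positivity)
      have x3 : ENNReal.ofReal (24 * d0 * (24 * d1)) =
          ENNReal.ofReal (24 * d0) * ENNReal.ofReal (24 * d1) :=
        ENNReal.ofReal_mul (by positivity)
      rw [x1, x2, x3, ENNReal.ofReal_pow hK, ENNReal.ofReal_coe_nnreal]
      rfl
    rw [e1]
    apply ENNReal.ofReal_le_ofReal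
    rw [hd0, hd1]
    have e2 : (C : ℝ) * (2 ^ 13 * (2 * Q) ^ 10 * T) ^ 6 *
        (24 * (4 * Q ^ 4 / (T * ‖h‖)) * (24 * (4 * Q ^ 4 / (T * V2r h)))) =
        (C * (2 ^ 138 * 576 * 16)) * Q ^ 68 * T ^ 4 / (‖h‖ * V2r h) := by
      field_simp
      ring
    rw [e2]
    apply div_le_div_of_nonneg_right _ (by positivity)
    apply mul_le_mul_of_nonneg_right _ (by positivity)
    calc C * (2 ^ 138 * 576 * 16) * Q ^ 68 ≤ Q * Q ^ 68 :=
          mul_le_mul_of_nonneg_right hQC (by positivity)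
      _ = Q ^ 69 := by ring
      _ ≤ Q ^ 120 := pow_le_pow_right₀ (by linarith) (by norm_num)
  calc volume {m : R6 | Reg Q T h m ∧ NB Q T h m k}
      ≤ volume (⋃ p : Equiv.Perm (Fin 3), ⋃ s : Bool × Bool,
        Ps T h p '' (SS T (pm p h) (sg s) d0 d1 (R p s) ∩ DD (2 * Q))) := measure_mono hsub
    _ ≤ ∑ p : Equiv.Perm (Fin 3), volume (⋃ s : Bool × Bool,
        Ps T h p '' (SS T (pm p h) (sg s) d0 d1 (R p s) ∩ DD (2 * Q))) :=
        measure_iUnion_fintype_le _ _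
    _ ≤ ∑ p : Equiv.Perm (Fin 3), ∑ s : Bool × Bool, volume (
        Ps T h p '' (SS T (pm p h) (sg s) d0 d1 (R p s) ∩ DD (2 * Q))) :=
        Finset.sum_le_sum fun p _ => measure_iUnion_fintype_le _ _
    _ ≤ ∑ p : Equiv.Perm (Fin 3), ∑ s : Bool × Bool,
        ENNReal.ofReal (Q ^ 120 * T ^ 4 / (‖h‖ * V2r h)) * volume (R p s) :=
        Finset.sum_le_sum fun p _ => Finset.sum_le_sum fun s _ => hone p s
    _ = _ := by
        rw [Finset.mul_sum]
        refine Finset.sum_congr rfl fun p _ => ?_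
        rw [Finset.mul_sum]

end Pool.Agent.F5H.F2
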