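import Pool.Agent.Helper36_F5H.WHc

/-!
MP_f5cbfa_nt, squad F5H: the weighted number of pairs `(v, h)` (note 2500 (4)).
-/

set_option autoImplicit false

open MeasureTheory

namespace Pool.Agent.F5H.W36

open Pool.Agent.Helper68_F5

/-- average density of a strip -/
noncomputable def del (R W : ℝ) : ℝ := 1 / Real.sqrt R + W / R * (1 + Real.log R)

theorem del_nonneg {R W : ℝ} (hR : 1 ≤ R) (hW : 0 ≤ W) : 0 ≤ del R W := by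
  unfold del
  have := Real.log_nonneg hR
  positivity

theorem FF_eq (R V W : ℝ) : FF R V W = 1 + V * del R W := by
  unfold FF del; ring

/-- average of `q` -/
noncomputable def QQ (R W : ℝ) : ℝ := 1 + (1 + W / R) * del R W

theorem QQ_ge {R W : ℝ} (hR : 1 ≤ R) (hW : 0 ≤ W) : 1 ≤ QQ R W := by
  unfold QQ
  have h1 := del_nonneg hR hW
  have h2 : 0 ≤ W / R := by positivity
  nlinarith [mul_nonneg h2 h1]

/-- removing the constant by homogeneity -/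
theorem hom_bound {s x X δ : ℝ} (hX : 0 ≤ X) (h : ∀ V : ℝ, 0 ≤ V → x + V * s ≤ X * (1 + V * δ))
    (hx : 0 ≤ x) : s ≤ X * δ := by
  by_contra hc
  push Not at hc
  have hp : 0 < s - X * δ := by linarith
  have := h ((X + 1) / (s - X * δ)) (by positivity)
  have e : (X + 1) / (s - X * δ) * s - X * ((X + 1) / (s - X * δ) * δ) = X + 1 := by
    field_simp
  nlinarith

theorem dd_ann (han : AnnStmt) (has : AnnStripStmt) (hsh : ShortStmt) : ∀ c₀ : ℝ, 0 < c₀ →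
    ∃ K : ℝ, 1 ≤ K ∧ ∀ g : ℤ × ℤ →+ ℂ, Sep c₀ g → ∀ (P R τ W : ℝ), 1 ≤ P → 4 * P ≤ R →
      R ≤ τ → τ ≤ 2 * R → 0 ≤ W → ∀ S : Finset (ℤ × ℤ), (∀ z ∈ S, |‖g z‖ - τ| ≤ P) →
      ∑ v ∈ S, dd g P R W (g v) ≤ K * P ^ 4 * R * del R W := by
  intro c₀ hc₀
  obtain ⟨K, hK, h⟩ := dsum_ann han has hsh c₀ hc₀
  refine ⟨K, hK, ?_⟩
  intro g hg P R τ W hP hPR hRτ hτR hW S hS
  have hR0 : 0 < R := by linarith
  refine hom_bound (x := (S.card : ℝ)) (by positivity) ?_ (Nat.cast_nonneg _)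
  intro V hV
  have key := h g hg P R τ V W hP hPR hRτ hτR hV hW S hS
  rw [FF_eq] at key
  have e : ∑ v ∈ S, DP g P R V W (g v) = S.card + V * ∑ v ∈ S, dd g P R W (g v) := by
    simp only [DP_eq]
    rw [Finset.sum_add_distrib, Finset.sum_const, nsmul_eq_mul, mul_one, Finset.mul_sum]
  rw [e] at key
  exact key

theorem dd_disc (hds : DiscStripStmt) (hbox : BoxStmt) (hsh : ShortStmt) : ∀ c₀ : ℝ, 0 < c₀ →
    ∃ K : ℝ, 1 ≤ K ∧ ∀ g : ℤ × ℤ →+ ℂ, Sep c₀ g → ∀ (P R W : ℝ), 1 ≤ P → 1 ≤ R →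
      0 ≤ W → ∀ S : Finset (ℤ × ℤ), (∀ z ∈ S, ‖g z‖ ≤ 2 * R) →
      (S.card : ℝ) ≤ K * P ^ 3 * R ^ 2 ∧
      ∑ v ∈ S, dd g P R W (g v) ≤ K * P ^ 3 * R ^ 2 * del R W := by
  intro c₀ hc₀
  obtain ⟨K, hK, h⟩ := dsum_disc hds hbox hsh c₀ hc₀
  refine ⟨K, hK, ?_⟩
  intro g hg P R W hP hR hW S hS
  have hR0 : 0 < R := by linarith
  have main : ∀ V : ℝ, 0 ≤ V → (S.card : ℝ) + V * ∑ v ∈ S, dd g P R W (g v) ≤
      K * P ^ 3 * R ^ 2 * (1 + V * del R W) := by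
    intro V hV
    have key := h g hg P R V W hP hR hV hW S hS
    rw [FF_eq] at key
    have e : ∑ v ∈ S, DP g P R V W (g v) = S.card + V * ∑ v ∈ S, dd g P R W (g v) := by
      simp only [DP_eq]
      rw [Finset.sum_add_distrib, Finset.sum_const, nsmul_eq_mul, mul_one, Finset.mul_sum]
    rw [e] at key
    exact key
  refine ⟨?_, hom_bound (x := (S.card : ℝ)) (by positivity) main (Nat.cast_nonneg _)⟩
  have := main 0 le_rfl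
  simpa using this

/-- fibring of a sum of products over triples -/
theorem fibre_sum (han : AnnStmt) : ∀ c₀ : ℝ, 0 < c₀ → ∃ K : ℝ, 1 ≤ K ∧ ∀ g : ℤ × ℤ →+ ℂ,
    Sep c₀ g → ∀ (P R X Y : ℝ), 1 ≤ P → 4 * P ≤ R → 0 ≤ X → 0 ≤ Y →
      ∀ 𝓥 : Finset T3, (∀ v ∈ 𝓥, R ≤ ‖g v.1‖ ∧ ‖g v.1‖ ≤ 2 * R ∧
        |‖g v.2.1‖ - ‖g v.1‖| ≤ P ∧ |‖g v.2.2‖ - ‖g v.1‖| ≤ P) →
      ∀ (F G : ℤ × ℤ → ℝ), (∀ z, 0 ≤ F z) → (∀ z, 0 ≤ G z) →
      (∀ S : Finset (ℤ × ℤ), (∀ z ∈ S, ‖g z‖ ≤ 2 * R) → ∑ z ∈ S, F z ≤ X) →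
      (∀ τ : ℝ, R ≤ τ → τ ≤ 2 * R → ∀ S : Finset (ℤ × ℤ), (∀ z ∈ S, |‖g z‖ - τ| ≤ P) →
        ∑ z ∈ S, G z ≤ Y) →
      ∑ v ∈ 𝓥, F v.1 * G v.2.1 ≤ K * P * R * (X * Y) := by
  classical
  intro c₀ hc₀
  obtain ⟨K₄, hK₄, h4⟩ := han c₀ hc₀
  refine ⟨3 * K₄, by linarith, ?_⟩
  intro g hg P R X Y hP hPR hX hY 𝓥 hv F G hF hG hFX hGY
  have hR0 : 0 < R := by linarith
  have e2 : ∑ v ∈ 𝓥, F v.1 * G v.2.1 ≤ ∑ v₁ ∈ 𝓥.image (fun v => v.1),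
        F v₁ * ((∑ v₂ ∈ (𝓥.filter (fun v => v.1 = v₁)).image (fun v => v.2.1), G v₂) *
          (3 * K₄ * P * R)) := by
    rw [← Finset.sum_fiberwise_of_maps_to (t := 𝓥.image (fun v => v.1)) (g := fun v : T3 => v.1)
      (fun v hv => Finset.mem_image_of_mem _ hv)]
    refine Finset.sum_le_sum fun v₁ hv₁ => ?_
    have e3 : ∑ v ∈ 𝓥.filter (fun v => v.1 = v₁), F v.1 * G v.2.1 =
        F v₁ * ∑ v ∈ 𝓥.filter (fun v => v.1 = v₁), G v.2.1 := by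
      rw [Finset.mul_sum]
      refine Finset.sum_congr rfl fun v hv => ?_
      rw [(Finset.mem_filter.1 hv).2]
    rw [e3]
    refine mul_le_mul_of_nonneg_left ?_ (hF _)
    rw [← Finset.sum_fiberwise_of_maps_to
      (t := (𝓥.filter (fun v => v.1 = v₁)).image (fun v => v.2.1)) (g := fun v : T3 => v.2.1)
      (fun v hv => Finset.mem_image_of_mem _ hv), Finset.sum_mul]
    refine Finset.sum_le_sum fun v₂ _ => ?_
    have e4 : ∑ v ∈ (𝓥.filter (fun v => v.1 = v₁)).filter (fun v => v.2.1 = v₂), G v.2.1 =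
        (((𝓥.filter (fun v => v.1 = v₁)).filter (fun v => v.2.1 = v₂)).card : ℝ) * G v₂ := by
      rw [← nsmul_eq_mul, ← Finset.sum_const]
      refine Finset.sum_congr rfl fun v hv => ?_
      rw [(Finset.mem_filter.1 hv).2]
    rw [e4, mul_comm (G v₂)]
    refine mul_le_mul_of_nonneg_right ?_ (hG _)
    have hinj : Set.InjOn (fun v : T3 => v.2.2)
        ((𝓥.filter (fun v => v.1 = v₁)).filter (fun v => v.2.1 = v₂) : Finset _) := by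
      intro x hx y hy hxy
      rw [Finset.mem_coe, Finset.mem_filter, Finset.mem_filter] at hx hy
      exact Prod.ext (hx.1.2.trans hy.1.2.symm) (Prod.ext (hx.2.trans hy.2.symm) hxy)
    rw [← Finset.card_image_of_injOn hinj]
    by_cases hne : ((𝓥.filter (fun v => v.1 = v₁)).filter (fun v => v.2.1 = v₂)).Nonempty
    · obtain ⟨w, hw⟩ := hne
      rw [Finset.mem_filter, Finset.mem_filter] at hw
      obtain ⟨hlo, hhi, _, _⟩ := hv w hw.1.1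
      have key := h4 g hg ‖g v₁‖ P hP (norm_nonneg _)
        (((𝓥.filter (fun v => v.1 = v₁)).filter (fun v => v.2.1 = v₂)).image (fun v => v.2.2)) (by
          intro z hz
          rw [Finset.mem_image] at hz
          obtain ⟨u, hu, rfl⟩ := hz
          rw [Finset.mem_filter, Finset.mem_filter] at hu
          have := (hv u hu.1.1).2.2.2
          rw [hu.1.2] at this
          exact this)
      refine le_trans key ?_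
      rw [hw.1.2] at hhi
      calc K₄ * P * (‖g v₁‖ + P) ≤ K₄ * P * (3 * R) :=
            mul_le_mul_of_nonneg_left (by linarith) (by positivity)
        _ = 3 * K₄ * P * R := by ring
    · rw [Finset.not_nonempty_iff_eq_empty] at hne
      rw [hne]
      simp only [Finset.image_empty, Finset.card_empty, Nat.cast_zero]
      positivity
  refine le_trans e2 ?_
  have e6 : ∀ v₁ ∈ 𝓥.image (fun v => v.1),
      ∑ v₂ ∈ (𝓥.filter (fun v => v.1 = v₁)).image (fun v => v.2.1), G v₂ ≤ Y := by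
    intro v₁ hv₁
    rw [Finset.mem_image] at hv₁
    obtain ⟨w, hw, rfl⟩ := hv₁
    obtain ⟨hlo, hhi, _, _⟩ := hv w hw
    refine hGY ‖g w.1‖ hlo hhi _ ?_
    intro z hz
    rw [Finset.mem_image] at hz
    obtain ⟨u, hu, rfl⟩ := hz
    rw [Finset.mem_filter] at hu
    have := (hv u hu.1).2.2.1
    rw [hu.2] at this
    exact this
  have e7 : ∑ v₁ ∈ 𝓥.image (fun v => v.1), F v₁ ≤ X := by
    refine hFX _ ?_
    intro z hz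
    rw [Finset.mem_image] at hz
    obtain ⟨u, hu, rfl⟩ := hz
    exact (hv u hu).2.1
  have hc : 0 ≤ Y * (3 * K₄ * P * R) := by positivity
  calc ∑ v₁ ∈ 𝓥.image (fun v => v.1),
        F v₁ * ((∑ v₂ ∈ (𝓥.filter (fun v => v.1 = v₁)).image (fun v => v.2.1), G v₂) *
          (3 * K₄ * P * R))
      ≤ ∑ v₁ ∈ 𝓥.image (fun v => v.1), F v₁ * (Y * (3 * K₄ * P * R)) := by
        refine Finset.sum_le_sum fun v₁ hv₁ => ?_
        refine mul_le_mul_of_nonneg_left ?_ (hF _)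
        exact mul_le_mul_of_nonneg_right (e6 v₁ hv₁) (by positivity)
    _ = (∑ v₁ ∈ 𝓥.image (fun v => v.1), F v₁) * (Y * (3 * K₄ * P * R)) := by
        rw [Finset.sum_mul]
    _ ≤ X * (Y * (3 * K₄ * P * R)) := mul_le_mul_of_nonneg_right e7 hc
    _ = _ := by ring

/-- the bound of the weighted count -/
noncomputable def NW (P R S V₁ V₂ V₃ ω₁ ω₂ ω₃ Λ : ℝ) : ℝ :=
  R ^ 4 * (max 1 V₃ * (1 + WW P R S V₁ V₃ ω₃ / R)) *
    (QQ R (WW P R S V₁ V₁ ω₁) * QQ R (WW P R S V₁ V₂ ω₂) +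
      QQ R (WW P R S V₁ V₁ ω₁) * (V₂ * del R (WW P R S V₁ V₂ ω₂)) +
      QQ R (WW P R S V₁ V₂ ω₂) * (V₁ * del R (WW P R S V₁ V₁ ω₁)) +
      Λ / V₂ * (del R (WW P R S V₁ V₁ ω₁) * del R (WW P R S V₁ V₂ ω₂)))

/-- WEIGHTED COUNT.  `C v h₁ h₃` is an arbitrary function. -/
theorem wpair_count (hst : StripStmt) (hds : DiscStripStmt) (hbox : BoxStmt) (han : AnnStmt)
    (has : AnnStripStmt) (hsh : ShortStmt) : ∀ c₀ : ℝ, 0 < c₀ → ∃ K : ℝ, 1 ≤ K ∧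
    ∀ g : ℤ × ℤ →+ ℂ, Sep c₀ g → ∀ (P R S V₁ V₂ V₃ ω₁ ω₂ ω₃ Λ : ℝ) (J : ℕ)
      (C : T3 → (ℤ × ℤ) → (ℤ × ℤ) → ℝ), 1 ≤ P →
      36864 * P ^ 3 ≤ R → 0 < S → 1 ≤ V₂ → V₂ ≤ V₁ → 0 ≤ V₃ → V₃ ≤ V₂ → 0 ≤ ω₁ → 0 ≤ ω₂ →
      0 ≤ ω₃ → 0 ≤ Λ → V₁ ≤ 2 ^ J →
      ∀ 𝓟 : Finset (T3 × T3), (∀ p ∈ 𝓟, Pair g P R S V₁ V₂ V₃ ω₁ ω₂ ω₃ p.1 p.2) →
        (∀ p ∈ 𝓟, Lev P V₂ Λ (C p.1) g (g p.1.1) (g p.1.2.1) (g p.1.2.2) p.2) →
        (𝓟.card : ℝ) ≤ K * P ^ 9 * (J + 1) * NW P R S V₁ V₂ V₃ ω₁ ω₂ ω₃ Λ := by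
  classical
  intro c₀ hc₀
  obtain ⟨K₁, hK₁, h1⟩ := whcount hst hds c₀ hc₀
  obtain ⟨K₂, hK₂, h2⟩ := dd_ann han has hsh c₀ hc₀
  obtain ⟨K₃, hK₃, h3⟩ := dd_disc hds hbox hsh c₀ hc₀
  obtain ⟨K₄, hK₄, h4⟩ := fibre_sum han c₀ hc₀
  obtain ⟨K₅, hK₅, h5⟩ := han c₀ hc₀
  obtain ⟨Ka, hKa⟩ : ∃ K, K = K₂ + 3 * K₅ := ⟨_, rfl⟩
  have hKa1 : 1 ≤ Ka := by linarith
  have k1 : 1 ≤ K₁ * K₃ := by nlinarith
  have k2 : 1 ≤ K₁ * K₃ * Ka := by nlinarith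
  have k3 : 1 ≤ K₁ * K₃ * Ka * K₄ := by nlinarith
  refine ⟨K₁ * K₃ * Ka * K₄, k3, ?_⟩
  intro g hg P R S V₁ V₂ V₃ ω₁ ω₂ ω₃ Λ J C hP hPR hS hV2 h21 h30 h32 hω₁ hω₂ hω₃ hΛ hJ 𝓟 h𝓟 hlev
  have hP3 : P ≤ P ^ 3 := by
    nlinarith [mul_nonneg (by linarith : (0:ℝ) ≤ P - 1) (by linarith : (0:ℝ) ≤ P),
      mul_nonneg (by positivity : (0:ℝ) ≤ P ^ 2) (by linarith : (0:ℝ) ≤ P - 1)]
  have hPR4 : 4 * P ≤ R := by linarith
  have hR : 1 ≤ R := by linarith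
  have hR0 : 0 < R := by linarith
  have hP0 : 0 < P := by linarith
  obtain ⟨W₁, hW₁⟩ : ∃ W, W = WW P R S V₁ V₁ ω₁ := ⟨_, rfl⟩
  obtain ⟨W₂, hW₂⟩ : ∃ W, W = WW P R S V₁ V₂ ω₂ := ⟨_, rfl⟩
  obtain ⟨W₃, hW₃⟩ : ∃ W, W = WW P R S V₁ V₃ ω₃ := ⟨_, rfl⟩
  have hW₁0 : 0 ≤ W₁ := by rw [hW₁]; exact WW_nonneg hR0.le hS.le (by linarith) hω₁
  have hW₂0 : 0 ≤ W₂ := by rw [hW₂]; exact WW_nonneg hR0.le hS.le (by linarith) hω₂
  have hW₃0 : 0 ≤ W₃ := by rw [hW₃]; exact WW_nonneg hR0.le hS.le h30 hω₃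
  obtain ⟨B, hB⟩ : ∃ B, B = max 1 V₃ * (1 + W₃ / R) := ⟨_, rfl⟩
  have hB0 : 0 ≤ B := by
    rw [hB]
    have : (0 : ℝ) ≤ max 1 V₃ := le_trans zero_le_one (le_max_left _ _)
    positivity
  -- the first projection
  obtain ⟨𝓥, h𝓥⟩ : ∃ 𝓥, 𝓥 = 𝓟.image (fun p => p.1) := ⟨_, rfl⟩
  have hv : ∀ v ∈ 𝓥, R ≤ ‖g v.1‖ ∧ ‖g v.1‖ ≤ 2 * R ∧ Tri P ‖g v.1‖ (g v.1) (g v.2.1) (g v.2.2) := by
    intro v hv
    rw [h𝓥, Finset.mem_image] at hv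
    obtain ⟨p, hp, rfl⟩ := hv
    exact ⟨(h𝓟 p hp).lo, (h𝓟 p hp).hi, (h𝓟 p hp).tri⟩
  have hv' : ∀ v ∈ 𝓥, R ≤ ‖g v.1‖ ∧ ‖g v.1‖ ≤ 2 * R ∧
        |‖g v.2.1‖ - ‖g v.1‖| ≤ P ∧ |‖g v.2.2‖ - ‖g v.1‖| ≤ P := by
    intro v hv1
    obtain ⟨a1, a2, a3⟩ := hv v hv1
    exact ⟨a1, a2, a3.n₂, a3.n₃⟩
  obtain ⟨E, hE⟩ : ∃ E : T3 → ℝ, E = fun v =>
      qq g P R W₁ (g v.1) * qq g P R W₂ (g v.2.1) +
          qq g P R W₁ (g v.1) * (V₂ * dd g P R W₂ (g v.2.1)) +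
          qq g P R W₂ (g v.2.1) * (V₁ * dd g P R W₁ (g v.1)) +
          Λ / V₂ * (dd g P R W₁ (g v.1) * dd g P R W₂ (g v.2.1)) := ⟨_, rfl⟩
  have e1 : (𝓟.card : ℝ) ≤ ∑ v ∈ 𝓥, K₁ * P * (J + 1) * B * E v := by
    have h6 : (𝓟.card : ℝ) = ∑ v ∈ 𝓥, ((𝓟.filter (fun p => p.1 = v)).card : ℝ) := by
      rw [Finset.card_eq_sum_card_image (fun p : T3 × T3 => p.1) 𝓟, h𝓥]; push_cast; rfl
    rw [h6]
    refine Finset.sum_le_sum fun v hv' => ?_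
    obtain ⟨hlo, hhi, ht⟩ := hv v hv'
    have hinj : Set.InjOn (fun p : T3 × T3 => p.2) (𝓟.filter (fun p => p.1 = v) : Finset _) := by
      intro x hx y hy hxy
      rw [Finset.mem_coe, Finset.mem_filter] at hx hy
      exact Prod.ext (hx.2.trans hy.2.symm) hxy
    rw [← Finset.card_image_of_injOn hinj]
    have key := h1 g hg P R S ‖g v.1‖ V₁ V₂ V₃ ω₁ ω₂ ω₃ Λ (g v.1) (g v.2.1) (g v.2.2) J (C v) ht
      hR hlo hhi (le_trans hPR hlo) hS hV2 h21 h30 h32 hω₁ hω₂ hω₃ hΛ hJ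
      ((𝓟.filter (fun p => p.1 = v)).image (fun p => p.2)) (by
        intro h hh
        rw [Finset.mem_image] at hh
        obtain ⟨p, hp, rfl⟩ := hh
        rw [Finset.mem_filter] at hp
        rw [← hp.2]
        exact (h𝓟 p hp.1).win) (by
        intro h hh
        rw [Finset.mem_image] at hh
        obtain ⟨p, hp, rfl⟩ := hh
        rw [Finset.mem_filter] at hp
        rw [← hp.2]
        exact hlev p hp.1)
    rw [← hW₁, ← hW₂, ← hW₃, ← hB] at key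
    refine le_trans key (le_of_eq ?_)
    rw [hE]
  -- nonnegativity
  have hdd₁ : ∀ z, 0 ≤ dd g P R W₁ (g z) := fun z => dd_nonneg g hW₁0 hR0.le _
  have hdd₂ : ∀ z, 0 ≤ dd g P R W₂ (g z) := fun z => dd_nonneg g hW₂0 hR0.le _
  have hqq₁ : ∀ z, 0 ≤ qq g P R W₁ (g z) := fun z => by
    have := (qq_ge g (P := P) hW₁0 hR0.le (g z)).1; linarith
  have hqq₂ : ∀ z, 0 ≤ qq g P R W₂ (g z) := fun z => by
    have := (qq_ge g (P := P) hW₂0 hR0.le (g z)).1; linarith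
  have hδ₁ := del_nonneg hR hW₁0
  have hδ₂ := del_nonneg hR hW₂0
  have hQ₁ := QQ_ge hR hW₁0
  have hQ₂ := QQ_ge hR hW₂0
  have hWR₁ : 0 ≤ W₁ / R := by positivity
  have hWR₂ : 0 ≤ W₂ / R := by positivity
  -- disc sums
  have D1 : ∀ S : Finset (ℤ × ℤ), (∀ z ∈ S, ‖g z‖ ≤ 2 * R) →
      ∑ z ∈ S, dd g P R W₁ (g z) ≤ K₃ * P ^ 3 * R ^ 2 * del R W₁ := fun S hS =>
    (h3 g hg P R W₁ hP hR hW₁0 S hS).2
  have Q1 : ∀ S : Finset (ℤ × ℤ), (∀ z ∈ S, ‖g z‖ ≤ 2 * R) →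
      ∑ z ∈ S, qq g P R W₁ (g z) ≤ K₃ * P ^ 3 * R ^ 2 * QQ R W₁ := by
    intro S hS
    obtain ⟨a1, a2⟩ := h3 g hg P R W₁ hP hR hW₁0 S hS
    unfold qq QQ
    rw [Finset.sum_add_distrib, Finset.sum_const, nsmul_eq_mul, mul_one, ← Finset.mul_sum]
    have := mul_le_mul_of_nonneg_left a2 (by linarith : 0 ≤ 1 + W₁ / R)
    nlinarith
  -- annulus sums
  have D2 : ∀ τ : ℝ, R ≤ τ → τ ≤ 2 * R → ∀ S : Finset (ℤ × ℤ), (∀ z ∈ S, |‖g z‖ - τ| ≤ P) →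
      ∑ z ∈ S, dd g P R W₂ (g z) ≤ Ka * P ^ 4 * R * del R W₂ := by
    intro τ hτ1 hτ2 S hS
    refine le_trans (h2 g hg P R τ W₂ hP hPR4 hτ1 hτ2 hW₂0 S hS) ?_
    have : K₂ ≤ Ka := by linarith
    have c0 : 0 ≤ P ^ 4 * R * del R W₂ := by positivity
    nlinarith
  have Q2 : ∀ τ : ℝ, R ≤ τ → τ ≤ 2 * R → ∀ S : Finset (ℤ × ℤ), (∀ z ∈ S, |‖g z‖ - τ| ≤ P) →
      ∑ z ∈ S, qq g P R W₂ (g z) ≤ Ka * P ^ 4 * R * QQ R W₂ := by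
    intro τ hτ1 hτ2 S hS
    have a2 := h2 g hg P R τ W₂ hP hPR4 hτ1 hτ2 hW₂0 S hS
    have a1 := h5 g hg τ P hP (by linarith) S hS
    have a3 : (S.card : ℝ) ≤ 3 * K₅ * P ^ 4 * R := by
      refine le_trans a1 ?_
      have b1 : P ≤ P ^ 4 := by
        nlinarith [mul_nonneg (by positivity : (0:ℝ) ≤ P ^ 3) (by linarith : (0:ℝ) ≤ P - 1)]
      calc K₅ * P * (τ + P) ≤ K₅ * P * (3 * R) :=
            mul_le_mul_of_nonneg_left (by linarith) (by positivity)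
        _ = 3 * K₅ * R * P := by ring
        _ ≤ 3 * K₅ * R * P ^ 4 := mul_le_mul_of_nonneg_left b1 (by positivity)
        _ = _ := by ring
    unfold qq QQ
    rw [Finset.sum_add_distrib, Finset.sum_const, nsmul_eq_mul, mul_one, ← Finset.mul_sum]
    have b2 := mul_le_mul_of_nonneg_left a2 (by linarith : 0 ≤ 1 + W₂ / R)
    have b3 : 0 ≤ P ^ 4 * R := by positivity
    have b4 : 0 ≤ (1 + W₂ / R) * del R W₂ := by positivity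
    have b5 : 0 ≤ 3 * K₅ * (P ^ 4 * R) * ((1 + W₂ / R) * del R W₂) := by positivity
    have b6 : 0 ≤ K₂ * (P ^ 4 * R) := by positivity
    rw [hKa]
    calc (S.card : ℝ) + (1 + W₂ / R) * ∑ z ∈ S, dd g P R W₂ (g z)
        ≤ 3 * K₅ * P ^ 4 * R + (1 + W₂ / R) * (K₂ * P ^ 4 * R * del R W₂) := add_le_add a3 b2
      _ ≤ (K₂ + 3 * K₅) * P ^ 4 * R * (1 + (1 + W₂ / R) * del R W₂) := by nlinarith
  -- the four sums
  have X0 : 0 ≤ K₃ * P ^ 3 * R ^ 2 := by positivity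
  have Y0 : 0 ≤ Ka * P ^ 4 * R := by positivity
  have T1 := h4 g hg P R _ _ hP hPR4 (by positivity : 0 ≤ K₃ * P ^ 3 * R ^ 2 * QQ R W₁)
    (by positivity : 0 ≤ Ka * P ^ 4 * R * QQ R W₂) 𝓥 hv' (fun z => qq g P R W₁ (g z))
    (fun z => qq g P R W₂ (g z)) hqq₁ hqq₂ Q1 Q2
  have T2 := h4 g hg P R _ _ hP hPR4 (by positivity : 0 ≤ K₃ * P ^ 3 * R ^ 2 * QQ R W₁)
    (by positivity : 0 ≤ Ka * P ^ 4 * R * del R W₂) 𝓥 hv' (fun z => qq g P R W₁ (g z))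
    (fun z => dd g P R W₂ (g z)) hqq₁ hdd₂ Q1 D2
  have T3' := h4 g hg P R _ _ hP hPR4 (by positivity : 0 ≤ K₃ * P ^ 3 * R ^ 2 * del R W₁)
    (by positivity : 0 ≤ Ka * P ^ 4 * R * QQ R W₂) 𝓥 hv' (fun z => dd g P R W₁ (g z))
    (fun z => qq g P R W₂ (g z)) hdd₁ hqq₂ D1 Q2
  have T4 := h4 g hg P R _ _ hP hPR4 (by positivity : 0 ≤ K₃ * P ^ 3 * R ^ 2 * del R W₁)
    (by positivity : 0 ≤ Ka * P ^ 4 * R * del R W₂) 𝓥 hv' (fun z => dd g P R W₁ (g z))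
    (fun z => dd g P R W₂ (g z)) hdd₁ hdd₂ D1 D2
  have hsum : ∑ v ∈ 𝓥, E v ≤ K₄ * P * R * ((K₃ * P ^ 3 * R ^ 2) * (Ka * P ^ 4 * R)) *
      (QQ R W₁ * QQ R W₂ + QQ R W₁ * (V₂ * del R W₂) + QQ R W₂ * (V₁ * del R W₁) +
        Λ / V₂ * (del R W₁ * del R W₂)) := by
    have e : ∑ v ∈ 𝓥, E v = ∑ v ∈ 𝓥, qq g P R W₁ (g v.1) * qq g P R W₂ (g v.2.1) +
        V₂ * ∑ v ∈ 𝓥, qq g P R W₁ (g v.1) * dd g P R W₂ (g v.2.1) +
        V₁ * ∑ v ∈ 𝓥, dd g P R W₁ (g v.1) * qq g P R W₂ (g v.2.1) +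
        Λ / V₂ * ∑ v ∈ 𝓥, dd g P R W₁ (g v.1) * dd g P R W₂ (g v.2.1) := by
      rw [Finset.mul_sum, Finset.mul_sum, Finset.mul_sum, ← Finset.sum_add_distrib,
        ← Finset.sum_add_distrib, ← Finset.sum_add_distrib, hE]
      refine Finset.sum_congr rfl fun v _ => ?_
      ring
    rw [e]
    have a2 := mul_le_mul_of_nonneg_left T2 (by linarith : 0 ≤ V₂)
    have a3 := mul_le_mul_of_nonneg_left T3' (by linarith : 0 ≤ V₁)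
    have a4 := mul_le_mul_of_nonneg_left T4 (by positivity : 0 ≤ Λ / V₂)
    refine le_trans (add_le_add (add_le_add (add_le_add T1 a2) a3) a4) (le_of_eq ?_)
    ring
  refine le_trans e1 ?_
  rw [← Finset.mul_sum]
  have hKB : 0 ≤ K₁ * P * (J + 1) * B := by positivity
  refine le_trans (mul_le_mul_of_nonneg_left hsum hKB) (le_of_eq ?_)
  unfold NW
  rw [← hW₁, ← hW₂, ← hW₃, ← hB]
  ring

end Pool.Agent.F5H.W36
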