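import Pool.Agent.Helper68_F5.Kc1
import Pool.Agent.Helper36_F5H.WPair

/-!
MP_f5cbfa_nt, squad F5H, row C_KC2: the level condition from the radial coefficient.

`Gm` is the (normalised) coefficient `n d` of `kappa` at the first index; it is small on the
degenerate set.  A small value of `Gm` confines `tau₂ ^ 2`.
-/

set_option autoImplicit false

open MeasureTheory

namespace Pool.Agent.F5H.K2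

open Pool.Agent.Helper68_F5 Pool.Agent.F5H.W36

/-- the form with values `‖H‖ ^ 2` at the `e` -/
noncomputable def aa (e₁ e₂ e₃ H₁ H₂ H₃ : ℂ) : ℝ × ℝ × ℝ :=
  itp e₁ e₂ e₃ (‖H₁‖ ^ 2) (‖H₂‖ ^ 2) (‖H₃‖ ^ 2)

noncomputable def Gm (e₁ e₂ e₃ H₁ H₂ H₃ : ℂ) : ℝ :=
  bf (aa e₁ e₂ e₃ H₁ H₂ H₃) e₁ H₁ - bf (aa e₁ e₂ e₃ H₁ H₂ H₃) e₃ H₃

/-- separated unit vectors -/
structure Un (P : ℝ) (e₁ e₂ e₃ : ℂ) : Prop where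
  n₁ : ‖e₁‖ = 1
  n₂ : ‖e₂‖ = 1
  n₃ : ‖e₃‖ = 1
  w₁₂ : 1 ≤ P * |wd e₁ e₂|
  w₂₃ : 1 ≤ P * |wd e₂ e₃|
  w₃₁ : 1 ≤ P * |wd e₃ e₁|

theorem wd_ne_of {P : ℝ} {e f : ℂ} (h : 1 ≤ P * |wd e f|) : wd e f ≠ 0 := by
  intro h0
  rw [h0, abs_zero, mul_zero] at h
  linarith

theorem ne_of_norm_one {e : ℂ} (h : ‖e‖ = 1) : e ≠ 0 := by
  intro h0
  rw [h0, norm_zero] at h
  exact zero_ne_one h

namespace Un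

variable {P : ℝ} {e₁ e₂ e₃ : ℂ}

theorem bound (u : Un P e₁ e₂ e₃) (hP : 0 < P) {Q : ℝ × ℝ × ℝ} {f : ℝ} (h₁ : |bf Q e₁ e₁| ≤ f)
    (h₂ : |bf Q e₂ e₂| ≤ f) (h₃ : |bf Q e₃ e₃| ≤ f) (x y : ℂ) :
    |bf Q x y| ≤ 3 * P ^ 2 * f * (‖x‖ * ‖y‖) := by
  have key := int_bound Q e₁ e₂ e₃ hP (ne_of_norm_one u.n₁) (ne_of_norm_one u.n₂)
    (ne_of_norm_one u.n₃) (by rw [u.n₁, u.n₂, mul_one]; exact u.w₁₂)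
    (by rw [u.n₂, u.n₃, mul_one]; exact u.w₂₃) (by rw [u.n₃, u.n₁, mul_one]; exact u.w₃₁)
    (f₁ := f) (f₂ := f) (f₃ := f) (by rw [u.n₁]; linarith) (by rw [u.n₂]; linarith)
    (by rw [u.n₃]; linarith) x y
  refine le_trans key (le_of_eq ?_)
  ring

theorem v₁ (u : Un P e₁ e₂ e₃) (a b c : ℝ) : bf (itp e₁ e₂ e₃ a b c) e₁ e₁ = a :=
  itp_val₁ (wd_ne_of u.w₁₂) (wd_ne_of u.w₂₃) (wd_ne_of u.w₃₁) a b c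

theorem v₂ (u : Un P e₁ e₂ e₃) (a b c : ℝ) : bf (itp e₁ e₂ e₃ a b c) e₂ e₂ = b :=
  itp_val₂ (wd_ne_of u.w₁₂) (wd_ne_of u.w₂₃) (wd_ne_of u.w₃₁) a b c

theorem v₃ (u : Un P e₁ e₂ e₃) (a b c : ℝ) : bf (itp e₁ e₂ e₃ a b c) e₃ e₃ = c :=
  itp_val₃ (wd_ne_of u.w₁₂) (wd_ne_of u.w₂₃) (wd_ne_of u.w₃₁) a b c

/-- size of the form `aa` -/
theorem aa_le (u : Un P e₁ e₂ e₃) (hP : 0 < P) {V : ℝ} {H₁ H₂ H₃ : ℂ} (h₁ : ‖H₁‖ ≤ V)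
    (h₂ : ‖H₂‖ ≤ V) (h₃ : ‖H₃‖ ≤ V) (x y : ℂ) :
    |bf (aa e₁ e₂ e₃ H₁ H₂ H₃) x y| ≤ 3 * P ^ 2 * V ^ 2 * (‖x‖ * ‖y‖) := by
  have hs : ∀ {H : ℂ}, ‖H‖ ≤ V → |‖H‖ ^ 2| ≤ V ^ 2 := by
    intro H h
    rw [abs_of_nonneg (by positivity)]
    exact pow_le_pow_left₀ (norm_nonneg _) h 2
  refine u.bound hP ?_ ?_ ?_ x y
  · rw [aa, u.v₁]; exact hs h₁
  · rw [aa, u.v₂]; exact hs h₂
  · rw [aa, u.v₃]; exact hs h₃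

end Un

/-- Lipschitz dependence of `Gm` on the directions -/
theorem Gm_lip {P V η : ℝ} {e₁ e₂ e₃ f₁ f₂ f₃ H₁ H₂ H₃ : ℂ} (hP : 1 ≤ P) (u : Un P e₁ e₂ e₃)
    (w : Un P f₁ f₂ f₃) (h₁ : ‖H₁‖ ≤ V) (h₂ : ‖H₂‖ ≤ V) (h₃ : ‖H₃‖ ≤ V) (hη : 0 ≤ η)
    (d₁ : ‖f₁ - e₁‖ ≤ η) (d₂ : ‖f₂ - e₂‖ ≤ η) (d₃ : ‖f₃ - e₃‖ ≤ η) :
    |Gm f₁ f₂ f₃ H₁ H₂ H₃ - Gm e₁ e₂ e₃ H₁ H₂ H₃| ≤ 42 * P ^ 4 * V ^ 3 * η := by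
  have hP0 : 0 < P := by linarith
  have hV : 0 ≤ V := le_trans (norm_nonneg _) h₁
  obtain ⟨a, ha⟩ : ∃ a, a = aa e₁ e₂ e₃ H₁ H₂ H₃ := ⟨_, rfl⟩
  obtain ⟨b, hb⟩ : ∃ b, b = aa f₁ f₂ f₃ H₁ H₂ H₃ := ⟨_, rfl⟩
  have hab : ∀ x y, |bf a x y| ≤ 3 * P ^ 2 * V ^ 2 * (‖x‖ * ‖y‖) := by
    intro x y; rw [ha]; exact u.aa_le hP0 h₁ h₂ h₃ x y
  have hd : ∀ {e f : ℂ}, ‖e‖ = 1 → ‖f‖ = 1 → ‖f - e‖ ≤ η →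
      |bf a e e - bf a f f| ≤ 6 * P ^ 2 * V ^ 2 * η := by
    intro e f he hf h
    have e1 : bf a e e - bf a f f = -(bf a (f - e) f + bf a e (f - e)) := by
      rw [bf_sub', bf_sub]; ring
    rw [e1, abs_neg]
    have t1 := hab (f - e) f
    have t2 := hab e (f - e)
    rw [hf, mul_one] at t1
    rw [he, one_mul] at t2
    have c0 : 0 ≤ 3 * P ^ 2 * V ^ 2 := by positivity
    have t3 := mul_le_mul_of_nonneg_left h c0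
    have := abs_add_le (bf a (f - e) f) (bf a e (f - e))
    linarith
  have hD : ∀ x y, |bf (a - b) x y| ≤ 18 * P ^ 4 * V ^ 2 * η * (‖x‖ * ‖y‖) := by
    intro x y
    have k := w.bound hP0 (Q := a - b) (f := 6 * P ^ 2 * V ^ 2 * η) ?_ ?_ ?_ x y
    · refine le_trans k (le_of_eq ?_); ring
    · rw [bf_sub_left, hb, aa, w.v₁]
      have := hd u.n₁ w.n₁ d₁
      rw [ha, aa, u.v₁, abs_sub_comm] at this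
      rw [ha, aa]; exact this
    · rw [bf_sub_left, hb, aa, w.v₂]
      have := hd u.n₂ w.n₂ d₂
      rw [ha, aa, u.v₂, abs_sub_comm] at this
      rw [ha, aa]; exact this
    · rw [bf_sub_left, hb, aa, w.v₃]
      have := hd u.n₃ w.n₃ d₃
      rw [ha, aa, u.v₃, abs_sub_comm] at this
      rw [ha, aa]; exact this
  have one : ∀ {e f H : ℂ}, ‖f‖ = 1 → ‖f - e‖ ≤ η → ‖H‖ ≤ V →
      |bf b f H - bf a e H| ≤ 21 * P ^ 4 * V ^ 3 * η := by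
    intro e f H hf h hH
    have e1 : bf b f H - bf a e H = bf a (f - e) H - bf (a - b) f H := by
      rw [bf_sub', bf_sub_left]; ring
    rw [e1]
    have t1 := hab (f - e) H
    have t2 := hD f H
    rw [hf, one_mul] at t2
    have t3 : ‖f - e‖ * ‖H‖ ≤ η * V := mul_le_mul h hH (norm_nonneg _) hη
    have c0 : 0 ≤ 3 * P ^ 2 * V ^ 2 := by positivity
    have t4 := mul_le_mul_of_nonneg_left t3 c0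
    have c1 : 0 ≤ 18 * P ^ 4 * V ^ 2 * η := by positivity
    have t5 := mul_le_mul_of_nonneg_left hH c1
    have t6 := abs_sub (bf a (f - e) H) (bf (a - b) f H)
    have p1 : P ^ 2 ≤ P ^ 4 := pow_le_pow_right₀ hP (by norm_num)
    have p2 : P ^ 2 * (V ^ 3 * η) ≤ P ^ 4 * (V ^ 3 * η) :=
      mul_le_mul_of_nonneg_right p1 (by positivity)
    nlinarith
  have o1 := one w.n₁ d₁ h₁
  have o3 := one w.n₃ d₃ h₃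
  have e2 : Gm f₁ f₂ f₃ H₁ H₂ H₃ - Gm e₁ e₂ e₃ H₁ H₂ H₃ =
      (bf b f₁ H₁ - bf a e₁ H₁) - (bf b f₃ H₃ - bf a e₃ H₃) := by
    rw [Gm, Gm, ha, hb]; ring
  rw [e2]
  have := abs_sub (bf b f₁ H₁ - bf a e₁ H₁) (bf b f₃ H₃ - bf a e₃ H₃)
  linarith

/-- decomposition of `H` in the frame of `f` -/
theorem dec {f : ℂ} (hf : ‖f‖ = 1) (H : ℂ) :
    H = ((sp f H : ℝ) : ℂ) * f + ((wd f H : ℝ) : ℂ) * (Complex.I * f) := by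
  have h := sp_self f
  rw [hf] at h
  simp only [sp] at h
  apply Complex.ext
  · simp only [sp, wd, Complex.add_re, Complex.mul_re, Complex.ofReal_re, Complex.ofReal_im,
      Complex.I_re, Complex.I_im, Complex.mul_im]
    linear_combination (-H.re) * h
  · simp only [sp, wd, Complex.add_im, Complex.mul_re, Complex.ofReal_re, Complex.ofReal_im,
      Complex.I_re, Complex.I_im, Complex.mul_im]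
    linear_combination (-H.im) * h

theorem bf_dec (Q : ℝ × ℝ × ℝ) {f : ℂ} (hf : ‖f‖ = 1) (H : ℂ) :
    bf Q f H = sp f H * bf Q f f + wd f H * bf Q f (Complex.I * f) := by
  conv_lhs => rw [dec hf H]
  rw [bf_add, bf_comm, bf_real, bf_comm Q f (((wd f H : ℝ) : ℂ) * (Complex.I * f)), bf_real,
    bf_comm Q (Complex.I * f) f]

/-- the affine function of `b = tau₂ ^ 2` -/
noncomputable def X2 (f₁ f₂ f₃ : ℂ) (τ₁ τ₃ t b : ℝ) : ℝ :=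
  (t * τ₁ ^ 2 + τ₁ * bf (itp f₁ f₂ f₃ (τ₁ ^ 2) b (τ₃ ^ 2)) f₁ (Complex.I * f₁)) -
    (t * τ₃ ^ 2 + τ₃ * bf (itp f₁ f₂ f₃ (τ₁ ^ 2) b (τ₃ ^ 2)) f₃ (Complex.I * f₃))

theorem itp_aff (f₁ f₂ f₃ x y : ℂ) (a b c : ℝ) : bf (itp f₁ f₂ f₃ a b c) x y =
    bf (itp f₁ f₂ f₃ a 0 c) x y + b / (wd f₂ f₁ * wd f₂ f₃) * bf (pr f₁ f₃) x y := by
  simp only [itp, bf_add_left, bf_smul]
  ring

theorem pr_fI {f₁ f₃ : ℂ} (h₁ : ‖f₁‖ = 1) : bf (pr f₁ f₃) f₁ (Complex.I * f₁) =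
    -(wd f₁ f₃ / 2) := by
  have h := sp_self f₁
  rw [h₁] at h
  simp only [sp] at h
  simp only [bf, pr, wd, Complex.mul_re, Complex.mul_im, Complex.I_re, Complex.I_im]
  linear_combination (-(f₁.re * f₃.im - f₁.im * f₃.re) / 2) * h

theorem pr_fI' {f₁ f₃ : ℂ} (h₃ : ‖f₃‖ = 1) : bf (pr f₁ f₃) f₃ (Complex.I * f₃) =
    wd f₁ f₃ / 2 := by
  have h := sp_self f₃
  rw [h₃] at h
  simp only [sp] at h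
  simp only [bf, pr, wd, Complex.mul_re, Complex.mul_im, Complex.I_re, Complex.I_im]
  linear_combination ((f₁.re * f₃.im - f₁.im * f₃.re) / 2) * h

theorem X2_aff {f₁ f₂ f₃ : ℂ} (h₁ : ‖f₁‖ = 1) (h₃ : ‖f₃‖ = 1) (τ₁ τ₃ t b : ℝ) :
    X2 f₁ f₂ f₃ τ₁ τ₃ t b = X2 f₁ f₂ f₃ τ₁ τ₃ t 0 -
      (τ₁ + τ₃) * (wd f₁ f₃ / (2 * (wd f₂ f₁ * wd f₂ f₃))) * b := by
  unfold X2
  rw [itp_aff f₁ f₂ f₃ f₁ _ _ b _, itp_aff f₁ f₂ f₃ f₃ _ _ b _, pr_fI h₁, pr_fI' h₃]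
  ring

/-- the centre -/
noncomputable def Ce (f₁ f₂ f₃ : ℂ) (τ₁ τ₃ t : ℝ) : ℝ :=
  X2 f₁ f₂ f₃ τ₁ τ₃ t 0 * (2 * (wd f₂ f₁ * wd f₂ f₃)) / ((τ₁ + τ₃) * wd f₁ f₃)

theorem abs_wd_one {e f : ℂ} (he : ‖e‖ = 1) (hf : ‖f‖ = 1) : |wd e f| ≤ 1 := by
  have := abs_wd_le e f
  rwa [he, hf, mul_one] at this

theorem level {P : ℝ} {f₁ f₂ f₃ : ℂ} (hP : 1 ≤ P) (w : Un P f₁ f₂ f₃) (τ₁ τ₃ t b : ℝ) :
    |b - Ce f₁ f₂ f₃ τ₁ τ₃ t| * |τ₁ + τ₃| ≤ 2 * P * |X2 f₁ f₂ f₃ τ₁ τ₃ t b| := by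
  have hP0 : 0 < P := by linarith
  by_cases hs : τ₁ + τ₃ = 0
  · rw [hs, abs_zero, mul_zero]; positivity
  have n12 : wd f₂ f₁ ≠ 0 := by rw [wd_comm]; exact neg_ne_zero.2 (wd_ne_of w.w₁₂)
  have n23 := wd_ne_of w.w₂₃
  have n13 : wd f₁ f₃ ≠ 0 := by rw [wd_comm]; exact neg_ne_zero.2 (wd_ne_of w.w₃₁)
  have e1 : X2 f₁ f₂ f₃ τ₁ τ₃ t b = -((τ₁ + τ₃) * (wd f₁ f₃ / (2 * (wd f₂ f₁ * wd f₂ f₃))) *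
      (b - Ce f₁ f₂ f₃ τ₁ τ₃ t)) := by
    rw [X2_aff w.n₁ w.n₃, Ce]
    field_simp
    ring
  have e2 : (b - Ce f₁ f₂ f₃ τ₁ τ₃ t) * (τ₁ + τ₃) = -(2 * (wd f₂ f₁ * wd f₂ f₃) / wd f₁ f₃ *
      X2 f₁ f₂ f₃ τ₁ τ₃ t b) := by
    rw [e1]
    field_simp
  rw [← abs_mul, e2, abs_neg, abs_mul]
  refine mul_le_mul_of_nonneg_right ?_ (abs_nonneg _)
  rw [abs_div, abs_mul, abs_mul, abs_of_pos (by norm_num : (0 : ℝ) < 2),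
    div_le_iff₀ (abs_pos.2 n13)]
  have a1 := abs_wd_one w.n₂ w.n₁
  have a2 := abs_wd_one w.n₂ w.n₃
  have a3 : |wd f₂ f₁| * |wd f₂ f₃| ≤ 1 := by
    calc |wd f₂ f₁| * |wd f₂ f₃| ≤ 1 * 1 := mul_le_mul a1 a2 (abs_nonneg _) zero_le_one
      _ = 1 := one_mul _
  have a4 := w.w₃₁
  rw [wd_comm, abs_neg] at a4
  nlinarith

/-- the value of `Gm` in the frame -/
theorem Gm_X {P V B : ℝ} {f₁ f₂ f₃ H₁ H₂ H₃ : ℂ} (hP : 1 ≤ P) (w : Un P f₁ f₂ f₃)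
    (h₁ : ‖H₁‖ ≤ V) (h₂ : ‖H₂‖ ≤ V) (h₃ : ‖H₃‖ ≤ V) (hB : 0 ≤ B)
    (b₁ : |sp f₁ H₁ - sp f₃ H₃| ≤ B) (b₂ : |sp f₂ H₂ - sp f₃ H₃| ≤ B) :
    |Gm f₁ f₂ f₃ H₁ H₂ H₃ - X2 f₁ f₂ f₃ (wd f₁ H₁) (wd f₃ H₃) (sp f₃ H₃) (wd f₂ H₂ ^ 2)| ≤
      14 * P ^ 2 * V ^ 2 * B := by
  have hP0 : 0 < P := by linarith
  have hV : 0 ≤ V := le_trans (norm_nonneg _) h₁
  obtain ⟨x₁, hx₁⟩ : ∃ x, x = sp f₁ H₁ := ⟨_, rfl⟩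
  obtain ⟨x₂, hx₂⟩ : ∃ x, x = sp f₂ H₂ := ⟨_, rfl⟩
  obtain ⟨x₃, hx₃⟩ : ∃ x, x = sp f₃ H₃ := ⟨_, rfl⟩
  obtain ⟨τ₁, hτ₁⟩ : ∃ x, x = wd f₁ H₁ := ⟨_, rfl⟩
  obtain ⟨τ₂, hτ₂⟩ : ∃ x, x = wd f₂ H₂ := ⟨_, rfl⟩
  obtain ⟨τ₃, hτ₃⟩ : ∃ x, x = wd f₃ H₃ := ⟨_, rfl⟩
  have s₁ : x₁ ^ 2 + τ₁ ^ 2 = ‖H₁‖ ^ 2 := by
    rw [hx₁, hτ₁, sp_sq_add_wd_sq, w.n₁]; ring
  have s₂ : x₂ ^ 2 + τ₂ ^ 2 = ‖H₂‖ ^ 2 := by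
    rw [hx₂, hτ₂, sp_sq_add_wd_sq, w.n₂]; ring
  have s₃ : x₃ ^ 2 + τ₃ ^ 2 = ‖H₃‖ ^ 2 := by
    rw [hx₃, hτ₃, sp_sq_add_wd_sq, w.n₃]; ring
  have q : ∀ {x τ N : ℝ}, x ^ 2 + τ ^ 2 = N ^ 2 → 0 ≤ N → N ≤ V → |x| ≤ V ∧ |τ| ≤ V := by
    intro x τ N h h0 h1
    have h2 : N ^ 2 ≤ V ^ 2 := pow_le_pow_left₀ h0 h1 2
    constructor
    · exact abs_le_of_sq_le_sq (by nlinarith [sq_nonneg τ]) hV
    · exact abs_le_of_sq_le_sq (by nlinarith [sq_nonneg x]) hV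
  obtain ⟨xV₁, τV₁⟩ := q s₁ (norm_nonneg _) h₁
  obtain ⟨xV₂, τV₂⟩ := q s₂ (norm_nonneg _) h₂
  obtain ⟨xV₃, τV₃⟩ := q s₃ (norm_nonneg _) h₃
  rw [← hx₁, ← hx₃] at b₁
  rw [← hx₂, ← hx₃] at b₂
  rw [← hx₃, ← hτ₁, ← hτ₂, ← hτ₃]
  obtain ⟨a, ha⟩ : ∃ a, a = aa f₁ f₂ f₃ H₁ H₂ H₃ := ⟨_, rfl⟩
  obtain ⟨a', ha'⟩ : ∃ a', a' = itp f₁ f₂ f₃ (τ₁ ^ 2) (τ₂ ^ 2) (τ₃ ^ 2) := ⟨_, rfl⟩
  obtain ⟨E, hE⟩ : ∃ E, E = a - a' - x₃ ^ 2 • ((1, 0, 1) : ℝ × ℝ × ℝ) := ⟨_, rfl⟩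
  have hEv : ∀ {x : ℝ}, |x| ≤ V → |x - x₃| ≤ B → |x ^ 2 - x₃ ^ 2| ≤ 2 * V * B := by
    intro x h1 h2
    have e : x ^ 2 - x₃ ^ 2 = (x - x₃) * (x + x₃) := by ring
    rw [e, abs_mul]
    have h3 := abs_add_le x x₃
    calc |x - x₃| * |x + x₃| ≤ B * (2 * V) :=
          mul_le_mul h2 (by linarith) (abs_nonneg _) hB
      _ = _ := by ring
  have hEb : ∀ x y, |bf E x y| ≤ 6 * P ^ 2 * V * B * (‖x‖ * ‖y‖) := by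
    intro x y
    have k := w.bound hP0 (Q := E) (f := 2 * V * B) ?_ ?_ ?_ x y
    · refine le_trans k (le_of_eq ?_); ring
    · rw [hE, bf_sub_left, bf_sub_left, bf_smul, bf_one, sp_self, w.n₁, ha, ha', aa, w.v₁, w.v₁,
        ← s₁]
      have := hEv xV₁ b₁
      refine le_trans (le_of_eq ?_) this
      congr 1; ring
    · rw [hE, bf_sub_left, bf_sub_left, bf_smul, bf_one, sp_self, w.n₂, ha, ha', aa, w.v₂, w.v₂,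
        ← s₂]
      have := hEv xV₂ b₂
      refine le_trans (le_of_eq ?_) this
      congr 1; ring
    · rw [hE, bf_sub_left, bf_sub_left, bf_smul, bf_one, sp_self, w.n₃, ha, ha', aa, w.v₃, w.v₃,
        ← s₃]
      have h0 : |x₃ - x₃| ≤ B := by rw [sub_self, abs_zero]; exact hB
      have := hEv xV₃ h0
      refine le_trans (le_of_eq ?_) this
      congr 1; ring
  have haE : a = a' + x₃ ^ 2 • ((1, 0, 1) : ℝ × ℝ × ℝ) + E := by rw [hE]; abel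
  have g₁ : bf a f₁ H₁ = x₁ * τ₁ ^ 2 + τ₁ * bf a' f₁ (Complex.I * f₁) + x₃ ^ 2 * x₁ +
      bf E f₁ H₁ := by
    have e1 : bf a' f₁ H₁ = x₁ * τ₁ ^ 2 + τ₁ * bf a' f₁ (Complex.I * f₁) := by
      rw [bf_dec a' w.n₁ H₁, ← hx₁, ← hτ₁, ha', w.v₁]
    rw [haE, bf_add_left, bf_add_left, bf_smul, bf_one, ← hx₁, e1]
  have g₃ : bf a f₃ H₃ = x₃ * τ₃ ^ 2 + τ₃ * bf a' f₃ (Complex.I * f₃) + x₃ ^ 2 * x₃ +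
      bf E f₃ H₃ := by
    have e1 : bf a' f₃ H₃ = x₃ * τ₃ ^ 2 + τ₃ * bf a' f₃ (Complex.I * f₃) := by
      rw [bf_dec a' w.n₃ H₃, ← hx₃, ← hτ₃, ha', w.v₃]
    rw [haE, bf_add_left, bf_add_left, bf_smul, bf_one, ← hx₃, e1]
  have e2 : Gm f₁ f₂ f₃ H₁ H₂ H₃ - X2 f₁ f₂ f₃ τ₁ τ₃ x₃ (τ₂ ^ 2) =
      (x₁ - x₃) * τ₁ ^ 2 + x₃ ^ 2 * (x₁ - x₃) + bf E f₁ H₁ - bf E f₃ H₃ := by
    rw [Gm, X2, ← ha, ← ha', g₁, g₃]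
    ring
  rw [e2]
  have t1 : |(x₁ - x₃) * τ₁ ^ 2| ≤ V ^ 2 * B := by
    rw [abs_mul, abs_of_nonneg (by positivity : 0 ≤ τ₁ ^ 2)]
    have : τ₁ ^ 2 ≤ V ^ 2 := by rw [← sq_abs]; exact pow_le_pow_left₀ (abs_nonneg _) τV₁ 2
    calc |x₁ - x₃| * τ₁ ^ 2 ≤ B * V ^ 2 := mul_le_mul b₁ this (by positivity) hB
      _ = _ := by ring
  have t2 : |x₃ ^ 2 * (x₁ - x₃)| ≤ V ^ 2 * B := by
    rw [abs_mul, abs_of_nonneg (by positivity : 0 ≤ x₃ ^ 2)]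
    have : x₃ ^ 2 ≤ V ^ 2 := by rw [← sq_abs]; exact pow_le_pow_left₀ (abs_nonneg _) xV₃ 2
    exact mul_le_mul this b₁ (abs_nonneg _) (by positivity)
  have t3 := hEb f₁ H₁
  have t4 := hEb f₃ H₃
  rw [w.n₁, one_mul] at t3
  rw [w.n₃, one_mul] at t4
  have c0 : 0 ≤ 6 * P ^ 2 * V * B := by positivity
  have t5 := le_trans t3 (mul_le_mul_of_nonneg_left h₁ c0)
  have t6 := le_trans t4 (mul_le_mul_of_nonneg_left h₃ c0)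
  have t7 := abs_sub ((x₁ - x₃) * τ₁ ^ 2 + x₃ ^ 2 * (x₁ - x₃) + bf E f₁ H₁) (bf E f₃ H₃)
  have t8 := abs_add_le ((x₁ - x₃) * τ₁ ^ 2 + x₃ ^ 2 * (x₁ - x₃)) (bf E f₁ H₁)
  have t9 := abs_add_le ((x₁ - x₃) * τ₁ ^ 2) (x₃ ^ 2 * (x₁ - x₃))
  have p1 : 1 ≤ P ^ 2 := one_le_pow₀ hP
  have p2 : 0 ≤ V ^ 2 * B := by positivity
  have p3 : V ^ 2 * B ≤ P ^ 2 * (V ^ 2 * B) := by nlinarith
  nlinarith

end Pool.Agent.F5H.K2
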