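import Pool.Agent.Helper36_F5H.K2a

/-!
MP_f5cbfa_nt, squad F5H, row C_KC2: from a point near the ray with small `Gm` to the level
condition `Lev` and to `Pair`.
-/

set_option autoImplicit false

open MeasureTheory

namespace Pool.Agent.F5H.K2

open Pool.Agent.Helper68_F5 Pool.Agent.F5H.W36

/-- normalised vector -/
noncomputable def fu (v : ℂ) : ℂ := ((‖v‖⁻¹ : ℝ) : ℂ) * v

theorem norm_fu {v : ℂ} (h : v ≠ 0) : ‖fu v‖ = 1 := by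
  have h0 : 0 < ‖v‖ := norm_pos_iff.2 h
  rw [fu, norm_mul, Complex.norm_real, Real.norm_eq_abs, abs_of_pos (inv_pos.2 h0)]
  exact inv_mul_cancel₀ h0.ne'

theorem wd_fu (v H : ℂ) : wd (fu v) H = tau v H := by
  rw [fu, wd_real, tau, div_eq_inv_mul]

theorem norm_c_mul {c : ℝ} (hc : 0 ≤ c) {e : ℂ} (he : ‖e‖ = 1) : ‖(c : ℂ) * e‖ = c := by
  rw [norm_mul, he, mul_one, Complex.norm_real, Real.norm_eq_abs, abs_of_nonneg hc]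

theorem norm_near {P c : ℝ} (hc : 0 ≤ c) {e v : ℂ} (he : ‖e‖ = 1) (h : ‖v - (c : ℂ) * e‖ ≤ P) :
    |‖v‖ - c| ≤ P := by
  have h2 := abs_norm_sub_norm_le v ((c : ℂ) * e)
  rw [norm_c_mul hc he] at h2
  exact le_trans h2 h

theorem fu_near {P R c : ℝ} (hP : 1 ≤ P) (hR : 4 * P ≤ R) (hc : R / 2 ≤ c) {e v : ℂ}
    (he : ‖e‖ = 1) (h : ‖v - (c : ℂ) * e‖ ≤ P) : v ≠ 0 ∧ ‖fu v - e‖ ≤ 4 * P / R := by
  have hR0 : 0 < R := by linarith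
  have hc0 : 0 < c := by linarith
  have hn := abs_le.1 (norm_near hc0.le he h)
  have hv0 : 0 < ‖v‖ := by linarith
  have hv : v ≠ 0 := norm_pos_iff.1 hv0
  refine ⟨hv, ?_⟩
  have e1 : fu v - e = (((‖v‖⁻¹ - c⁻¹ : ℝ)) : ℂ) * v + ((c⁻¹ : ℝ) : ℂ) * (v - (c : ℂ) * e) := by
    have : ((c⁻¹ : ℝ) : ℂ) * ((c : ℂ) * e) = e := by
      rw [← mul_assoc, ← Complex.ofReal_mul, inv_mul_cancel₀ hc0.ne', Complex.ofReal_one, one_mul]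
    rw [mul_sub, this, fu]
    push_cast
    ring
  have a1 : ‖(((‖v‖⁻¹ - c⁻¹ : ℝ)) : ℂ) * v‖ ≤ P / c := by
    rw [norm_mul, Complex.norm_real, Real.norm_eq_abs]
    have e2 : ‖v‖⁻¹ - c⁻¹ = (c - ‖v‖) / (‖v‖ * c) := by field_simp
    rw [e2, abs_div, abs_of_pos (by positivity : 0 < ‖v‖ * c)]
    have e3 : |c - ‖v‖| / (‖v‖ * c) * ‖v‖ = |c - ‖v‖| / c := by field_simp
    rw [e3]
    refine div_le_div_of_nonneg_right ?_ hc0.le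
    rw [abs_sub_comm]
    exact norm_near hc0.le he h
  have a2 : ‖((c⁻¹ : ℝ) : ℂ) * (v - (c : ℂ) * e)‖ ≤ P / c := by
    rw [norm_mul, Complex.norm_real, Real.norm_eq_abs, abs_of_pos (inv_pos.2 hc0),
      div_eq_inv_mul]
    exact mul_le_mul_of_nonneg_left h (inv_pos.2 hc0).le
  rw [e1]
  refine le_trans (norm_add_le _ _) ?_
  have a3 : P / c ≤ P / (R / 2) := div_le_div_of_nonneg_left (by linarith) (by positivity) hc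
  have a4 : P / (R / 2) + P / (R / 2) = 4 * P / R := by field_simp; ring
  linarith

theorem Pt.neg {P S δ r : ℝ} {H₁ H₂ H₃ e₁ e₂ e₃ : ℂ} {κ₁ κ₂ κ₃ : ℝ}
    (p : Pt P S δ r H₁ H₂ H₃ e₁ e₂ e₃ κ₁ κ₂ κ₃) :
    Pt P S δ r H₁ H₂ H₃ (-e₁) (-e₂) (-e₃) κ₁ κ₂ κ₃ := by
  refine ⟨by rw [norm_neg, p.he₁], by rw [norm_neg, p.he₂], by rw [norm_neg, p.he₃], p.hκ₁,
    p.hκ₂, p.hκ₃, p.sq₁, p.sq₂, p.sq₃, ?_, ?_, ?_, ?_, ?_, ?_⟩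
  · rw [wd_neg', wd_neg, neg_neg]; exact p.w₁₂
  · rw [wd_neg', wd_neg, neg_neg]; exact p.w₂₃
  · rw [wd_neg', wd_neg, neg_neg]; exact p.w₃₁
  · rw [sp_neg', sp_neg']
    have := p.t₁
    rw [abs_sub_comm] at this
    refine le_trans (le_of_eq ?_) this
    congr 1; ring
  · rw [sp_neg', sp_neg']
    have := p.t₂
    rw [abs_sub_comm] at this
    refine le_trans (le_of_eq ?_) this
    congr 1; ring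
  · rw [sp_neg', abs_neg]; exact p.slab

theorem Gm_neg (e₁ e₂ e₃ H₁ H₂ H₃ : ℂ) :
    Gm (-e₁) (-e₂) (-e₃) H₁ H₂ H₃ = -Gm e₁ e₂ e₃ H₁ H₂ H₃ := by
  have hp : ∀ a b : ℂ, pr (-a) (-b) = pr a b := by
    intro a b
    simp only [pr, Complex.neg_re, Complex.neg_im]
    ext <;> simp
  have h : aa (-e₁) (-e₂) (-e₃) H₁ H₂ H₃ = aa e₁ e₂ e₃ H₁ H₂ H₃ := by
    simp only [aa, itp, hp, wd_neg', wd_neg, neg_neg]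
  rw [Gm, Gm, h]
  simp only [bf, Complex.neg_re, Complex.neg_im]
  ring

/-- near the ray -/
structure Near (P c : ℝ) (e₁ e₂ e₃ v₁ v₂ v₃ : ℂ) : Prop where
  n₁ : ‖v₁ - (c : ℂ) * e₁‖ ≤ P
  n₂ : ‖v₂ - (c : ℂ) * e₂‖ ≤ P
  n₃ : ‖v₃ - (c : ℂ) * e₃‖ ≤ P

theorem Near.neg {P c : ℝ} {e₁ e₂ e₃ v₁ v₂ v₃ : ℂ} (h : Near P c e₁ e₂ e₃ v₁ v₂ v₃) :
    Near P (-c) (-e₁) (-e₂) (-e₃) v₁ v₂ v₃ := by
  have hneg : ∀ e v : ℂ, v - ((-c : ℝ) : ℂ) * -e = v - (c : ℂ) * e := by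
    intro e v; push_cast; ring
  exact ⟨by rw [hneg]; exact h.n₁, by rw [hneg]; exact h.n₂, by rw [hneg]; exact h.n₃⟩

/-- the radial components agree up to one -/
theorem t_close {V S κ κ₃ t t₃ : ℝ} {N N₃ : ℝ} (hV : 1 ≤ V) (hVS : V ^ 3 ≤ S) (hκ : 0 < κ)
    (hκ₃ : 0 < κ₃) (hs : κ ^ 2 = 1 - N ^ 2 / (4 * S)) (hs₃ : κ₃ ^ 2 = 1 - N₃ ^ 2 / (4 * S))
    (hN : 0 ≤ N) (hN₃ : 0 ≤ N₃) (hNV : N ≤ V) (hNV₃ : N₃ ≤ V) (ht₃ : |t₃| ≤ V)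
    (ht : κ * t = κ₃ * t₃) : |t - t₃| ≤ 1 ∧ |t| ≤ 2 * |t₃| := by
  have hS : 0 < S := by
    have : 0 < V ^ 3 := by positivity
    linarith
  have hq : ∀ {M : ℝ}, 0 ≤ M → M ≤ V → 0 ≤ M ^ 2 / (4 * S) ∧ M ^ 2 / (4 * S) * V ≤ 1 / 4 := by
    intro M h0 h1
    refine ⟨by positivity, ?_⟩
    have h2 : M ^ 2 ≤ V ^ 2 := pow_le_pow_left₀ h0 h1 2
    rw [div_mul_eq_mul_div, div_le_iff₀ (by positivity)]
    nlinarith [mul_le_mul_of_nonneg_right h2 (by linarith : 0 ≤ V)]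
  obtain ⟨q0, q1⟩ := hq hN hNV
  obtain ⟨p0, p1⟩ := hq hN₃ hNV₃
  obtain ⟨q, hq'⟩ : ∃ q, q = N ^ 2 / (4 * S) := ⟨_, rfl⟩
  obtain ⟨p, hp'⟩ : ∃ p, p = N₃ ^ 2 / (4 * S) := ⟨_, rfl⟩
  rw [← hq'] at hs q0 q1
  rw [← hp'] at hs₃ p0 p1
  have q2 : q ≤ 1 / 4 := by nlinarith
  have p2 : p ≤ 1 / 4 := by nlinarith
  have k1 : 3 / 4 ≤ κ := by nlinarith
  have k3 : 3 / 4 ≤ κ₃ := by nlinarith
  have k1' : κ ≤ 1 := by nlinarith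
  have k3' : κ₃ ≤ 1 := by nlinarith
  have e1 : κ * (t - t₃) = (κ₃ - κ) * t₃ := by linarith
  have e2 : (κ₃ - κ) * (κ₃ + κ) = q - p := by nlinarith
  have e3 : |κ₃ - κ| * (3 / 2) ≤ |q - p| := by
    rw [← e2, abs_mul]
    refine mul_le_mul_of_nonneg_left ?_ (abs_nonneg _)
    rw [abs_of_pos (by linarith)]
    linarith
  have e4 : |q - p| * V ≤ 1 / 4 := by
    have : |q - p| ≤ max q p := by
      rw [abs_le]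
      constructor
      · linarith [le_max_right q p]
      · linarith [le_max_left q p]
    rcases max_cases q p with ⟨h1, _⟩ | ⟨h1, _⟩
    · rw [h1] at this
      nlinarith
    · rw [h1] at this
      nlinarith
  have e5 : |κ₃ - κ| * V ≤ 1 / 4 := by nlinarith [abs_nonneg (κ₃ - κ)]
  constructor
  · have h1 : |κ * (t - t₃)| ≤ 1 / 4 := by
      rw [e1, abs_mul]
      exact le_trans (mul_le_mul_of_nonneg_left ht₃ (abs_nonneg _)) e5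
    rw [abs_mul, abs_of_pos hκ] at h1
    nlinarith [abs_nonneg (t - t₃)]
  · have h1 : κ * |t| = κ₃ * |t₃| := by
      rw [← abs_of_pos hκ, ← abs_mul, ht, abs_mul, abs_of_pos hκ₃]
    nlinarith [abs_nonneg t, abs_nonneg t₃]

noncomputable def Cf (g : ℤ × ℤ →+ ℂ) (v : T3) (h₁ h₃ : ℤ × ℤ) : ℝ :=
  Ce (fu (g v.1)) (fu (g v.2.1)) (fu (g v.2.2)) (tau (g v.1) (g h₁)) (tau (g v.2.2) (g h₃))
    (sp (fu (g v.2.2)) (g h₃))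

theorem lev_pos {g : ℤ × ℤ →+ ℂ} {P R S r V₁ V₂ V₃ lam c : ℝ} {v h : T3}
    {e₁ e₂ e₃ : ℂ} {κ₁ κ₂ κ₃ : ℝ} (hP : 1 ≤ P) (hR : 64 * P ^ 3 ≤ R) (hRV : R ≤ 2 * V₁)
    (hVS : V₁ ^ 3 ≤ S) (h21 : V₂ ≤ V₁) (h32 : V₃ ≤ V₂) (hr : 8 * P * r ≤ V₂)
    (n₁ : ‖g h.1‖ ≤ V₁) (n₂ : ‖g h.2.1‖ ≤ V₂) (n₃ : ‖g h.2.2‖ ≤ V₃)
    (m₂ : V₂ ≤ P * ‖g h.2.1‖) (hV₂ : 0 < V₂)
    (p : Pt P S 0 r (g h.1) (g h.2.1) (g h.2.2) e₁ e₂ e₃ κ₁ κ₂ κ₃)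
    (hn : Near P c e₁ e₂ e₃ (g v.1) (g v.2.1) (g v.2.2)) (hc : R / 2 ≤ c)
    (hG : |Gm e₁ e₂ e₃ (g h.1) (g h.2.1) (g h.2.2)| ≤ lam) :
    Lev (2 * P) V₂ (21504 * P ^ 6 * (lam + V₁ ^ 3 / R)) (Cf g v) g (g v.1) (g v.2.1)
      (g v.2.2) h := by
  have hP0 : 0 < P := by linarith
  have hP13 : P ≤ P ^ 3 := le_self_pow₀ hP (by norm_num)
  have hP23 : P ^ 2 ≤ P ^ 3 := pow_le_pow_right₀ hP (by norm_num)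
  have hR4 : 4 * P ≤ R := by linarith
  have hR16 : 64 * P ^ 2 ≤ R := by linarith
  have hR0 : 0 < R := by linarith
  have hV₁ : 1 ≤ V₁ := by linarith
  obtain ⟨η, hη⟩ : ∃ η, η = 4 * P / R := ⟨_, rfl⟩
  have hη0 : 0 ≤ η := by rw [hη]; positivity
  have hηR : η * R = 4 * P := by rw [hη]; field_simp
  have hηP : η * (16 * P) ≤ 1 := by
    have : η * (64 * P ^ 2) ≤ η * R := mul_le_mul_of_nonneg_left hR16 hη0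
    rw [hηR] at this
    have h2 : η * (16 * P) * (4 * P) ≤ 1 * (4 * P) := by nlinarith
    exact le_of_mul_le_mul_right h2 (by positivity)
  obtain ⟨H₁, hH₁⟩ : ∃ H, H = g h.1 := ⟨_, rfl⟩
  obtain ⟨H₂, hH₂⟩ : ∃ H, H = g h.2.1 := ⟨_, rfl⟩
  obtain ⟨H₃, hH₃⟩ : ∃ H, H = g h.2.2 := ⟨_, rfl⟩
  rw [← hH₁, ← hH₂, ← hH₃] at p hG
  rw [← hH₁] at n₁
  rw [← hH₂] at n₂ m₂
  rw [← hH₃] at n₃
  obtain ⟨z₁, d₁⟩ := fu_near hP hR4 hc p.he₁ hn.n₁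
  obtain ⟨z₂, d₂⟩ := fu_near hP hR4 hc p.he₂ hn.n₂
  obtain ⟨z₃, d₃⟩ := fu_near hP hR4 hc p.he₃ hn.n₃
  rw [← hη] at d₁ d₂ d₃
  obtain ⟨f₁, hf₁⟩ : ∃ f, f = fu (g v.1) := ⟨_, rfl⟩
  obtain ⟨f₂, hf₂⟩ : ∃ f, f = fu (g v.2.1) := ⟨_, rfl⟩
  obtain ⟨f₃, hf₃⟩ : ∃ f, f = fu (g v.2.2) := ⟨_, rfl⟩
  have u₁ : ‖f₁‖ = 1 := by rw [hf₁]; exact norm_fu z₁
  have u₂ : ‖f₂‖ = 1 := by rw [hf₂]; exact norm_fu z₂
  have u₃ : ‖f₃‖ = 1 := by rw [hf₃]; exact norm_fu z₃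
  rw [← hf₁] at d₁
  rw [← hf₂] at d₂
  rw [← hf₃] at d₃
  -- wedge products
  have wdd : ∀ {e e' f f' : ℂ}, ‖e‖ = 1 → ‖f'‖ = 1 → ‖f - e‖ ≤ η → ‖f' - e'‖ ≤ η →
      1 ≤ P * |wd e e'| → 1 ≤ 2 * P * |wd f f'| := by
    intro e e' f f' he hf' h1 h2 h3
    have e1 : wd e e' = wd f f' - (wd (f - e) f' + wd e (f' - e')) := by
      rw [wd_sub', wd_sub]; ring
    have a1 := abs_wd_le (f - e) f'
    have a2 := abs_wd_le e (f' - e')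
    rw [hf', mul_one] at a1
    rw [he, one_mul] at a2
    have a3 : |wd e e'| ≤ |wd f f'| + 2 * η := by
      rw [e1]
      have b1 := abs_sub (wd f f') (wd (f - e) f' + wd e (f' - e'))
      have b2 := abs_add_le (wd (f - e) f') (wd e (f' - e'))
      linarith
    have a4 : P * |wd e e'| ≤ P * (|wd f f'| + 2 * η) := mul_le_mul_of_nonneg_left a3 hP0.le
    nlinarith
  have w : Un (2 * P) f₁ f₂ f₃ := ⟨u₁, u₂, u₃, wdd p.he₁ u₂ d₁ d₂ p.w₁₂, wdd p.he₂ u₃ d₂ d₃ p.w₂₃,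
    wdd p.he₃ u₁ d₃ d₁ p.w₃₁⟩
  have mono : ∀ {x : ℝ}, 0 ≤ x → 1 ≤ P * x → 1 ≤ 2 * P * x := by
    intro x hx h; nlinarith
  have u : Un (2 * P) e₁ e₂ e₃ := ⟨p.he₁, p.he₂, p.he₃, mono (abs_nonneg _) p.w₁₂,
    mono (abs_nonneg _) p.w₂₃, mono (abs_nonneg _) p.w₃₁⟩
  have N₂ : ‖H₂‖ ≤ V₁ := le_trans n₂ h21
  have N₃ : ‖H₃‖ ≤ V₁ := le_trans n₃ (le_trans h32 h21)
  have hV10 : 0 ≤ V₁ := by linarith
  have hl := Gm_lip (by linarith : 1 ≤ 2 * P) u w n₁ N₂ N₃ hη0 d₁ d₂ d₃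
  -- the radial components
  have sp_le : ∀ {e f H : ℂ}, ‖f - e‖ ≤ η → ‖H‖ ≤ V₁ → |sp f H - sp e H| ≤ η * V₁ := by
    intro e f H h1 h2
    rw [← sp_sub']
    exact le_trans (abs_sp_le _ _) (mul_le_mul h1 h2 (norm_nonneg _) hη0)
  have t1 : κ₁ * sp e₁ H₁ = κ₃ * sp e₃ H₃ := by
    have := abs_le.1 p.t₁
    linarith
  have t2 : κ₂ * sp e₂ H₂ = κ₃ * sp e₃ H₃ := by
    have := abs_le.1 p.t₂
    linarith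
  have spe : ∀ {e H : ℂ} {V : ℝ}, ‖e‖ = 1 → ‖H‖ ≤ V → |sp e H| ≤ V := by
    intro e H V he hH
    have := abs_sp_le e H
    rw [he, one_mul] at this
    exact le_trans this hH
  have c1 := t_close hV₁ hVS p.hκ₁ p.hκ₃ p.sq₁ p.sq₃ (norm_nonneg _) (norm_nonneg _) n₁ N₃
    (spe p.he₃ N₃) t1
  have c2 := t_close hV₁ hVS p.hκ₂ p.hκ₃ p.sq₂ p.sq₃ (norm_nonneg _) (norm_nonneg _) N₂ N₃
    (spe p.he₃ N₃) t2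
  have hηV : 1 ≤ η * V₁ := by
    have : η * R ≤ η * (2 * V₁) := mul_le_mul_of_nonneg_left hRV hη0
    rw [hηR] at this
    linarith
  have x1 : |sp f₁ H₁ - sp f₃ H₃| ≤ 3 * η * V₁ := by
    have a1 := sp_le d₁ n₁
    have a2 := sp_le d₃ N₃
    have e1 : sp f₁ H₁ - sp f₃ H₃ = (sp f₁ H₁ - sp e₁ H₁) - (sp f₃ H₃ - sp e₃ H₃) +
        (sp e₁ H₁ - sp e₃ H₃) := by ring
    rw [e1]
    have b1 := abs_add_le ((sp f₁ H₁ - sp e₁ H₁) - (sp f₃ H₃ - sp e₃ H₃)) (sp e₁ H₁ - sp e₃ H₃)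
    have b2 := abs_sub (sp f₁ H₁ - sp e₁ H₁) (sp f₃ H₃ - sp e₃ H₃)
    linarith [c1.1]
  have x2 : |sp f₂ H₂ - sp f₃ H₃| ≤ 3 * η * V₁ := by
    have a1 := sp_le d₂ N₂
    have a2 := sp_le d₃ N₃
    have e1 : sp f₂ H₂ - sp f₃ H₃ = (sp f₂ H₂ - sp e₂ H₂) - (sp f₃ H₃ - sp e₃ H₃) +
        (sp e₂ H₂ - sp e₃ H₃) := by ring
    rw [e1]
    have b1 := abs_add_le ((sp f₂ H₂ - sp e₂ H₂) - (sp f₃ H₃ - sp e₃ H₃)) (sp e₂ H₂ - sp e₃ H₃)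
    have b2 := abs_sub (sp f₂ H₂ - sp e₂ H₂) (sp f₃ H₃ - sp e₃ H₃)
    linarith [c2.1]
  have hX := Gm_X (by linarith : 1 ≤ 2 * P) w n₁ N₂ N₃ (by positivity) x1 x2
  have hL := level (by linarith : 1 ≤ 2 * P) w (wd f₁ H₁) (wd f₃ H₃) (sp f₃ H₃) (wd f₂ H₂ ^ 2)
  obtain ⟨X, hXX⟩ : ∃ X, X = X2 f₁ f₂ f₃ (wd f₁ H₁) (wd f₃ H₃) (sp f₃ H₃) (wd f₂ H₂ ^ 2) :=
    ⟨_, rfl⟩
  rw [← hXX] at hX hL
  have hP46 : 1 ≤ P ^ 4 := one_le_pow₀ hP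
  have hP24 : P ^ 2 ≤ P ^ 4 := pow_le_pow_right₀ hP (by norm_num)
  have hXb : |X| ≤ lam + 1344 * P ^ 4 * V₁ ^ 3 * η := by
    have e1 : X = Gm e₁ e₂ e₃ H₁ H₂ H₃ + (Gm f₁ f₂ f₃ H₁ H₂ H₃ - Gm e₁ e₂ e₃ H₁ H₂ H₃) -
        (Gm f₁ f₂ f₃ H₁ H₂ H₃ - X) := by ring
    rw [e1]
    have b1 := abs_sub (Gm e₁ e₂ e₃ H₁ H₂ H₃ + (Gm f₁ f₂ f₃ H₁ H₂ H₃ - Gm e₁ e₂ e₃ H₁ H₂ H₃))
      (Gm f₁ f₂ f₃ H₁ H₂ H₃ - X)
    have b2 := abs_add_le (Gm e₁ e₂ e₃ H₁ H₂ H₃)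
      (Gm f₁ f₂ f₃ H₁ H₂ H₃ - Gm e₁ e₂ e₃ H₁ H₂ H₃)
    have b3 : P ^ 2 * (V₁ ^ 3 * η) ≤ P ^ 4 * (V₁ ^ 3 * η) :=
      mul_le_mul_of_nonneg_right hP24 (by positivity)
    have b4 : 14 * (2 * P) ^ 2 * V₁ ^ 2 * (3 * η * V₁) = 168 * (P ^ 2 * (V₁ ^ 3 * η)) := by ring
    have b5 : 42 * (2 * P) ^ 4 * V₁ ^ 3 * η = 672 * (P ^ 4 * (V₁ ^ 3 * η)) := by ring
    rw [b4] at hX
    rw [b5] at hl
    have b6 : 0 ≤ P ^ 4 * (V₁ ^ 3 * η) := by positivity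
    linarith
  have hXb2 : 2 * (2 * P) * |X| ≤ 21504 * P ^ 6 * (lam + V₁ ^ 3 / R) := by
    have hlam : 0 ≤ lam := le_trans (abs_nonneg _) hG
    have e1 : V₁ ^ 3 * η = 4 * P * (V₁ ^ 3 / R) := by rw [hη]; ring
    have e2 : 1344 * P ^ 4 * V₁ ^ 3 * η = 5376 * (P ^ 5 * (V₁ ^ 3 / R)) := by
      calc 1344 * P ^ 4 * V₁ ^ 3 * η = 1344 * P ^ 4 * (V₁ ^ 3 * η) := by ring
        _ = _ := by rw [e1]; ring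
    rw [e2] at hXb
    have e3 : 4 * P * |X| ≤ 4 * P * (lam + 5376 * (P ^ 5 * (V₁ ^ 3 / R))) :=
      mul_le_mul_of_nonneg_left hXb (by positivity)
    have e4 : P ≤ P ^ 6 := le_self_pow₀ hP (by norm_num)
    have e5 : P * lam ≤ P ^ 6 * lam := mul_le_mul_of_nonneg_right e4 hlam
    have e6 : 0 ≤ P ^ 6 * lam := by positivity
    calc 2 * (2 * P) * |X| = 4 * P * |X| := by ring
      _ ≤ 4 * P * (lam + 5376 * (P ^ 5 * (V₁ ^ 3 / R))) := e3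
      _ = 4 * (P * lam) + 21504 * (P ^ 6 * (V₁ ^ 3 / R)) := by ring
      _ ≤ 21504 * P ^ 6 * (lam + V₁ ^ 3 / R) := by nlinarith
  refine ⟨?_, ?_⟩
  · rw [← hH₂, ← wd_fu, ← hf₂]
    have s1 := sp_sq_add_wd_sq e₂ H₂
    rw [p.he₂] at s1
    have s2 : |sp e₂ H₂| ≤ 2 * r := le_trans c2.2 (by linarith [p.slab])
    have hr0 : 0 ≤ r := le_trans (abs_nonneg _) p.slab
    have s3 : sp e₂ H₂ ^ 2 ≤ (2 * r) ^ 2 := by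
      rw [← sq_abs]; exact pow_le_pow_left₀ (abs_nonneg _) s2 2
    have s4 : 4 * P * (2 * r) ≤ V₂ := by linarith
    have s5 : (4 * P * (2 * r)) ^ 2 ≤ V₂ ^ 2 := pow_le_pow_left₀ (by positivity) s4 2
    have s6 : V₂ ^ 2 ≤ (P * ‖H₂‖) ^ 2 := pow_le_pow_left₀ hV₂.le m₂ 2
    have s7 : (3 / 4 * V₂) ^ 2 ≤ (P * |wd e₂ H₂|) ^ 2 := by
      have e1 : (P * |wd e₂ H₂|) ^ 2 = P ^ 2 * wd e₂ H₂ ^ 2 := by rw [mul_pow, sq_abs]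
      have e2 : wd e₂ H₂ ^ 2 = ‖H₂‖ ^ 2 - sp e₂ H₂ ^ 2 := by linarith
      rw [e1, e2]
      have e3 : P ^ 2 * sp e₂ H₂ ^ 2 ≤ P ^ 2 * (2 * r) ^ 2 :=
        mul_le_mul_of_nonneg_left s3 (by positivity)
      nlinarith
    have s8 : 3 / 4 * V₂ ≤ P * |wd e₂ H₂| := le_of_sq_le_sq s7 (by positivity)
    have s9 : |wd e₂ H₂| ≤ |wd f₂ H₂| + η * V₂ := by
      have e1 : wd e₂ H₂ = wd f₂ H₂ - wd (f₂ - e₂) H₂ := by rw [wd_sub']; ring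
      rw [e1]
      have b1 := abs_sub (wd f₂ H₂) (wd (f₂ - e₂) H₂)
      have b2 := le_trans (abs_wd_le (f₂ - e₂) H₂) (mul_le_mul d₂ n₂ (norm_nonneg _) hη0)
      linarith
    have s10 : P * |wd e₂ H₂| ≤ P * (|wd f₂ H₂| + η * V₂) := mul_le_mul_of_nonneg_left s9 hP0.le
    have s11 : η * (16 * P) * V₂ ≤ 1 * V₂ := mul_le_mul_of_nonneg_right hηP hV₂.le
    nlinarith
  · rw [← hH₁, ← hH₂, ← hH₃, ← wd_fu, ← wd_fu, ← wd_fu, Cf, ← hH₁, ← hH₃, ← wd_fu, ← wd_fu,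
      ← hf₁, ← hf₂, ← hf₃]
    exact le_trans hL hXb2

end Pool.Agent.F5H.K2
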