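import Pool.Agent.Helper36_F5H.StmtsK2

/-!
MP_f5cbfa_nt, squad F5H, row C_KC2: the pointwise count.
-/

set_option autoImplicit false

open MeasureTheory Complex ComplexConjugate

namespace Pool.Agent.F5H.K2

open Pool.Agent.Helper68_F5 Pool.Agent.F5H.W36 Pool.Agent.F5H.BC Pool.Agent.BTL Pool.Agent.F5S
  Pool.Agent.F5H

theorem Gm_scale {Q : ℝ} (hQ : 0 ≤ Q) (e₁ e₂ e₃ H₁ H₂ H₃ : ℂ) :
    Gm e₁ e₂ e₃ ((Q : ℂ) * H₁) ((Q : ℂ) * H₂) ((Q : ℂ) * H₃) = Q ^ 3 * Gm e₁ e₂ e₃ H₁ H₂ H₃ := by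
  have hn : ∀ H : ℂ, ‖(Q : ℂ) * H‖ ^ 2 = Q ^ 2 * ‖H‖ ^ 2 := by
    intro H
    rw [norm_mul, Complex.norm_real, Real.norm_eq_abs, abs_of_nonneg hQ, mul_pow]
  have ha : ∀ x y : ℂ, bf (aa e₁ e₂ e₃ ((Q : ℂ) * H₁) ((Q : ℂ) * H₂) ((Q : ℂ) * H₃)) x y =
      Q ^ 2 * bf (aa e₁ e₂ e₃ H₁ H₂ H₃) x y := by
    intro x y
    simp only [aa, itp, hn, bf_add_left, bf_smul]
    ring
  rw [Gm, Gm, ha, ha, bf_comm _ e₁, bf_real, bf_comm _ e₃, bf_real, bf_comm _ H₁, bf_comm _ H₃]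
  ring

theorem InZ.mono {P S R₁ ω₁ ω₂ ω₁' ω₂' : ℝ} {H₁ H₂ H₃ e₁ e₂ e₃ : ℂ} {κ₁ κ₂ κ₃ : ℝ}
    {v₁ v₂ v₃ : ℂ} (h : InZ P S R₁ ω₁ ω₂ H₁ H₂ H₃ e₁ e₂ e₃ κ₁ κ₂ κ₃ v₁ v₂ v₃) (h1 : ω₁ ≤ ω₁')
    (h2 : ω₂ ≤ ω₂') : InZ P S R₁ ω₁' ω₂' H₁ H₂ H₃ e₁ e₂ e₃ κ₁ κ₂ κ₃ v₁ v₂ v₃ := by
  obtain ⟨c, hc, a₁, a₂, a₃, b, b₁, b₂, b₃, g₁, g₂⟩ := h
  exact ⟨c, hc, a₁, a₂, a₃, b, b₁, b₂, b₃, le_trans g₁ h1, le_trans g₂ h2⟩

theorem lhs_le (S : Z6 → Set ℝ) (θ : ℝ) (𝓚 : Set Z6) (h𝓚 : ∀ k, θ ∈ S k → k ∈ 𝓚)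
    (hf : 𝓚.Finite) : ∑' k, (S k).indicator (fun _ => (1 : ENNReal)) θ ≤ (𝓚.ncard : ENNReal) := by
  classical
  rw [tsum_eq_sum (s := hf.toFinset) (by
    intro k hk
    rw [Set.Finite.mem_toFinset] at hk
    exact Set.indicator_of_notMem (fun h => hk (h𝓚 k h)) _), Set.ncard_eq_toFinset_card 𝓚 hf,
    Finset.card_eq_sum_ones, Nat.cast_sum]
  refine Finset.sum_le_sum fun k _ => ?_
  rw [Nat.cast_one]
  exact Set.indicator_apply_le' (fun _ => le_rfl) (fun _ => zero_le_one)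

theorem ind_le (Z 𝓥 : Finset T3) (Ht : T3 → Set ℝ) (θ : ℝ) (h : ∀ t ∈ Z, t ∈ 𝓥 ∧ θ ∈ Ht t) :
    (Z.card : ENNReal) ≤ ∑ t ∈ 𝓥, (Ht t).indicator (fun _ => (1 : ENNReal)) θ := by
  classical
  have h1 : Z ⊆ 𝓥.filter (fun t => θ ∈ Ht t) := by
    intro t ht
    rw [Finset.mem_filter]
    exact h t ht
  have h2 : ∑ t ∈ 𝓥, (Ht t).indicator (fun _ => (1 : ENNReal)) θ =
      ((𝓥.filter (fun t => θ ∈ Ht t)).card : ENNReal) := by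
    rw [Finset.card_filter, Nat.cast_sum]
    refine Finset.sum_congr rfl fun t _ => ?_
    by_cases ht : θ ∈ Ht t
    · rw [Set.indicator_of_mem ht, if_pos ht, Nat.cast_one]
    · rw [Set.indicator_of_notMem ht, if_neg ht, Nat.cast_zero]
  rw [h2]
  exact_mod_cast Finset.card_le_card h1

/-- `tv B 0` as a combination -/
theorem sp_tv {T : ℝ} {H : Fin 3 → ℂ} {ep : Fin 3 → ℝ} {th : ℝ} (K : Fin 3 → ℂ)
    (B : ℝ × ℝ × ℝ) : F5.H58.sp K (tv T H ep th B 0) =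
      B.1 * F5.H58.sp K (tv T H ep th (1, 0, 0) 0) +
      B.2.1 * F5.H58.sp K (tv T H ep th (0, 1, 0) 0) +
      B.2.2 * F5.H58.sp K (tv T H ep th (0, 0, 1) 0) := by
  have h1 : ∀ l, tv T H ep th B 0 l = (B.1 : ℂ) * tv T H ep th (1, 0, 0) 0 l +
      ((B.2.1 : ℂ) * tv T H ep th (0, 1, 0) 0 l + (B.2.2 : ℂ) * tv T H ep th (0, 0, 1) 0 l) := by
    intro l
    have e1 := tv_lin (T := T) (H := H) (ep := ep) (th := th) B.2.1 B.2.2 (0, 1, 0) (0, 0, 1) 0 0 l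
    have e2 := tv_lin (T := T) (H := H) (ep := ep) (th := th) B.1 1 (1, 0, 0)
      (B.2.1 • ((0, 1, 0) : ℝ × ℝ × ℝ) + B.2.2 • ((0, 0, 1) : ℝ × ℝ × ℝ)) 0 0 l
    have e3 : B.1 • ((1, 0, 0) : ℝ × ℝ × ℝ) + (1 : ℝ) • (B.2.1 • ((0, 1, 0) : ℝ × ℝ × ℝ) +
        B.2.2 • ((0, 0, 1) : ℝ × ℝ × ℝ)) = B := by
      ext <;> simp
    rw [e3] at e2
    simp only [mul_zero, add_zero] at e1 e2
    rw [e2, e1]
    push_cast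
    ring
  simp only [F5.H58.sp, sp_eq]
  rw [Finset.mul_sum, Finset.mul_sum, Finset.mul_sum, ← Finset.sum_add_distrib,
    ← Finset.sum_add_distrib]
  refine Finset.sum_congr rfl fun l _ => ?_
  rw [h1 l, sp_add, sp_add, sp_real', sp_real', sp_real']
  ring

/-- the numerical data of the count -/
structure Par (T Q : ℝ) (V : Fin 3 → ℝ) (k0 del R₁ m₁ u z : ℝ) : Prop where
  hQ : 2 ≤ Q
  hT : 1 ≤ T
  hQT : Q ^ 1000 ≤ T ^ (1 / 100000 : ℝ)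
  hV2 : 1 ≤ V 2
  h21 : V 2 ≤ V 1
  h10 : V 1 ≤ V 0
  hV0 : V 0 ≤ Q * Lx T
  hkV : k0 ≤ V 0
  hR1 : 1 ≤ R₁
  hRk : R₁ ≤ k0
  hm : m₁ = min k0 (V 1)
  hm2 : 2 ≤ m₁
  hu : 0 < u
  hu1 : u ≤ 1
  hd : del ≤ u ^ 5
  hd0 : 0 ≤ del
  hz : z = u ^ 5 * k0
  hz1 : 1 ≤ z
  hz2 : √R₁ * k0 ≤ z * m₁
  hTu : Q ^ 100 * T ^ (-(1 / 2) : ℝ) ≤ u ^ 3

namespace Par

variable {T Q : ℝ} {V : Fin 3 → ℝ} {k0 del R₁ m₁ u z : ℝ}

theorem k1 (p : Par T Q V k0 del R₁ m₁ u z) : 1 ≤ k0 := le_trans p.hR1 p.hRk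

end Par

theorem sg_sq (s : Bool × Bool) (l : Fin 3) : sg s l ^ 2 = 1 := by
  fin_cases l
  · show (if s.1 then (1 : ℝ) else -1) ^ 2 = 1
    split_ifs <;> norm_num
  · show (if s.2 then (1 : ℝ) else -1) ^ 2 = 1
    split_ifs <;> norm_num
  · show (1 : ℝ) ^ 2 = 1
    norm_num

/-- basic windows of a dual point -/
theorem cd_win {T Q : ℝ} {A : ℝ × ℝ × ℝ} {V : Fin 3 → ℝ} {k0 del R₁ m₁ u z : ℝ}
    {s : Bool × Bool} {h k : Z6} {th : ℝ} (p : Par T Q V k0 del R₁ m₁ u z) (hA : A ∈ KM Q)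
    (F : Fm Q T (hG A (r3 h)) (sg s) th) (hc : Cd T Q A V k0 s h k th) :
    |F5.H58.sp (kG A (r3 k)) (tv T (hG A (r3 h)) (sg s) th (1, 0, 1) 0)| ≤ Q ^ 3 * (T / R₁) ∧
    |F5.H58.sp (kG A (r3 k)) (tv T (hG A (r3 h)) (sg s) th (1, 0, 0) 0)| ≤ Q ^ 3 * T ∧
    |F5.H58.sp (kG A (r3 k)) (tv T (hG A (r3 h)) (sg s) th (0, 1, 0) 0)| ≤ Q ^ 3 * T ∧
    |F5.H58.sp (kG A (r3 k)) (tv T (hG A (r3 h)) (sg s) th 0 1)| ≤ Q ^ 3 ∧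
    |(conj (kG A (r3 k) 0) * (I * wG T (hG A (r3 h)) (sg s) th 0)).re| ≤ Q ^ 3 * k0 ∧
    |(conj (kG A (r3 k) 1) * (I * wG T (hG A (r3 h)) (sg s) th 1)).re| ≤ Q ^ 3 * m₁ := by
  obtain ⟨_, _, c3, b1, b2, _, b4, b5, b6⟩ := hc
  have hQ := p.hQ
  have hT0 : 0 < T := by linarith [p.hT]
  have hQ0 : 0 < Q := by linarith
  have hk0 : 0 < k0 := by linarith [p.k1]
  have hR0 : 0 < R₁ := by linarith [p.hR1]
  have hQ3 : Q ≤ Q ^ 3 := le_self_pow₀ (by linarith) (by norm_num)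
  have hkn : ∀ l, ‖kG A (r3 k) l‖ ≤ Q ^ 3 * k0 := by
    intro l
    have h2 := norm_kA_le (by linarith) hA (cp (r3 k) l)
    have h3 := norm_cp_le (r3 k) l
    calc ‖kG A (r3 k) l‖ ≤ 2 * Q * ‖cp (r3 k) l‖ := h2
      _ ≤ Q * Q * (Q * k0) := by
          refine mul_le_mul ?_ (le_trans h3 c3) (norm_nonneg _) (by positivity)
          exact mul_le_mul_of_nonneg_right hQ hQ0.le
      _ = Q ^ 3 * k0 := by ring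
  have hI : ∀ l, |(conj (kG A (r3 k) l) * (I * wG T (hG A (r3 h)) (sg s) th l)).re| ≤
      Q ^ 3 * k0 := by
    intro l
    rw [sp_eq]
    refine le_trans (abs_sp_le _ _) ?_
    rw [norm_mul, Complex.norm_I, one_mul, F.hw l, mul_one]
    exact hkn l
  refine ⟨?_, ?_, ?_, le_trans b4 hQ3, hI 0, ?_⟩
  · refine le_trans b5 ?_
    have h1 : Q / k0 * T ≤ Q / R₁ * T := by
      refine mul_le_mul_of_nonneg_right ?_ hT0.le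
      exact div_le_div_of_nonneg_left hQ0.le hR0 p.hRk
    have h2 : Q / R₁ * T = Q * (T / R₁) := by ring
    rw [h2] at h1
    exact le_trans h1 (mul_le_mul_of_nonneg_right hQ3 (by positivity))
  · exact le_trans b1 (mul_le_mul_of_nonneg_right hQ3 hT0.le)
  · exact le_trans b2 (mul_le_mul_of_nonneg_right hQ3 hT0.le)
  · rcases le_total k0 (V 1) with h' | h'
    · rw [p.hm, min_eq_left h']; exact hI 1
    · rw [p.hm, min_eq_right h']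
      have hV1 : 0 ≤ V 1 := by linarith [p.hV2, p.h21]
      exact le_trans (b6 1) (mul_le_mul_of_nonneg_right hQ3 hV1)

end Pool.Agent.F5H.K2
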