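import Pool.Agent.Helper36_F5H.K3a

/-!
MP_f5cbfa_nt, squad F5H, row C_KC2: the two cases at one angle.
-/

set_option autoImplicit false

open MeasureTheory Complex ComplexConjugate

namespace Pool.Agent.F5H.K2

open Pool.Agent.Helper68_F5 Pool.Agent.F5H.W36 Pool.Agent.F5H.BC Pool.Agent.BTL Pool.Agent.F5S
  Pool.Agent.F5H

/-- the output of VKP at one angle -/
structure Vk (T Q V0 : ℝ) (c : ℕ) (H : Fin 3 → ℂ) (ep : Fin 3 → ℝ) (th : ℝ) (B : ℝ × ℝ × ℝ)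
    (d : Fin 3 → ℝ) : Prop where
  d2 : d 2 = 0
  kp : ∀ K : Fin 3 → ℂ, kph T H ep th K = F5.H58.sp K (tv T H ep th B 0) +
      ∑ l, d l * (conj (K l) * (I * wG T H ep th l)).re
  hB : (|B.1| + |B.2.1| + |B.2.2|) * T ≤ Q ^ c * V0 ^ 2
  hd : ∀ l, |d l| ≤ Q ^ c * V0 ^ 2
  hG : |nG T H ep th 0 * d 0 + 2 * Gm (wG T H ep th 0) (wG T H ep th 1) (wG T H ep th 2) (H 0)
      (H 1) (H 2)| ≤ Q ^ c * V0 ^ 3 * T ^ (-(1 / 2) : ℝ)

section

variable {T Q : ℝ} {A : ℝ × ℝ × ℝ} {V : Fin 3 → ℝ} {k0 del R₁ m₁ u z : ℝ} {s : Bool × Bool}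
  {h : Z6} {th : ℝ}

theorem caseB (due : DUEStmt) (p : Par T Q V k0 del R₁ m₁ u z) (hA : A ∈ KM Q)
    (hθ : th ∈ Set.Ioc (-Real.pi) Real.pi)
    (hsz : ∀ l, V l ≤ Q * ‖hG A (r3 h) l‖ ∧ ‖hG A (r3 h) l‖ ≤ Q * V l)
    (hGd : Gd Q T (hG A (r3 h)) (sg s) th) (F : Fm Q T (hG A (r3 h)) (sg s) th)
    {c : ℕ} (hc : c ≤ 100) {B : ℝ × ℝ × ℝ} {d : Fin 3 → ℝ}
    (vk : Vk T Q (V 0) c (hG A (r3 h)) (sg s) th B d)
    (hg : u ^ 3 * V 0 ^ 3 < |Gm (wG T (hG A (r3 h)) (sg s) th 0) (wG T (hG A (r3 h)) (sg s) th 1)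
      (wG T (hG A (r3 h)) (sg s) th 2) (hG A (r3 h) 0) (hG A (r3 h) 1) (hG A (r3 h) 2)|)
    (𝓚 : Set Z6) (h𝓚 : ∀ k ∈ 𝓚, Cd T Q A V k0 s h k th ∧
      |kph T (hG A (r3 h)) (sg s) th (kG A (r3 k))| ≤ Q * (del * k0 * V 0 ^ 2)) :
    𝓚.Finite ∧ ∃ Z : Finset Z6,
      (𝓚.ncard : ℝ) ≤ 300 ^ 6 * Q ^ (33 + c) * (k0 * m₁ / R₁) * u ^ 2 * Z.card ∧
      ∀ t ∈ Z, th ∈ Hit (Q ^ 8) ((Q * T) ^ 2) 0 (Q ^ 2 * (Rx T / T)) (Q * R₁)
        (Q ^ 4 * max 1 (V 0 / z)) (Q ^ 4 * max 1 (V 1 / z)) (gQ Q A h.1) (gQ Q A h.2.1)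
        (gQ Q A h.2.2) (gQ Q A t.1) (gQ Q A t.2.1) (gQ Q A t.2.2) := by
  have hQ := p.hQ
  have hT := p.hT
  have hT0 : 0 < T := by linarith
  have hQ0 : 0 < Q := by linarith
  have hQ1 : 1 ≤ Q := by linarith
  have hk0 : 0 < k0 := by linarith [p.k1]
  have hR0 : 0 < R₁ := by linarith [p.hR1]
  have hm0 : 0 < m₁ := by linarith [p.hm2]
  have hV1 : 1 ≤ V 1 := by linarith [p.hV2, p.h21]
  have hV0 : 1 ≤ V 0 := by linarith [p.h10]
  have hz0 : 0 < z := by linarith [p.hz1]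
  have hu := p.hu
  obtain ⟨G, hGdef⟩ : ∃ G, G = Gm (wG T (hG A (r3 h)) (sg s) th 0)
    (wG T (hG A (r3 h)) (sg s) th 1) (wG T (hG A (r3 h)) (sg s) th 2) (hG A (r3 h) 0)
    (hG A (r3 h) 1) (hG A (r3 h) 2) := ⟨_, rfl⟩
  rw [← hGdef] at hg
  have hvG := vk.hG
  rw [← hGdef] at hvG
  -- lower bound for `d 0`
  have hd0 : u ^ 3 * V 0 ^ 2 ≤ Q * |d 0| := by
    have h1 : Q ^ c * V 0 ^ 3 * T ^ (-(1 / 2) : ℝ) ≤ u ^ 3 * V 0 ^ 3 := by
      have h2 : Q ^ c ≤ Q ^ 100 := pow_le_pow_right₀ hQ1 hc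
      have h3 : 0 < T ^ (-(1 / 2) : ℝ) := Real.rpow_pos_of_pos hT0 _
      calc Q ^ c * V 0 ^ 3 * T ^ (-(1 / 2) : ℝ) ≤ Q ^ 100 * V 0 ^ 3 * T ^ (-(1 / 2) : ℝ) := by
            gcongr
        _ = (Q ^ 100 * T ^ (-(1 / 2) : ℝ)) * V 0 ^ 3 := by ring
        _ ≤ u ^ 3 * V 0 ^ 3 := mul_le_mul_of_nonneg_right p.hTu (by positivity)
    have h2 : u ^ 3 * V 0 ^ 3 ≤ |nG T (hG A (r3 h)) (sg s) th 0 * d 0| := by
      have e : 2 * G = (nG T (hG A (r3 h)) (sg s) th 0 * d 0 + 2 * G) -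
        nG T (hG A (r3 h)) (sg s) th 0 * d 0 := by ring
      have h3 := abs_sub (nG T (hG A (r3 h)) (sg s) th 0 * d 0 + 2 * G)
        (nG T (hG A (r3 h)) (sg s) th 0 * d 0)
      rw [← e, abs_mul, abs_of_pos (by norm_num : (0 : ℝ) < 2)] at h3
      linarith
    have h3 : |nG T (hG A (r3 h)) (sg s) th 0| ≤ Q * V 0 := by
      rw [nG, wd_eq]
      have := abs_wd_le (wG T (hG A (r3 h)) (sg s) th 0) (hG A (r3 h) 0)
      rw [F.hw 0, one_mul] at this
      exact le_trans this (hsz 0).2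
    rw [abs_mul] at h2
    have h4 : |nG T (hG A (r3 h)) (sg s) th 0| * |d 0| ≤ Q * V 0 * |d 0| :=
      mul_le_mul_of_nonneg_right h3 (abs_nonneg _)
    have h5 : (u ^ 3 * V 0 ^ 2) * V 0 ≤ (Q * |d 0|) * V 0 := by
      calc (u ^ 3 * V 0 ^ 2) * V 0 = u ^ 3 * V 0 ^ 3 := by ring
        _ ≤ _ := le_trans h2 h4
        _ = _ := by ring
    exact le_of_mul_le_mul_right h5 (by linarith)
  have hd0' : 0 < |d 0| := by
    have : 0 < u ^ 3 * V 0 ^ 2 := by positivity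
    by_contra hneg
    have h0 : |d 0| = 0 := le_antisymm (not_lt.1 hneg) (abs_nonneg _)
    rw [h0, mul_zero] at hd0
    linarith
  obtain ⟨N, hN⟩ : ∃ N, N = Q ^ (c + 2) * z * V 0 ^ 2 := ⟨_, rfl⟩
  have hN0 : 0 < N := by rw [hN]; positivity
  have hbe : ∀ l, |d l / N| ≤ 1 / (Q ^ 2 * z) := by
    intro l
    rw [abs_div, abs_of_pos hN0, div_le_div_iff₀ hN0 (by positivity), one_mul]
    calc |d l| * (Q ^ 2 * z) ≤ Q ^ c * V 0 ^ 2 * (Q ^ 2 * z) :=
          mul_le_mul_of_nonneg_right (vk.hd l) (by positivity)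
      _ = N := by rw [hN]; ring
  have hq4 : 1 / (Q ^ 2 * z) ≤ 1 / 4 := by
    refine one_div_le_one_div_of_le (by norm_num) ?_
    have : 4 ≤ Q ^ 2 := by nlinarith
    nlinarith [p.hz1]
  have hal2 : 1 / m₁ ≤ 1 / 2 := one_div_le_one_div_of_le (by norm_num) p.hm2
  have hbe0 : d 0 / N ≠ 0 := by
    refine div_ne_zero ?_ hN0.ne'
    exact abs_pos.1 hd0'
  have hRV : R₁ ≤ V 0 := le_trans p.hRk p.hkV
  have key := due T Q A V s h th R₁ (1 / m₁) (d 0 / N) (d 1 / N) hQ hT p.hQT hA p.hV2 p.h21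
    p.h10 p.hV0 hsz hGd p.hR1 hRV (by positivity) (by linarith) hbe0 (by linarith [hbe 0])
    (by linarith [hbe 1]) 𝓚 (by
      intro k hk
      obtain ⟨hcd, hkp⟩ := h𝓚 k hk
      obtain ⟨w1, w2, w3, w4, w5, w6⟩ := cd_win p hA F hcd
      refine ⟨w1, w2, w3, w4, ?_, ?_⟩
      · rw [abs_mul, abs_of_pos (by positivity : 0 < 1 / m₁)]
        calc 1 / m₁ * |(conj (kG A (r3 k) 1) * (I * wG T (hG A (r3 h)) (sg s) th 1)).re| ≤
            1 / m₁ * (Q ^ 3 * m₁) := mul_le_mul_of_nonneg_left w6 (by positivity)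
          _ = Q ^ 3 := by field_simp
      · have e1 : d 0 / N * (conj (kG A (r3 k) 0) * (I * wG T (hG A (r3 h)) (sg s) th 0)).re +
            d 1 / N * (conj (kG A (r3 k) 1) * (I * wG T (hG A (r3 h)) (sg s) th 1)).re =
            (kph T (hG A (r3 h)) (sg s) th (kG A (r3 k)) -
              F5.H58.sp (kG A (r3 k)) (tv T (hG A (r3 h)) (sg s) th B 0)) / N := by
          rw [vk.kp (kG A (r3 k)), Fin.sum_univ_three, vk.d2]
          ring
        have e2 : |F5.H58.sp (kG A (r3 k)) (tv T (hG A (r3 h)) (sg s) th B 0)| ≤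
            Q ^ (c + 1) * V 0 ^ 2 := by
          obtain ⟨_, _, _, b1, b2, b3, _, _, _⟩ := hcd
          rw [sp_tv]
          refine le_trans (abs_add_three _ _ _) ?_
          rw [abs_mul, abs_mul B.2.1, abs_mul B.2.2]
          have m1 := mul_le_mul_of_nonneg_left b1 (abs_nonneg B.1)
          have m2 := mul_le_mul_of_nonneg_left b2 (abs_nonneg B.2.1)
          have m3 := mul_le_mul_of_nonneg_left b3 (abs_nonneg B.2.2)
          have m4 := mul_le_mul_of_nonneg_left vk.hB hQ0.le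
          calc _ ≤ |B.1| * (Q * T) + |B.2.1| * (Q * T) + |B.2.2| * (Q * T) := by linarith
            _ = Q * ((|B.1| + |B.2.1| + |B.2.2|) * T) := by ring
            _ ≤ Q * (Q ^ c * V 0 ^ 2) := m4
            _ = Q ^ (c + 1) * V 0 ^ 2 := by ring
        have e3 : |kph T (hG A (r3 h)) (sg s) th (kG A (r3 k))| ≤ Q * (z * V 0 ^ 2) := by
          refine le_trans hkp ?_
          refine mul_le_mul_of_nonneg_left ?_ hQ0.le
          refine mul_le_mul_of_nonneg_right ?_ (by positivity)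
          rw [p.hz]
          exact mul_le_mul_of_nonneg_right p.hd hk0.le
        rw [e1, abs_div, abs_of_pos hN0, div_le_iff₀ hN0]
        have e4 := abs_sub (kph T (hG A (r3 h)) (sg s) th (kG A (r3 k)))
          (F5.H58.sp (kG A (r3 k)) (tv T (hG A (r3 h)) (sg s) th B 0))
        have e5 : Q * (z * V 0 ^ 2) ≤ Q ^ (c + 1) * (z * V 0 ^ 2) := by
          refine mul_le_mul_of_nonneg_right ?_ (by positivity)
          exact le_self_pow₀ hQ1 (by omega)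
        have e6 : Q ^ (c + 1) * V 0 ^ 2 ≤ Q ^ (c + 1) * (z * V 0 ^ 2) := by
          refine mul_le_mul_of_nonneg_left ?_ (by positivity)
          nlinarith [p.hz1, sq_nonneg (V 0)]
        have e7 : 2 * (Q ^ (c + 1) * (z * V 0 ^ 2)) ≤ Q ^ 3 * N := by
          rw [hN]
          have h3 : 2 ≤ Q ^ 3 * Q := by
            have h33 : 1 ≤ Q ^ 3 := one_le_pow₀ hQ1
            nlinarith
          calc 2 * (Q ^ (c + 1) * (z * V 0 ^ 2)) ≤
              (Q ^ 3 * Q) * (Q ^ (c + 1) * (z * V 0 ^ 2)) :=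
                mul_le_mul_of_nonneg_right h3 (by positivity)
            _ = _ := by ring
        linarith)
  obtain ⟨hfin, Z, hcard, hZ⟩ := key
  refine ⟨hfin, Z, ?_, ?_⟩
  · refine le_trans hcard ?_
    refine mul_le_mul_of_nonneg_right ?_ (Nat.cast_nonneg _)
    have e1 : 1 / (R₁ * (1 / m₁ * |d 0 / N|)) = m₁ * N / (R₁ * |d 0|) := by
      rw [abs_div, abs_of_pos hN0]
      field_simp
    have e2 : m₁ * N / (R₁ * |d 0|) ≤ Q ^ (c + 3) * (k0 * m₁ / R₁) * u ^ 2 := by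
      rw [div_le_iff₀ (by positivity)]
      have e3 : Q ^ (c + 3) * (k0 * m₁ / R₁) * u ^ 2 * (R₁ * |d 0|) =
          Q ^ (c + 2) * (k0 * m₁) * u ^ 2 * (Q * |d 0|) := by field_simp; ring
      rw [e3, hN, p.hz]
      calc m₁ * (Q ^ (c + 2) * (u ^ 5 * k0) * V 0 ^ 2) =
          Q ^ (c + 2) * (k0 * m₁) * u ^ 2 * (u ^ 3 * V 0 ^ 2) := by ring
        _ ≤ _ := mul_le_mul_of_nonneg_left hd0 (by positivity)
    rw [e1]
    calc 300 ^ 6 * Q ^ 30 * (m₁ * N / (R₁ * |d 0|)) ≤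
        300 ^ 6 * Q ^ 30 * (Q ^ (c + 3) * (k0 * m₁ / R₁) * u ^ 2) :=
          mul_le_mul_of_nonneg_left e2 (by positivity)
      _ = _ := by ring
  · intro t ht
    refine ⟨hθ, wG T (hG A (r3 h)) (sg s) th 0, wG T (hG A (r3 h)) (sg s) th 1,
      rh T (hG A (r3 h) 0) / T, rh T (hG A (r3 h) 1) / T, rh T (hG A (r3 h) 2) / T, ?_, ?_⟩
    · have := pt_of hQ hT F
      have e : wG T (hG A (r3 h)) (sg s) th 2 = ee th := by rw [wG, if_pos rfl, ee_eq]
      rw [e] at this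
      exact this
    · have e : wG T (hG A (r3 h)) (sg s) th 2 = ee th := by rw [wG, if_pos rfl, ee_eq]
      rw [← e]
      refine InZ.mono (hZ t ht) ?_ ?_
      · have h1 : |d 0 / N| * V 0 ≤ V 0 / z := by
          calc |d 0 / N| * V 0 ≤ 1 / (Q ^ 2 * z) * V 0 :=
                mul_le_mul_of_nonneg_right (hbe 0) (by linarith)
            _ ≤ 1 / z * V 0 := by
                refine mul_le_mul_of_nonneg_right ?_ (by linarith)
                refine one_div_le_one_div_of_le hz0 ?_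
                have : 1 ≤ Q ^ 2 := one_le_pow₀ hQ1
                nlinarith
            _ = V 0 / z := by ring
        have h2 : V 0 / z ≤ max 1 (V 0 / z) := le_max_right _ _
        have h3 : Q ^ 3 ≤ Q ^ 4 := pow_le_pow_right₀ hQ1 (by norm_num)
        calc Q ^ 3 * (|d 0 / N| * V 0) ≤ Q ^ 3 * max 1 (V 0 / z) :=
              mul_le_mul_of_nonneg_left (le_trans h1 h2) (by positivity)
          _ ≤ Q ^ 4 * max 1 (V 0 / z) := by
              refine mul_le_mul_of_nonneg_right h3 ?_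
              exact le_trans zero_le_one (le_max_left _ _)
      · have h1 : |d 1 / N| * V 1 ≤ V 1 / z := by
          calc |d 1 / N| * V 1 ≤ 1 / (Q ^ 2 * z) * V 1 :=
                mul_le_mul_of_nonneg_right (hbe 1) (by linarith)
            _ ≤ 1 / z * V 1 := by
                refine mul_le_mul_of_nonneg_right ?_ (by linarith)
                refine one_div_le_one_div_of_le hz0 ?_
                have : 1 ≤ Q ^ 2 := one_le_pow₀ hQ1
                nlinarith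
            _ = V 1 / z := by ring
        have hzk : z ≤ k0 := by
          rw [p.hz]
          have : u ^ 5 ≤ 1 := pow_le_one₀ hu.le p.hu1
          nlinarith
        have h2 : 1 / m₁ * V 1 ≤ max 1 (V 1 / z) := by
          rcases le_total k0 (V 1) with h' | h'
          · rw [p.hm, min_eq_left h']
            refine le_trans ?_ (le_max_right _ _)
            rw [one_div, inv_mul_eq_div]
            exact div_le_div_of_nonneg_left (by linarith) hz0 hzk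
          · rw [p.hm, min_eq_right h']
            refine le_trans (le_of_eq ?_) (le_max_left _ _)
            field_simp
        have h3 : V 1 / z ≤ max 1 (V 1 / z) := le_max_right _ _
        have h5 : 0 ≤ max 1 (V 1 / z) := le_trans zero_le_one (le_max_left _ _)
        calc Q ^ 3 * ((|d 1 / N| + 1 / m₁) * V 1) = Q ^ 3 * (|d 1 / N| * V 1 + 1 / m₁ * V 1) := by
              ring
          _ ≤ Q ^ 3 * (2 * max 1 (V 1 / z)) :=
              mul_le_mul_of_nonneg_left (by linarith) (by positivity)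
          _ ≤ Q ^ 3 * (Q * max 1 (V 1 / z)) := by
              refine mul_le_mul_of_nonneg_left ?_ (by positivity)
              exact mul_le_mul_of_nonneg_right hQ h5
          _ = Q ^ 4 * max 1 (V 1 / z) := by ring

theorem caseA (due : DUEStmt) (p : Par T Q V k0 del R₁ m₁ u z) (hA : A ∈ KM Q)
    (hsz : ∀ l, V l ≤ Q * ‖hG A (r3 h) l‖ ∧ ‖hG A (r3 h) l‖ ≤ Q * V l)
    (hGd : Gd Q T (hG A (r3 h)) (sg s) th) (F : Fm Q T (hG A (r3 h)) (sg s) th)
    (𝓚 : Set Z6) (h𝓚 : ∀ k ∈ 𝓚, Cd T Q A V k0 s h k th) :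
    𝓚.Finite ∧ ∃ Z : Finset Z6,
      (𝓚.ncard : ℝ) ≤ 300 ^ 6 * Q ^ 30 * (k0 * m₁ / R₁) * Z.card ∧
      ∀ t ∈ Z, InZ (Q ^ 8) ((Q * T) ^ 2) (Q * R₁) (Q ^ 3 * V 0 / k0) (Q ^ 3 * V 1 / m₁)
        (gQ Q A h.1) (gQ Q A h.2.1) (gQ Q A h.2.2)
        (wG T (hG A (r3 h)) (sg s) th 0) (wG T (hG A (r3 h)) (sg s) th 1)
        (wG T (hG A (r3 h)) (sg s) th 2) (rh T (hG A (r3 h) 0) / T) (rh T (hG A (r3 h) 1) / T)
        (rh T (hG A (r3 h) 2) / T) (gQ Q A t.1) (gQ Q A t.2.1) (gQ Q A t.2.2) := by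
  have hQ := p.hQ
  have hT := p.hT
  have hk0 : 0 < k0 := by linarith [p.k1]
  have hR0 : 0 < R₁ := by linarith [p.hR1]
  have hm0 : 0 < m₁ := by linarith [p.hm2]
  have hRV : R₁ ≤ V 0 := le_trans p.hRk p.hkV
  have hal2 : 1 / m₁ ≤ 1 := by
    rw [div_le_one hm0]; linarith [p.hm2]
  have hk1 : 1 / k0 ≤ 1 := by
    rw [div_le_one hk0]; exact p.k1
  have hne : (1 : ℝ) / k0 ≠ 0 := (by positivity : 0 < 1 / k0).ne'
  have habs : |(1 : ℝ) / k0| = 1 / k0 := abs_of_pos (by positivity)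
  have key := due T Q A V s h th R₁ (1 / m₁) (1 / k0) 0 hQ hT p.hQT hA p.hV2 p.h21
    p.h10 p.hV0 hsz hGd p.hR1 hRV (by positivity) hal2 hne (by rw [habs]; exact hk1)
    (by rw [abs_zero, zero_add]; exact hal2) 𝓚 (by
      intro k hk
      obtain ⟨w1, w2, w3, w4, w5, w6⟩ := cd_win p hA F (h𝓚 k hk)
      refine ⟨w1, w2, w3, w4, ?_, ?_⟩
      · rw [abs_mul, abs_of_pos (by positivity : 0 < 1 / m₁)]
        calc 1 / m₁ * |(conj (kG A (r3 k) 1) * (I * wG T (hG A (r3 h)) (sg s) th 1)).re| ≤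
            1 / m₁ * (Q ^ 3 * m₁) := mul_le_mul_of_nonneg_left w6 (by positivity)
          _ = Q ^ 3 := by field_simp
      · rw [zero_mul, add_zero, abs_mul, habs]
        calc 1 / k0 * |(conj (kG A (r3 k) 0) * (I * wG T (hG A (r3 h)) (sg s) th 0)).re| ≤
            1 / k0 * (Q ^ 3 * k0) := mul_le_mul_of_nonneg_left w5 (by positivity)
          _ = Q ^ 3 := by field_simp)
  obtain ⟨hfin, Z, hcard, hZ⟩ := key
  refine ⟨hfin, Z, ?_, ?_⟩
  · refine le_trans hcard (le_of_eq ?_)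
    rw [habs]
    field_simp
  · intro t ht
    refine InZ.mono (hZ t ht) (le_of_eq ?_) (le_of_eq ?_)
    · rw [habs]; ring
    · rw [abs_zero]; ring

end

end Pool.Agent.F5H.K2
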