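import Pool.Agent.Helper36_F5H.K3b

/-!
MP_f5cbfa_nt, squad F5H, row C_KC2: the pointwise count, both cases.
-/

set_option autoImplicit false

open MeasureTheory Complex ComplexConjugate

namespace Pool.Agent.F5H.K2

open Pool.Agent.Helper68_F5 Pool.Agent.F5H.W36 Pool.Agent.F5H.BC Pool.Agent.BTL Pool.Agent.F5S
  Pool.Agent.F5H

theorem abs_c_le {P c : ℝ} {e v : ℂ} (he : ‖e‖ = 1) (h : ‖v - (c : ℂ) * e‖ ≤ P) :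
    |c| ≤ ‖v‖ + P := by
  have h1 : ‖(c : ℂ) * e‖ = |c| := by
    rw [norm_mul, he, mul_one, Complex.norm_real, Real.norm_eq_abs]
  have h2 := norm_sub_norm_le ((c : ℂ) * e) v
  rw [h1, norm_sub_rev] at h2
  linarith

theorem toE {n m : ℕ} {C : ℝ} (hC : 0 ≤ C) (h : (n : ℝ) ≤ C * m) :
    (n : ENNReal) ≤ ENNReal.ofReal C * (m : ENNReal) := by
  calc (n : ENNReal) = ENNReal.ofReal (n : ℝ) := (ENNReal.ofReal_natCast _).symm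
    _ ≤ ENNReal.ofReal (C * m) := ENNReal.ofReal_le_ofReal h
    _ = ENNReal.ofReal C * (m : ENNReal) := by
        rw [ENNReal.ofReal_mul hC, ENNReal.ofReal_natCast]

section

variable {T Q : ℝ} {A : ℝ × ℝ × ℝ} {V : Fin 3 → ℝ} {k0 del R₁ m₁ u z : ℝ} {s : Bool × Bool}
  {h : Z6}

/-- the sets of the K-count -/
def SK (T Q : ℝ) (A : ℝ × ℝ × ℝ) (V : Fin 3 → ℝ) (k0 del : ℝ) (s : Bool × Bool) (h k : Z6) :
    Set ℝ :=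
  {th : ℝ | th ∈ Set.Ioc (-Real.pi) Real.pi ∧ Cd T Q A V k0 s h k th ∧
    |kph T (hG A (r3 h)) (sg s) th (kG A (r3 k))| ≤ Q * (del * k0 * V 0 ^ 2)}

/-- first alternative -/
def HB (T Q : ℝ) (A : ℝ × ℝ × ℝ) (V : Fin 3 → ℝ) (R₁ z : ℝ) (h t : Z6) : Set ℝ :=
  Hit (Q ^ 8) ((Q * T) ^ 2) 0 (Q ^ 2 * (Rx T / T)) (Q * R₁)
    (Q ^ 4 * max 1 (V 0 / z)) (Q ^ 4 * max 1 (V 1 / z)) (gQ Q A h.1) (gQ Q A h.2.1)
    (gQ Q A h.2.2) (gQ Q A t.1) (gQ Q A t.2.1) (gQ Q A t.2.2)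

/-- second alternative -/
def HA (T Q : ℝ) (A : ℝ × ℝ × ℝ) (V : Fin 3 → ℝ) (R₁ k0 m₁ u : ℝ) (h t : Z6) : Set ℝ :=
  HitW (Q ^ 8) ((Q * T) ^ 2) (Q ^ 2 * (Rx T / T)) (Q * R₁) (Q ^ 3 * V 0 / k0)
    (Q ^ 3 * V 1 / m₁) (u ^ 3 * (Q ^ 2 * V 0) ^ 3) (gQ Q A h.1) (gQ Q A h.2.1)
    (gQ Q A h.2.2) (gQ Q A t.1) (gQ Q A t.2.1) (gQ Q A t.2.2)

/-- degenerate angles -/
def WA (T Q : ℝ) (A : ℝ × ℝ × ℝ) (V : Fin 3 → ℝ) (u : ℝ) (h : Z6) : Set ℝ :=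
  Wt (Q ^ 8) ((Q * T) ^ 2) (Q ^ 2 * (Rx T / T)) (u ^ 3 * (Q ^ 2 * V 0) ^ 3) (gQ Q A h.1)
    (gQ Q A h.2.1) (gQ Q A h.2.2)

theorem pw (due : DUEStmt) {K : ℝ} (hK : 1 ≤ K)
    (smt : ∀ g : ℤ × ℤ →+ ℂ, Sep 1 g → ∀ (P R₀ : ℝ) (e₁ e₂ e₃ : ℂ),
      1 ≤ P → 1 ≤ R₀ → ‖e₁‖ = 1 → ‖e₂‖ = 1 → ‖e₃‖ = 1 → ∀ 𝓥 : Finset T3,
        (∀ v ∈ 𝓥, ∃ c : ℝ, |c| ≤ R₀ ∧ Near P c e₁ e₂ e₃ (g v.1) (g v.2.1) (g v.2.2)) →
        (𝓥.card : ℝ) ≤ K * P ^ 6 * R₀)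
    {c : ℕ} (hc : c ≤ 100)
    (vkp : ∀ T Q : ℝ, 2 ≤ Q → 1 ≤ T →
      Q ^ 1000 ≤ T ^ (1 / 100000 : ℝ) → ∀ (H : Fin 3 → ℂ) (ep : Fin 3 → ℝ) (th V0 : ℝ),
      (∀ l, ep l ^ 2 = 1) → Gd Q T H ep th → (∀ l, ‖H l‖ ≤ Q * V0) → 1 ≤ V0 → V0 ≤ Q * Lx T →
      (∀ l, l ≠ 2 → ‖H 2‖ ≤ Q ^ 2 * ‖H l‖) → ∃ (B : ℝ × ℝ × ℝ) (d : Fin 3 → ℝ),
        Vk T Q V0 c H ep th B d)
    (p : Par T Q V k0 del R₁ m₁ u z) (hA : A ∈ KM Q) {R₀ : ℝ} (hR₀ : Q ^ 8 ≤ R₀)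
    (𝓥₁ 𝓥₂ : Finset T3) (h𝓥₁ : ∀ t, (HB T Q A V R₁ z h t).Nonempty → t ∈ 𝓥₁)
    (h𝓥₂ : ∀ t, (HA T Q A V R₁ k0 m₁ u h t).Nonempty → R₀ ≤ ‖gQ Q A t.1‖ → t ∈ 𝓥₂) (θ : ℝ) :
    ∑' k : Z6, (SK T Q A V k0 del s h k).indicator (fun _ => (1 : ENNReal)) θ ≤
      ENNReal.ofReal (300 ^ 6 * Q ^ (33 + c) * (k0 * m₁ / R₁) * u ^ 2) *
        ∑ t ∈ 𝓥₁, (HB T Q A V R₁ z h t).indicator (fun _ => (1 : ENNReal)) θ +
      ENNReal.ofReal (300 ^ 6 * Q ^ 30 * (k0 * m₁ / R₁)) *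
        ∑ t ∈ 𝓥₂, (HA T Q A V R₁ k0 m₁ u h t).indicator (fun _ => (1 : ENNReal)) θ +
      ENNReal.ofReal (300 ^ 6 * Q ^ 30 * (k0 * m₁ / R₁) * (K * (Q ^ 8) ^ 6 * (2 * R₀))) *
        (WA T Q A V u h).indicator (fun _ => (1 : ENNReal)) θ := by
  classical
  have hQ := p.hQ
  have hT := p.hT
  have hT0 : 0 < T := by linarith
  have hQ0 : 0 < Q := by linarith
  have hQ1 : 1 ≤ Q := by linarith
  have hk0 : 0 < k0 := by linarith [p.k1]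
  have hR0 : 0 < R₁ := by linarith [p.hR1]
  have hm0 : 0 < m₁ := by linarith [p.hm2]
  have hV1 : 1 ≤ V 1 := by linarith [p.hV2, p.h21]
  have hV0 : 1 ≤ V 0 := by linarith [p.h10]
  have hu := p.hu
  obtain ⟨𝓚, h𝓚⟩ : ∃ 𝓚 : Set Z6, 𝓚 = {k | θ ∈ SK T Q A V k0 del s h k} := ⟨_, rfl⟩
  by_cases hne : 𝓚.Nonempty
  swap
  · rw [Set.not_nonempty_iff_eq_empty] at hne
    have hz : ∑' k : Z6, (SK T Q A V k0 del s h k).indicator (fun _ => (1 : ENNReal)) θ = 0 := by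
      rw [ENNReal.tsum_eq_zero]
      intro k
      refine Set.indicator_of_notMem (fun hk => ?_) _
      have : k ∈ 𝓚 := by rw [h𝓚]; exact hk
      rw [hne] at this
      exact this
    rw [hz]
    exact bot_le
  obtain ⟨k₁, hk₁⟩ := hne
  rw [h𝓚] at hk₁
  obtain ⟨hθ, hcd, _⟩ := hk₁
  have hsz := hcd.1
  have hGd := hcd.2.1
  have F := fm hT hQ p.hQT (sg_sq s) hGd
  have h2l : ∀ l : Fin 3, l ≠ 2 → ‖hG A (r3 h) 2‖ ≤ Q ^ 2 * ‖hG A (r3 h) l‖ := by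
    intro l hl
    have hV : V 2 ≤ V l := by
      fin_cases l
      · exact le_trans p.h21 p.h10
      · exact p.h21
      · exact absurd rfl hl
    calc ‖hG A (r3 h) 2‖ ≤ Q * V 2 := (hsz 2).2
      _ ≤ Q * V l := mul_le_mul_of_nonneg_left hV hQ0.le
      _ ≤ Q * (Q * ‖hG A (r3 h) l‖) := mul_le_mul_of_nonneg_left (hsz l).1 hQ0.le
      _ = _ := by ring
  have hHV : ∀ l, ‖hG A (r3 h) l‖ ≤ Q * V 0 := by
    intro l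
    refine le_trans (hsz l).2 (mul_le_mul_of_nonneg_left ?_ hQ0.le)
    fin_cases l
    · exact le_rfl
    · exact p.h10
    · exact le_trans p.h21 p.h10
  obtain ⟨B, d, vk⟩ := vkp T Q hQ hT p.hQT (hG A (r3 h)) (sg s) θ (V 0) (sg_sq s) hGd hHV hV0
    p.hV0 h2l
  have h𝓚' : ∀ k ∈ 𝓚, Cd T Q A V k0 s h k θ ∧
      |kph T (hG A (r3 h)) (sg s) θ (kG A (r3 k))| ≤ Q * (del * k0 * V 0 ^ 2) := by
    intro k hk
    rw [h𝓚] at hk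
    exact hk.2
  have hmem : ∀ k, θ ∈ SK T Q A V k0 del s h k → k ∈ 𝓚 := by
    intro k hk; rw [h𝓚]; exact hk
  rcases lt_or_ge (u ^ 3 * V 0 ^ 3) |Gm (wG T (hG A (r3 h)) (sg s) θ 0)
      (wG T (hG A (r3 h)) (sg s) θ 1) (wG T (hG A (r3 h)) (sg s) θ 2) (hG A (r3 h) 0)
      (hG A (r3 h) 1) (hG A (r3 h) 2)| with hg | hg
  · obtain ⟨hfin, Z, hcard, hZ⟩ := caseB due p hA hθ hsz hGd F hc vk hg 𝓚 h𝓚'
    have h1 := lhs_le (fun k => SK T Q A V k0 del s h k) θ 𝓚 hmem hfin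
    have h2 := toE (C := 300 ^ 6 * Q ^ (33 + c) * (k0 * m₁ / R₁) * u ^ 2) (by positivity) hcard
    have h3 := ind_le Z 𝓥₁ (fun t => HB T Q A V R₁ z h t) θ (by
      intro t ht
      have h4 := hZ t ht
      exact ⟨h𝓥₁ t ⟨θ, h4⟩, h4⟩)
    refine le_trans h1 (le_trans h2 ?_)
    rw [add_assoc]
    exact le_trans (mul_le_mul_right h3 _) le_self_add
  · obtain ⟨hfin, Z, hcard, hZ⟩ := caseA due p hA hsz hGd F 𝓚 (fun k hk => (h𝓚' k hk).1)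
    have h1 := lhs_le (fun k => SK T Q A V k0 del s h k) θ 𝓚 hmem hfin
    have h2 := toE (C := 300 ^ 6 * Q ^ 30 * (k0 * m₁ / R₁)) (by positivity) hcard
    have hpt := pt_of hQ hT F
    have e : wG T (hG A (r3 h)) (sg s) θ 2 = ee θ := by rw [wG, if_pos rfl, ee_eq]
    have hGs : |Gm (wG T (hG A (r3 h)) (sg s) θ 0) (wG T (hG A (r3 h)) (sg s) θ 1) (ee θ)
        (gQ Q A h.1) (gQ Q A h.2.1) (gQ Q A h.2.2)| ≤ u ^ 3 * (Q ^ 2 * V 0) ^ 3 := by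
      have e1 : Gm (wG T (hG A (r3 h)) (sg s) θ 0) (wG T (hG A (r3 h)) (sg s) θ 1) (ee θ)
        (gQ Q A h.1) (gQ Q A h.2.1) (gQ Q A h.2.2) = Q ^ 3 *
          Gm (wG T (hG A (r3 h)) (sg s) θ 0) (wG T (hG A (r3 h)) (sg s) θ 1)
            (wG T (hG A (r3 h)) (sg s) θ 2) (hG A (r3 h) 0) (hG A (r3 h) 1) (hG A (r3 h) 2) := by
        rw [← Gm_scale hQ0.le, e]
        rfl
      rw [e1, abs_mul, abs_of_pos (by positivity : 0 < Q ^ 3)]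
      have h3 : Q ^ 3 ≤ Q ^ 6 := pow_le_pow_right₀ hQ1 (by norm_num)
      calc Q ^ 3 * |Gm (wG T (hG A (r3 h)) (sg s) θ 0) (wG T (hG A (r3 h)) (sg s) θ 1)
            (wG T (hG A (r3 h)) (sg s) θ 2) (hG A (r3 h) 0) (hG A (r3 h) 1) (hG A (r3 h) 2)| ≤
            Q ^ 3 * (u ^ 3 * V 0 ^ 3) := mul_le_mul_of_nonneg_left hg (by positivity)
        _ ≤ Q ^ 6 * (u ^ 3 * V 0 ^ 3) := mul_le_mul_of_nonneg_right h3 (by positivity)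
        _ = _ := by ring
    have hpt' : Pt (Q ^ 8) ((Q * T) ^ 2) 0 (Q ^ 2 * (Rx T / T)) (gQ Q A h.1) (gQ Q A h.2.1)
        (gQ Q A h.2.2) (wG T (hG A (r3 h)) (sg s) θ 0) (wG T (hG A (r3 h)) (sg s) θ 1) (ee θ)
        (rh T (hG A (r3 h) 0) / T) (rh T (hG A (r3 h) 1) / T) (rh T (hG A (r3 h) 2) / T) := by
      rw [e] at hpt
      exact hpt
    have hW : θ ∈ WA T Q A V u h := ⟨hθ, _, _, _, _, _, hpt', hGs⟩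
    obtain ⟨Zs, hZs⟩ : ∃ Zs, Zs = Z.filter (fun t => ‖gQ Q A t.1‖ < R₀) := ⟨_, rfl⟩
    obtain ⟨Zl, hZl⟩ : ∃ Zl, Zl = Z.filter (fun t => ¬ ‖gQ Q A t.1‖ < R₀) := ⟨_, rfl⟩
    have hsplit : Z.card = Zs.card + Zl.card := by
      rw [hZs, hZl, Finset.card_filter_add_card_filter_not]
    have hP8 : 1 ≤ Q ^ 8 := one_le_pow₀ hQ1
    have hs := smt (gQ Q A) (sep_gQ hQ1 hA) (Q ^ 8) (2 * R₀) (wG T (hG A (r3 h)) (sg s) θ 0)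
      (wG T (hG A (r3 h)) (sg s) θ 1) (wG T (hG A (r3 h)) (sg s) θ 2) hP8 (by linarith)
      (F.hw 0) (F.hw 1) (F.hw 2) Zs (by
        intro t ht
        rw [hZs, Finset.mem_filter] at ht
        obtain ⟨c', _, a₁, a₂, a₃, _⟩ := hZ t ht.1
        refine ⟨c', ?_, a₁, a₂, a₃⟩
        have := abs_c_le (F.hw 0) a₁
        linarith [ht.2])
    have hl := ind_le Zl 𝓥₂ (fun t => HA T Q A V R₁ k0 m₁ u h t) θ (by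
      intro t ht
      rw [hZl, Finset.mem_filter] at ht
      have hin : θ ∈ HA T Q A V R₁ k0 m₁ u h t := by
        have hz := hZ t ht.1
        rw [e] at hz
        exact ⟨hθ, _, _, _, _, _, hpt', hz, hGs⟩
      exact ⟨h𝓥₂ t ⟨θ, hin⟩ (not_lt.1 ht.2), hin⟩)
    have hs' : (Zs.card : ENNReal) ≤ ENNReal.ofReal (K * (Q ^ 8) ^ 6 * (2 * R₀)) := by
      rw [← ENNReal.ofReal_natCast]
      exact ENNReal.ofReal_le_ofReal hs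
    refine le_trans h1 (le_trans h2 ?_)
    rw [hsplit, Nat.cast_add, mul_add, Set.indicator_of_mem hW, mul_one,
      ENNReal.ofReal_mul (q := K * (Q ^ 8) ^ 6 * (2 * R₀)) (by positivity)]
    have h4 := mul_le_mul_right hs' (ENNReal.ofReal (300 ^ 6 * Q ^ 30 * (k0 * m₁ / R₁)))
    have h5 := mul_le_mul_right hl (ENNReal.ofReal (300 ^ 6 * Q ^ 30 * (k0 * m₁ / R₁)))
    have h6 := add_le_add h5 h4
    rw [add_comm (ENNReal.ofReal (300 ^ 6 * Q ^ 30 * (k0 * m₁ / R₁)) * (Zs.card : ENNReal))]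
    refine le_trans h6 ?_
    rw [add_assoc]
    exact le_add_self

end

end Pool.Agent.F5H.K2
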