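import Pool.Agent.Helper36_F5H.K3c

/-!
MP_f5cbfa_nt, squad F5H, row C_KC2: the numerical data.
-/

set_option autoImplicit false

open MeasureTheory Complex ComplexConjugate

namespace Pool.Agent.F5H.K2

open Pool.Agent.Helper68_F5 Pool.Agent.F5H.W36 Pool.Agent.F5H.BC Pool.Agent.BTL Pool.Agent.F5S
  Pool.Agent.F5H

theorem num {T Q : ℝ} {V : Fin 3 → ℝ} {k0 del R₁ m₁ : ℝ} (hQ : 300 ^ 6 ≤ Q) (hT : 1 ≤ T)
    (hQT : Q ^ 1000 ≤ T ^ (1 / 100000 : ℝ)) (hV2 : 1 ≤ V 2) (h21 : V 2 ≤ V 1) (h10 : V 1 ≤ V 0)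
    (hV0 : V 0 ≤ Q * Lx T) (hV1 : T ^ (1 / 2 : ℝ) ≤ V 1) (hk : T ^ (11 / 25 : ℝ) ≤ k0)
    (hkV : k0 ≤ V 0) (hd : k0⁻¹ ≤ del) (hd1 : del ≤ 1) (hR₁ : R₁ = min k0 (√(V 0 * V 1)))
    (hm₁ : m₁ = min k0 (V 1)) :
    ∃ u : ℝ, Par T Q V k0 del R₁ m₁ u (u ^ 5 * k0) ∧ 1 ≤ u ^ 10 * m₁ ∧ R₁ ^ 2 ≤ V 0 * V 1 ∧
      V 0 ≤ V 1 ^ 2 ∧ Q ^ 25 ≤ u ^ 3 * V 1 ∧
      u ^ 2 ≤ (del ^ (2 / 5 : ℝ) + k0 ^ (-(1 / 5) : ℝ)) * (V 0 / V 1) ^ (1 / 2 : ℝ) := by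
  have hQ2 : 2 ≤ Q := le_trans (by norm_num) hQ
  have hQ1 : 1 ≤ Q := by linarith
  have hQ0 : 0 < Q := by linarith
  have hT0 : 0 < T := by linarith
  have hV1' : 1 ≤ V 1 := by linarith
  have hV0' : 1 ≤ V 0 := by linarith
  have hLx : Lx T = T ^ (277 / 500 : ℝ) := rfl
  have hk1 : 2 ≤ k0 := by
    have h1 := qt hT hQ1 hQT (m := 1) (by norm_num) (a := 0) (b := 11 / 25) (by norm_num)
    rw [Real.rpow_zero, mul_one, pow_one] at h1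
    linarith
  have hk0 : 0 < k0 := by linarith
  have hV12 : 2 ≤ V 1 := by
    have h1 := qt hT hQ1 hQT (m := 1) (by norm_num) (a := 0) (b := 1 / 2) (by norm_num)
    rw [Real.rpow_zero, mul_one, pow_one] at h1
    linarith
  have hV0T : V 0 ≤ T := by
    have h1 := qt hT hQ1 hQT (m := 1) (by norm_num) (a := 277 / 500) (b := 1) (by norm_num)
    rw [Real.rpow_one, pow_one, ← hLx] at h1
    linarith
  have hV01 : V 0 ≤ V 1 ^ 2 := by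
    have h1 : (T ^ (1 / 2 : ℝ)) ^ 2 = T := by
      rw [← Real.rpow_natCast, ← Real.rpow_mul hT0.le]; norm_num
    have h2 : (T ^ (1 / 2 : ℝ)) ^ 2 ≤ V 1 ^ 2 := pow_le_pow_left₀ (by positivity) hV1 2
    linarith
  have hs0 : √(V 0 * V 1) ≤ V 0 := by
    rw [Real.sqrt_le_left (by linarith)]
    nlinarith
  have hs1 : V 1 ≤ √(V 0 * V 1) := by
    refine Real.le_sqrt_of_sq_le ?_
    nlinarith
  have hm2 : 2 ≤ m₁ := by rw [hm₁]; exact le_min hk1 hV12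
  have hm0 : 0 < m₁ := by linarith
  have hmR : m₁ ≤ R₁ := by rw [hm₁, hR₁]; exact min_le_min le_rfl hs1
  have hR1 : 1 ≤ R₁ := by linarith
  have hR0 : 0 < R₁ := by linarith
  have hRk : R₁ ≤ k0 := by rw [hR₁]; exact min_le_left _ _
  have hRs : R₁ ≤ √(V 0 * V 1) := by rw [hR₁]; exact min_le_right _ _
  have hR2 : R₁ ^ 2 ≤ V 0 * V 1 := by
    calc R₁ ^ 2 ≤ √(V 0 * V 1) ^ 2 := pow_le_pow_left₀ hR0.le hRs 2
      _ = V 0 * V 1 := Real.sq_sqrt (by positivity)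
  have hsR0 : 0 < √R₁ := Real.sqrt_pos.2 hR0
  have hsR : √R₁ ^ 2 = R₁ := Real.sq_sqrt hR0.le
  have hsm : √R₁ ≤ m₁ := by
    rw [hm₁]
    refine le_min ?_ ?_
    · rw [Real.sqrt_le_left hk0.le]
      nlinarith
    · rw [Real.sqrt_le_left (by linarith)]
      linarith
  obtain ⟨θ, hθ⟩ : ∃ θ, θ = max del (√R₁ / m₁) := ⟨_, rfl⟩
  have hθ0 : 0 < θ := by
    rw [hθ]; exact lt_of_lt_of_le (div_pos hsR0 hm0) (le_max_right _ _)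
  have hθ1 : θ ≤ 1 := by
    rw [hθ]
    refine max_le hd1 ?_
    rw [div_le_one hm0]; exact hsm
  have hθm : √R₁ ≤ θ * m₁ := by
    have : √R₁ / m₁ ≤ θ := by rw [hθ]; exact le_max_right _ _
    rwa [div_le_iff₀ hm0] at this
  obtain ⟨u, hu⟩ : ∃ u, u = θ ^ (1 / 5 : ℝ) := ⟨_, rfl⟩
  have hu0 : 0 < u := by rw [hu]; exact Real.rpow_pos_of_pos hθ0 _
  have hu1 : u ≤ 1 := by rw [hu]; exact Real.rpow_le_one hθ0.le hθ1 (by norm_num)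
  have hu5 : u ^ 5 = θ := by
    rw [hu, ← Real.rpow_natCast, ← Real.rpow_mul hθ0.le]; norm_num
  have hu2 : u ^ 2 = θ ^ (2 / 5 : ℝ) := by
    rw [hu, ← Real.rpow_natCast, ← Real.rpow_mul hθ0.le]; norm_num
  have hdel : del ≤ θ := by rw [hθ]; exact le_max_left _ _
  have hu10 : 1 ≤ u ^ 10 * m₁ := by
    have e1 : u ^ 10 = θ ^ 2 := by rw [← hu5]; ring
    rw [e1]
    have h1 : √R₁ ^ 2 ≤ (θ * m₁) ^ 2 := pow_le_pow_left₀ hsR0.le hθm 2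
    rw [hsR] at h1
    have h2 : 1 * m₁ ≤ (θ ^ 2 * m₁) * m₁ := by
      calc 1 * m₁ = m₁ := one_mul _
        _ ≤ R₁ := hmR
        _ ≤ (θ * m₁) ^ 2 := h1
        _ = _ := by ring
    exact le_of_mul_le_mul_right h2 hm0
  have hmV1 : m₁ ≤ V 1 := by rw [hm₁]; exact min_le_right _ _
  have hu30 : 1 ≤ (u ^ 3) ^ 10 * m₁ ^ 3 := by
    calc (1 : ℝ) = 1 ^ 3 := by norm_num
      _ ≤ (u ^ 10 * m₁) ^ 3 := pow_le_pow_left₀ zero_le_one hu10 3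
      _ = _ := by ring
  refine ⟨u, ?_, hu10, hR2, hV01, ?_, ?_⟩
  · refine ⟨hQ2, hT, hQT, hV2, h21, h10, hV0, hkV, hR1, hRk, hm₁, hm2, hu0, hu1, ?_, ?_, rfl, ?_,
      ?_, ?_⟩
    · rw [hu5]; exact hdel
    · exact le_trans (inv_nonneg.2 hk0.le) hd
    · rw [hu5]
      have : k0⁻¹ ≤ θ := le_trans hd hdel
      calc (1 : ℝ) = k0⁻¹ * k0 := (inv_mul_cancel₀ hk0.ne').symm
        _ ≤ θ * k0 := mul_le_mul_of_nonneg_right this hk0.le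
    · rw [hu5]
      calc √R₁ * k0 ≤ (θ * m₁) * k0 := mul_le_mul_of_nonneg_right hθm hk0.le
        _ = _ := by ring
    · refine le_of_pow_le_pow_left₀ (n := 10) (by norm_num) (by positivity) ?_
      have hmT : m₁ ^ 3 ≤ T ^ 3 := pow_le_pow_left₀ hm0.le (by linarith) 3
      have h1 : 1 ≤ (u ^ 3) ^ 10 * T ^ 3 :=
        le_trans hu30 (mul_le_mul_of_nonneg_left hmT (by positivity))
      have h2 : (Q ^ 100 * T ^ (-(1 / 2) : ℝ)) ^ 10 * T ^ 3 ≤ 1 := by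
        have e1 : (T ^ (-(1 / 2) : ℝ)) ^ 10 = T ^ (-5 : ℝ) := by
          rw [← Real.rpow_natCast, ← Real.rpow_mul hT0.le]; norm_num
        have e2 : T ^ 3 = T ^ (3 : ℝ) := by rw [← Real.rpow_natCast]; norm_num
        rw [mul_pow, ← pow_mul, e1, e2]
        calc Q ^ (100 * 10) * T ^ (-5 : ℝ) * T ^ (3 : ℝ) ≤
            T ^ (1 / 100000 : ℝ) * T ^ (-5 : ℝ) * T ^ (3 : ℝ) := by
              refine mul_le_mul_of_nonneg_right ?_ (by positivity)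
              exact mul_le_mul_of_nonneg_right hQT (by positivity)
          _ = T ^ (1 / 100000 + -5 + 3 : ℝ) := by
              rw [Real.rpow_add hT0, Real.rpow_add hT0]
          _ ≤ 1 := Real.rpow_le_one_of_one_le_of_nonpos hT (by norm_num)
      have hT3 : 0 < T ^ 3 := by positivity
      exact le_of_mul_le_mul_right (le_trans h2 h1) hT3
  · refine le_of_pow_le_pow_left₀ (n := 10) (by norm_num) (by positivity) ?_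
    have h1 : V 1 ^ 7 ≤ (u ^ 3 * V 1) ^ 10 := by
      have h2 : 1 ≤ (u ^ 3) ^ 10 * V 1 ^ 3 := le_trans hu30
        (mul_le_mul_of_nonneg_left (pow_le_pow_left₀ hm0.le hmV1 3) (by positivity))
      calc V 1 ^ 7 = V 1 ^ 7 * 1 := (mul_one _).symm
        _ ≤ V 1 ^ 7 * ((u ^ 3) ^ 10 * V 1 ^ 3) := mul_le_mul_of_nonneg_left h2 (by positivity)
        _ = _ := by ring
    refine le_trans ?_ h1
    have h3 : (T ^ (1 / 2 : ℝ)) ^ 7 ≤ V 1 ^ 7 := pow_le_pow_left₀ (by positivity) hV1 7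
    refine le_trans ?_ h3
    have h4 : (T ^ (1 / 2 : ℝ)) ^ 7 = T ^ (7 / 2 : ℝ) := by
      rw [← Real.rpow_natCast, ← Real.rpow_mul hT0.le]; norm_num
    rw [h4, ← pow_mul]
    have h5 := qt hT hQ1 hQT (m := 25 * 10) (by norm_num) (a := 0) (b := 7 / 2) (by norm_num)
    rw [Real.rpow_zero, mul_one] at h5
    exact h5
  · have hq1 : 1 ≤ V 0 / V 1 := by rw [le_div_iff₀ (by linarith)]; linarith
    have hq : 1 ≤ (V 0 / V 1) ^ (1 / 2 : ℝ) := Real.one_le_rpow hq1 (by norm_num)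
    have hdp : 0 ≤ del := le_trans (inv_nonneg.2 hk0.le) hd
    have p1 : 0 ≤ del ^ (2 / 5 : ℝ) := Real.rpow_nonneg hdp _
    have p2 : 0 ≤ k0 ^ (-(1 / 5) : ℝ) := Real.rpow_nonneg hk0.le _
    rw [hu2]
    rcases le_total (√R₁ / m₁) del with hc | hc
    · rw [hθ, max_eq_left hc]
      nlinarith
    · rw [hθ, max_eq_right hc]
      have h1 : √R₁ / m₁ ≤ k0 ^ (-(1 / 2) : ℝ) * (V 0 / V 1) := by
        have e1 : k0 ^ (-(1 / 2) : ℝ) = 1 / √k0 := by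
          rw [Real.rpow_neg hk0.le, ← Real.sqrt_eq_rpow, one_div]
        have hsk : 0 < √k0 := Real.sqrt_pos.2 hk0
        have hsk2 : √k0 ^ 2 = k0 := Real.sq_sqrt hk0.le
        rw [e1, one_div, inv_mul_eq_div, div_div, div_le_div_iff₀ hm0 (by positivity)]
        refine le_of_sq_le_sq ?_ (by positivity)
        have e2 : (√R₁ * (V 1 * √k0)) ^ 2 = R₁ * k0 * V 1 ^ 2 := by
          rw [mul_pow, mul_pow, hsR, hsk2]; ring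
        rw [e2]
        rcases le_total k0 (V 1) with h | h
        · have : m₁ = k0 := by rw [hm₁, min_eq_left h]
          rw [this]
          calc R₁ * k0 * V 1 ^ 2 ≤ k0 * k0 * V 0 ^ 2 := by
                refine mul_le_mul ?_ (pow_le_pow_left₀ (by linarith) h10 2) (by positivity)
                  (by positivity)
                exact mul_le_mul_of_nonneg_right hRk hk0.le
            _ = (V 0 * k0) ^ 2 := by ring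
        · have : m₁ = V 1 := by rw [hm₁, min_eq_right h]
          rw [this]
          calc R₁ * k0 * V 1 ^ 2 ≤ V 0 * V 0 * V 1 ^ 2 := by
                refine mul_le_mul_of_nonneg_right ?_ (by positivity)
                exact mul_le_mul (by linarith) hkV hk0.le (by linarith)
            _ = (V 0 * V 1) ^ 2 := by ring
      have h2 : (√R₁ / m₁) ^ (2 / 5 : ℝ) ≤ (k0 ^ (-(1 / 2) : ℝ) * (V 0 / V 1)) ^ (2 / 5 : ℝ) :=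
        Real.rpow_le_rpow (by positivity) h1 (by norm_num)
      have h3 : (k0 ^ (-(1 / 2) : ℝ) * (V 0 / V 1)) ^ (2 / 5 : ℝ) =
          k0 ^ (-(1 / 5) : ℝ) * (V 0 / V 1) ^ (2 / 5 : ℝ) := by
        rw [Real.mul_rpow (Real.rpow_nonneg hk0.le _) (by linarith), ← Real.rpow_mul hk0.le]
        norm_num
      have h4 : (V 0 / V 1) ^ (2 / 5 : ℝ) ≤ (V 0 / V 1) ^ (1 / 2 : ℝ) :=
        Real.rpow_le_rpow_of_exponent_le hq1 (by norm_num)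
      calc (√R₁ / m₁) ^ (2 / 5 : ℝ) ≤ k0 ^ (-(1 / 5) : ℝ) * (V 0 / V 1) ^ (2 / 5 : ℝ) := by
            rw [← h3]; exact h2
        _ ≤ k0 ^ (-(1 / 5) : ℝ) * (V 0 / V 1) ^ (1 / 2 : ℝ) := mul_le_mul_of_nonneg_left h4 p2
        _ ≤ _ := mul_le_mul_of_nonneg_right (by linarith) (by linarith)

/-- final arithmetic -/
theorem fin2 {Q K₁ K₂ K₃ K₄ L V0 V1 V2 r m₁ k0 R₁ u RN : ℝ} {c : ℕ} (hc : c ≤ 100)
    (hQ : 300 ^ 6 ≤ Q) (h1 : 1 ≤ K₁) (h1Q : K₁ ≤ Q) (h2 : 1 ≤ K₂) (h2Q : K₂ ≤ Q) (h3 : 1 ≤ K₃)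
    (h3Q : K₃ ≤ Q) (h4 : 1 ≤ K₄) (h4Q : K₄ ≤ Q) (hL0 : 0 ≤ L) (hL : L ≤ Q ^ 2) (hV0 : 0 < V0)
    (hV1 : 0 < V1) (h10 : V1 ≤ V0) (hV2 : 0 ≤ V2) (hr : 0 ≤ r) (hm : 0 ≤ m₁) (hk : 0 ≤ k0)
    (hR : 0 < R₁) (hu : 0 < u) (hRN : 1 / RN ≤ u ^ 3) :
    300 ^ 6 * Q ^ (33 + c) * (k0 * m₁ / R₁) * u ^ 2 * (K₁ * (Q ^ 8) ^ 24 * L ^ 3 *
      ((Q ^ 2 * V0) ^ 2 * (Q ^ 2 * V1) ^ 2 * (Q ^ 2 * V2 * min (Q ^ 2 * r) (Q ^ 2 * V2))) *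
      (1 + 10 ^ 4 * (Q ^ 10) ^ 5)) +
    300 ^ 6 * Q ^ 30 * (k0 * m₁ / R₁) * (K₂ * (Q ^ 8) ^ 60 * L ^ 7 *
      ((Q ^ 2 * V0) ^ 2 * (Q ^ 2 * V1) ^ 2 * (Q ^ 2 * V2 * min (Q ^ 2 * r) (Q ^ 2 * V2))) *
      (10 ^ 6 * (Q ^ 10) ^ 8 * ((Q ^ 2 * V0 / (Q ^ 2 * V1)) ^ 2 * u ^ 2))) +
    300 ^ 6 * Q ^ 30 * (k0 * m₁ / R₁) * (K₄ * (Q ^ 8) ^ 6 * (2 * (300000 * (Q ^ 8) ^ 3 / u))) *
      (K₃ * (Q ^ 8) ^ 100 * L ^ 6 *
      ((Q ^ 2 * V0) ^ 2 * (Q ^ 2 * V1) ^ 2 * (Q ^ 2 * V2 * min (Q ^ 2 * r) (Q ^ 2 * V2))) *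
      ((Q ^ 2 * V0 / (Q ^ 2 * V1)) ^ 2 * (u ^ 3 + 1 / RN))) ≤
    Q ^ 940 * (V0 ^ 2 * V1 ^ 2 * (V2 * r) * (k0 * m₁ / R₁) * (u ^ 2 * (V0 / V1) ^ 2)) := by
  have hQ0 : 0 < Q := lt_of_lt_of_le (by norm_num) hQ
  have hQ1 : 1 ≤ Q := le_trans (by norm_num) hQ
  have hQ4 : 4 ≤ Q := le_trans (by norm_num) hQ
  have hQ6 : 10 ^ 6 ≤ Q := le_trans (by norm_num) hQ
  obtain ⟨D, hD⟩ : ∃ D, D = k0 * m₁ / R₁ := ⟨_, rfl⟩
  have hD0 : 0 ≤ D := by rw [hD]; positivity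
  obtain ⟨q, hq⟩ : ∃ q, q = V0 / V1 := ⟨_, rfl⟩
  have hq1 : 1 ≤ q := by rw [hq, le_div_iff₀ hV1]; linarith
  have eq1 : Q ^ 2 * V0 / (Q ^ 2 * V1) = q := by
    rw [hq]; field_simp
  obtain ⟨W, hW⟩ : ∃ W, W = V0 ^ 2 * V1 ^ 2 * (V2 * r) := ⟨_, rfl⟩
  have hW0 : 0 ≤ W := by rw [hW]; positivity
  obtain ⟨W', hW'⟩ : ∃ W', W' = (Q ^ 2 * V0) ^ 2 * (Q ^ 2 * V1) ^ 2 *
    (Q ^ 2 * V2 * min (Q ^ 2 * r) (Q ^ 2 * V2)) := ⟨_, rfl⟩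
  have hWW : W' ≤ Q ^ 12 * W := by
    rw [hW', hW]
    calc (Q ^ 2 * V0) ^ 2 * (Q ^ 2 * V1) ^ 2 * (Q ^ 2 * V2 * min (Q ^ 2 * r) (Q ^ 2 * V2)) ≤
        (Q ^ 2 * V0) ^ 2 * (Q ^ 2 * V1) ^ 2 * (Q ^ 2 * V2 * (Q ^ 2 * r)) := by
          refine mul_le_mul_of_nonneg_left ?_ (by positivity)
          exact mul_le_mul_of_nonneg_left (min_le_left _ _) (by positivity)
      _ = _ := by ring
  have hW'0 : 0 ≤ W' := by
    rw [hW']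
    have : 0 ≤ min (Q ^ 2 * r) (Q ^ 2 * V2) := le_min (by positivity) (by positivity)
    positivity
  rw [← hD, ← hW', eq1, ← hW, ← hq]
  have hL3 : L ^ 3 ≤ (Q ^ 2) ^ 3 := pow_le_pow_left₀ hL0 hL 3
  have hL7 : L ^ 7 ≤ (Q ^ 2) ^ 7 := pow_le_pow_left₀ hL0 hL 7
  have hL6 : L ^ 6 ≤ (Q ^ 2) ^ 6 := pow_le_pow_left₀ hL0 hL 6
  have hM : 1 + 10 ^ 4 * (Q ^ 10) ^ 5 ≤ Q * Q ^ 50 := by
    have h5 : 1 ≤ Q ^ 50 := one_le_pow₀ hQ1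
    have e : (Q ^ 10) ^ 5 = Q ^ 50 := by ring
    rw [e]
    nlinarith
  have hQ100 : Q ^ (33 + c) ≤ Q ^ 133 := pow_le_pow_right₀ hQ1 (by omega)
  have hq2 : 1 ≤ q ^ 2 := one_le_pow₀ hq1
  obtain ⟨X, hX⟩ : ∃ X, X = W * D * (u ^ 2 * q ^ 2) := ⟨_, rfl⟩
  have hX0 : 0 ≤ X := by rw [hX]; positivity
  have t1 : 300 ^ 6 * Q ^ (33 + c) * D * u ^ 2 * (K₁ * (Q ^ 8) ^ 24 * L ^ 3 * W' *
      (1 + 10 ^ 4 * (Q ^ 10) ^ 5)) ≤ Q ^ 938 * X := by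
    calc 300 ^ 6 * Q ^ (33 + c) * D * u ^ 2 * (K₁ * (Q ^ 8) ^ 24 * L ^ 3 * W' *
          (1 + 10 ^ 4 * (Q ^ 10) ^ 5)) ≤
        Q * Q ^ 133 * D * u ^ 2 * (Q * (Q ^ 8) ^ 24 * (Q ^ 2) ^ 3 * (Q ^ 12 * W) *
          (Q * Q ^ 50)) := by gcongr
      _ = Q ^ 396 * (W * D * (u ^ 2 * 1)) := by ring
      _ ≤ Q ^ 938 * (W * D * (u ^ 2 * q ^ 2)) := by
          refine mul_le_mul (pow_le_pow_right₀ hQ1 (by norm_num)) ?_ (by positivity)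
            (pow_nonneg hQ0.le _)
          refine mul_le_mul_of_nonneg_left ?_ (by positivity)
          exact mul_le_mul_of_nonneg_left hq2 (by positivity)
      _ = _ := by rw [hX]
  have t2 : 300 ^ 6 * Q ^ 30 * D * (K₂ * (Q ^ 8) ^ 60 * L ^ 7 * W' *
      (10 ^ 6 * (Q ^ 10) ^ 8 * (q ^ 2 * u ^ 2))) ≤ Q ^ 938 * X := by
    calc 300 ^ 6 * Q ^ 30 * D * (K₂ * (Q ^ 8) ^ 60 * L ^ 7 * W' *
          (10 ^ 6 * (Q ^ 10) ^ 8 * (q ^ 2 * u ^ 2))) ≤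
        Q * Q ^ 30 * D * (Q * (Q ^ 8) ^ 60 * (Q ^ 2) ^ 7 * (Q ^ 12 * W) *
          (Q * (Q ^ 10) ^ 8 * (q ^ 2 * u ^ 2))) := by gcongr
      _ = Q ^ 619 * (W * D * (u ^ 2 * q ^ 2)) := by ring
      _ ≤ Q ^ 938 * (W * D * (u ^ 2 * q ^ 2)) :=
          mul_le_mul_of_nonneg_right (pow_le_pow_right₀ hQ1 (by norm_num)) (by positivity)
      _ = _ := by rw [hX]
  have t3 : 300 ^ 6 * Q ^ 30 * D * (K₄ * (Q ^ 8) ^ 6 * (2 * (300000 * (Q ^ 8) ^ 3 / u))) *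
      (K₃ * (Q ^ 8) ^ 100 * L ^ 6 * W' * (q ^ 2 * (u ^ 3 + 1 / RN))) ≤ Q ^ 938 * X := by
    have e0 : 0 ≤ q ^ 2 * (u ^ 3 + 1 / RN) ∨ q ^ 2 * (u ^ 3 + 1 / RN) < 0 := le_or_gt _ _
    have e1 : q ^ 2 * (u ^ 3 + 1 / RN) ≤ q ^ 2 * (2 * u ^ 3) :=
      mul_le_mul_of_nonneg_left (by linarith) (by positivity)
    have e2 : (2 : ℝ) * (300000 * (Q ^ 8) ^ 3 / u) ≤ Q * (Q ^ 8) ^ 3 / u := by
      rw [mul_div_assoc', div_le_div_iff_of_pos_right hu]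
      have : 0 ≤ (Q ^ 8) ^ 3 := by positivity
      nlinarith
    calc 300 ^ 6 * Q ^ 30 * D * (K₄ * (Q ^ 8) ^ 6 * (2 * (300000 * (Q ^ 8) ^ 3 / u))) *
          (K₃ * (Q ^ 8) ^ 100 * L ^ 6 * W' * (q ^ 2 * (u ^ 3 + 1 / RN))) ≤
        300 ^ 6 * Q ^ 30 * D * (K₄ * (Q ^ 8) ^ 6 * (2 * (300000 * (Q ^ 8) ^ 3 / u))) *
          (K₃ * (Q ^ 8) ^ 100 * L ^ 6 * W' * (q ^ 2 * (2 * u ^ 3))) := by
          refine mul_le_mul_of_nonneg_left ?_ (by positivity)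
          exact mul_le_mul_of_nonneg_left e1 (by positivity)
      _ ≤ Q * Q ^ 30 * D * (Q * (Q ^ 8) ^ 6 * (Q * (Q ^ 8) ^ 3 / u)) *
          (Q * (Q ^ 8) ^ 100 * (Q ^ 2) ^ 6 * (Q ^ 12 * W) * (q ^ 2 * (Q * u ^ 3))) := by
          have hq22 : (2 : ℝ) ≤ Q := by linarith
          gcongr
      _ = Q ^ 931 * (W * D * (u ^ 2 * q ^ 2)) := by
          have e5 : Q * (Q ^ 8) ^ 3 / u * u ^ 3 = Q * (Q ^ 8) ^ 3 * u ^ 2 := by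
            field_simp
          calc _ = (Q * Q ^ 30 * D * (Q * (Q ^ 8) ^ 6)) * (Q * (Q ^ 8) ^ 100 * (Q ^ 2) ^ 6 *
                (Q ^ 12 * W) * (q ^ 2 * Q)) * (Q * (Q ^ 8) ^ 3 / u * u ^ 3) := by
                generalize Q * (Q ^ 8) ^ 3 / u = y
                generalize (Q ^ 8) ^ 100 = y2
                ring
            _ = _ := by rw [e5]; ring
      _ ≤ Q ^ 938 * (W * D * (u ^ 2 * q ^ 2)) :=
          mul_le_mul_of_nonneg_right (pow_le_pow_right₀ hQ1 (by norm_num)) (by positivity)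
      _ = _ := by rw [hX]
  have e : Q ^ 940 * (W * D * (u ^ 2 * q ^ 2)) = Q ^ 2 * (Q ^ 938 * X) := by
    rw [hX, show 940 = 2 + 938 from rfl, pow_add]
    generalize Q ^ 938 = y
    ring
  rw [e]
  have hX3 : 0 ≤ Q ^ 938 * X := mul_nonneg (pow_nonneg hQ0.le _) hX0
  have hQ2 : 3 ≤ Q ^ 2 := by
    calc (3 : ℝ) ≤ 4 ^ 2 := by norm_num
      _ ≤ Q ^ 2 := pow_le_pow_left₀ (by norm_num) hQ4 2
  have h3X : 3 * (Q ^ 938 * X) ≤ Q ^ 2 * (Q ^ 938 * X) := mul_le_mul_of_nonneg_right hQ2 hX3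
  refine le_trans (add_le_add (add_le_add t1 t2) t3) (le_trans (le_of_eq ?_) h3X)
  generalize Q ^ 938 * X = Y
  ring

end Pool.Agent.F5H.K2
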