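import Pool.Agent.Helper36_F5H.K3d

/-!
MP_f5cbfa_nt, squad F5H, row C_KC2: numerical facts.
-/

set_option autoImplicit false

open MeasureTheory Complex ComplexConjugate

namespace Pool.Agent.F5H.K2

open Pool.Agent.Helper68_F5 Pool.Agent.F5H.W36 Pool.Agent.F5H.BC Pool.Agent.BTL Pool.Agent.F5S
  Pool.Agent.F5H

/-- numerical facts -/
structure Nm (T Q : ℝ) (V : Fin 3 → ℝ) (R₁ m₁ u : ℝ) : Prop where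
  h300 : (300 : ℝ) ^ 6 ≤ Q
  hQ1 : 1 ≤ Q
  hT : 1 ≤ T
  hV1 : 1 ≤ V 1
  hV01 : 1 ≤ V 0
  hRx : 1 ≤ Rx T / T
  nV7 : (Q ^ 2 * V 0) ^ 7 ≤ ((Q * T) ^ 2) ^ 2
  nL : 1 + Real.log (Q ^ 2 * V 0) ≤ Q ^ 2
  nL0 : 0 ≤ 1 + Real.log (Q ^ 2 * V 0)
  nP : Q ^ 8 ≤ Q ^ 2 * V 0
  nr : 8 * Q ^ 8 * (Q ^ 2 * (Rx T / T)) ≤ Q ^ 2 * V 1
  nr1 : 1 ≤ Q ^ 2 * (Rx T / T)
  nV3 : 1 ≤ Q ^ 2 * V 2
  n21 : Q ^ 2 * V 2 ≤ Q ^ 2 * V 1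
  n10 : Q ^ 2 * V 1 ≤ Q ^ 2 * V 0
  nV2 : 1 ≤ Q ^ 2 * V 1
  nR₁ : Q * R₁ ≤ Q ^ 2 * V 0
  nV01 : Q ^ 2 * V 0 ≤ (Q ^ 2 * V 1) ^ 2
  nR2 : R₁ ^ 2 ≤ Q ^ 2 * V 0 * (Q ^ 2 * V 1)
  nRle : ∀ R, R ≤ Q * R₁ + Q ^ 8 → R ≤ Q ^ 9 * R₁
  hu10 : 1 ≤ u ^ 10 * m₁
  hu3V : Q ^ 25 ≤ u ^ 3 * V 1

section

variable {T Q : ℝ} {V : Fin 3 → ℝ} {k0 del R₁ m₁ u z : ℝ}

theorem nm1 (hQ1 : 1 ≤ Q)
    (hV0 : V 0 ≤ Q * Lx T) : Q ^ 2 * V 0 ≤ Q ^ 3 * T ^ (277 / 500 : ℝ) := by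
  have hQ0 : 0 < Q := by linarith
  have hLx : Lx T = T ^ (277 / 500 : ℝ) := rfl
  calc Q ^ 2 * V 0 ≤ Q ^ 2 * (Q * Lx T) := mul_le_mul_of_nonneg_left hV0 (by positivity)
    _ = _ := by rw [hLx]; ring

theorem nm2 (hT : 1 ≤ T) (hQ1 : 1 ≤ Q) (hQT : Q ^ 1000 ≤ T ^ (1 / 100000 : ℝ))
    (hV0 : V 0 ≤ Q * Lx T) (h1 : 1 ≤ V 0) : (Q ^ 2 * V 0) ^ 7 ≤ ((Q * T) ^ 2) ^ 2 := by
  have n0 := nm1 hQ1 hV0
  have hQ0 : 0 < Q := by linarith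
  have hT0 : 0 < T := by linarith
  have h1 := qt hT hQ1 hQT (m := 21) (by norm_num) (a := 1939 / 500) (b := 4) (by norm_num)
  have h2 : (T ^ (277 / 500 : ℝ)) ^ 7 = T ^ (1939 / 500 : ℝ) := by
    rw [← Real.rpow_natCast, ← Real.rpow_mul hT0.le]; norm_num
  have h3 : T ^ (4 : ℝ) = T ^ 4 := by rw [← Real.rpow_natCast]; norm_num
  rw [h3] at h1
  calc (Q ^ 2 * V 0) ^ 7 ≤ (Q ^ 3 * T ^ (277 / 500 : ℝ)) ^ 7 :=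
        pow_le_pow_left₀ (by positivity) n0 7
    _ = Q ^ 21 * T ^ (1939 / 500 : ℝ) := by rw [mul_pow, h2]; ring
    _ ≤ T ^ 4 := h1
    _ = 1 * T ^ 4 := (one_mul _).symm
    _ ≤ Q ^ 4 * T ^ 4 := mul_le_mul_of_nonneg_right (one_le_pow₀ hQ1) (by positivity)
    _ = _ := by ring

theorem nm3 (hT : 1 ≤ T) (hQ1 : 1 ≤ Q) (hQT : Q ^ 1000 ≤ T ^ (1 / 100000 : ℝ))
    (hV0 : V 0 ≤ Q * Lx T) (hV01 : 1 ≤ V 0) (hlog : Real.log T ≤ Q) (hQ2 : 2 ≤ Q) :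
    1 + Real.log (Q ^ 2 * V 0) ≤ Q ^ 2 := by
  have n0 := nm1 hQ1 hV0
  have h1 := qt hT hQ1 hQT (m := 3) (by norm_num) (a := 277 / 500) (b := 1) (by norm_num)
  rw [Real.rpow_one] at h1
  have h2 : Real.log (Q ^ 2 * V 0) ≤ Real.log T :=
    Real.log_le_log (by positivity) (le_trans n0 h1)
  have h3 : 2 * Q ≤ Q * Q := mul_le_mul_of_nonneg_right hQ2 (by linarith)
  calc 1 + Real.log (Q ^ 2 * V 0) ≤ 2 * Q := by linarith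
    _ ≤ Q * Q := h3
    _ = Q ^ 2 := by ring

theorem nm4 (hT : 1 ≤ T) (hQ1 : 1 ≤ Q) (hQT : Q ^ 1000 ≤ T ^ (1 / 100000 : ℝ))
    (hV1T : T ^ (1 / 2 : ℝ) ≤ V 1) (h300 : (300 : ℝ) ^ 6 ≤ Q) (hRx : 1 ≤ Rx T / T) :
    8 * Q ^ 8 * (Q ^ 2 * (Rx T / T)) ≤ Q ^ 2 * V 1 := by
  have hQ0 : 0 < Q := by linarith
  have hT0 : 0 < T := by linarith
  have h1 := qt hT hQ1 hQT (m := 9) (by norm_num) (a := 169 / 500 + 2 * rho0) (b := 1 / 2)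
    (by linarith [rho0_small])
  rw [← Rx_div hT0] at h1
  have h2 : 0 ≤ Rx T / T := by linarith
  have h3 : 8 * Q ^ 8 ≤ Q ^ 9 := by
    have : 8 ≤ Q := le_trans (by norm_num) h300
    calc 8 * Q ^ 8 ≤ Q * Q ^ 8 := mul_le_mul_of_nonneg_right this (by positivity)
      _ = Q ^ 9 := by ring
  calc 8 * Q ^ 8 * (Q ^ 2 * (Rx T / T)) = Q ^ 2 * (8 * Q ^ 8 * (Rx T / T)) := by ring
    _ ≤ Q ^ 2 * (Q ^ 9 * (Rx T / T)) := by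
        refine mul_le_mul_of_nonneg_left ?_ (by positivity)
        exact mul_le_mul_of_nonneg_right h3 h2
    _ ≤ Q ^ 2 * V 1 := mul_le_mul_of_nonneg_left (le_trans h1 hV1T) (by positivity)

theorem nm5 (hT : 1 ≤ T) (hQ1 : 1 ≤ Q) (hQT : Q ^ 1000 ≤ T ^ (1 / 100000 : ℝ))
    (hV1T : T ^ (1 / 2 : ℝ) ≤ V 1) (h10 : V 1 ≤ V 0) (hV01 : 1 ≤ V 0) :
    Q ^ 8 ≤ Q ^ 2 * V 0 := by
  have h1 := qt hT hQ1 hQT (m := 250) (by norm_num) (a := 0) (b := 1 / 2) (by norm_num)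
  rw [Real.rpow_zero, mul_one] at h1
  have h2 : Q ^ 8 ≤ Q ^ 250 := pow_le_pow_right₀ hQ1 (by norm_num)
  have h3 : 1 * V 0 ≤ Q ^ 2 * V 0 :=
    mul_le_mul_of_nonneg_right (one_le_pow₀ hQ1) (by linarith)
  rw [one_mul] at h3
  exact le_trans h2 (le_trans h1 (le_trans hV1T (le_trans h10 h3)))

theorem nm6 (hQ : 2 ≤ Q) (hR1 : 1 ≤ R₁) : ∀ R, R ≤ Q * R₁ + Q ^ 8 → R ≤ Q ^ 9 * R₁ := by
  intro R hR
  have hQ1 : 1 ≤ Q := by linarith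
  have hQ0 : 0 < Q := by linarith
  have h1 : Q ≤ Q ^ 8 := le_self_pow₀ hQ1 (by norm_num)
  have h2 : Q * R₁ ≤ Q ^ 8 * R₁ := mul_le_mul_of_nonneg_right h1 (by linarith)
  have h3 : Q ^ 8 * 1 ≤ Q ^ 8 * R₁ := mul_le_mul_of_nonneg_left hR1 (by positivity)
  calc R ≤ Q ^ 8 * R₁ + Q ^ 8 * R₁ := by linarith
    _ = 2 * (Q ^ 8 * R₁) := by ring
    _ ≤ Q * (Q ^ 8 * R₁) := mul_le_mul_of_nonneg_right hQ (by positivity)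
    _ = _ := by ring

theorem nm_of (p : Par T Q V k0 del R₁ m₁ u z) (h300 : (300 : ℝ) ^ 6 ≤ Q)
    (hlog : Real.log T ≤ Q) (hV1T : T ^ (1 / 2 : ℝ) ≤ V 1) (hu10 : 1 ≤ u ^ 10 * m₁)
    (hR2 : R₁ ^ 2 ≤ V 0 * V 1) (hV0s : V 0 ≤ V 1 ^ 2) (hu3V : Q ^ 25 ≤ u ^ 3 * V 1) :
    Nm T Q V R₁ m₁ u := by
  have hQ := p.hQ
  have hT := p.hT
  have hQT := p.hQT
  have hV2 := p.hV2
  have h21 := p.h21
  have h10 := p.h10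
  have hV0 := p.hV0
  have hRk := p.hRk
  have hkV := p.hkV
  have hR1 := p.hR1
  clear p
  have hQ1 : 1 ≤ Q := by linarith
  have hQ0 : 0 < Q := by linarith
  have hT0 : 0 < T := by linarith
  have hV1 : 1 ≤ V 1 := by linarith
  have hV01 : 1 ≤ V 0 := by linarith
  have hRx : 1 ≤ Rx T / T := by
    rw [Rx_div hT0]
    exact Real.one_le_rpow hT (by linarith [rho0_pos])
  have hQ2' : 1 ≤ Q ^ 2 := one_le_pow₀ hQ1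
  have q2 : ∀ x : ℝ, 1 ≤ x → 1 ≤ Q ^ 2 * x := fun x hx => one_le_mul_of_one_le_of_one_le hQ2' hx
  refine ⟨h300, hQ1, hT, hV1, hV01, hRx, nm2 hT hQ1 hQT hV0 hV01,
    nm3 hT hQ1 hQT hV0 hV01 hlog hQ, ?_, nm5 hT hQ1 hQT hV1T h10 hV01,
    nm4 hT hQ1 hQT hV1T h300 hRx, q2 _ hRx, q2 _ hV2,
    mul_le_mul_of_nonneg_left h21 (by positivity), mul_le_mul_of_nonneg_left h10 (by positivity),
    q2 _ hV1, ?_, ?_, ?_, nm6 hQ hR1, hu10, hu3V⟩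
  · have : 0 ≤ Real.log (Q ^ 2 * V 0) := Real.log_nonneg (q2 _ hV01)
    linarith
  · calc Q * R₁ ≤ Q * V 0 := mul_le_mul_of_nonneg_left (le_trans hRk hkV) hQ0.le
      _ ≤ Q ^ 2 * V 0 := by
          refine mul_le_mul_of_nonneg_right ?_ (by linarith)
          exact le_self_pow₀ hQ1 (by norm_num)
  · calc Q ^ 2 * V 0 ≤ Q ^ 4 * V 1 ^ 2 :=
          mul_le_mul (pow_le_pow_right₀ hQ1 (by norm_num)) hV0s (by linarith) (by positivity)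
      _ = _ := by ring
  · have h1 : 1 ≤ Q ^ 4 := one_le_pow₀ hQ1
    have h2 : 0 ≤ V 0 * V 1 := by positivity
    calc R₁ ^ 2 ≤ V 0 * V 1 := hR2
      _ = 1 * (V 0 * V 1) := (one_mul _).symm
      _ ≤ Q ^ 4 * (V 0 * V 1) := mul_le_mul_of_nonneg_right h1 h2
      _ = _ := by ring

end

end Pool.Agent.F5H.K2
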