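import Pool.Agent.Helper36_F5H.K3f

/-!
MP_f5cbfa_nt, squad F5H, row C_KC2: the hypotheses of the three counts.
-/

set_option autoImplicit false

open MeasureTheory Complex ComplexConjugate

namespace Pool.Agent.F5H.K2

open Pool.Agent.Helper68_F5 Pool.Agent.F5H.W36 Pool.Agent.F5H.BC Pool.Agent.BTL Pool.Agent.F5S
  Pool.Agent.F5H

theorem mx1 {Q z x : ℝ} (hQ1 : 1 ≤ Q) : 1 ≤ Q ^ 4 * max 1 (x / z) :=
  one_le_mul_of_one_le_of_one_le (one_le_pow₀ hQ1) (le_max_left _ _)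

theorem mx2 {Q z x : ℝ} (hQ1 : 1 ≤ Q) (hz0 : 0 < z) (hx : 0 ≤ x) :
    Q ^ 4 * max 1 (x / z) ≤ Q ^ 10 * max 1 (Q ^ 2 * x / z) := by
  have h1 : Q ^ 4 ≤ Q ^ 10 := pow_le_pow_right₀ hQ1 (by norm_num)
  have h2 : max 1 (x / z) ≤ max 1 (Q ^ 2 * x / z) := by
    refine max_le_max le_rfl ?_
    refine div_le_div_of_nonneg_right ?_ hz0.le
    have h3 : 1 * x ≤ Q ^ 2 * x := mul_le_mul_of_nonneg_right (one_le_pow₀ hQ1) hx
    rwa [one_mul] at h3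
  exact mul_le_mul h1 h2 (le_trans zero_le_one (le_max_left _ _)) (by positivity)

section

variable {T Q : ℝ} {V : Fin 3 → ℝ} {k0 del R₁ m₁ u z : ℝ}

theorem eb (erb : ERBStmt) (p : Par T Q V k0 del R₁ m₁ u z) (n : Nm T Q V R₁ m₁ u) :
    ∀ R, 1 ≤ R → R ≤ Q * R₁ + Q ^ 8 →
      ER R (Q ^ 2 * V 0) (Q ^ 2 * V 1) (Q ^ 4 * max 1 (V 0 / z)) (Q ^ 4 * max 1 (V 1 / z)) ≤
        10 ^ 4 * (Q ^ 10) ^ 5 := by
  intro R hR hR'
  have hQ1 := n.hQ1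
  have hz0 : 0 < z := by linarith [p.hz1]
  have hV0 : 0 ≤ V 0 := by linarith [n.hV01]
  have hV1 : 0 ≤ V 1 := by linarith [n.hV1]
  refine erb (Q ^ 10) (Q ^ 2 * V 0) (Q ^ 2 * V 1) k0 R R₁ z _ _ (one_le_pow₀ hQ1) n.nV2 n.n10
    n.nV01 p.k1 hR p.hR1 ?_ p.hRk n.nR2 hz0 ?_ (mx1 hQ1) (mx1 hQ1) (mx2 hQ1 hz0 hV0)
    (mx2 hQ1 hz0 hV1)
  · have h1 := n.nRle R hR'
    have h2 : Q ^ 9 ≤ Q ^ 10 := pow_le_pow_right₀ hQ1 (by norm_num)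
    have h3 : 0 ≤ Q ^ 10 := by positivity
    have h4 : Q ^ 9 ≤ 2 * Q ^ 10 := by linarith
    have h5 : 0 ≤ R₁ := by linarith [p.hR1]
    exact le_trans h1 (mul_le_mul_of_nonneg_right h4 h5)
  · refine le_trans p.hz2 (mul_le_mul_of_nonneg_left ?_ hz0.le)
    rw [p.hm]
    refine min_le_min le_rfl ?_
    have h3 : 1 * V 1 ≤ Q ^ 2 * V 1 := mul_le_mul_of_nonneg_right (one_le_pow₀ hQ1) hV1
    rwa [one_mul] at h3

theorem m_le_k (p : Par T Q V k0 del R₁ m₁ u z) : m₁ ≤ k0 := by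
  rw [p.hm]; exact min_le_left _ _

theorem m_le_V (p : Par T Q V k0 del R₁ m₁ u z) : m₁ ≤ V 1 := by
  rw [p.hm]; exact min_le_right _ _

theorem w1 (p : Par T Q V k0 del R₁ m₁ u z) (n : Nm T Q V R₁ m₁ u) : 1 ≤ Q ^ 3 * V 0 / k0 := by
  have hk0 : 0 < k0 := by linarith [p.k1]
  have hQ1 := n.hQ1
  have hV0 : 0 ≤ V 0 := by linarith [n.hV01]
  rw [le_div_iff₀ hk0]
  exact mul_le_mul (one_le_pow₀ hQ1) p.hkV hk0.le (by positivity)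

theorem w2 (p : Par T Q V k0 del R₁ m₁ u z) (n : Nm T Q V R₁ m₁ u) : 1 ≤ Q ^ 3 * V 1 / m₁ := by
  have hm0 : 0 < m₁ := by linarith [p.hm2]
  have hQ1 := n.hQ1
  rw [le_div_iff₀ hm0]
  exact mul_le_mul (one_le_pow₀ hQ1) (m_le_V p) hm0.le (by positivity)

theorem u4 (p : Par T Q V k0 del R₁ m₁ u z) (n : Nm T Q V R₁ m₁ u) :
    1 ≤ u ^ 4 * (Q ^ 2 * V 1) := by
  have hu := p.hu
  have hm0 : 0 < m₁ := by linarith [p.hm2]
  have hQ1 := n.hQ1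
  have hV1 : 0 ≤ V 1 := by linarith [n.hV1]
  have h1 : u ^ 10 ≤ u ^ 4 := pow_le_pow_of_le_one hu.le p.hu1 (by norm_num)
  have h3 : 1 * V 1 ≤ Q ^ 2 * V 1 := mul_le_mul_of_nonneg_right (one_le_pow₀ hQ1) hV1
  rw [one_mul] at h3
  have h2 : u ^ 10 * m₁ ≤ u ^ 4 * (Q ^ 2 * V 1) :=
    mul_le_mul h1 (le_trans (m_le_V p) h3) hm0.le (by positivity)
  exact le_trans n.hu10 h2

theorem u2k (p : Par T Q V k0 del R₁ m₁ u z) (n : Nm T Q V R₁ m₁ u) :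
    1 ≤ u ^ 2 * k0 := by
  have hu := p.hu
  have hm0 : 0 < m₁ := by linarith [p.hm2]
  have h1 : u ^ 10 ≤ u ^ 2 := pow_le_pow_of_le_one hu.le p.hu1 (by norm_num)
  have h2 : u ^ 10 * m₁ ≤ u ^ 2 * k0 := mul_le_mul h1 (m_le_k p) hm0.le (by positivity)
  exact le_trans n.hu10 h2

theorem pw8 {Q : ℝ} (hQ1 : 1 ≤ Q) : 1 ≤ (Q ^ 8) ^ 3 := one_le_pow₀ (one_le_pow₀ hQ1)

theorem r0a {Q u : ℝ} (hQ1 : 1 ≤ Q) (hu : 0 < u) (hu1 : u ≤ 1) :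
    300000 * (Q ^ 8) ^ 3 ≤ 300000 * (Q ^ 8) ^ 3 / u := by
  have h0 : 0 ≤ 300000 * (Q ^ 8) ^ 3 := by positivity
  rw [le_div_iff₀ hu]
  exact mul_le_of_le_one_right h0 hu1

theorem r0b {Q u : ℝ} (hQ1 : 1 ≤ Q) (hu : 0 < u) : 1 ≤ u * (300000 * (Q ^ 8) ^ 3 / u) := by
  have : u * (300000 * (Q ^ 8) ^ 3 / u) = 300000 * (Q ^ 8) ^ 3 := by field_simp
  rw [this]
  have := pw8 hQ1
  linarith

theorem ph (phb : PHBStmt) (p : Par T Q V k0 del R₁ m₁ u z) (n : Nm T Q V R₁ m₁ u) :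
    ∀ R, 300000 * (Q ^ 8) ^ 3 / u ≤ R → R ≤ Q * R₁ + Q ^ 8 →
      PH R (Q ^ 2 * V 0) (Q ^ 2 * V 1) (Q ^ 3 * V 0 / k0) (Q ^ 3 * V 1 / m₁)
        ((Q ^ 2 * V 0) ^ 3 * (u ^ 3 + 1 / R)) ≤
      10 ^ 6 * (Q ^ 10) ^ 8 * ((Q ^ 2 * V 0 / (Q ^ 2 * V 1)) ^ 2 * u ^ 2) := by
  intro R hR hR'
  have hQ1 := n.hQ1
  have hQ0 : 0 < Q := by linarith
  have hu := p.hu
  have hu1 := p.hu1
  have hR9 := n.nRle R hR'
  have hk1 := p.k1
  have hk0 : 0 < k0 := by linarith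
  have hV0 : 0 ≤ V 0 := by linarith [n.hV01]
  have hV1 : 0 < V 1 := by linarith [n.hV1]
  have hR1 := p.hR1
  have hR0' : 0 < R := by
    have h1 := r0a hQ1 hu hu1
    have h2 := pw8 hQ1
    linarith
  refine phb (Q ^ 10) (Q ^ 2 * V 0) (Q ^ 2 * V 1) k0 R u _ _ (one_le_pow₀ hQ1) n.nV2 n.n10
    n.nV01 hk1 hu hu1 (u4 p n) (u2k p n) ?_ ?_ ?_ (w1 p n) (w2 p n) ?_ ?_
  · exact le_trans (r0b hQ1 hu) (mul_le_mul_of_nonneg_left hR hu.le)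
  · calc R ≤ Q ^ 9 * R₁ := hR9
      _ ≤ Q ^ 10 * k0 := mul_le_mul (pow_le_pow_right₀ hQ1 (by norm_num)) p.hRk (by linarith)
          (by positivity)
  · calc R ^ 2 ≤ (Q ^ 9 * R₁) ^ 2 := pow_le_pow_left₀ hR0'.le hR9 2
      _ = Q ^ 18 * R₁ ^ 2 := by ring
      _ ≤ (Q ^ 10) ^ 2 * (Q ^ 2 * V 0 * (Q ^ 2 * V 1)) := by
          refine mul_le_mul ?_ n.nR2 (by positivity) (by positivity)
          rw [← pow_mul]
          exact pow_le_pow_right₀ hQ1 (by norm_num)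
  · refine le_trans ?_ (mul_le_mul_of_nonneg_left (le_max_right _ _) (by positivity))
    calc Q ^ 3 * V 0 / k0 ≤ Q ^ 12 * V 0 / k0 := by
          refine div_le_div_of_nonneg_right ?_ hk0.le
          exact mul_le_mul_of_nonneg_right (pow_le_pow_right₀ hQ1 (by norm_num)) hV0
      _ = _ := by ring
  · rcases le_total k0 (V 1) with h | h
    · have hmk : m₁ = k0 := by rw [p.hm, min_eq_left h]
      rw [hmk]
      refine le_trans ?_ (mul_le_mul_of_nonneg_left (le_max_right _ _) (by positivity))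
      calc Q ^ 3 * V 1 / k0 ≤ Q ^ 12 * V 1 / k0 := by
            refine div_le_div_of_nonneg_right ?_ hk0.le
            exact mul_le_mul_of_nonneg_right (pow_le_pow_right₀ hQ1 (by norm_num)) hV1.le
        _ = _ := by ring
    · have hmk : m₁ = V 1 := by rw [p.hm, min_eq_right h]
      rw [hmk]
      refine le_trans ?_ (mul_le_mul_of_nonneg_left (le_max_left _ _) (by positivity))
      have h1 : Q ^ 3 * V 1 / V 1 = Q ^ 3 := by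
        have : V 1 ≠ 0 := hV1.ne'
        field_simp
      rw [h1, mul_one]
      exact pow_le_pow_right₀ hQ1 (by norm_num)

theorem rn1 (p : Par T Q V k0 del R₁ m₁ u z) (n : Nm T Q V R₁ m₁ u) :
    300000 * (Q ^ 8) ^ 3 ≤ 300000 * (Q ^ 8) ^ 3 / u ^ 3 :=
  r0a n.hQ1 (pow_pos p.hu 3) (pow_le_one₀ p.hu.le p.hu1)

theorem rn2 (p : Par T Q V k0 del R₁ m₁ u z) (n : Nm T Q V R₁ m₁ u) :
    300000 * (Q ^ 8) ^ 3 / u ^ 3 ≤ Q ^ 2 * V 1 := by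
  have hu := p.hu
  have hQ1 := n.hQ1
  have hQ0 : 0 < Q := by linarith
  have hu3 : 0 < u ^ 3 := by positivity
  have hV1 : 0 < V 1 := by linarith [n.hV1]
  rw [div_le_iff₀ hu3]
  have h1 : 300000 * (Q ^ 8) ^ 3 ≤ Q ^ 25 := by
    have hQ3e5 : 300000 ≤ Q := le_trans (by norm_num) n.h300
    calc 300000 * (Q ^ 8) ^ 3 ≤ Q * (Q ^ 8) ^ 3 :=
          mul_le_mul_of_nonneg_right hQ3e5 (by positivity)
      _ = Q ^ 25 := by ring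
  have h2 : 0 ≤ u ^ 3 * V 1 := by positivity
  calc 300000 * (Q ^ 8) ^ 3 ≤ u ^ 3 * V 1 := le_trans h1 n.hu3V
    _ = 1 * (u ^ 3 * V 1) := (one_mul _).symm
    _ ≤ Q ^ 2 * (u ^ 3 * V 1) := mul_le_mul_of_nonneg_right (one_le_pow₀ hQ1) h2
    _ = _ := by ring

theorem rn3 (p : Par T Q V k0 del R₁ m₁ u z) (n : Nm T Q V R₁ m₁ u) :
    1 / (300000 * (Q ^ 8) ^ 3 / u ^ 3) ≤ u ^ 3 := by
  have hu := p.hu
  have hQ1 := n.hQ1
  have hu3 : 0 < u ^ 3 := by positivity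
  have h1 := pw8 hQ1
  have h2 : 1 ≤ 300000 * (Q ^ 8) ^ 3 := by linarith
  rw [one_div_div, div_le_iff₀ (by linarith)]
  exact le_mul_of_one_le_right hu3.le h2

end

end Pool.Agent.F5H.K2
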