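import Pool.Agent.Helper36_F5H.K3f

/-!
MP_f5cbfa_nt, squad F5H, row C_KC2: the finite families and one `h`.
-/

set_option autoImplicit false

open MeasureTheory Complex ComplexConjugate

namespace Pool.Agent.F5H.K2

open Pool.Agent.Helper68_F5 Pool.Agent.F5H.W36 Pool.Agent.F5H.BC Pool.Agent.BTL Pool.Agent.F5S
  Pool.Agent.F5H

/-- candidates for `t` -/
noncomputable def F1 (Q : ℝ) (A : ℝ × ℝ × ℝ) (R₁ : ℝ) : Finset T3 :=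
  lt (gQ Q A) (Q * R₁ + 3 * Q ^ 8) ×ˢ lt (gQ Q A) (Q * R₁ + 3 * Q ^ 8) ×ˢ
    lt (gQ Q A) (Q * R₁ + 3 * Q ^ 8)

open Classical in
/-- large candidates -/
noncomputable def F2 (Q : ℝ) (A : ℝ × ℝ × ℝ) (R₁ R₀ : ℝ) : Finset T3 :=
  (F1 Q A R₁).filter (fun t => R₀ ≤ ‖gQ Q A t.1‖)

open Classical in
/-- candidates for `h` -/
noncomputable def FH (Q : ℝ) (A : ℝ × ℝ × ℝ) (V : Fin 3 → ℝ) : Finset T3 :=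
  (lt (gQ Q A) (Q ^ 2 * V 0) ×ˢ lt (gQ Q A) (Q ^ 2 * V 1) ×ˢ lt (gQ Q A) (Q ^ 2 * V 2)).filter
    (fun h => Q ^ 2 * V 1 ≤ Q ^ 8 * ‖gQ Q A h.2.1‖ ∧ Q ^ 2 * V 2 ≤ Q ^ 8 * ‖gQ Q A h.2.2‖)

section

variable {T Q : ℝ} {A : ℝ × ℝ × ℝ} {V : Fin 3 → ℝ} {k0 del R₁ m₁ u z : ℝ} {s : Bool × Bool}

theorem mem_F1 (hQ1 : 1 ≤ Q) (hA : A ∈ KM Q) {t : T3} {H₁ H₂ H₃ e₁ e₂ e₃ : ℂ}
    {κ₁ κ₂ κ₃ ω₁ ω₂ : ℝ}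
    (hp : Pt (Q ^ 8) ((Q * T) ^ 2) 0 (Q ^ 2 * (Rx T / T)) H₁ H₂ H₃ e₁ e₂ e₃ κ₁ κ₂ κ₃)
    (hz : InZ (Q ^ 8) ((Q * T) ^ 2) (Q * R₁) ω₁ ω₂ H₁ H₂ H₃ e₁ e₂ e₃ κ₁ κ₂ κ₃ (gQ Q A t.1)
      (gQ Q A t.2.1) (gQ Q A t.2.2)) : t ∈ F1 Q A R₁ := by
  have hsep : Sep 1 (gQ Q A) := sep_gQ hQ1 hA
  have hcr := InZ.crude hp hz
  have h0 : 0 ≤ Q ^ 8 := by positivity
  simp only [F1, Finset.mem_product, Helper38_F5.mem_lt one_pos hsep]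
  obtain ⟨c1, c2, c3, _⟩ := hcr
  refine ⟨?_, ?_, ?_⟩
  · linarith
  · linarith
  · linarith

theorem mem_F1B (hQ1 : 1 ≤ Q) (hA : A ∈ KM Q) (h t : T3)
    (ht : (HB T Q A V R₁ z h t).Nonempty) : t ∈ F1 Q A R₁ := by
  obtain ⟨θ, _, e₁, e₂, κ₁, κ₂, κ₃, hp, hz⟩ := ht
  exact mem_F1 hQ1 hA hp hz

theorem mem_F2A (hQ1 : 1 ≤ Q) (hA : A ∈ KM Q) {R₀ : ℝ} (h t : T3)
    (ht : (HA T Q A V R₁ k0 m₁ u h t).Nonempty) (hR : R₀ ≤ ‖gQ Q A t.1‖) : t ∈ F2 Q A R₁ R₀ := by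
  classical
  obtain ⟨θ, _, e₁, e₂, κ₁, κ₂, κ₃, hp, hz, _⟩ := ht
  unfold F2
  rw [Finset.mem_filter]
  exact ⟨mem_F1 hQ1 hA hp hz, hR⟩

theorem of_F2 {R₀ : ℝ} {t : T3} (ht : t ∈ F2 Q A R₁ R₀) : R₀ ≤ ‖gQ Q A t.1‖ := by
  classical
  unfold F2 at ht
  rw [Finset.mem_filter] at ht
  exact ht.2

theorem of_FH (hQ1 : 1 ≤ Q) (hA : A ∈ KM Q) : ∀ h ∈ FH Q A V,
    ‖gQ Q A h.1‖ ≤ Q ^ 2 * V 0 ∧ ‖gQ Q A h.2.1‖ ≤ Q ^ 2 * V 1 ∧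
      ‖gQ Q A h.2.2‖ ≤ Q ^ 2 * V 2 ∧ Q ^ 2 * V 1 ≤ Q ^ 8 * ‖gQ Q A h.2.1‖ ∧
      Q ^ 2 * V 2 ≤ Q ^ 8 * ‖gQ Q A h.2.2‖ := by
  classical
  have hsep : Sep 1 (gQ Q A) := sep_gQ hQ1 hA
  intro h hh
  unfold FH at hh
  rw [Finset.mem_filter] at hh
  simp only [Finset.mem_product, Helper38_F5.mem_lt one_pos hsep] at hh
  exact ⟨hh.1.1, hh.1.2.1, hh.1.2.2, hh.2.1, hh.2.2⟩

theorem mem_FH (hQ1 : 1 ≤ Q) (hA : A ∈ KM Q) {h k : Z6} {th : ℝ}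
    (hcd : Cd T Q A V k0 s h k th) : h ∈ FH Q A V := by
  classical
  have hQ0 : 0 < Q := by linarith
  have hsep : Sep 1 (gQ Q A) := sep_gQ hQ1 hA
  have hsz := hcd.1
  have hnrm : ∀ (z : ℤ × ℤ), ‖gQ Q A z‖ = Q * ‖gA A (rc z)‖ := by
    intro z
    rw [gQ_apply, norm_mul, Complex.norm_real, Real.norm_eq_abs, abs_of_pos hQ0]
  have e0 : ‖hG A (r3 h) 0‖ = ‖gA A (rc h.1)‖ := rfl
  have e1 : ‖hG A (r3 h) 1‖ = ‖gA A (rc h.2.1)‖ := rfl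
  have e2 : ‖hG A (r3 h) 2‖ = ‖gA A (rc h.2.2)‖ := rfl
  have s0 := hsz 0
  have s1 := hsz 1
  have s2 := hsz 2
  rw [e0] at s0
  rw [e1] at s1
  rw [e2] at s2
  unfold FH
  rw [Finset.mem_filter]
  simp only [Finset.mem_product, Helper38_F5.mem_lt one_pos hsep, hnrm]
  have hup : ∀ {x y : ℝ}, x ≤ Q * y → Q * x ≤ Q ^ 2 * y := by
    intro x y hxy
    calc Q * x ≤ Q * (Q * y) := mul_le_mul_of_nonneg_left hxy hQ0.le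
      _ = _ := by ring
  have hlo : ∀ {x y : ℝ}, 0 ≤ x → y ≤ Q * x → Q ^ 2 * y ≤ Q ^ 8 * (Q * x) := by
    intro x y hx hxy
    calc Q ^ 2 * y ≤ Q ^ 2 * (Q * x) := mul_le_mul_of_nonneg_left hxy (by positivity)
      _ ≤ Q ^ 8 * (Q * x) := by
          refine mul_le_mul_of_nonneg_right ?_ (by positivity)
          exact pow_le_pow_right₀ hQ1 (by norm_num)
  exact ⟨⟨hup s0.2, hup s1.2, hup s2.2⟩, hlo (norm_nonneg _) s1.1, hlo (norm_nonneg _) s2.1⟩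

theorem zero_h (hQ1 : 1 ≤ Q) (hA : A ∈ KM Q) (h : Z6) (hh : h ∉ FH Q A V) :
    ∑' k : Z6, volume (SK T Q A V k0 del s h k) = 0 := by
  rw [ENNReal.tsum_eq_zero]
  intro k
  have : SK T Q A V k0 del s h k = ∅ := by
    rw [Set.eq_empty_iff_forall_notMem]
    rintro θ ⟨_, hcd, _⟩
    exact hh (mem_FH hQ1 hA hcd)
  rw [this, measure_empty]

theorem one_h (ton : TONStmt) (mkp : MKPStmt) (due : DUEStmt) {K : ℝ} (hK : 1 ≤ K)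
    (smt : ∀ g : ℤ × ℤ →+ ℂ, Sep 1 g → ∀ (P R₀ : ℝ) (e₁ e₂ e₃ : ℂ),
      1 ≤ P → 1 ≤ R₀ → ‖e₁‖ = 1 → ‖e₂‖ = 1 → ‖e₃‖ = 1 → ∀ 𝓥 : Finset T3,
        (∀ v ∈ 𝓥, ∃ c : ℝ, |c| ≤ R₀ ∧ Near P c e₁ e₂ e₃ (g v.1) (g v.2.1) (g v.2.2)) →
        (𝓥.card : ℝ) ≤ K * P ^ 6 * R₀)
    {c : ℕ} (hc : c ≤ 100)
    (vkp : ∀ T Q : ℝ, 2 ≤ Q → 1 ≤ T →
      Q ^ 1000 ≤ T ^ (1 / 100000 : ℝ) → ∀ (H : Fin 3 → ℂ) (ep : Fin 3 → ℝ) (th V0 : ℝ),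
      (∀ l, ep l ^ 2 = 1) → Gd Q T H ep th → (∀ l, ‖H l‖ ≤ Q * V0) → 1 ≤ V0 → V0 ≤ Q * Lx T →
      (∀ l, l ≠ 2 → ‖H 2‖ ≤ Q ^ 2 * ‖H l‖) → ∃ (B : ℝ × ℝ × ℝ) (d : Fin 3 → ℝ),
        Vk T Q V0 c H ep th B d)
    (p : Par T Q V k0 del R₁ m₁ u z) (hA : A ∈ KM Q) {R₀ : ℝ} (hR₀ : Q ^ 8 ≤ R₀) (h : Z6) :
    ∑' k : Z6, volume (SK T Q A V k0 del s h k) ≤
      ENNReal.ofReal (300 ^ 6 * Q ^ (33 + c) * (k0 * m₁ / R₁) * u ^ 2) *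
        ∑ t ∈ F1 Q A R₁, volume (HB T Q A V R₁ z h t) +
      ENNReal.ofReal (300 ^ 6 * Q ^ 30 * (k0 * m₁ / R₁)) *
        ∑ t ∈ F2 Q A R₁ R₀, volume (HA T Q A V R₁ k0 m₁ u h t) +
      ENNReal.ofReal (300 ^ 6 * Q ^ 30 * (k0 * m₁ / R₁) * (K * (Q ^ 8) ^ 6 * (2 * R₀))) *
        volume (WA T Q A V u h) := by
  have hQ1 : 1 ≤ Q := by linarith [p.hQ]
  refine ton (fun k => SK T Q A V k0 del s h k)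
    (fun k => mkp T Q A V k0 (Q * (del * k0 * V 0 ^ 2)) s h k) (F1 Q A R₁) (F2 Q A R₁ R₀)
    (fun t => HB T Q A V R₁ z h t) (fun t => HA T Q A V R₁ k0 m₁ u h t) (WA T Q A V u h)
    _ _ _ ?_
  intro θ
  exact pw due hK smt hc vkp p hA hR₀ (F1 Q A R₁) (F2 Q A R₁ R₀)
    (fun t ht => mem_F1B hQ1 hA h t ht) (fun t ht hR => mem_F2A hQ1 hA h t ht hR) θ

end

end Pool.Agent.F5H.K2
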