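import Pool.Agent.Helper36_F5H.K3g
import Pool.Agent.Helper36_F5H.K3h

/-!
MP_f5cbfa_nt, squad F5H, row C_KC2: assembly.
-/

set_option autoImplicit false

open MeasureTheory Complex ComplexConjugate

namespace Pool.Agent.F5H.K2

open Pool.Agent.Helper68_F5 Pool.Agent.F5H.W36 Pool.Agent.F5H.BC Pool.Agent.BTL Pool.Agent.F5S
  Pool.Agent.F5H

/-- the volume factor -/
noncomputable def WV (T Q : ℝ) (V : Fin 3 → ℝ) : ℝ :=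
  (Q ^ 2 * V 0) ^ 2 * (Q ^ 2 * V 1) ^ 2 * (Q ^ 2 * V 2 *
    min (Q ^ 2 * (Rx T / T)) (Q ^ 2 * V 2))

section

variable {T Q : ℝ} {A : ℝ × ℝ × ℝ} {V : Fin 3 → ℝ} {k0 del R₁ m₁ u z : ℝ} {s : Bool × Bool}

theorem mainB {K₁ : ℝ} (hkc : ∀ g : ℤ × ℤ →+ ℂ, Sep 1 g →
    ∀ (P S δ r R₁ ω₁ ω₂ V₁ V₂ V₃ E : ℝ), 1 ≤ P → 0 < S → V₁ ^ 7 ≤ S ^ 2 → 1 ≤ V₃ →
      V₃ ≤ V₂ → V₂ ≤ V₁ → P ≤ V₁ → R₁ ≤ V₁ → 1 ≤ r → 1 ≤ ω₁ → 1 ≤ ω₂ → 0 ≤ δ →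
      (R₁ + P) * δ ≤ 1 → 0 ≤ E →
      (∀ R, 1 ≤ R → R ≤ R₁ + P → ER R V₁ V₂ ω₁ ω₂ ≤ E) → ∀ 𝓗 𝓥 : Finset T3,
      (∀ h ∈ 𝓗, ‖g h.1‖ ≤ V₁ ∧ ‖g h.2.1‖ ≤ V₂ ∧ ‖g h.2.2‖ ≤ V₃ ∧ V₃ ≤ P * ‖g h.2.2‖) →
      ∑ p ∈ 𝓥 ×ˢ 𝓗, volume (Hit P S δ r R₁ ω₁ ω₂ (g p.2.1) (g p.2.2.1) (g p.2.2.2)
        (g p.1.1) (g p.1.2.1) (g p.1.2.2)) ≤
      ENNReal.ofReal (K₁ * P ^ 24 * (1 + Real.log V₁) ^ 3 *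
        (V₁ ^ 2 * V₂ ^ 2 * (V₃ * min r V₃)) * (1 + E)))
    (erb : ERBStmt) (p : Par T Q V k0 del R₁ m₁ u z) (n : Nm T Q V R₁ m₁ u) (hA : A ∈ KM Q) :
    ∑ h ∈ FH Q A V, ∑ t ∈ F1 Q A R₁, volume (HB T Q A V R₁ z h t) ≤
      ENNReal.ofReal (K₁ * (Q ^ 8) ^ 24 * (1 + Real.log (Q ^ 2 * V 0)) ^ 3 *
        WV T Q V * (1 + 10 ^ 4 * (Q ^ 10) ^ 5)) := by
  have hQ1 := n.hQ1
  have hQ0 : 0 < Q := by linarith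
  have hT0 : 0 < T := by linarith [n.hT]
  have h := hkc (gQ Q A) (sep_gQ hQ1 hA) (Q ^ 8) ((Q * T) ^ 2) 0 (Q ^ 2 * (Rx T / T)) (Q * R₁)
    (Q ^ 4 * max 1 (V 0 / z)) (Q ^ 4 * max 1 (V 1 / z)) (Q ^ 2 * V 0) (Q ^ 2 * V 1) (Q ^ 2 * V 2)
    (10 ^ 4 * (Q ^ 10) ^ 5) (one_le_pow₀ hQ1) (by positivity) n.nV7 n.nV3 n.n21 n.n10 n.nP n.nR₁
    n.nr1 (mx1 hQ1) (mx1 hQ1) le_rfl (by rw [mul_zero]; norm_num) (by positivity) (eb erb p n)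
    (FH Q A V) (F1 Q A R₁) (fun h hh => by
      obtain ⟨a1, a2, a3, _, a5⟩ := of_FH hQ1 hA h hh
      exact ⟨a1, a2, a3, a5⟩)
  rw [Finset.sum_product_right] at h
  exact h

theorem mainL {K₂ : ℝ} (hlr : ∀ g : ℤ × ℤ →+ ℂ, Sep 1 g →
    ∀ (P S r R₁ ω₁ ω₂ V₁ V₂ V₃ w R₀ E : ℝ), 1 ≤ P → 0 < S → V₁ ^ 7 ≤ S ^ 2 → 1 ≤ V₃ → V₃ ≤ V₂ →
    V₂ ≤ V₁ → P ≤ V₁ → R₁ ≤ V₁ → 1 ≤ r → 8 * P * r ≤ V₂ → 1 ≤ ω₁ → 1 ≤ ω₂ → 0 ≤ w →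
    300000 * P ^ 3 ≤ R₀ → 0 ≤ E →
    (∀ R, R₀ ≤ R → R ≤ R₁ + P → PH R V₁ V₂ ω₁ ω₂ (V₁ ^ 3 * (w + 1 / R)) ≤ E) →
    ∀ 𝓗 𝓥 : Finset T3,
    (∀ h ∈ 𝓗, ‖g h.1‖ ≤ V₁ ∧ ‖g h.2.1‖ ≤ V₂ ∧ ‖g h.2.2‖ ≤ V₃ ∧ V₂ ≤ P * ‖g h.2.1‖ ∧
      V₃ ≤ P * ‖g h.2.2‖) →
    (∀ v ∈ 𝓥, R₀ ≤ ‖g v.1‖) →
    ∑ p ∈ 𝓥 ×ˢ 𝓗, volume (HitW P S r R₁ ω₁ ω₂ (w * V₁ ^ 3) (g p.2.1) (g p.2.2.1) (g p.2.2.2)
      (g p.1.1) (g p.1.2.1) (g p.1.2.2)) ≤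
    ENNReal.ofReal (K₂ * P ^ 60 * (1 + Real.log V₁) ^ 7 *
      (V₁ ^ 2 * V₂ ^ 2 * (V₃ * min r V₃)) * E))
    (phb : PHBStmt) (p : Par T Q V k0 del R₁ m₁ u z) (n : Nm T Q V R₁ m₁ u) (hA : A ∈ KM Q) :
    ∑ h ∈ FH Q A V, ∑ t ∈ F2 Q A R₁ (300000 * (Q ^ 8) ^ 3 / u),
      volume (HA T Q A V R₁ k0 m₁ u h t) ≤
      ENNReal.ofReal (K₂ * (Q ^ 8) ^ 60 * (1 + Real.log (Q ^ 2 * V 0)) ^ 7 *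
        WV T Q V * (10 ^ 6 * (Q ^ 10) ^ 8 * ((Q ^ 2 * V 0 / (Q ^ 2 * V 1)) ^ 2 * u ^ 2))) := by
  have hQ1 := n.hQ1
  have hQ0 : 0 < Q := by linarith
  have hT0 : 0 < T := by linarith [n.hT]
  have hu := p.hu
  have h := hlr (gQ Q A) (sep_gQ hQ1 hA) (Q ^ 8) ((Q * T) ^ 2) (Q ^ 2 * (Rx T / T)) (Q * R₁)
    (Q ^ 3 * V 0 / k0) (Q ^ 3 * V 1 / m₁) (Q ^ 2 * V 0) (Q ^ 2 * V 1) (Q ^ 2 * V 2) (u ^ 3)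
    (300000 * (Q ^ 8) ^ 3 / u)
    (10 ^ 6 * (Q ^ 10) ^ 8 * ((Q ^ 2 * V 0 / (Q ^ 2 * V 1)) ^ 2 * u ^ 2))
    (one_le_pow₀ hQ1) (by positivity) n.nV7 n.nV3 n.n21 n.n10 n.nP n.nR₁ n.nr1 n.nr (w1 p n)
    (w2 p n) (pow_pos hu 3).le (r0a hQ1 hu p.hu1) (by positivity) (ph phb p n)
    (FH Q A V) (F2 Q A R₁ (300000 * (Q ^ 8) ^ 3 / u)) (of_FH hQ1 hA) (fun t ht => of_F2 ht)
  rw [Finset.sum_product_right] at h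
  exact h

theorem mainN {K₃ : ℝ} (hnw : ∀ g : ℤ × ℤ →+ ℂ, Sep 1 g →
    ∀ (P S r V₁ V₂ V₃ w R : ℝ), 1 ≤ P → (∀ z : ℂ, ∃ x : ℤ × ℤ, ‖g x - z‖ ≤ P) →
    300000 * P ^ 3 ≤ R → R ≤ V₂ → 0 < S → V₁ ^ 7 ≤ S ^ 2 → 1 ≤ V₃ → V₃ ≤ V₂ → V₂ ≤ V₁ →
    1 ≤ r → 8 * P * r ≤ V₂ → 0 ≤ w → ∀ 𝓗 : Finset T3,
    (∀ h ∈ 𝓗, ‖g h.1‖ ≤ V₁ ∧ ‖g h.2.1‖ ≤ V₂ ∧ ‖g h.2.2‖ ≤ V₃ ∧ V₂ ≤ P * ‖g h.2.1‖ ∧
      V₃ ≤ P * ‖g h.2.2‖) →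
    ∑ h ∈ 𝓗, volume (Wt P S r (w * V₁ ^ 3) (g h.1) (g h.2.1) (g h.2.2)) ≤
    ENNReal.ofReal (K₃ * P ^ 100 * (1 + Real.log V₁) ^ 6 *
      (V₁ ^ 2 * V₂ ^ 2 * (V₃ * min r V₃)) * ((V₁ / V₂) ^ 2 * (w + 1 / R))))
    (cvg : CVGStmt) (p : Par T Q V k0 del R₁ m₁ u z) (n : Nm T Q V R₁ m₁ u) (hA : A ∈ KM Q) :
    ∑ h ∈ FH Q A V, volume (WA T Q A V u h) ≤
      ENNReal.ofReal (K₃ * (Q ^ 8) ^ 100 * (1 + Real.log (Q ^ 2 * V 0)) ^ 6 *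
        WV T Q V * ((Q ^ 2 * V 0 / (Q ^ 2 * V 1)) ^ 2 *
          (u ^ 3 + 1 / (300000 * (Q ^ 8) ^ 3 / u ^ 3)))) := by
  have hQ1 := n.hQ1
  have hQ0 : 0 < Q := by linarith
  have hT0 : 0 < T := by linarith [n.hT]
  have hu := p.hu
  exact hnw (gQ Q A) (sep_gQ hQ1 hA) (Q ^ 8) ((Q * T) ^ 2) (Q ^ 2 * (Rx T / T)) (Q ^ 2 * V 0)
    (Q ^ 2 * V 1) (Q ^ 2 * V 2) (u ^ 3) (300000 * (Q ^ 8) ^ 3 / u ^ 3) (one_le_pow₀ hQ1)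
    (cvg Q A p.hQ hA) (rn1 p n) (rn2 p n) (by positivity) n.nV7 n.nV3 n.n21 n.n10 n.nr1 n.nr
    (pow_pos hu 3).le (FH Q A V) (of_FH hQ1 hA)

theorem comb {ι : Type} (𝓗 : Finset ι) (f a b w : ι → ENNReal) {C₁ C₂ C₃ B₁ B₂ B₃ : ℝ}
    (h1 : 0 ≤ C₁) (h2 : 0 ≤ C₂) (h3 : 0 ≤ C₃) (g1 : 0 ≤ B₁) (g2 : 0 ≤ B₂) (g3 : 0 ≤ B₃)
    (hf : ∀ h ∈ 𝓗, f h ≤ ENNReal.ofReal C₁ * a h + ENNReal.ofReal C₂ * b h +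
      ENNReal.ofReal C₃ * w h) (ha : ∑ h ∈ 𝓗, a h ≤ ENNReal.ofReal B₁)
    (hb : ∑ h ∈ 𝓗, b h ≤ ENNReal.ofReal B₂) (hw : ∑ h ∈ 𝓗, w h ≤ ENNReal.ofReal B₃) :
    ∑ h ∈ 𝓗, f h ≤ ENNReal.ofReal (C₁ * B₁ + C₂ * B₂ + C₃ * B₃) := by
  refine le_trans (Finset.sum_le_sum hf) ?_
  rw [Finset.sum_add_distrib, Finset.sum_add_distrib, ← Finset.mul_sum, ← Finset.mul_sum,
    ← Finset.mul_sum, ENNReal.ofReal_add (by positivity) (by positivity),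
    ENNReal.ofReal_add (by positivity) (by positivity), ENNReal.ofReal_mul h1,
    ENNReal.ofReal_mul h2, ENNReal.ofReal_mul h3]
  exact add_le_add (add_le_add (mul_le_mul_right ha _) (mul_le_mul_right hb _))
    (mul_le_mul_right hw _)

theorem WV0 (n : Nm T Q V R₁ m₁ u) : 0 ≤ WV T Q V := by
  have h1 := n.nr1
  have h2 := n.nV3
  have h3 : 0 ≤ min (Q ^ 2 * (Rx T / T)) (Q ^ 2 * V 2) := le_min (by linarith) (by linarith)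
  have h4 : 0 ≤ Q ^ 2 * V 2 := by linarith
  unfold WV
  positivity

theorem last {c : ℕ} {K₁ K₂ K₃ K₄ : ℝ} (hc : c ≤ 100) (h1 : 1 ≤ K₁) (h1Q : K₁ ≤ Q)
    (h2 : 1 ≤ K₂) (h2Q : K₂ ≤ Q) (h3 : 1 ≤ K₃) (h3Q : K₃ ≤ Q) (h4 : 1 ≤ K₄) (h4Q : K₄ ≤ Q)
    (p : Par T Q V k0 del R₁ m₁ u z) (n : Nm T Q V R₁ m₁ u)
    (hR₁ : R₁ = min k0 (√(V 0 * V 1)))
    (hu2 : u ^ 2 ≤ (del ^ (2 / 5 : ℝ) + k0 ^ (-(1 / 5) : ℝ)) * (V 0 / V 1) ^ (1 / 2 : ℝ)) :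
    300 ^ 6 * Q ^ (33 + c) * (k0 * m₁ / R₁) * u ^ 2 *
      (K₁ * (Q ^ 8) ^ 24 * (1 + Real.log (Q ^ 2 * V 0)) ^ 3 *
        WV T Q V * (1 + 10 ^ 4 * (Q ^ 10) ^ 5)) +
    300 ^ 6 * Q ^ 30 * (k0 * m₁ / R₁) *
      (K₂ * (Q ^ 8) ^ 60 * (1 + Real.log (Q ^ 2 * V 0)) ^ 7 *
        WV T Q V * (10 ^ 6 * (Q ^ 10) ^ 8 * ((Q ^ 2 * V 0 / (Q ^ 2 * V 1)) ^ 2 * u ^ 2))) +
    300 ^ 6 * Q ^ 30 * (k0 * m₁ / R₁) *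
        (K₄ * (Q ^ 8) ^ 6 * (2 * (300000 * (Q ^ 8) ^ 3 / u))) *
      (K₃ * (Q ^ 8) ^ 100 * (1 + Real.log (Q ^ 2 * V 0)) ^ 6 *
        WV T Q V * ((Q ^ 2 * V 0 / (Q ^ 2 * V 1)) ^ 2 *
          (u ^ 3 + 1 / (300000 * (Q ^ 8) ^ 3 / u ^ 3)))) ≤
    Q ^ 1000 * (V 0 ^ 2 * V 1 ^ 2 * (V 2 * (Rx T / T)) *
      (min k0 (V 1) * max 1 (k0 / √(V 0 * V 1))) *
      ((del ^ (2 / 5 : ℝ) + k0 ^ (-(1 / 5) : ℝ)) * (V 0 / V 1) ^ (5 / 2 : ℝ))) := by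
  have hQ1 := n.hQ1
  have hQ0 : 0 < Q := by linarith
  have hk00 : 0 < k0 := by linarith [p.k1]
  have hR0 : 0 < R₁ := by linarith [p.hR1]
  have hm0 : 0 < m₁ := by linarith [p.hm2]
  have hu := p.hu
  have hV2 : 0 ≤ V 2 := by linarith [p.hV2]
  have hV1 : 0 < V 1 := by linarith [n.hV1]
  have hV0 : 0 < V 0 := by linarith [n.hV01]
  have hRx : 0 ≤ Rx T / T := by linarith [n.hRx]
  refine le_trans (fin2 hc n.h300 h1 h1Q h2 h2Q h3 h3Q h4 h4Q n.nL0 n.nL hV0 hV1 p.h10 hV2 hRx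
    hm0.le hk00.le hR0 hu (rn3 p n)) ?_
  have hDle : k0 / R₁ ≤ max 1 (k0 / √(V 0 * V 1)) := by
    rcases le_total k0 (√(V 0 * V 1)) with h | h
    · rw [hR₁, min_eq_left h, div_self hk00.ne']
      exact le_max_left _ _
    · rw [hR₁, min_eq_right h]
      exact le_max_right _ _
  rw [← p.hm]
  have hD' : k0 * m₁ / R₁ ≤ m₁ * max 1 (k0 / √(V 0 * V 1)) := by
    calc k0 * m₁ / R₁ = m₁ * (k0 / R₁) := by ring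
      _ ≤ _ := mul_le_mul_of_nonneg_left hDle hm0.le
  have hq0 : 0 < V 0 / V 1 := div_pos hV0 hV1
  have hG' : u ^ 2 * (V 0 / V 1) ^ 2 ≤
      (del ^ (2 / 5 : ℝ) + k0 ^ (-(1 / 5) : ℝ)) * (V 0 / V 1) ^ (5 / 2 : ℝ) := by
    have e1 : (V 0 / V 1) ^ (5 / 2 : ℝ) = (V 0 / V 1) ^ (1 / 2 : ℝ) * (V 0 / V 1) ^ 2 := by
      rw [← Real.rpow_natCast (V 0 / V 1) 2, ← Real.rpow_add hq0]
      norm_num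
    rw [e1, ← mul_assoc]
    exact mul_le_mul_of_nonneg_right hu2 (by positivity)
  have hQ940 : Q ^ 940 ≤ Q ^ 1000 := pow_le_pow_right₀ hQ1 (by norm_num)
  have hW0 : 0 ≤ V 0 ^ 2 * V 1 ^ 2 * (V 2 * (Rx T / T)) := by positivity
  have hm0' : 0 ≤ m₁ * max 1 (k0 / √(V 0 * V 1)) :=
    mul_nonneg hm0.le (le_trans zero_le_one (le_max_left _ _))
  have hD0 : 0 ≤ k0 * m₁ / R₁ := by positivity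
  have hG0 : 0 ≤ u ^ 2 * (V 0 / V 1) ^ 2 := by positivity
  refine mul_le_mul hQ940 ?_ (mul_nonneg (mul_nonneg hW0 hD0) hG0) (pow_nonneg hQ0.le _)
  exact mul_le_mul (mul_le_mul_of_nonneg_left hD' hW0) hG' hG0 (mul_nonneg hW0 hm0')

end

theorem kc2_of (due : DUEStmt) (lrg : LRGStmt) (nwt : NWTStmt) (ton : TONStmt) (cvg : CVGStmt)
    (mkp : MKPStmt) (vkp : VKPStmt) (phb : PHBStmt) (erb : ERBStmt) (smt : SMTStmt) :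
    KC2Stmt := by
  classical
  obtain ⟨K₁, hK₁, hkc⟩ := kc1
  obtain ⟨K₂, hK₂, hlr⟩ := lrg
  obtain ⟨K₃, hK₃, hnw⟩ := nwt
  obtain ⟨K₄, hK₄, hsm⟩ := smt
  obtain ⟨c, hc, hvk⟩ := vkp
  refine ⟨1000, by norm_num, max (max K₁ K₂) (max (max K₃ K₄) (300 ^ 6)),
    le_trans (by norm_num : (2 : ℝ) ≤ 300 ^ 6)
      (le_trans (le_max_right _ _) (le_max_right _ _)), ?_⟩
  intro T Q hQ0' hlog hQT A V k0 del s hA hV2 h21 h10 hV0 hV0T hV1T hV2T hk hkV hd hd1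
  have hKQ₁ : K₁ ≤ Q := le_trans (le_trans (le_max_left _ _) (le_max_left _ _)) hQ0'
  have hKQ₂ : K₂ ≤ Q := le_trans (le_trans (le_max_right _ _) (le_max_left _ _)) hQ0'
  have hKQ₃ : K₃ ≤ Q :=
    le_trans (le_trans (le_trans (le_max_left _ _) (le_max_left _ _)) (le_max_right _ _)) hQ0'
  have hKQ₄ : K₄ ≤ Q :=
    le_trans (le_trans (le_trans (le_max_right _ _) (le_max_left _ _)) (le_max_right _ _)) hQ0'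
  have h300 : 300 ^ 6 ≤ Q := le_trans (le_trans (le_max_right _ _) (le_max_right _ _)) hQ0'
  have hQ : 2 ≤ Q := le_trans (by norm_num) h300
  have hV01 : 1 ≤ V 0 := by linarith
  have hT : 1 ≤ T := T_ge hQ hQT hV01 hV0
  obtain ⟨u, p, hu10, hR2, hV0s, hu3V, hu2⟩ := num h300 hT hQT hV2 h21 h10 hV0 hV1T hk hkV hd hd1
    rfl rfl
  have n := nm_of p h300 hlog hV1T hu10 hR2 hV0s hu3V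
  have hQ1 := n.hQ1
  have hQ0 : 0 < Q := by linarith
  have hu := p.hu
  have hR0 : 0 < min k0 (√(V 0 * V 1)) := by linarith [p.hR1]
  have hm0 : 0 < min k0 (V 1) := by linarith [p.hm2]
  have hk0 : 0 < k0 := by linarith [p.k1]
  have hW0 := WV0 n
  have hL0 := n.nL0
  have hB := mainB hkc erb p n hA
  have hL := mainL hlr phb p n hA
  have hN := mainN hnw cvg p n hA
  have hR₀P : Q ^ 8 ≤ 300000 * (Q ^ 8) ^ 3 / u := by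
    refine le_trans ?_ (r0a hQ1 hu p.hu1)
    have h1 : Q ^ 8 ≤ (Q ^ 8) ^ 3 := le_self_pow₀ (one_le_pow₀ hQ1) (by norm_num)
    have h2 : 0 ≤ (Q ^ 8) ^ 3 := by positivity
    linarith
  have hone := fun h : Z6 => one_h (s := s) ton mkp due hK₄ hsm hc
    (fun T Q h1 h2 h3 H ep th V0 h4 h5 h6 h7 h8 h9 => by
      obtain ⟨B, d, d1, d2, d3, d4, d5⟩ := hvk T Q h1 h2 h3 H ep th V0 h4 h5 h6 h7 h8 h9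
      exact ⟨B, d, d1, d2, d3, d4, d5⟩) p hA hR₀P h
  have hsum := comb (FH Q A V) (fun h => ∑' k : Z6, volume (SK T Q A V k0 del s h k)) _ _ _
    (by positivity) (by positivity) (by positivity)
    (by positivity) (by positivity) (by positivity) (fun h _ => hone h) hB hL hN
  have hcmp : ∑' h : Z6, ∑' k : Z6, (if k = 0 then 0 else
    volume {th : ℝ | th ∈ Set.Ioc (-Real.pi) Real.pi ∧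
      (∀ l, V l ≤ Q * ‖hG A (r3 h) l‖ ∧ ‖hG A (r3 h) l‖ ≤ Q * V l) ∧
      Gd Q T (hG A (r3 h)) (sg s) th ∧ ‖r3 k‖ ≤ Q * k0 ∧
      BD T Q (Q / k0) (fun l => Q * V l) (hG A (r3 h)) (sg s) th (kG A (r3 k)) ∧
      |kph T (hG A (r3 h)) (sg s) th (kG A (r3 k))| ≤ Q * (del * k0 * V 0 ^ 2)}) ≤
      ∑' h : Z6, ∑' k : Z6, volume (SK T Q A V k0 del s h k) := by
    refine ENNReal.tsum_le_tsum fun h => ?_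
    refine ENNReal.tsum_le_tsum fun k => ?_
    split_ifs
    · exact bot_le
    · refine measure_mono ?_
      rintro θ ⟨a1, a2, a3, a4, a5, a6⟩
      exact ⟨a1, ⟨a2, a3, a4, a5⟩, a6⟩
  unfold KCAt
  refine le_trans hcmp ?_
  rw [tsum_eq_sum (s := FH Q A V) fun h hh => zero_h hQ1 hA h hh]
  refine le_trans hsum ?_
  apply ENNReal.ofReal_le_ofReal
  exact last hc hK₁ hKQ₁ hK₂ hKQ₂ hK₃ hKQ₃ hK₄ hKQ₄ p n rfl hu2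

end Pool.Agent.F5H.K2
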