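import Pool.Agent.Helper36_F5H.K3i
import Pool.Agent.Helper27_F5H.K_WSC
import Pool.Agent.Helper15_F5H.PHB
import Pool.Agent.Helper15_F5H.SMT
import Pool.Agent.Helper63_F5H.K_PHN
import Pool.Agent.Helper92_F5H.ERB
import Pool.Agent.Helper18_F5H.K_VKP
import Pool.Agent.Helper17_F5H.Cvg
import Pool.Agent.Helper17_F5H.Mkp
import Pool.Agent.Helper17_F5H.Ton
import Pool.Agent.Helper30_F5K.Due
import Pool.Agent.Helper48_F5H.K_LRG
import Pool.Agent.Helper65_F5H.K_MNY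
import Pool.Agent.Helper81_F5H.K_NWT

/-!
MP_f5cbfa_nt, squad F5H, row C_KC2.
-/

set_option autoImplicit false

namespace Pool.Agent.F5H.K2

open Pool.Agent.F5H.BC

theorem kc2 : KC2Stmt :=
  kc2_of H30.due (H48.lrg H27.wsc) (H81.nwt H27.wsc H63.k_PHN H65.mny) H17.ton H17.cvg H17.mkp
    H18.vkp H15.phb H92.erb H15.smt

end Pool.Agent.F5H.K2
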