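import Mathlib

/-!
MP_f5cbfa_nt, squad F5H, module KAP: closed forms of the radial coefficient `kappa`
on the conormal pencil (notes 2480, 2500).

`p l, q l` are `cos φ_l, sin φ_l`; `sn i j = sin (φ_i - φ_j) = q i * p j - p i * q j`.
-/

set_option autoImplicit false
set_option linter.unusedSimpArgs false

namespace Pool.Agent.F5H.Kap

/-- `sin (φ_i - φ_j)` -/
def sn (p q : Fin 3 → ℝ) (i j : Fin 3) : ℝ := q i * p j - p i * q j

/-- `A_l = sin² (φ_m - φ_n)` -/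
def AA (p q : Fin 3 → ℝ) (l : Fin 3) : ℝ := sn p q (l + 1) (l + 2) ^ 2

/-- the product of the three sines -/
def DD (p q : Fin 3 → ℝ) : ℝ := sn p q 0 1 * sn p q 1 2 * sn p q 2 0

/-- coefficients of `kappa` -/
noncomputable def cc (p q : Fin 3 → ℝ) (τ : Fin 3 → ℝ) (t : ℝ) (l : Fin 3) : ℝ :=
  (AA p q (l + 1) * (τ l ^ 2 - τ (l + 1) ^ 2) + AA p q (l + 2) * (τ (l + 2) ^ 2 - τ l ^ 2)) /
    (2 * DD p q) - t * τ l

/-- (K1) solution of the linear conditions `∑ a = 0`, `∑ (a + i u) X = 0`. -/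
theorem a_closed (p q a u : Fin 3 → ℝ) (hn : ∀ l, p l ^ 2 + q l ^ 2 = 1)
    (h0 : ∑ l, a l = 0)
    (hr : ∑ l, (a l * (p l ^ 2 - q l ^ 2) - u l * (2 * p l * q l)) = 0)
    (hi : ∑ l, (a l * (2 * p l * q l) + u l * (p l ^ 2 - q l ^ 2)) = 0) (l : Fin 3) :
    2 * DD p q * a l = AA p q l * (u (l + 1) - u (l + 2)) +
      (AA p q (l + 1) - AA p q (l + 2)) * u l := by
  have n0 := hn 0
  have n1 := hn 1
  have n2 := hn 2
  rw [Fin.sum_univ_three] at h0 hr hi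
  fin_cases l
  · simp only [DD, AA, sn, Fin.isValue, Fin.reduceAdd, Fin.zero_eta, zero_add, Fin.mk_one,
      Fin.reduceFinMk]
    linear_combination
      (-(q 1 * p 2 - p 1 * q 2) * (p 1 * p 2 + q 1 * q 2)) * h0 +
      ((q 1 * p 2 - p 1 * q 2) * (p 1 * p 2 - q 1 * q 2)) * hr +
      ((q 1 * p 2 - p 1 * q 2) * (p 1 * q 2 + q 1 * p 2)) * hi +
      (-(q 1 * p 2 - p 1 * q 2) * (p 1 * p 2 + q 1 * q 2) * a 0) * n0 +
      (-(q 1 * p 2 - p 1 * q 2) * (p 1 * p 2 + q 1 * q 2) * a 1 +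
        (q 2 * p 0 - p 2 * q 0) ^ 2 * u 0 + (q 1 * p 2 - p 1 * q 2) ^ 2 * u 1) * n1 +
      (-(q 1 * p 2 - p 1 * q 2) * (p 1 * p 2 + q 1 * q 2) * a 2 -
        (q 0 * p 1 - p 0 * q 1) ^ 2 * u 0 - (q 1 * p 2 - p 1 * q 2) ^ 2 * u 2) * n2
  · simp only [DD, AA, sn, Fin.isValue, Fin.reduceAdd, Fin.zero_eta, zero_add, Fin.mk_one,
      Fin.reduceFinMk]
    linear_combination
      (-(q 2 * p 0 - p 2 * q 0) * (p 2 * p 0 + q 2 * q 0)) * h0 +
      ((q 2 * p 0 - p 2 * q 0) * (p 2 * p 0 - q 2 * q 0)) * hr +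
      ((q 2 * p 0 - p 2 * q 0) * (p 2 * q 0 + q 2 * p 0)) * hi +
      (-(q 2 * p 0 - p 2 * q 0) * (p 2 * p 0 + q 2 * q 0) * a 1) * n1 +
      (-(q 2 * p 0 - p 2 * q 0) * (p 2 * p 0 + q 2 * q 0) * a 2 +
        (q 0 * p 1 - p 0 * q 1) ^ 2 * u 1 + (q 2 * p 0 - p 2 * q 0) ^ 2 * u 2) * n2 +
      (-(q 2 * p 0 - p 2 * q 0) * (p 2 * p 0 + q 2 * q 0) * a 0 -
        (q 1 * p 2 - p 1 * q 2) ^ 2 * u 1 - (q 2 * p 0 - p 2 * q 0) ^ 2 * u 0) * n0
  · simp only [DD, AA, sn, Fin.isValue, Fin.reduceAdd, Fin.zero_eta, zero_add, Fin.mk_one,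
      Fin.reduceFinMk]
    linear_combination
      (-(q 0 * p 1 - p 0 * q 1) * (p 0 * p 1 + q 0 * q 1)) * h0 +
      ((q 0 * p 1 - p 0 * q 1) * (p 0 * p 1 - q 0 * q 1)) * hr +
      ((q 0 * p 1 - p 0 * q 1) * (p 0 * q 1 + q 0 * p 1)) * hi +
      (-(q 0 * p 1 - p 0 * q 1) * (p 0 * p 1 + q 0 * q 1) * a 2) * n2 +
      (-(q 0 * p 1 - p 0 * q 1) * (p 0 * p 1 + q 0 * q 1) * a 0 +
        (q 1 * p 2 - p 1 * q 2) ^ 2 * u 2 + (q 0 * p 1 - p 0 * q 1) ^ 2 * u 0) * n0 +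
      (-(q 0 * p 1 - p 0 * q 1) * (p 0 * p 1 + q 0 * q 1) * a 1 -
        (q 2 * p 0 - p 2 * q 0) ^ 2 * u 2 - (q 0 * p 1 - p 0 * q 1) ^ 2 * u 1) * n1

/-- (K2) `kappa = ∑ c_l u_l`. -/
theorem kappa_closed (p q a u τ : Fin 3 → ℝ) (t : ℝ) (hD : DD p q ≠ 0)
    (ha : ∀ l, 2 * DD p q * a l = AA p q l * (u (l + 1) - u (l + 2)) +
      (AA p q (l + 1) - AA p q (l + 2)) * u l) :
    ∑ l, a l * τ l ^ 2 - t * ∑ l, u l * τ l = ∑ l, cc p q τ t l * u l := by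
  have h0 := ha 0
  have h1 := ha 1
  have h2 := ha 2
  have e : ∀ l, a l = (AA p q l * (u (l + 1) - u (l + 2)) +
      (AA p q (l + 1) - AA p q (l + 2)) * u l) / (2 * DD p q) := by
    intro l
    rw [eq_div_iff (by simpa using hD), mul_comm]
    exact ha l
  simp only [e, cc, Fin.sum_univ_three, Fin.isValue, Fin.reduceAdd, zero_add]
  field_simp
  ring

/-- (K3) the factorisation. -/
theorem kappa_factor (p q τ : Fin 3 → ℝ) (t : ℝ) (hD : DD p q ≠ 0) (l : Fin 3) :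
    cc p q τ t l * τ l - cc p q τ t (l + 1) * τ (l + 1) =
      (τ l + τ (l + 1)) *
        ((AA p q (l + 2) * (τ (l + 2) ^ 2 - τ l ^ 2 - τ (l + 1) ^ 2 + τ l * τ (l + 1)) +
          (τ l - τ (l + 1)) * (AA p q (l + 1) * τ l - AA p q l * τ (l + 1))) / (2 * DD p q) -
          t * (τ l - τ (l + 1))) := by
  fin_cases l
  all_goals
    simp only [cc, Fin.isValue, Fin.reduceAdd, zero_add, Fin.zero_eta, Fin.mk_one, Fin.reduceFinMk]
    field_simp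
    ring

/-- (K4) the vector `(τ_l, -τ_m)` of the pencil. -/
def uu (τ : Fin 3 → ℝ) (l : Fin 3) : Fin 3 → ℝ :=
  fun i => if i = l then τ l else if i = l + 1 then -τ (l + 1) else 0

theorem uu_pencil (τ : Fin 3 → ℝ) (l : Fin 3) :
    uu τ l 0 * τ 1 * τ 2 + uu τ l 1 * τ 0 * τ 2 + uu τ l 2 * τ 0 * τ 1 = 0 := by
  fin_cases l
  all_goals
    simp [uu]
    try ring

theorem kappa_uu (p q τ : Fin 3 → ℝ) (t : ℝ) (l : Fin 3) :
    ∑ i, cc p q τ t i * uu τ l i = cc p q τ t l * τ l - cc p q τ t (l + 1) * τ (l + 1) := by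
  fin_cases l
  all_goals
    simp [uu, Fin.sum_univ_three]
    try ring

/-- the centre of the level set in `τ_n²`, `n = l + 2` -/
noncomputable def c0 (p q τ : Fin 3 → ℝ) (t : ℝ) (l : Fin 3) : ℝ :=
  τ l ^ 2 + τ (l + 1) ^ 2 - τ l * τ (l + 1) -
    (τ l - τ (l + 1)) * (AA p q (l + 1) * τ l - AA p q l * τ (l + 1)) / AA p q (l + 2) +
    2 * DD p q * t * (τ l - τ (l + 1)) / AA p q (l + 2)

/-- (K5) the level set of `c_l τ_l - c_m τ_m` confines `τ_n²`. -/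
theorem kappa_level (p q τ : Fin 3 → ℝ) (t lam : ℝ) (hD : DD p q ≠ 0) (l : Fin 3)
    (hs : τ l + τ (l + 1) ≠ 0)
    (h : |cc p q τ t l * τ l - cc p q τ t (l + 1) * τ (l + 1)| ≤ lam) :
    |τ (l + 2) ^ 2 - c0 p q τ t l| ≤ 2 * |DD p q| * lam / (AA p q (l + 2) * |τ l + τ (l + 1)|) := by
  have hA : AA p q (l + 2) ≠ 0 := by
    unfold DD at hD
    have h1 : sn p q 0 1 ≠ 0 := fun h0 => hD (by rw [h0]; ring)
    have h2 : sn p q 1 2 ≠ 0 := fun h0 => hD (by rw [h0]; ring)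
    have h3 : sn p q 2 0 ≠ 0 := fun h0 => hD (by rw [h0]; ring)
    fin_cases l
    · simpa [AA] using h1
    · simpa [AA] using h2
    · simpa [AA] using h3
  have hA0 : 0 < AA p q (l + 2) := lt_of_le_of_ne (sq_nonneg _) (Ne.symm hA)
  have key : cc p q τ t l * τ l - cc p q τ t (l + 1) * τ (l + 1) =
      (τ l + τ (l + 1)) * (AA p q (l + 2) / (2 * DD p q)) * (τ (l + 2) ^ 2 - c0 p q τ t l) := by
    rw [kappa_factor p q τ t hD l]
    unfold c0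
    field_simp
    ring
  rw [key, abs_mul, abs_mul, abs_div, abs_mul, abs_of_pos hA0,
    abs_of_pos (by norm_num : (0:ℝ) < 2)] at h
  have hD0 : 0 < |DD p q| := abs_pos.mpr hD
  have hs0 : 0 < |τ l + τ (l + 1)| := abs_pos.mpr hs
  rw [le_div_iff₀ (by positivity)]
  have h2 : |τ l + τ (l + 1)| * (AA p q (l + 2) / (2 * |DD p q|)) *
      |τ (l + 2) ^ 2 - c0 p q τ t l| * (2 * |DD p q|) ≤ lam * (2 * |DD p q|) :=
    mul_le_mul_of_nonneg_right h (by positivity)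
  have h3 : |τ l + τ (l + 1)| * (AA p q (l + 2) / (2 * |DD p q|)) *
      |τ (l + 2) ^ 2 - c0 p q τ t l| * (2 * |DD p q|) =
      |τ (l + 2) ^ 2 - c0 p q τ t l| * (AA p q (l + 2) * |τ l + τ (l + 1)|) := by
    field_simp
  linarith

/-- bounds for the coefficients -/
theorem AA_le_one (p q : Fin 3 → ℝ) (hn : ∀ l, p l ^ 2 + q l ^ 2 = 1) (l : Fin 3) :
    AA p q l ≤ 1 := by
  have h : ∀ i j, sn p q i j ^ 2 ≤ 1 := by
    intro i j
    have h1 : sn p q i j ^ 2 + (p i * p j + q i * q j) ^ 2 = 1 := by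
      have e1 := hn i
      have e2 := hn j
      have : sn p q i j ^ 2 + (p i * p j + q i * q j) ^ 2 =
        (p i ^ 2 + q i ^ 2) * (p j ^ 2 + q j ^ 2) := by unfold sn; ring
      rw [this, e1, e2]; ring
    nlinarith [sq_nonneg (p i * p j + q i * q j)]
  exact h _ _

end Pool.Agent.F5H.Kap
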