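import Pool.Agent.Helper36_F5H.K2b
import Pool.Agent.F5H.StmtsD

/-!
MP_f5cbfa_nt, squad F5H, row C_KC2: the pieces of the second K-count.

Conventions of `Helper68_F5` (1-index: `V₁ ≥ V₂ ≥ V₃`).  `t₀ = min r V₃`.
-/

set_option autoImplicit false

open MeasureTheory Complex ComplexConjugate

namespace Pool.Agent.F5H.K2

open Pool.Agent.Helper68_F5 Pool.Agent.F5H.W36 Pool.Agent.F5H.BC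

/-- relative density of one window -/
noncomputable def xw (R V ω : ℝ) : ℝ := 1 / √R + ω / R + V / R ^ 2

/-- relative size of the weighted count of scale `R` -/
noncomputable def PH (R V₁ V₂ ω₁ ω₂ Λ : ℝ) : ℝ :=
  R ^ 3 / (V₁ ^ 2 * V₂ ^ 2) * ((1 + xw R V₁ ω₁) ^ 2 * (1 + xw R V₂ ω₂) ^ 2 +
    (1 + xw R V₁ ω₁) ^ 2 * (V₂ * xw R V₂ ω₂) + (1 + xw R V₂ ω₂) ^ 2 * (V₁ * xw R V₁ ω₁) +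
    Λ / V₂ * (xw R V₁ ω₁ * xw R V₂ ω₂))

/-- K_WSC: one scale of the weighted count, with measures.

PROOF (arithmetic; compare `FF_le`, `W3_le`, `scale_arith` in `Helper68_F5/Kc1.lean`):
`wpair_count` (WPair.lean; the six row statements are `Helper38_F5.{strip, discStrip, box, ann,
annStrip, short}`) with `P := 2 P`, `J = ⌈2 log V₁⌉₊` bounds the number of pairs by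
`K (2P)^9 (J+1) NW`; `del R (WW (2P) R S V₁ V (5 ω + 16640000 P^6 (V/R))) ≤ 2*10^7 P^6 (1 + log R) *
(2 xw R V ω)`: `WW / R = 5 ω/R + 16640000 P^6 V/R² + 6144 P² q`, `q = V₁²/S * V ≤ 2/√R` (`vs_aux`);
`QQ ≤ (c P^6 L (1 + xw))²` (the factor `1 + W/R ≤ c P^6 (1 + xw)`); `1 + W₃/R ≤ 90000 P³ (t₀ + V₃/R)`
(`W3_le`), and `R (t₀ + V₃/R) (V₃ μ) ≤ 120 P (V₃ t₀)` for `μ = min (80P/R) (40P t₀/V₃)`. -/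
def WSCStmt : Prop := ∃ K : ℝ, 1 ≤ K ∧ ∀ g : ℤ × ℤ →+ ℂ, Sep 1 g →
  ∀ (P R S V₁ V₂ V₃ r ω₁ ω₂ Λ : ℝ) (C : T3 → ℤ × ℤ → ℤ × ℤ → ℝ), 1 ≤ P →
    300000 * P ^ 3 ≤ R → R ≤ 2 * V₁ → 0 < S → V₁ ^ 7 ≤ S ^ 2 → 1 ≤ V₃ → V₃ ≤ V₂ → V₂ ≤ V₁ →
    1 ≤ r → 1 ≤ ω₁ → 1 ≤ ω₂ → 0 ≤ Λ →
    ∀ (𝓟 : Finset (T3 × T3)) (f : T3 × T3 → ENNReal),
    (∀ p ∈ 𝓟, Pair g (2 * P) R S V₁ V₂ V₃ (5 * ω₁ + 16640000 * P ^ 6 * (V₁ / R))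
      (5 * ω₂ + 16640000 * P ^ 6 * (V₂ / R)) (2 * R * min r V₃ + 90000 * P ^ 3 * V₃) p.1 p.2) →
    (∀ p ∈ 𝓟, Lev (2 * P) V₂ (21504 * P ^ 6 * Λ) (C p.1) g (g p.1.1) (g p.1.2.1) (g p.1.2.2)
      p.2) →
    (∀ p ∈ 𝓟, f p ≤ ENNReal.ofReal (min (80 * P / R) (40 * P * (min r V₃ / V₃)))) →
    ∑ p ∈ 𝓟, f p ≤ ENNReal.ofReal (K * P ^ 60 * (1 + Real.log V₁) ^ 6 *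
      (V₁ ^ 2 * V₂ ^ 2 * (V₃ * min r V₃)) * PH R V₁ V₂ ω₁ ω₂ Λ)

/-- K_PHB: numerical, large vectors.  PROOF.  `x_l = xw R V_l ω_l ≤ M (2 R^(-1/2) + V_l/(k0 R) +
V_l/R²)`; expand; every monomial is at most `M^8 (V₁/V₂)² u²` by `R ≤ M k0`, `R² ≤ M² V₁ V₂`,
`1/R ≤ u ≤ 1`, `1/V₂ ≤ u^4`, `1/k0 ≤ u²`, `V₁ ≤ V₂²`.  Main terms: `R³/(V₁²V₂²) * V₂ R^(-1/2) ≤
V₂^(-1/2)`, `R³/(V₁²V₂²) * V₁ R^(-1/2) ≤ V₂^(-1/2) (V₁/V₂)^(1/4)`,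
`V₁ R³ (u³ + 1/R) / V₂³ * R^(-1) ≤ (V₁/V₂)² (u³ + 1/R ..)`,
`V₁ R³ (u³ + 1/R) / V₂³ * V₁ V₂ (1/(k0 R) + 1/R²)² ≤ 4 M² (V₁/V₂)² (u³/R + 1/R²)`,
`R³ (1/(k0 R) + 1/R²)² * (..)² ≤ R^(-5) ..`. -/
def PHBStmt : Prop := ∀ (M V₁ V₂ k0 R u ω₁ ω₂ : ℝ), 1 ≤ M → 1 ≤ V₂ → V₂ ≤ V₁ → V₁ ≤ V₂ ^ 2 →
  1 ≤ k0 → 0 < u → u ≤ 1 → 1 ≤ u ^ 4 * V₂ → 1 ≤ u ^ 2 * k0 → 1 ≤ u * R →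
  R ≤ M * k0 → R ^ 2 ≤ M ^ 2 * (V₁ * V₂) → 1 ≤ ω₁ → 1 ≤ ω₂ → ω₁ ≤ M * max 1 (V₁ / k0) →
  ω₂ ≤ M * max 1 (V₂ / k0) →
  PH R V₁ V₂ ω₁ ω₂ (V₁ ^ 3 * (u ^ 3 + 1 / R)) ≤ 10 ^ 6 * M ^ 8 * ((V₁ / V₂) ^ 2 * u ^ 2)

/-- K_PHN: numerical, trivial windows.  PROOF.  `x_l ≤ 3 M V_l/R`, `1 + x_l ≤ 4 M V_l/R`. -/
def PHNStmt : Prop := ∀ (M V₁ V₂ R w ω₁ ω₂ : ℝ), 1 ≤ M → 1 ≤ R → R ≤ V₂ → V₂ ≤ V₁ → 0 ≤ w →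
  1 ≤ ω₁ → 1 ≤ ω₂ → ω₁ ≤ M * V₁ → ω₂ ≤ M * V₂ →
  PH R V₁ V₂ ω₁ ω₂ (V₁ ^ 3 * (w + 1 / R)) ≤ 400 * M ^ 4 * ((V₁ / V₂) ^ 2 * (1 + w * R))

/-- K_ERB: numerical, first alternative.  PROOF.  each bracket of `ER` is at most
`4 M (R^(-1/2) + V_l/(z R) + V_l/R²)`, `z = th * k0`; then
`ER ≤ 16 M² (R²/(V₁V₂) + 2 R^(3/2)/(V₂ z) + 2 R^(1/2)/V₂ + 2 R/z² + 2/R)`, and `R ≤ 2 M R₁`,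
`R₁ ≤ k0`, `R₁² ≤ V₁ V₂`, `√R₁ k0 ≤ z min k0 V₂`. -/
def ERBStmt : Prop := ∀ (M V₁ V₂ k0 R R₁ z ω₁ ω₂ : ℝ), 1 ≤ M → 1 ≤ V₂ → V₂ ≤ V₁ → V₁ ≤ V₂ ^ 2 →
  1 ≤ k0 → 1 ≤ R → 1 ≤ R₁ → R ≤ 2 * M * R₁ → R₁ ≤ k0 → R₁ ^ 2 ≤ V₁ * V₂ → 0 < z →
  √R₁ * k0 ≤ z * min k0 V₂ → 1 ≤ ω₁ → 1 ≤ ω₂ → ω₁ ≤ M * max 1 (V₁ / z) →
  ω₂ ≤ M * max 1 (V₂ / z) → ER R V₁ V₂ ω₁ ω₂ ≤ 10 ^ 4 * M ^ 5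

/-- K_SMT: number of lattice triples near a segment of the ray.  PROOF.  cover `|c| ≤ R₀` by
`≤ 2 R₀ + 2` intervals of length one; for `c` in one interval every `g (v l)` is in a disc of radius
`P + 1` (`Helper38_F5.box`, as in `lt_card`). -/
def SMTStmt : Prop := ∃ K : ℝ, 1 ≤ K ∧ ∀ g : ℤ × ℤ →+ ℂ, Sep 1 g → ∀ (P R₀ : ℝ) (e₁ e₂ e₃ : ℂ),
  1 ≤ P → 1 ≤ R₀ → ‖e₁‖ = 1 → ‖e₂‖ = 1 → ‖e₃‖ = 1 → ∀ 𝓥 : Finset T3,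
    (∀ v ∈ 𝓥, ∃ c : ℝ, |c| ≤ R₀ ∧ Near P c e₁ e₂ e₃ (g v.1) (g v.2.1) (g v.2.2)) →
    (𝓥.card : ℝ) ≤ K * P ^ 6 * R₀

/-- K_MNY: many lattice triples near the ray.  PROOF.  `c_j = R + P + 3 P j`, `j < N`,
`N = ⌊(R - 2P) / (3P)⌋₊`, and a lattice vector at distance `≤ P` of `c_j e_l` for each `l`; they are
different for different `j`. -/
def MNYStmt : Prop := ∀ g : ℤ × ℤ →+ ℂ, Sep 1 g → ∀ (P R : ℝ) (e₁ e₂ e₃ : ℂ), 1 ≤ P →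
  100 * P ≤ R → (∀ z : ℂ, ∃ w : ℤ × ℤ, ‖g w - z‖ ≤ P) → ‖e₁‖ = 1 → ‖e₂‖ = 1 → ‖e₃‖ = 1 →
  ∃ 𝓥 : Finset T3, R / (8 * P) ≤ (𝓥.card : ℝ) ∧ 𝓥 ⊆ lt g (3 * R) ×ˢ lt g (3 * R) ×ˢ lt g (3 * R) ∧
    ∀ v ∈ 𝓥, R ≤ ‖g v.1‖ ∧ ‖g v.1‖ ≤ 2 * R ∧
      ∃ c : ℝ, R / 2 ≤ c ∧ c ≤ 2 * R ∧ Near P c e₁ e₂ e₃ (g v.1) (g v.2.1) (g v.2.2)

/-- K_VKP: the normal part of `kph`.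

PROOF.  `kph K = sp K v`, `v l = (‖H l‖² - i (t₂/n_l) (‖H l‖² - ‖H 2‖²)) w_l`.  Let `B` be the form with
`muG B l = ‖H l‖²`, i.e. `B(m_l,m_l) + B(H_l,H_l)/4 = -2 ρ_l ‖H l‖²` (`F2.solve` in
`Helper36_F5H/F2a.lean`, `M = mG`), `‖B‖ ≤ Q^c V0²/T`.  Then `v l - tv B 0 l = d_l i w_l`, `d_2 = 0`,
`n_l d_l = ‖H l‖² (t_l - t_2) + bf B m_l H_l - bf B m_2 H_2` (`t_l = tG`, `n_l = nG`), and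
`|n_l| ≥ ‖H l‖/2` (`Fm.nn`, or `Ge.nG_ge` in `Helper67_F5H/CKV.lean`), `|t_l - t_2| ≤ Q^c r V0²/T²`.
For the last inequality: `B₀ = -(2/T) aa(w, H)`; `B - B₀` has at `w_l` the values
`O(Q^c V0^4/T³)` (`bf B w_l w_l = (-2 ρ_l ‖H l‖² - bf B H_l H_l/4)/ρ_l²`, `T - ρ_l ≤ ‖H l‖²/T`), so by
`Un.bound` it is `O(Q^c V0^4/T³)`, and `bf B m_l H_l = ρ_l bf B w_l H_l = -2 bf (aa) w_l H_l +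
O(Q^c V0^5/T²)`. -/
def VKPStmt : Prop := ∃ c : ℕ, c ≤ 100 ∧ ∀ T Q : ℝ, 2 ≤ Q → 1 ≤ T →
  Q ^ 1000 ≤ T ^ (1 / 100000 : ℝ) → ∀ (H : Fin 3 → ℂ) (ep : Fin 3 → ℝ) (th V0 : ℝ),
  (∀ l, ep l ^ 2 = 1) → Gd Q T H ep th → (∀ l, ‖H l‖ ≤ Q * V0) → 1 ≤ V0 → V0 ≤ Q * Lx T →
  (∀ l, l ≠ 2 → ‖H 2‖ ≤ Q ^ 2 * ‖H l‖) →
  ∃ (B : ℝ × ℝ × ℝ) (d : Fin 3 → ℝ), d 2 = 0 ∧
    (∀ K : Fin 3 → ℂ, kph T H ep th K = F5.H58.sp K (tv T H ep th B 0) +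
      ∑ l, d l * (conj (K l) * (I * wG T H ep th l)).re) ∧
    (|B.1| + |B.2.1| + |B.2.2|) * T ≤ Q ^ c * V0 ^ 2 ∧ (∀ l, |d l| ≤ Q ^ c * V0 ^ 2) ∧
    |nG T H ep th 0 * d 0 + 2 * Gm (wG T H ep th 0) (wG T H ep th 1) (wG T H ep th 2) (H 0) (H 1)
      (H 2)| ≤ Q ^ c * V0 ^ 3 * T ^ (-(1 / 2) : ℝ)

end Pool.Agent.F5H.K2
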