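import Pool.Agent.Helper36_F5H.StmtsK
import Pool.Agent.Helper68_F5.Kc2

/-!
MP_f5cbfa_nt, squad F5H, row C_KC2: second batch of pieces (dual step, large vectors, `N_w`).
-/

set_option autoImplicit false

open MeasureTheory Complex ComplexConjugate

namespace Pool.Agent.F5H.K2

open Pool.Agent.Helper68_F5 Pool.Agent.F5H.W36 Pool.Agent.F5H.BC Pool.Agent.BTL Pool.Agent.F5S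
  Pool.Agent.F5H

/-- the angles with small `Gm` -/
def Wt (P S r lam : ℝ) (H₁ H₂ H₃ : ℂ) : Set ℝ :=
  {θ | θ ∈ Set.Ioc (-Real.pi) Real.pi ∧ ∃ (e₁ e₂ : ℂ) (κ₁ κ₂ κ₃ : ℝ),
    Pt P S 0 r H₁ H₂ H₃ e₁ e₂ (ee θ) κ₁ κ₂ κ₃ ∧ |Gm e₁ e₂ (ee θ) H₁ H₂ H₃| ≤ lam}

/-- the angles at which `v ∈ Z` and `Gm` is small -/
def HitW (P S r R₁ ω₁ ω₂ lam : ℝ) (H₁ H₂ H₃ v₁ v₂ v₃ : ℂ) : Set ℝ :=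
  {θ | θ ∈ Set.Ioc (-Real.pi) Real.pi ∧ ∃ (e₁ e₂ : ℂ) (κ₁ κ₂ κ₃ : ℝ),
    Pt P S 0 r H₁ H₂ H₃ e₁ e₂ (ee θ) κ₁ κ₂ κ₃ ∧
    InZ P S R₁ ω₁ ω₂ H₁ H₂ H₃ e₁ e₂ (ee θ) κ₁ κ₂ κ₃ v₁ v₂ v₃ ∧
    |Gm e₁ e₂ (ee θ) H₁ H₂ H₃| ≤ lam}

/-- K_DUE: the dual step for one angle, general normal vectors.  PROOF.  Same as
`Helper68_F5.{bV, det_bV, Cd.kb, hit_of, pointwise}` with the six vectors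
`(R₁/T) tv (1,0,1) 0`, `(1/T) tv (1,0,0) 0`, `(1/T) tv (0,1,0) 0`, `be₀ i w_0 + be₁ i w_1`,
`al i w_1`, `tv 0 1`: the tangential block has determinant `be₀ al` (triangular), and in `inz_of`
`d₀ = c be₀`, `d₁ = c be₁ + c' al`. -/
def DUEStmt : Prop := ∀ (T Q : ℝ) (A : ℝ × ℝ × ℝ) (V : Fin 3 → ℝ) (s : Bool × Bool) (h : Z6)
  (th R₁ al be₀ be₁ : ℝ), 2 ≤ Q → 1 ≤ T → Q ^ 1000 ≤ T ^ (1 / 100000 : ℝ) → A ∈ KM Q →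
  1 ≤ V 2 → V 2 ≤ V 1 → V 1 ≤ V 0 → V 0 ≤ Q * Lx T →
  (∀ l, V l ≤ Q * ‖hG A (r3 h) l‖ ∧ ‖hG A (r3 h) l‖ ≤ Q * V l) →
  Gd Q T (hG A (r3 h)) (sg s) th → 1 ≤ R₁ → R₁ ≤ V 0 → 0 < al → al ≤ 1 → be₀ ≠ 0 →
  |be₀| ≤ 1 → |be₁| + al ≤ 1 →
  ∀ 𝓚 : Set Z6, (∀ k ∈ 𝓚,
    |F5.H58.sp (kG A (r3 k)) (tv T (hG A (r3 h)) (sg s) th (1, 0, 1) 0)| ≤ Q ^ 3 * (T / R₁) ∧
    |F5.H58.sp (kG A (r3 k)) (tv T (hG A (r3 h)) (sg s) th (1, 0, 0) 0)| ≤ Q ^ 3 * T ∧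
    |F5.H58.sp (kG A (r3 k)) (tv T (hG A (r3 h)) (sg s) th (0, 1, 0) 0)| ≤ Q ^ 3 * T ∧
    |F5.H58.sp (kG A (r3 k)) (tv T (hG A (r3 h)) (sg s) th 0 1)| ≤ Q ^ 3 ∧
    |al * (conj (kG A (r3 k) 1) * (I * wG T (hG A (r3 h)) (sg s) th 1)).re| ≤ Q ^ 3 ∧
    |be₀ * (conj (kG A (r3 k) 0) * (I * wG T (hG A (r3 h)) (sg s) th 0)).re +
      be₁ * (conj (kG A (r3 k) 1) * (I * wG T (hG A (r3 h)) (sg s) th 1)).re| ≤ Q ^ 3) →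
  𝓚.Finite ∧ ∃ Z : Finset Z6,
    (𝓚.ncard : ℝ) ≤ 300 ^ 6 * Q ^ 30 * (1 / (R₁ * (al * |be₀|))) * Z.card ∧
    ∀ t ∈ Z, InZ (Q ^ 8) ((Q * T) ^ 2) (Q * R₁) (Q ^ 3 * (|be₀| * V 0))
      (Q ^ 3 * ((|be₁| + al) * V 1)) (gQ Q A h.1) (gQ Q A h.2.1) (gQ Q A h.2.2)
      (wG T (hG A (r3 h)) (sg s) th 0) (wG T (hG A (r3 h)) (sg s) th 1)
      (wG T (hG A (r3 h)) (sg s) th 2) (rh T (hG A (r3 h) 0) / T) (rh T (hG A (r3 h) 1) / T)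
      (rh T (hG A (r3 h) 2) / T) (gQ Q A t.1) (gQ Q A t.2.1) (gQ Q A t.2.2)

/-- K_LRG (uses WSC): large vectors.  PROOF.  As `Helper68_F5.kc1` (scales `R₀ 2^j`, `j < N`), with
`Pair` from `pair_of_inZ` (`δ = 0`), `Lev` from `lev_pos` (K2b.lean; for `c < 0` use `Pt.neg`,
`Near.neg`, `Gm_neg`; `|c| ≥ ‖g v.1‖ - P ≥ R/2`), measure of one `HitW ⊆ Hit` from `hit_le`, and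
`WSCStmt` with `C = Cf g`, `Λ = V₁³ (w + 1/R)` for one scale. -/
def LRGStmt : Prop := ∃ K : ℝ, 1 ≤ K ∧ ∀ g : ℤ × ℤ →+ ℂ, Sep 1 g →
  ∀ (P S r R₁ ω₁ ω₂ V₁ V₂ V₃ w R₀ E : ℝ), 1 ≤ P → 0 < S → V₁ ^ 7 ≤ S ^ 2 → 1 ≤ V₃ → V₃ ≤ V₂ →
    V₂ ≤ V₁ → P ≤ V₁ → R₁ ≤ V₁ → 1 ≤ r → 8 * P * r ≤ V₂ → 1 ≤ ω₁ → 1 ≤ ω₂ → 0 ≤ w →
    300000 * P ^ 3 ≤ R₀ → 0 ≤ E →
    (∀ R, R₀ ≤ R → R ≤ R₁ + P → PH R V₁ V₂ ω₁ ω₂ (V₁ ^ 3 * (w + 1 / R)) ≤ E) →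
    ∀ 𝓗 𝓥 : Finset T3,
    (∀ h ∈ 𝓗, ‖g h.1‖ ≤ V₁ ∧ ‖g h.2.1‖ ≤ V₂ ∧ ‖g h.2.2‖ ≤ V₃ ∧ V₂ ≤ P * ‖g h.2.1‖ ∧
      V₃ ≤ P * ‖g h.2.2‖) →
    (∀ v ∈ 𝓥, R₀ ≤ ‖g v.1‖) →
    ∑ p ∈ 𝓥 ×ˢ 𝓗, volume (HitW P S r R₁ ω₁ ω₂ (w * V₁ ^ 3) (g p.2.1) (g p.2.2.1) (g p.2.2.2)
      (g p.1.1) (g p.1.2.1) (g p.1.2.2)) ≤
    ENNReal.ofReal (K * P ^ 60 * (1 + Real.log V₁) ^ 7 *
      (V₁ ^ 2 * V₂ ^ 2 * (V₃ * min r V₃)) * E)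

/-- K_NWT (uses WSC, PHN, MNY): measure of the degenerate set.  PROOF.  `N = R/(8P)`.  For `h ∈ 𝓗` and
`θ ∈ Wt` there are `≥ N` vectors `v` in `lt g (3R) ×ˢ lt g (3R) ×ˢ lt g (3R)` with `R ≤ ‖g v.1‖ ≤ 2R`,
near the ray (MNY), so (Markov, with measurable hulls) `N vol Wt ≤ ∑ v, vol T(v,h)`, `T(v,h)` the
angles with `Pt`, `|Gm| ≤ w V₁³` and `Near P c`, `R/2 ≤ c ≤ 2R`.  The pair `(v, h)` is in `Pair` with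
`ω_l = 10^5 P^3 V_l` (`Ah - 1` is small by `E_bound` of Win2.lean, so `bf Ah v_l H_l = c t_l +
O(P³ V_l)`, and the `t_l` agree up to `V₁³/S` by `t_close` of K2b.lean) and in `Lev` by `lev_pos`; the
measure of `T(v,h)` is bounded as in `hit_le`.  Then `WSCStmt` and `PHNStmt` with `M = 10^5 P^3`. -/
def NWTStmt : Prop := ∃ K : ℝ, 1 ≤ K ∧ ∀ g : ℤ × ℤ →+ ℂ, Sep 1 g →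
  ∀ (P S r V₁ V₂ V₃ w R : ℝ), 1 ≤ P → (∀ z : ℂ, ∃ x : ℤ × ℤ, ‖g x - z‖ ≤ P) →
    300000 * P ^ 3 ≤ R → R ≤ V₂ → 0 < S → V₁ ^ 7 ≤ S ^ 2 → 1 ≤ V₃ → V₃ ≤ V₂ → V₂ ≤ V₁ →
    1 ≤ r → 8 * P * r ≤ V₂ → 0 ≤ w → ∀ 𝓗 : Finset T3,
    (∀ h ∈ 𝓗, ‖g h.1‖ ≤ V₁ ∧ ‖g h.2.1‖ ≤ V₂ ∧ ‖g h.2.2‖ ≤ V₃ ∧ V₂ ≤ P * ‖g h.2.1‖ ∧
      V₃ ≤ P * ‖g h.2.2‖) →
    ∑ h ∈ 𝓗, volume (Wt P S r (w * V₁ ^ 3) (g h.1) (g h.2.1) (g h.2.2)) ≤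
    ENNReal.ofReal (K * P ^ 100 * (1 + Real.log V₁) ^ 6 *
      (V₁ ^ 2 * V₂ ^ 2 * (V₃ * min r V₃)) * ((V₁ / V₂) ^ 2 * (w + 1 / R)))

/-- K_TON: Tonelli with three families.  PROOF.  as `Helper68_F5.tonelli_cnt` (Kc2g.lean). -/
def TONStmt : Prop := ∀ {ι τ : Type} [Countable ι] (S : ι → Set ℝ)
  (_ : ∀ k, MeasurableSet (S k)) (𝓥₁ 𝓥₂ : Finset τ) (H₁ H₂ : τ → Set ℝ) (W : Set ℝ)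
  (C₁ C₂ C₃ : ENNReal)
  (_ : ∀ θ, ∑' k, (S k).indicator (fun _ => (1 : ENNReal)) θ ≤
    C₁ * ∑ t ∈ 𝓥₁, (H₁ t).indicator (fun _ => (1 : ENNReal)) θ +
    C₂ * ∑ t ∈ 𝓥₂, (H₂ t).indicator (fun _ => (1 : ENNReal)) θ +
    C₃ * W.indicator (fun _ => (1 : ENNReal)) θ),
  ∑' k, volume (S k) ≤ C₁ * ∑ t ∈ 𝓥₁, volume (H₁ t) + C₂ * ∑ t ∈ 𝓥₂, volume (H₂ t) +
    C₃ * volume W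

/-- K_CVG: covering radius of the scaled lattice (`gA A x` for `|x_i| ≤ 1/2` has norm `≤ 2 Q`) -/
def CVGStmt : Prop := ∀ (Q : ℝ) (A : ℝ × ℝ × ℝ), 2 ≤ Q → A ∈ KM Q →
  ∀ z : ℂ, ∃ x : ℤ × ℤ, ‖gQ Q A x - z‖ ≤ Q ^ 8

/-- K_MKP: measurability of the set of `KCAt` (`meas_Cd` of Kc2g.lean and measurability of `kph`) -/
def MKPStmt : Prop := ∀ (T Q : ℝ) (A : ℝ × ℝ × ℝ) (V : Fin 3 → ℝ) (k0 X : ℝ) (s : Bool × Bool)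
  (h k : Z6), MeasurableSet {th : ℝ | th ∈ Set.Ioc (-Real.pi) Real.pi ∧ Cd T Q A V k0 s h k th ∧
    |kph T (hG A (r3 h)) (sg s) th (kG A (r3 k))| ≤ X}

end Pool.Agent.F5H.K2
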