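import Pool.Agent.Helper68_F5.Cnt

/-!
MP_f5cbfa_nt, squad F5H: the weighted duality count (note 2500 (4)).
Number of `h` for fixed `v` with the additional level condition
`|τ₂² - C(h₁,h₃)| |τ₁ + τ₃| ≤ Λ`, where `τ_l = wd v_l H_l / ‖v_l‖`.
-/

set_option autoImplicit false

open MeasureTheory

namespace Pool.Agent.F5H.W36

open Pool.Agent.Helper68_F5

open Classical in
/-- density of a strip -/
noncomputable def dd (g : ℤ × ℤ →+ ℂ) (P R W : ℝ) (v : ℂ) : ℝ :=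
  1 / Real.sqrt R + W / R +
    ∑ z ∈ (lt g (Real.sqrt R)).filter
      (fun z => z ≠ 0 ∧ |sp v (g z)| ≤ 2 * W + 4608 * P ^ 3 * ‖g z‖), 1 / ‖g z‖

theorem dd_nonneg (g : ℤ × ℤ →+ ℂ) {P R W : ℝ} (hW : 0 ≤ W) (hR : 0 ≤ R) (v : ℂ) :
    0 ≤ dd g P R W v := by
  unfold dd
  have h3 : 0 ≤ ∑ z ∈ (lt g (Real.sqrt R)).filter
      (fun z => z ≠ 0 ∧ |sp v (g z)| ≤ 2 * W + 4608 * P ^ 3 * ‖g z‖), 1 / ‖g z‖ :=
    Finset.sum_nonneg fun z _ => by positivity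
  positivity

theorem DP_eq (g : ℤ × ℤ →+ ℂ) (P R V W : ℝ) (v : ℂ) :
    DP g P R V W v = 1 + V * dd g P R W v := by
  unfold DP dd
  rw [mul_add, mul_add, Finset.mul_sum]
  have : ∀ z : ℤ × ℤ, V * (1 / ‖g z‖) = V / ‖g z‖ := fun z => by ring
  simp only [this]
  ring

/-- a piece of a strip of length `l` -/
theorem piece (hst : StripStmt) : ∀ c₀ : ℝ, 0 < c₀ → ∃ K : ℝ, 1 ≤ K ∧ ∀ g : ℤ × ℤ →+ ℂ,
    Sep c₀ g → ∀ (P R c W w l : ℝ) (v₁ v₂ v₃ v : ℂ), Tri P c v₁ v₂ v₃ → 1 ≤ R → R ≤ c →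
      36864 * P ^ 3 ≤ c → |‖v‖ - c| ≤ P → bf (A0 c v₁ v₂ v₃) v v = c ^ 2 → 0 ≤ W → 0 ≤ l →
      ∀ S : Finset (ℤ × ℤ), (∀ z ∈ S, |bf (A0 c v₁ v₂ v₃) v (g z) - w| ≤ W) →
        (∀ z ∈ S, ∀ z' ∈ S, |wd v (g z) - wd v (g z')| ≤ ‖v‖ * l) →
        (S.card : ℝ) ≤ K * (1 + (1 + W / R + l) * dd g P R W v) := by
  classical
  intro c₀ hc₀
  obtain ⟨K, hK, h⟩ := dcount hst c₀ hc₀
  refine ⟨6 * K, by linarith, ?_⟩
  intro g hg P R c W w l v₁ v₂ v₃ v t hR hRc hPc hv hA hW hl S hS1 hS2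
  have hR0 : 0 < R := by linarith
  have hK0 : 0 < K := by linarith
  have hdd := dd_nonneg g (P := P) hW hR0.le v
  have hP := t.hP
  have hWR : 0 ≤ W / R := by positivity
  rcases S.eq_empty_or_nonempty with hE | ⟨z₀, hz₀⟩
  · subst hE
    simp only [Finset.card_empty, Nat.cast_zero]
    positivity
  have hvge := t.norm_ge hv
  have hv0 : 0 < ‖v‖ := by linarith [t.c_pos]
  -- distance from the base point
  have hdist : ∀ z ∈ S, ‖g (z - z₀)‖ ≤ 6 * (W / R) + 2 * l := by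
    intro z hz
    have e1 : g (z - z₀) = g z - g z₀ := map_sub g z z₀
    have h1 : |bf (A0 c v₁ v₂ v₃) v (g (z - z₀))| ≤ 2 * W := by
      rw [e1, bf_sub]
      have a1 := hS1 z hz
      have a2 := hS1 z₀ hz₀
      rw [abs_le] at a1 a2 ⊢
      constructor <;> linarith [a1.1, a1.2, a2.1, a2.2]
    have h2 := t.short hv (z := g (z - z₀)) (d := 2 * W) (by rw [bf_vc]; exact h1)
    have h3 : |wd v (g (z - z₀))| ≤ ‖v‖ * l := by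
      rw [e1, wd_sub]; exact hS2 z hz z₀ hz₀
    obtain ⟨D, hD⟩ : ∃ D, D = ‖g (z - z₀)‖ := ⟨_, rfl⟩
    rw [← hD] at h2 ⊢
    have hD0 : 0 ≤ D := by rw [hD]; exact norm_nonneg _
    have h4 : ‖v‖ * D ≤ |sp v (g (z - z₀))| + |wd v (g (z - z₀))| := by
      have := sp_sq_add_wd_sq v (g (z - z₀))
      rw [← hD] at this
      have h5 : (‖v‖ * D) ^ 2 ≤ (|sp v (g (z - z₀))| + |wd v (g (z - z₀))|) ^ 2 := by
        rw [mul_pow, ← this, ← sq_abs (sp v (g (z - z₀))), ← sq_abs (wd v (g (z - z₀)))]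
        nlinarith [mul_nonneg (abs_nonneg (sp v (g (z - z₀)))) (abs_nonneg (wd v (g (z - z₀))))]
      exact le_of_sq_le_sq h5 (by positivity)
    have h6 : 4608 * P ^ 3 * D ≤ ‖v‖ / 4 * D := by
      apply mul_le_mul_of_nonneg_right _ hD0
      linarith
    have h7 : 3 / 4 * (‖v‖ * D) ≤ 2 * W + ‖v‖ * l := by linarith
    have h8 : R / 2 ≤ ‖v‖ := by linarith
    -- divide by ‖v‖
    have h9 : D ≤ 8 / 3 * (W / ‖v‖) + 4 / 3 * l := by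
      have : ‖v‖ * D ≤ ‖v‖ * (8 / 3 * (W / ‖v‖) + 4 / 3 * l) := by
        have e : ‖v‖ * (8 / 3 * (W / ‖v‖) + 4 / 3 * l) = 8 / 3 * W + 4 / 3 * (‖v‖ * l) := by
          field_simp
        rw [e]; linarith
      exact le_of_mul_le_mul_left this hv0
    have h10 : W / ‖v‖ ≤ 2 * (W / R) := by
      calc W / ‖v‖ ≤ W / (R / 2) := div_le_div_of_nonneg_left hW (by positivity) h8
        _ = 2 * (W / R) := by field_simp
    linarith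
  obtain ⟨V, hV⟩ : ∃ V : ℝ, V = 1 + 6 * (W / R) + 2 * l := ⟨_, rfl⟩
  have hV1 : 1 ≤ V := by rw [hV]; linarith
  have hinj : Set.InjOn (fun z : ℤ × ℤ => z - z₀) (S : Set (ℤ × ℤ)) := by
    intro x _ y _ hxy
    exact sub_left_injective hxy
  have hcard : (S.image (fun z => z - z₀)).card = S.card := Finset.card_image_of_injOn hinj
  have key := h g hg P R c V W (w - bf (A0 c v₁ v₂ v₃) v (g z₀)) v₁ v₂ v₃ v t hR hRc hv hA hV1 hW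
    (S.image (fun z => z - z₀)) (by
      intro z' hz'
      rw [Finset.mem_image] at hz'
      obtain ⟨z, hz, rfl⟩ := hz'
      have := hdist z hz
      rw [hV]; linarith) (by
      intro z' hz'
      rw [Finset.mem_image] at hz'
      obtain ⟨z, hz, rfl⟩ := hz'
      have a1 := hS1 z hz
      have e1 : g (z - z₀) = g z - g z₀ := map_sub g z z₀
      rw [e1, bf_sub]
      have e2 : bf (A0 c v₁ v₂ v₃) v (g z) - bf (A0 c v₁ v₂ v₃) v (g z₀) -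
        (w - bf (A0 c v₁ v₂ v₃) v (g z₀)) = bf (A0 c v₁ v₂ v₃) v (g z) - w := by ring
      rw [e2]; exact a1)
  rw [hcard, DP_eq] at key
  refine le_trans key ?_
  have h11 : V * dd g P R W v ≤ 6 * ((1 + W / R + l) * dd g P R W v) := by
    rw [hV]
    have : 1 + 6 * (W / R) + 2 * l ≤ 6 * (1 + W / R + l) := by linarith
    calc (1 + 6 * (W / R) + 2 * l) * dd g P R W v ≤ 6 * (1 + W / R + l) * dd g P R W v :=
          mul_le_mul_of_nonneg_right this hdd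
      _ = _ := by ring
  calc K * (1 + V * dd g P R W v) ≤ K * (6 * (1 + (1 + W / R + l) * dd g P R W v)) := by
        refine mul_le_mul_of_nonneg_left ?_ hK0.le
        linarith
    _ = _ := by ring

/-- `τ = wd v H / ‖v‖` -/
noncomputable def tau (v H : ℂ) : ℝ := wd v H / ‖v‖

theorem abs_tau_le (v H : ℂ) : |tau v H| ≤ ‖H‖ := by
  unfold tau
  rcases eq_or_ne v 0 with h | h
  · subst h; simp
  · have h0 : 0 < ‖v‖ := norm_pos_iff.2 h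
    rw [abs_div, abs_of_pos h0, div_le_iff₀ h0]
    have := abs_wd_le v H
    linarith

/-- the level condition -/
structure Lev (P V₂ Λ : ℝ) (C : (ℤ × ℤ) → (ℤ × ℤ) → ℝ) (g : ℤ × ℤ →+ ℂ) (v₁ v₂ v₃ : ℂ)
    (h : T3) : Prop where
  lo : V₂ ≤ P * |tau v₂ (g h.2.1)|
  lev : |tau v₂ (g h.2.1) ^ 2 - C h.1 h.2.2| * |tau v₁ (g h.1) + tau v₃ (g h.2.2)| ≤ Λ

/-- `q = 1 + (1 + W/R) d` -/
noncomputable def qq (g : ℤ × ℤ →+ ℂ) (P R W : ℝ) (v : ℂ) : ℝ := 1 + (1 + W / R) * dd g P R W v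

theorem qq_ge (g : ℤ × ℤ →+ ℂ) {P R W : ℝ} (hW : 0 ≤ W) (hR : 0 ≤ R) (v : ℂ) :
    1 ≤ qq g P R W v ∧ dd g P R W v ≤ qq g P R W v := by
  have h := dd_nonneg g (P := P) hW hR v
  have h2 : 0 ≤ W / R := by positivity
  unfold qq
  constructor <;> nlinarith [mul_nonneg h2 h]

theorem tau_diff_of_level {P V₂ Λ m C x y : ℝ} (hP : 1 ≤ P) (hV : 0 < V₂) (hm : 0 < m)
    (hx : V₂ ≤ P * |x|) (hy : V₂ ≤ P * |y|) (hs : 0 < x * y)
    (h1 : |x ^ 2 - C| * m ≤ Λ) (h2 : |y ^ 2 - C| * m ≤ Λ) :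
    |x - y| ≤ P * Λ / (m * V₂) := by
  have hx0 : x ≠ 0 := fun h => by rw [h] at hs; simp at hs
  have hy0 : y ≠ 0 := fun h => by rw [h] at hs; simp at hs
  have habs : |x + y| = |x| + |y| := by
    rcases lt_or_gt_of_ne hx0 with h | h
    · have hy' : y < 0 := by
        by_contra hc
        have : 0 ≤ y := not_lt.mp hc
        have := mul_nonpos_of_nonpos_of_nonneg h.le this
        linarith
      rw [abs_of_neg h, abs_of_neg hy', abs_of_neg (by linarith)]; ring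
    · have hy' : 0 < y := by
        by_contra hc
        have : y ≤ 0 := not_lt.mp hc
        have := mul_nonpos_of_nonneg_of_nonpos h.le this
        linarith
      rw [abs_of_pos h, abs_of_pos hy', abs_of_pos (by linarith)]
  have h3 : |x - y| * |x + y| * m ≤ 2 * Λ := by
    rw [← abs_mul]
    have e : (x - y) * (x + y) = (x ^ 2 - C) - (y ^ 2 - C) := by ring
    rw [e]
    have := abs_sub (x ^ 2 - C) (y ^ 2 - C)
    nlinarith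
  rw [le_div_iff₀ (by positivity)]
  have h4 : 2 * V₂ ≤ P * |x + y| := by rw [habs]; linarith
  have h5 : |x - y| * m * (2 * V₂) ≤ |x - y| * m * (P * |x + y|) :=
    mul_le_mul_of_nonneg_left h4 (by positivity)
  nlinarith

/-- number of `h₂` for fixed `h₁`, `h₃` -/
theorem fib2 (hst : StripStmt) : ∀ c₀ : ℝ, 0 < c₀ → ∃ K : ℝ, 1 ≤ K ∧ ∀ g : ℤ × ℤ →+ ℂ,
    Sep c₀ g → ∀ (P R c W w l : ℝ) (v₁ v₂ v₃ v : ℂ), Tri P c v₁ v₂ v₃ → 1 ≤ R → R ≤ c →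
      36864 * P ^ 3 ≤ c → |‖v‖ - c| ≤ P → bf (A0 c v₁ v₂ v₃) v v = c ^ 2 → 0 ≤ W → 0 ≤ l →
      ∀ S : Finset (ℤ × ℤ), (∀ z ∈ S, |bf (A0 c v₁ v₂ v₃) v (g z) - w| ≤ W) →
        (∀ z ∈ S, tau v (g z) ≠ 0) →
        (∀ z ∈ S, ∀ z' ∈ S, 0 < tau v (g z) * tau v (g z') → |tau v (g z) - tau v (g z')| ≤ l) →
        (S.card : ℝ) ≤ K * (1 + (1 + W / R + l) * dd g P R W v) := by
  classical
  intro c₀ hc₀
  obtain ⟨K, hK, h⟩ := piece hst c₀ hc₀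
  refine ⟨2 * K, by linarith, ?_⟩
  intro g hg P R c W w l v₁ v₂ v₃ v t hR hRc hPc hv hA hW hl S hS1 hS0 hS2
  have hv0 : 0 < ‖v‖ := norm_pos_iff.2 (t.ne hv)
  have hwd : ∀ z : ℤ × ℤ, wd v (g z) = ‖v‖ * tau v (g z) := by
    intro z; unfold tau; field_simp
  have key : ∀ S' ⊆ S, (∀ z ∈ S', ∀ z' ∈ S', 0 < tau v (g z) * tau v (g z')) →
      (S'.card : ℝ) ≤ K * (1 + (1 + W / R + l) * dd g P R W v) := by
    intro S' hS' hpos
    refine h g hg P R c W w l v₁ v₂ v₃ v t hR hRc hPc hv hA hW hl S'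
      (fun z hz => hS1 z (hS' hz)) ?_
    intro z hz z' hz'
    rw [hwd, hwd, ← mul_sub, abs_mul, abs_of_pos hv0]
    exact mul_le_mul_of_nonneg_left (hS2 z (hS' hz) z' (hS' hz') (hpos z hz z' hz')) hv0.le
  have h1 := key (S.filter (fun z => 0 < tau v (g z))) (Finset.filter_subset _ _) (by
    intro z hz z' hz'
    rw [Finset.mem_filter] at hz hz'
    exact mul_pos hz.2 hz'.2)
  have h2 := key (S.filter (fun z => ¬ 0 < tau v (g z))) (Finset.filter_subset _ _) (by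
    intro z hz z' hz'
    rw [Finset.mem_filter] at hz hz'
    have a1 : tau v (g z) < 0 := lt_of_le_of_ne (not_lt.mp hz.2) (hS0 z hz.1)
    have a2 : tau v (g z') < 0 := lt_of_le_of_ne (not_lt.mp hz'.2) (hS0 z' hz'.1)
    exact mul_pos_of_neg_of_neg a1 a2)
  have h3 : (S.card : ℝ) = ((S.filter (fun z => 0 < tau v (g z))).card : ℝ) +
      ((S.filter (fun z => ¬ 0 < tau v (g z))).card : ℝ) := by
    rw [← Nat.cast_add, Finset.card_filter_add_card_filter_not]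
  rw [h3]
  linarith

/-- the length of the piece of `h₂` in class `j` -/
noncomputable def ll (P V₁ V₂ Λ : ℝ) (J j : ℕ) : ℝ :=
  if j < J then min (2 * V₂) (P * Λ * 2 ^ j / (V₁ * V₂)) else 2 * V₂

theorem ll_nonneg {P V₁ V₂ Λ : ℝ} (hP : 0 ≤ P) (hV₁ : 0 ≤ V₁) (hV₂ : 0 ≤ V₂) (hΛ : 0 ≤ Λ)
    (J j : ℕ) : 0 ≤ ll P V₁ V₂ Λ J j := by
  unfold ll
  split_ifs <;> positivity

/-- classes of `m` -/
theorem exists_class {V₁ m : ℝ} (hm : m ≤ 2 * V₁) (J : ℕ) :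
    ∃ j, j ≤ J ∧ m ≤ 2 * V₁ / 2 ^ j ∧ (j < J → V₁ / 2 ^ j < m) := by
  by_contra hc
  push Not at hc
  have : ∀ j, j ≤ J → m ≤ 2 * V₁ / 2 ^ j := by
    intro j
    induction j with
    | zero => intro _; simpa using hm
    | succ j ih =>
      intro hj
      have h1 := ih (by omega)
      obtain ⟨h2, h3⟩ := hc j (by omega) h1
      have e : 2 * V₁ / 2 ^ (j + 1) = V₁ / 2 ^ j := by
        rw [pow_succ]; field_simp
      rw [e]; exact h3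
  obtain ⟨h2, _⟩ := hc J le_rfl (this J le_rfl)
  exact lt_irrefl _ h2

/-- the arithmetic of one class -/
theorem class_arith {P V₁ V₂ Λ q₁ q₂ d₁ d₂ : ℝ} (hP : 1 ≤ P) (hV₁ : 1 ≤ V₁) (hV₂ : 1 ≤ V₂)
    (hΛ : 0 ≤ Λ) (hq₁ : d₁ ≤ q₁) (hq₂ : d₂ ≤ q₂) (hd₁ : 0 ≤ d₁) (hd₂ : 0 ≤ d₂) (J j : ℕ)
    (hJ : V₁ ≤ 2 ^ J) (hj : j ≤ J) :
    (q₁ + 4 * V₁ / 2 ^ j * d₁) * (q₂ + ll P V₁ V₂ Λ J j * d₂) ≤
      5 * q₁ * q₂ + 10 * (q₁ * (V₂ * d₂)) + 4 * (q₂ * (V₁ * d₁)) + 4 * P * (Λ / V₂ * (d₁ * d₂)) := by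
  have hq₁0 : 0 ≤ q₁ := by linarith
  have hq₂0 : 0 ≤ q₂ := by linarith
  have h2 : (0 : ℝ) < 2 ^ j := by positivity
  unfold ll
  split_ifs with h
  · obtain ⟨l, hl⟩ : ∃ l, l = min (2 * V₂) (P * Λ * 2 ^ j / (V₁ * V₂)) := ⟨_, rfl⟩
    have l1 : l ≤ 2 * V₂ := by rw [hl]; exact min_le_left _ _
    have l2 : l ≤ P * Λ * 2 ^ j / (V₁ * V₂) := by rw [hl]; exact min_le_right _ _
    have l0 : 0 ≤ l := by rw [hl]; positivity
    rw [← hl]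
    have e1 : 4 * V₁ / 2 ^ j ≤ 4 * V₁ := by
      apply div_le_self (by positivity)
      exact one_le_pow₀ (by norm_num)
    have e2 : 4 * V₁ / 2 ^ j * l ≤ 4 * P * (Λ / V₂) := by
      calc 4 * V₁ / 2 ^ j * l ≤ 4 * V₁ / 2 ^ j * (P * Λ * 2 ^ j / (V₁ * V₂)) :=
            mul_le_mul_of_nonneg_left l2 (by positivity)
        _ = 4 * P * (Λ / V₂) := by field_simp
    have f1 : q₁ * (l * d₂) ≤ q₁ * (2 * V₂ * d₂) :=
      mul_le_mul_of_nonneg_left (mul_le_mul_of_nonneg_right l1 hd₂) hq₁0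
    have f2 : 4 * V₁ / 2 ^ j * d₁ * q₂ ≤ 4 * V₁ * d₁ * q₂ :=
      mul_le_mul_of_nonneg_right (mul_le_mul_of_nonneg_right e1 hd₁) hq₂0
    have f3 : 4 * V₁ / 2 ^ j * l * (d₁ * d₂) ≤ 4 * P * (Λ / V₂) * (d₁ * d₂) :=
      mul_le_mul_of_nonneg_right e2 (by positivity)
    have e3 : (q₁ + 4 * V₁ / 2 ^ j * d₁) * (q₂ + l * d₂) = q₁ * q₂ + q₁ * (l * d₂) +
      4 * V₁ / 2 ^ j * d₁ * q₂ + 4 * V₁ / 2 ^ j * l * (d₁ * d₂) := by ring
    rw [e3]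
    have g1 : 0 ≤ q₁ * q₂ := by positivity
    have g2 : 0 ≤ q₁ * (V₂ * d₂) := by positivity
    nlinarith
  · have hjJ : j = J := by omega
    subst hjJ
    have e1 : 4 * V₁ / 2 ^ j ≤ 4 := by
      rw [div_le_iff₀ h2]; linarith
    have f1 : q₁ + 4 * V₁ / 2 ^ j * d₁ ≤ 5 * q₁ := by
      have : 4 * V₁ / 2 ^ j * d₁ ≤ 4 * d₁ := mul_le_mul_of_nonneg_right e1 hd₁
      linarith
    have f2 : (q₁ + 4 * V₁ / 2 ^ j * d₁) * (q₂ + 2 * V₂ * d₂) ≤ 5 * q₁ * (q₂ + 2 * V₂ * d₂) :=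
      mul_le_mul_of_nonneg_right f1 (by positivity)
    have g3 : 0 ≤ q₂ * (V₁ * d₁) := by positivity
    have g4 : 0 ≤ 4 * P * (Λ / V₂ * (d₁ * d₂)) := by positivity
    nlinarith

/-- number of `(h₁, h₂)` for fixed `h₃` -/
theorem fib12 (hst : StripStmt) : ∀ c₀ : ℝ, 0 < c₀ → ∃ K : ℝ, 1 ≤ K ∧ ∀ g : ℤ × ℤ →+ ℂ,
    Sep c₀ g → ∀ (P R c W₁ W₂ w V₁ V₂ Λ : ℝ) (v₁ v₂ v₃ : ℂ) (τ₃ : ℝ) (C : ℤ × ℤ → ℝ) (J : ℕ),
      Tri P c v₁ v₂ v₃ → 1 ≤ R → R ≤ c → 36864 * P ^ 3 ≤ c → 0 ≤ W₁ → 0 ≤ W₂ → 1 ≤ V₁ →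
      1 ≤ V₂ → 0 ≤ Λ → V₁ ≤ 2 ^ J → |τ₃| ≤ V₁ →
      ∀ S : Finset ((ℤ × ℤ) × (ℤ × ℤ)),
        (∀ z ∈ S, ‖g z.1‖ ≤ V₁ ∧ ‖g z.2‖ ≤ V₂) →
        (∀ z ∈ S, |bf (A0 c v₁ v₂ v₃) v₁ (g z.1) - w| ≤ W₁) →
        (∀ z ∈ S, |bf (A0 c v₁ v₂ v₃) v₂ (g z.2) - w| ≤ W₂) →
        (∀ z ∈ S, V₂ ≤ P * |tau v₂ (g z.2)| ∧
          |tau v₂ (g z.2) ^ 2 - C z.1| * |tau v₁ (g z.1) + τ₃| ≤ Λ) →
        (S.card : ℝ) ≤ K * P * (J + 1) * (qq g P R W₁ v₁ * qq g P R W₂ v₂ +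
          qq g P R W₁ v₁ * (V₂ * dd g P R W₂ v₂) + qq g P R W₂ v₂ * (V₁ * dd g P R W₁ v₁) +
          Λ / V₂ * (dd g P R W₁ v₁ * dd g P R W₂ v₂)) := by
  classical
  intro c₀ hc₀
  obtain ⟨K₁, hK₁, h1⟩ := piece hst c₀ hc₀
  obtain ⟨K₂, hK₂, h2⟩ := fib2 hst c₀ hc₀
  refine ⟨K₁ * K₂ * 10, by nlinarith [mul_le_mul hK₁ hK₂ zero_le_one (by linarith)], ?_⟩
  intro g hg P R c W₁ W₂ w V₁ V₂ Λ v₁ v₂ v₃ τ₃ C J t hR hRc hPc hW₁ hW₂ hV₁ hV₂ hΛ hJ hτ₃ S hS0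
    hS1 hS2 hS3
  have hP := t.hP
  have hR0 : 0 < R := by linarith
  have hA₁ : bf (A0 c v₁ v₂ v₃) v₁ v₁ = c ^ 2 := itp_val₁ t.w12 t.w23 t.w31 _ _ _
  have hA₂ : bf (A0 c v₁ v₂ v₃) v₂ v₂ = c ^ 2 := itp_val₂ t.w12 t.w23 t.w31 _ _ _
  obtain ⟨d₁, hd₁⟩ : ∃ d, d = dd g P R W₁ v₁ := ⟨_, rfl⟩
  obtain ⟨d₂, hd₂⟩ : ∃ d, d = dd g P R W₂ v₂ := ⟨_, rfl⟩
  obtain ⟨q₁, hq₁⟩ : ∃ d, d = qq g P R W₁ v₁ := ⟨_, rfl⟩
  obtain ⟨q₂, hq₂⟩ : ∃ d, d = qq g P R W₂ v₂ := ⟨_, rfl⟩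
  have hd₁0 : 0 ≤ d₁ := by rw [hd₁]; exact dd_nonneg g hW₁ hR0.le _
  have hd₂0 : 0 ≤ d₂ := by rw [hd₂]; exact dd_nonneg g hW₂ hR0.le _
  have hq₁1 : 1 ≤ q₁ ∧ d₁ ≤ q₁ := by rw [hd₁, hq₁]; exact qq_ge g hW₁ hR0.le _
  have hq₂1 : 1 ≤ q₂ ∧ d₂ ≤ q₂ := by rw [hd₂, hq₂]; exact qq_ge g hW₂ hR0.le _
  have eq₁ : q₁ = 1 + (1 + W₁ / R) * d₁ := by rw [hq₁, hd₁]; rfl
  have eq₂ : q₂ = 1 + (1 + W₂ / R) * d₂ := by rw [hq₂, hd₂]; rfl
  rw [← hd₁, ← hd₂, ← hq₁, ← hq₂]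
  -- the number of `h₁` in class `j`
  obtain ⟨N, hN⟩ : ∃ N, N = S.image (fun z => z.1) := ⟨_, rfl⟩
  have hn : ∀ j : ℕ, ((N.filter (fun a => |tau v₁ (g a) + τ₃| ≤ 2 * V₁ / 2 ^ j)).card : ℝ) ≤
      K₁ * (q₁ + 4 * V₁ / 2 ^ j * d₁) := by
    intro j
    have hv0 : 0 < ‖v₁‖ := norm_pos_iff.2 (t.ne t.n₁)
    have := h1 g hg P R c W₁ w (4 * V₁ / 2 ^ j) v₁ v₂ v₃ v₁ t hR hRc hPc t.n₁ hA₁ hW₁
      (by positivity) (N.filter (fun a => |tau v₁ (g a) + τ₃| ≤ 2 * V₁ / 2 ^ j)) (by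
        intro a ha
        rw [Finset.mem_filter, hN, Finset.mem_image] at ha
        obtain ⟨⟨z, hz, rfl⟩, _⟩ := ha
        exact hS1 z hz) (by
        intro a ha b hb
        rw [Finset.mem_filter] at ha hb
        have e : ∀ z : ℤ × ℤ, wd v₁ (g z) = ‖v₁‖ * tau v₁ (g z) := by
          intro z; unfold tau; field_simp
        rw [e, e, ← mul_sub, abs_mul, abs_of_pos hv0]
        refine mul_le_mul_of_nonneg_left ?_ hv0.le
        have e2 : tau v₁ (g a) - tau v₁ (g b) = (tau v₁ (g a) + τ₃) - (tau v₁ (g b) + τ₃) := by ring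
        rw [e2]
        refine le_trans (abs_sub _ _) ?_
        have := ha.2
        have := hb.2
        have e3 : 4 * V₁ / 2 ^ j = 2 * V₁ / 2 ^ j + 2 * V₁ / 2 ^ j := by ring
        rw [e3]
        linarith)
    refine le_trans this (le_of_eq ?_)
    rw [← hd₁, eq₁]; ring
  -- the fibre over `h₁`
  have hf : ∀ a ∈ N, ((S.filter (fun z => z.1 = a)).card : ℝ) ≤
      ∑ j ∈ Finset.range (J + 1), if |tau v₁ (g a) + τ₃| ≤ 2 * V₁ / 2 ^ j then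
        K₂ * (q₂ + ll P V₁ V₂ Λ J j * d₂) else 0 := by
    intro a ha
    obtain ⟨m, hm⟩ : ∃ m, m = |tau v₁ (g a) + τ₃| := ⟨_, rfl⟩
    rw [hN, Finset.mem_image] at ha
    obtain ⟨z₀, hz₀, hz₀a⟩ := ha
    have hm2 : m ≤ 2 * V₁ := by
      rw [hm]
      refine le_trans (abs_add_le _ _) ?_
      have := abs_tau_le v₁ (g a)
      have := (hS0 z₀ hz₀).1
      rw [hz₀a] at this
      linarith
    obtain ⟨j, hj, hj1, hj2⟩ := exists_class hm2 J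
    have hl0 := ll_nonneg (P := P) (V₁ := V₁) (V₂ := V₂) (Λ := Λ) (by linarith) (by linarith)
      (by linarith) hΛ J j
    have hinj : Set.InjOn (fun z : (ℤ × ℤ) × (ℤ × ℤ) => z.2)
        (S.filter (fun z => z.1 = a) : Finset _) := by
      intro x hx y hy hxy
      rw [Finset.mem_coe, Finset.mem_filter] at hx hy
      exact Prod.ext (hx.2.trans hy.2.symm) hxy
    have key := h2 g hg P R c W₂ w (ll P V₁ V₂ Λ J j) v₁ v₂ v₃ v₂ t hR hRc hPc t.n₂ hA₂ hW₂ hl0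
      ((S.filter (fun z => z.1 = a)).image (fun z => z.2)) (by
        intro b hb
        rw [Finset.mem_image] at hb
        obtain ⟨z, hz, rfl⟩ := hb
        exact hS2 z (Finset.mem_filter.1 hz).1) (by
        intro b hb
        rw [Finset.mem_image] at hb
        obtain ⟨z, hz, rfl⟩ := hb
        have := (hS3 z (Finset.mem_filter.1 hz).1).1
        intro h0
        rw [h0, abs_zero, mul_zero] at this
        linarith) (by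
        intro b hb b' hb' hpos
        rw [Finset.mem_image] at hb hb'
        obtain ⟨z, hz, rfl⟩ := hb
        obtain ⟨z', hz', rfl⟩ := hb'
        rw [Finset.mem_filter] at hz hz'
        have a1 := hS3 z hz.1
        have a2 := hS3 z' hz'.1
        rw [hz.2, ← hm] at a1
        rw [hz'.2, ← hm] at a2
        have triv : |tau v₂ (g z.2) - tau v₂ (g z'.2)| ≤ 2 * V₂ := by
          refine le_trans (abs_sub _ _) ?_
          have b1 := abs_tau_le v₂ (g z.2)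
          have b2 := abs_tau_le v₂ (g z'.2)
          have b3 := (hS0 z hz.1).2
          have b4 := (hS0 z' hz'.1).2
          linarith
        unfold ll
        split_ifs with hjJ
        · refine le_min triv ?_
          have hmj := hj2 hjJ
          have hm0 : 0 < m := lt_trans (by positivity) hmj
          have := tau_diff_of_level hP (by linarith) hm0 a1.1 a2.1 hpos a1.2 a2.2
          refine le_trans this ?_
          have hV₁0 : 0 < V₁ := by linarith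
          have hV₂0 : 0 < V₂ := by linarith
          calc P * Λ / (m * V₂) ≤ P * Λ / (V₁ / 2 ^ j * V₂) := by
                apply div_le_div_of_nonneg_left (by positivity) (by positivity)
                exact mul_le_mul_of_nonneg_right hmj.le hV₂0.le
            _ = P * Λ * 2 ^ j / (V₁ * V₂) := by field_simp
        · exact triv)
    rw [Finset.card_image_of_injOn hinj] at key
    have hmem : j ∈ Finset.range (J + 1) := by rw [Finset.mem_range]; omega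
    have hterm : ∀ i ∈ Finset.range (J + 1), (0 : ℝ) ≤
        if |tau v₁ (g a) + τ₃| ≤ 2 * V₁ / 2 ^ i then
        K₂ * (q₂ + ll P V₁ V₂ Λ J i * d₂) else 0 := by
      intro i _
      have hl0' := ll_nonneg (P := P) (V₁ := V₁) (V₂ := V₂) (Λ := Λ) (by linarith) (by linarith)
        (by linarith) hΛ J i
      split_ifs
      · have : 0 ≤ q₂ := by linarith [hq₂1.1]
        positivity
      · exact le_rfl
    refine le_trans ?_ (Finset.single_le_sum hterm hmem)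
    rw [if_pos (by rw [← hm]; exact hj1)]
    refine le_trans key (le_of_eq ?_)
    rw [← hd₂, eq₂]; ring
  -- summation
  have e1 : (S.card : ℝ) = ∑ a ∈ N, ((S.filter (fun z => z.1 = a)).card : ℝ) := by
    rw [Finset.card_eq_sum_card_image (fun z : (ℤ × ℤ) × (ℤ × ℤ) => z.1) S, hN]; push_cast; rfl
  rw [e1]
  refine le_trans (Finset.sum_le_sum hf) ?_
  rw [Finset.sum_comm]
  have e2 : ∀ j ∈ Finset.range (J + 1), ∑ a ∈ N, (if |tau v₁ (g a) + τ₃| ≤ 2 * V₁ / 2 ^ j then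
        K₂ * (q₂ + ll P V₁ V₂ Λ J j * d₂) else 0) ≤
      K₁ * K₂ * (5 * q₁ * q₂ + 10 * (q₁ * (V₂ * d₂)) + 4 * (q₂ * (V₁ * d₁)) +
        4 * P * (Λ / V₂ * (d₁ * d₂))) := by
    intro j hj
    rw [Finset.mem_range] at hj
    rw [← Finset.sum_filter, Finset.sum_const, nsmul_eq_mul]
    have hl0' := ll_nonneg (P := P) (V₁ := V₁) (V₂ := V₂) (Λ := Λ) (by linarith) (by linarith)
        (by linarith) hΛ J j
    have hq₂0 : 0 ≤ q₂ := by linarith [hq₂1.1]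
    have hq₁0 : 0 ≤ q₁ := by linarith [hq₁1.1]
    have a1 := class_arith hP hV₁ hV₂ hΛ hq₁1.2 hq₂1.2 hd₁0 hd₂0 J j hJ (by omega)
    calc ((N.filter (fun a => |tau v₁ (g a) + τ₃| ≤ 2 * V₁ / 2 ^ j)).card : ℝ) *
          (K₂ * (q₂ + ll P V₁ V₂ Λ J j * d₂))
        ≤ K₁ * (q₁ + 4 * V₁ / 2 ^ j * d₁) * (K₂ * (q₂ + ll P V₁ V₂ Λ J j * d₂)) :=
          mul_le_mul_of_nonneg_right (hn j) (by positivity)
      _ = K₁ * K₂ * ((q₁ + 4 * V₁ / 2 ^ j * d₁) * (q₂ + ll P V₁ V₂ Λ J j * d₂)) := by ring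
      _ ≤ _ := mul_le_mul_of_nonneg_left a1 (by positivity)
  refine le_trans (Finset.sum_le_sum e2) ?_
  rw [Finset.sum_const, Finset.card_range, nsmul_eq_mul]
  push_cast
  have hq₂0 : 0 ≤ q₂ := by linarith [hq₂1.1]
  have hq₁0 : 0 ≤ q₁ := by linarith [hq₁1.1]
  have x1 : 0 ≤ q₁ * q₂ := by positivity
  have x2 : 0 ≤ q₁ * (V₂ * d₂) := by positivity
  have x3 : 0 ≤ q₂ * (V₁ * d₁) := by positivity
  have x4 : 0 ≤ Λ / V₂ * (d₁ * d₂) := by positivity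
  have e3 : 5 * q₁ * q₂ + 10 * (q₁ * (V₂ * d₂)) + 4 * (q₂ * (V₁ * d₁)) +
        4 * P * (Λ / V₂ * (d₁ * d₂)) ≤ 10 * P * (q₁ * q₂ + q₁ * (V₂ * d₂) + q₂ * (V₁ * d₁) +
        Λ / V₂ * (d₁ * d₂)) := by nlinarith
  calc ((J : ℝ) + 1) * (K₁ * K₂ * (5 * q₁ * q₂ + 10 * (q₁ * (V₂ * d₂)) + 4 * (q₂ * (V₁ * d₁)) +
        4 * P * (Λ / V₂ * (d₁ * d₂))))
      ≤ ((J : ℝ) + 1) * (K₁ * K₂ * (10 * P * (q₁ * q₂ + q₁ * (V₂ * d₂) + q₂ * (V₁ * d₁) +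
        Λ / V₂ * (d₁ * d₂)))) := by
        apply mul_le_mul_of_nonneg_left _ (by positivity)
        exact mul_le_mul_of_nonneg_left e3 (by positivity)
    _ = _ := by ring

/-- weighted number of `h` for fixed `v` -/
theorem whcount (hst : StripStmt) (hds : DiscStripStmt) : ∀ c₀ : ℝ, 0 < c₀ → ∃ K : ℝ, 1 ≤ K ∧
    ∀ g : ℤ × ℤ →+ ℂ, Sep c₀ g → ∀ (P R S c V₁ V₂ V₃ ω₁ ω₂ ω₃ Λ : ℝ) (v₁ v₂ v₃ : ℂ) (J : ℕ)
      (C : (ℤ × ℤ) → (ℤ × ℤ) → ℝ),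
      Tri P c v₁ v₂ v₃ → 1 ≤ R → R ≤ c → c ≤ 2 * R → 36864 * P ^ 3 ≤ c → 0 < S → 1 ≤ V₂ →
      V₂ ≤ V₁ → 0 ≤ V₃ → V₃ ≤ V₂ → 0 ≤ ω₁ → 0 ≤ ω₂ → 0 ≤ ω₃ → 0 ≤ Λ → V₁ ≤ 2 ^ J →
      ∀ 𝓗 : Finset T3,
        (∀ h ∈ 𝓗, HWin S c V₁ V₂ V₃ ω₁ ω₂ ω₃ v₁ v₂ v₃ (g h.1) (g h.2.1) (g h.2.2)) →
        (∀ h ∈ 𝓗, Lev P V₂ Λ C g v₁ v₂ v₃ h) →
        (𝓗.card : ℝ) ≤ K * P * (J + 1) * (max 1 V₃ * (1 + WW P R S V₁ V₃ ω₃ / R)) *
          (qq g P R (WW P R S V₁ V₁ ω₁) v₁ * qq g P R (WW P R S V₁ V₂ ω₂) v₂ +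
          qq g P R (WW P R S V₁ V₁ ω₁) v₁ * (V₂ * dd g P R (WW P R S V₁ V₂ ω₂) v₂) +
          qq g P R (WW P R S V₁ V₂ ω₂) v₂ * (V₁ * dd g P R (WW P R S V₁ V₁ ω₁) v₁) +
          Λ / V₂ * (dd g P R (WW P R S V₁ V₁ ω₁) v₁ * dd g P R (WW P R S V₁ V₂ ω₂) v₂)) := by
  classical
  intro c₀ hc₀
  obtain ⟨K₁, hK₁, hF⟩ := fib12 hst c₀ hc₀
  obtain ⟨K₂, hK₂, hB⟩ := hds c₀ hc₀
  refine ⟨K₁ * (K₂ * 2), by nlinarith [mul_le_mul hK₁ hK₂ zero_le_one (by linarith)], ?_⟩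
  intro g hg P R S c V₁ V₂ V₃ ω₁ ω₂ ω₃ Λ v₁ v₂ v₃ J C t hR hRc hcR hPc hS hV2 h21 h3 h32 hω₁ hω₂
    hω₃ hΛ hJ 𝓗 h𝓗 hlev
  have hc := t.c_pos
  have hR0 : 0 < R := by linarith
  have hP := t.hP
  have hW₁ : 0 ≤ WW P R S V₁ V₁ ω₁ := WW_nonneg hR0.le hS.le (by linarith) hω₁
  have hW₂ : 0 ≤ WW P R S V₁ V₂ ω₂ := WW_nonneg hR0.le hS.le (by linarith) hω₂
  have hW₃ : 0 ≤ WW P R S V₁ V₃ ω₃ := WW_nonneg hR0.le hS.le h3 hω₃
  have hA₃ : bf (A0 c v₁ v₂ v₃) v₃ v₃ = c ^ 2 := itp_val₃ t.w12 t.w23 t.w31 _ _ _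
  obtain ⟨W₁, hW₁e⟩ : ∃ W, W = WW P R S V₁ V₁ ω₁ := ⟨_, rfl⟩
  obtain ⟨W₂, hW₂e⟩ : ∃ W, W = WW P R S V₁ V₂ ω₂ := ⟨_, rfl⟩
  obtain ⟨E, hE⟩ : ∃ E, E = qq g P R W₁ v₁ * qq g P R W₂ v₂ +
          qq g P R W₁ v₁ * (V₂ * dd g P R W₂ v₂) + qq g P R W₂ v₂ * (V₁ * dd g P R W₁ v₁) +
          Λ / V₂ * (dd g P R W₁ v₁ * dd g P R W₂ v₂) := ⟨_, rfl⟩
  rw [← hW₁e] at hW₁
  rw [← hW₂e] at hW₂
  have hE0 : 0 ≤ E := by
    rw [hE]
    have a1 := dd_nonneg g (P := P) hW₁ hR0.le v₁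
    have a2 := dd_nonneg g (P := P) hW₂ hR0.le v₂
    have a3 := (qq_ge g (P := P) hW₁ hR0.le v₁).1
    have a4 := (qq_ge g (P := P) hW₂ hR0.le v₂).1
    have a5 : 0 ≤ qq g P R W₁ v₁ := by linarith
    have a6 : 0 ≤ qq g P R W₂ v₂ := by linarith
    have a7 : 0 ≤ V₂ := by linarith
    have a8 : 0 ≤ V₁ := by linarith
    positivity
  -- fibres over `h₃`
  have f1 : ∀ b : ℤ × ℤ, ((𝓗.filter (fun h => h.2.2 = b)).card : ℝ) ≤ K₁ * P * (J + 1) * E := by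
    intro b
    rcases (𝓗.filter (fun h => h.2.2 = b)).eq_empty_or_nonempty with hemp | ⟨hb, hhb⟩
    · rw [hemp, Finset.card_empty, Nat.cast_zero]; positivity
    have hinj : Set.InjOn (fun h : T3 => (h.1, h.2.1)) (𝓗.filter (fun h => h.2.2 = b) : Finset T3) := by
      intro x hx y hy hxy
      rw [Finset.mem_coe, Finset.mem_filter] at hx hy
      simp only [Prod.mk.injEq] at hxy
      exact Prod.ext hxy.1 (Prod.ext hxy.2 (hx.2.trans hy.2.symm))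
    rw [← Finset.card_image_of_injOn hinj]
    have hmem : ∀ z ∈ (𝓗.filter (fun h => h.2.2 = b)).image (fun h : T3 => (h.1, h.2.1)),
        ∃ h ∈ 𝓗, h.2.2 = b ∧ (h.1, h.2.1) = z := by
      intro z hz
      rw [Finset.mem_image] at hz
      obtain ⟨h, hh, rfl⟩ := hz
      rw [Finset.mem_filter] at hh
      exact ⟨h, hh.1, hh.2, rfl⟩
    rw [Finset.mem_filter] at hhb
    have hb3 : |tau v₃ (g b)| ≤ V₁ := by
      refine le_trans (abs_tau_le _ _) ?_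
      rw [← hhb.2]
      exact le_trans (h𝓗 hb hhb.1).n₃ (le_trans h32 h21)
    rw [hE]
    refine hF g hg P R c W₁ W₂ (bf (A0 c v₁ v₂ v₃) v₃ (g b)) V₁ V₂ Λ v₁ v₂ v₃
      (tau v₃ (g b)) (fun a => C a b) J t hR hRc hPc hW₁ hW₂ (by linarith) hV2 hΛ hJ hb3 _
      ?_ ?_ ?_ ?_
    · intro z hz
      obtain ⟨h, hh, _, rfl⟩ := hmem z hz
      exact ⟨(h𝓗 h hh).n₁, (h𝓗 h hh).n₂⟩
    · intro z hz
      obtain ⟨h, hh, hb', rfl⟩ := hmem z hz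
      have := ((h𝓗 h hh).strips t hS hcR h21 h32 h3).1
      rw [hb'] at this
      rw [hW₁e]; exact this
    · intro z hz
      obtain ⟨h, hh, hb', rfl⟩ := hmem z hz
      have := ((h𝓗 h hh).strips t hS hcR h21 h32 h3).2.1
      rw [hb'] at this
      rw [hW₂e]; exact this
    · intro z hz
      obtain ⟨h, hh, hb', rfl⟩ := hmem z hz
      have a1 := (hlev h hh).lo
      have a2 := (hlev h hh).lev
      rw [hb'] at a2
      exact ⟨a1, a2⟩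
  -- the image in `h₃`
  have f3 : ((𝓗.image (fun h => h.2.2)).card : ℝ) ≤
      K₂ * 2 * (max 1 V₃ * (1 + WW P R S V₁ V₃ ω₃ / R)) := by
    have ha := t.norm_vc_ge t.n₃ hA₃
    have ha0 : 0 < ‖vc (A0 c v₁ v₂ v₃) v₃‖ := by linarith
    have := hB g hg (vc (A0 c v₁ v₂ v₃) v₃) (norm_pos_iff.1 ha0) (max 1 V₃)
      (WW P R S V₁ V₃ ω₃) (le_max_left _ _) hW₃ (𝓗.image (fun h => h.2.2)) (by
        intro z hz
        rw [Finset.mem_image] at hz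
        obtain ⟨h, hh, rfl⟩ := hz
        refine ⟨le_trans (h𝓗 h hh).n₃ (le_max_right _ _), ?_⟩
        rw [sp_comm, bf_vc]
        exact ((h𝓗 h hh).strips t hS hcR h21 h32 h3).2.2)
    refine le_trans this ?_
    have e1 : WW P R S V₁ V₃ ω₃ / ‖vc (A0 c v₁ v₂ v₃) v₃‖ ≤ 2 * (WW P R S V₁ V₃ ω₃ / R) := by
      calc WW P R S V₁ V₃ ω₃ / ‖vc (A0 c v₁ v₂ v₃) v₃‖ ≤ WW P R S V₁ V₃ ω₃ / (R / 2) :=
            div_le_div_of_nonneg_left hW₃ (by positivity) (by linarith)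
        _ = 2 * (WW P R S V₁ V₃ ω₃ / R) := by field_simp
    have e2 : 0 ≤ WW P R S V₁ V₃ ω₃ / R := by positivity
    have e3 : 0 < max 1 V₃ := lt_max_of_lt_left zero_lt_one
    calc K₂ * max 1 V₃ * (1 + WW P R S V₁ V₃ ω₃ / ‖vc (A0 c v₁ v₂ v₃) v₃‖)
        ≤ K₂ * max 1 V₃ * (2 * (1 + WW P R S V₁ V₃ ω₃ / R)) := by
          refine mul_le_mul_of_nonneg_left (by linarith) (by positivity)
      _ = _ := by ring
  have hKE : 0 ≤ K₁ * P * (J + 1) * E := by positivity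
  have g1 := card_fib (fun h : T3 => h.2.2) hKE f1 f3
  refine le_trans g1 (le_of_eq ?_)
  rw [hE, hW₁e, hW₂e]
  ring

end Pool.Agent.F5H.W36
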